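import Pool.Agent.T2H98.EGZ.Excl20

/-!
# Package B3: a 45-cap of `F_3^5` has no hyperplane pair of sizes `≥ 19`, `≥ 18`
-/

set_option autoImplicit false

namespace Pool.Agent.T2H98.EGZ

open Finset

/-- the standard 20-cap of `F_3^4` -/
abbrev K20 : Finset (Fin 4 → ZMod 3) := Excl.K20

/-- the standard 19-cap of `F_3^4` -/
abbrev K19 : Finset (Fin 4 → ZMod 3) := Excl.K19

/-- Package B2 as a hypothesis: every cap of `F_3^4` with at least 19 points contains an affine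
image of the standard 19-cap. -/
def B2 : Prop :=
  ∀ K : Finset (Fin 4 → ZMod 3), IsCap K → 19 ≤ K.card →
    ∃ (A A' : Matrix (Fin 4) (Fin 4) (ZMod 3)) (b : Fin 4 → ZMod 3), A * A' = 1 ∧ A' * A = 1 ∧
      K19.image (fun x => A.mulVec x + b) ⊆ K

namespace Excl

/-- scalar form of membership in the 19-cap -/
def P19 (e f g h : ZMod 3) : Prop :=
  e * e + f * f + g * h = 0 ∧ ¬ (e = 0 ∧ f = 0 ∧ g = 0 ∧ h = 0) ∧
    ¬ (e = 0 ∧ f = 0 ∧ g = 0 ∧ h = 2)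

instance (e f g h : ZMod 3) : Decidable (P19 e f g h) := by unfold P19; infer_instance

/-- scalar form of membership in the 20-cap -/
def P20 (a b c d : ZMod 3) : Prop :=
  a * a + b * b + c * d = 0 ∧ ¬ (a = 0 ∧ b = 0 ∧ c = 0 ∧ d = 0)

instance (e f g h : ZMod 3) : Decidable (P20 e f g h) := by unfold P20; infer_instance

theorem K19_complete_aux : ∀ a b c d : ZMod 3, ¬ P20 a b c d →
    ∃ e f g h : ZMod 3, P19 e f g h ∧ P19 (-(a + e)) (-(b + f)) (-(c + g)) (-(d + h)) := by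
  decide +kernel

theorem mem_K19 {x : Fin 4 → ZMod 3} : x ∈ K19 ↔
    x 0 * x 0 + x 1 * x 1 + x 2 * x 3 = 0 ∧ ¬ (x 0 = 0 ∧ x 1 = 0 ∧ x 2 = 0 ∧ x 3 = 0) ∧
      ¬ (x 0 = 0 ∧ x 1 = 0 ∧ x 2 = 0 ∧ x 3 = 2) := by
  have e1 : x = 0 ↔ (x 0 = 0 ∧ x 1 = 0 ∧ x 2 = 0 ∧ x 3 = 0) := by
    constructor
    · rintro rfl; exact ⟨rfl, rfl, rfl, rfl⟩
    · rintro ⟨h0, h1, h2, h3⟩
      rw [vec4 x, h0, h1, h2, h3]
      funext i
      fin_cases i <;> rfl
  have e2 : x = ![0, 0, 0, 2] ↔ (x 0 = 0 ∧ x 1 = 0 ∧ x 2 = 0 ∧ x 3 = 2) := by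
    constructor
    · rintro rfl; exact ⟨rfl, rfl, rfl, rfl⟩
    · rintro ⟨h0, h1, h2, h3⟩
      rw [vec4 x, h0, h1, h2, h3]
  unfold K19
  rw [Finset.mem_erase, mem_K20, Ne, Ne, e1, e2]
  tauto

theorem K19_complete {w : Fin 4 → ZMod 3} (hw : w ∉ K20) : ∃ x ∈ K19, -(w + x) ∈ K19 := by
  have h0 : ¬ P20 (w 0) (w 1) (w 2) (w 3) := by
    rintro ⟨h1, h2⟩
    apply hw
    rw [mem_K20]
    refine ⟨h1, ?_⟩
    rintro rfl
    exact h2 ⟨rfl, rfl, rfl, rfl⟩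
  obtain ⟨e, f, g, h, h1, h2⟩ := K19_complete_aux _ _ _ _ h0
  refine ⟨![e, f, g, h], mem_K19.2 h1, mem_K19.2 ?_⟩
  exact h2

/-- a 20-cap containing the standard 19-cap is the standard 20-cap -/
theorem K20_subset {K : Finset (Fin 4 → ZMod 3)} (hK : IsCap K) (h : K19 ⊆ K)
    (hc : 20 ≤ K.card) : K20 ⊆ K := by
  have h1 : K ⊆ K20 := by
    intro w hw
    by_contra hn
    obtain ⟨x, hx, hx'⟩ := K19_complete hn
    have := hK x (h hx) w hw _ (h hx') (by abel)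
    rw [this] at hx
    exact hn ((Finset.erase_subset _ _) hx)
  have h2 : K20.card = 20 := by decide +kernel
  have h3 := Finset.eq_of_subset_of_card_le h1 (by omega)
  rw [h3]

/-- the three sections of a cap of `F_3^5` -/
theorem sections {D : Finset (Fin 5 → ZMod 3)} (hD : IsCap D) {ξ : Fin 5 → ZMod 3} (hξ : ξ ≠ 0)
    {a b c : ℕ} (h : Cls D ξ a b c) : ∃ K L R : Finset (Fin 4 → ZMod 3), IsCap K ∧ IsCap L ∧
      IsCap R ∧ K.card = a ∧ L.card = b ∧ R.card = c ∧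
      ∀ x ∈ K, ∀ y ∈ L, ∀ z ∈ R, x + y + z ≠ 0 := by
  classical
  obtain ⟨σ, rfl, rfl, rfl⟩ := h
  obtain ⟨D', hD', hcard⟩ := normalise D hξ σ
  have hcap := hD'.isCap hD
  refine ⟨_, _, _, section_cap hcap 0, section_cap hcap 1, section_cap hcap 2, ?_, ?_, ?_, ?_⟩
  · rw [section_card, hcard]
  · rw [section_card, hcard]
  · rw [section_card, hcard]
  · intro x' hx' y' hy' z' hz' hs
    obtain ⟨x, hx, rfl⟩ := Finset.mem_image.1 hx'
    obtain ⟨y, hy, rfl⟩ := Finset.mem_image.1 hy'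
    obtain ⟨z, hz, rfl⟩ := Finset.mem_image.1 hz'
    rw [Finset.mem_filter] at hx hy hz
    have h : x + y + z = 0 := by
      funext k
      refine Fin.lastCases ?_ (fun i => ?_) k
      · simp only [Pi.add_apply, Pi.zero_apply]
        rw [hx.2, hy.2, hz.2]
        decide
      · exact congrFun hs i
    have h1 := hcap x hx.1 y hy.1 z hz.1 h
    rw [h1] at hx
    have h2 := hx.2.symm.trans hy.2
    exact absurd h2 (by decide)

theorem mul_inj {A A' : Matrix (Fin 4) (Fin 4) (ZMod 3)} (h : A' * A = 1) :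
    Function.Injective A.mulVec := by
  intro x y hxy
  have h2 := congrArg (A'.mulVec ·) hxy
  simpa [Matrix.mulVec_mulVec, h] using h2

end Excl

open Excl in
/-- **Package B3.** -/
theorem no_big_aux (hB2 : B2) {K L R : Finset (Fin 4 → ZMod 3)} (hK : IsCap K) (hL : IsCap L)
    (hR : IsCap R) (h : ∀ x ∈ K, ∀ y ∈ L, ∀ z ∈ R, x + y + z ≠ 0) (h19 : 19 ≤ K.card) :
    ¬ (7 ≤ R.card ∧ 19 ≤ L.card) ∧ ¬ (8 ≤ R.card ∧ 18 ≤ L.card) ∧
      (20 ≤ K.card → ¬ (5 ≤ R.card ∧ 20 ≤ L.card) ∧ ¬ (6 ≤ R.card ∧ 19 ≤ L.card) ∧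
        ¬ (7 ≤ R.card ∧ 18 ≤ L.card)) := by
  classical
  obtain ⟨A, A', b, hA, hA', hsub⟩ := hB2 K hK h19
  have hAi : Function.Injective A'.mulVec := mul_inj hA
  set L' := L.image fun y => A'.mulVec y + A'.mulVec b with hL'
  set R' := R.image fun z => A'.mulVec z + 0 with hR'
  set K' := K.image fun x => A'.mulVec x + -A'.mulVec b with hK'
  have cL' : IsCap L' := AffEq.isCap ⟨A', A, _, hA', hA, rfl⟩ hL
  have cR' : IsCap R' := AffEq.isCap ⟨A', A, _, hA', hA, rfl⟩ hR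
  have cK' : IsCap K' := AffEq.isCap ⟨A', A, _, hA', hA, rfl⟩ hK
  have nL' : L'.card = L.card := Finset.card_image_of_injective _ (aff_inj hA _)
  have nR' : R'.card = R.card := Finset.card_image_of_injective _ (aff_inj hA _)
  have nK' : K'.card = K.card := Finset.card_image_of_injective _ (aff_inj hA _)
  have hs : Excl.K19 ⊆ K' := by
    intro x hx
    refine Finset.mem_image.2 ⟨A.mulVec x + b, hsub (Finset.mem_image.2 ⟨x, hx, rfl⟩), ?_⟩
    rw [Matrix.mulVec_add, Matrix.mulVec_mulVec, hA', Matrix.one_mulVec]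
    abel
  have hcross : ∀ x ∈ K', ∀ y ∈ L', ∀ z ∈ R', x + y + z ≠ 0 := by
    intro x' hx' y' hy' z' hz' hsum
    obtain ⟨x, hx, rfl⟩ := Finset.mem_image.1 hx'
    obtain ⟨y, hy, rfl⟩ := Finset.mem_image.1 hy'
    obtain ⟨z, hz, rfl⟩ := Finset.mem_image.1 hz'
    apply h x hx y hy z hz
    apply hAi
    rw [Matrix.mulVec_add, Matrix.mulVec_add, Matrix.mulVec_zero]
    rw [← hsum]
    abel
  have c19 : Cfg R' L' := ⟨cR', cL', fun x hx y hy z hz hsum =>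
    hcross x (hs hx) z hz y hy (by rw [← hsum]; abel)⟩
  obtain ⟨e1, e2⟩ := excl19 c19
  rw [nL', nR'] at e1 e2
  refine ⟨e1, e2, fun h20 => ?_⟩
  have hs20 := K20_subset cK' hs (by omega)
  have c20 : Cfg20 R' L' := ⟨cR', cL', fun y hy z hz hm =>
    hcross _ (hs20 hm) z hz y hy (by abel)⟩
  have e3 := excl20 c20
  rw [nL', nR'] at e3
  exact e3

/-- **Package B3.** A 45-cap has no class with parts `≥ 19`, `≥ 18`. -/
theorem no_big (hB2 : B2) {D : Finset (Fin 5 → ZMod 3)} (hD : IsCap D) {ξ : Fin 5 → ZMod 3}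
    (hξ : ξ ≠ 0) : ¬ (Cls D ξ 20 20 5 ∨ Cls D ξ 20 19 6 ∨ Cls D ξ 20 18 7 ∨ Cls D ξ 19 19 7 ∨
      Cls D ξ 19 18 8) := by
  rintro (h | h | h | h | h) <;>
  obtain ⟨K, L, R, hK, hL, hR, nK, nL, nR, hc⟩ := Excl.sections hD hξ h <;>
  obtain ⟨e1, e2, e3⟩ := no_big_aux hB2 hK hL hR hc (by omega)
  · exact (e3 (by omega)).1 ⟨by omega, by omega⟩
  · exact (e3 (by omega)).2.1 ⟨by omega, by omega⟩
  · exact (e3 (by omega)).2.2 ⟨by omega, by omega⟩
  · exact e1 ⟨by omega, by omega⟩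
  · exact e2 ⟨by omega, by omega⟩

/-- **All classes of a 45-cap** (B1 + B3). -/
theorem class45' (hB2 : B2) {D : Finset (Fin 5 → ZMod 3)} (hD : IsCap D) (hc : D.card = 45) :
    (∀ ξ, ξ ≠ 0 → Cls D ξ 15 15 15 ∨ Cls D ξ 18 18 9) ∧ ∃ ξ, ξ ≠ 0 ∧ Cls D ξ 18 18 9 := by
  rcases class45 hD hc with ⟨ξ, hξ, h⟩ | h
  · exact absurd h (no_big hB2 hD hξ)
  · exact h

end Pool.Agent.T2H98.EGZ
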