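import Pool.Agent.T2H98.EGZ.Assembly
import Pool.Agent.T2H98.EGZ.Excl

/-!
# Assembly, second step: B1, B2, B3 plugged in. Open: the tight case and the nonexistence of a lift.
-/

set_option autoImplicit false

namespace Pool.Agent.T2H98.EGZ

theorem b2_holds : B2 := fun _ hK hc => contains19 hK hc

/-- all classes of a 45-cap -/
theorem classes45 {D : Finset (Fin 5 → ZMod 3)} (hD : IsCap D) (hc : D.card = 45) :
    (∀ ξ, ξ ≠ 0 → Cls D ξ 15 15 15 ∨ Cls D ξ 18 18 9) ∧ ∃ ξ, ξ ≠ 0 ∧ Cls D ξ 18 18 9 :=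
  class45' b2_holds hD hc

/-- **The assembly** from the tight case and the nonexistence of a lift. -/
theorem final_of_tight
    (htight : ∀ D : Finset (Fin 5 → ZMod 3), IsCap D → D.card = 45 →
      (∀ ξ, ξ ≠ 0 → Cls D ξ 15 15 15 ∨ Cls D ξ 18 18 9) → (∃ ξ, ξ ≠ 0 ∧ Cls D ξ 18 18 9) →
      AffEq D45 D)
    (hno : ¬ ∃ v, IsLift D45 v) :
    ¬ (∀ n : ℕ, Odd n → 3 ≤ n → ∀ r : ℕ,
      sInf {l : ℕ | ∀ f : Fin l → (Fin r → ZMod n), ∃ I : Finset (Fin l),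
          I.card = AddMonoid.exponent (Fin r → ZMod n) ∧ ∑ i ∈ I, f i = 0}
        = (sInf {l : ℕ | ∀ S : Finset (Fin r → ZMod 3), l ≤ S.card →
              ∃ T ⊆ S, T.card = AddMonoid.exponent (Fin r → ZMod 3) ∧ ∑ x ∈ T, x = 0} - 1)
            * (n - 1) + 1) :=
  final_of (fun _ hD _ _ hξ => no_big b2_holds hD hξ) htight hno

end Pool.Agent.T2H98.EGZ
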