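import Pool.Agent.T2H98.EGZ.Cover

/-! # The last class: root value with code 1 (all parallelograms of the orbit are flat) -/

set_option autoImplicit false

namespace Pool.Agent.T2H98.EGZ

open K

def z1 : GDat := ⟨0x201020202, 0x20102, 0x102020202, 0x101020100, 0x101020201, 0x1010201,
  0x102010101, 0x20202, 0x201010001, 0x101000202, 0x101020200⟩
def z2 : GDat := ⟨0x2000201, 0x101020001, 0x202000100, 0x202020100, 0x2010000, 0x0, 0x102000202,
  0x200020201, 0x2010000, 0x202010000, 0x1000201⟩
def z3 : GDat := ⟨0x100020202, 0x2010000, 0x101020001, 0x101020201, 0x200020201, 0x0, 0x100020202,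
  0x2010000, 0x101020001, 0x101020201, 0x200020201⟩
def z4 : GDat := ⟨0x100, 0x1, 0x10201, 0x201000201, 0x200000000, 0x100000000, 0x100, 0x1, 0x10201,
  0x201000201, 0x200000000⟩
def z5 : GDat := ⟨0x101, 0x200000000, 0x1, 0x200010100, 0x202000100, 0x100000000, 0x10000, 0x20001,
  0x1010202, 0x200020101, 0x200⟩
def z6 : GDat := ⟨0x100010100, 0x2020200, 0x1020000, 0x200010202, 0x102020202, 0x1010201,
  0x101020100, 0x201000102, 0x201010202, 0x201020202, 0x201020000⟩

/-- coverage check of one value, with the representatives in `R` -/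
noncomputable def chkR (R : List ℕ) (x : ℕ) : Bool :=
  (codes45.any fun d => (List.range 5).all fun k => Nat.beq ((dg x k + dg d k) % 3) 0) ||
  (codes45.any fun d => (List.range 5).all fun k => Nat.beq ((cc k + dg d k) % 3) (dg x k)) ||
  (R.any fun r => Nat.beq x r || Nat.beq x (c3 (gf stab1 r)) ||
    ((List.range 5).all fun k => Nat.beq ((fl8 (gf stab2 r) k + dg x k) % 3) (cc k)) ||
    ((List.range 5).all fun k => Nat.beq ((fl8 (gf stab3 r) k + dg x k) % 3) (cc k)))

theorem excl_of_chk (R : List ℕ) (h : ∀ x ∈ R, Excl L0 (pt 5 x)) (x : ℕ)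
    (hc : chkR R x = true) : Excl L0 (pt 5 x) := by
  intro v hv hTx
  have hxT := hTx.symm
  have hr := TT_L0r (uu v)
  unfold chkR at hc
  rw [Bool.or_eq_true, Bool.or_eq_true] at hc
  rcases hc with (hc | hc) | hc
  · obtain ⟨d, hd, hk⟩ := List.any_eq_true.1 hc
    refine TT_ne6 hv L0 zs_L0 rfl d hd ?_
    rw [← hxT]
    funext k
    have h1 := nat_beq_eq (all5 hk k)
    rw [Pi.add_apply, pt_dg, pt_dg, Pi.zero_apply, ← Nat.cast_add, cast_of_mod h1, Nat.cast_zero]
  · obtain ⟨d, hd, hk⟩ := List.any_eq_true.1 hc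
    refine TT_ne6 hv L0r zs_L0r rfl d hd ?_
    have e : TT (uu v) L0r = ![2, 0, 0, 0, 0] - pt 5 x := by
      rw [← hr, hxT]; abel
    rw [e]
    funext k
    have h1 := cast_of_mod (nat_beq_eq (all5 hk k))
    rw [Nat.cast_add, cc_vec] at h1
    rw [Pi.add_apply, Pi.sub_apply, pt_dg, pt_dg, ← h1, Pi.zero_apply]
    ring
  · obtain ⟨r, hr', hk⟩ := List.any_eq_true.1 hc
    have hE := h r hr'
    rw [Bool.or_eq_true, Bool.or_eq_true, Bool.or_eq_true] at hk
    have hkey : ∀ {G : GDat}, GOK G → (L0.map (gc G)).Perm L0r →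
        ((List.range 5).all fun k => Nat.beq ((fl8 (gf G r) k + dg x k) % 3) (cc k)) = true →
        False := by
      intro G hG hp hk
      refine excl_perm hp (hG.transfer zs_L0 rfl hE) v hv ?_
      have e : TT (uu v) L0r = ![2, 0, 0, 0, 0] - pt 5 x := by
        rw [← hr, hxT]; abel
      rw [e]
      funext k
      have h1 := cast_of_mod (nat_beq_eq (all5 hk k))
      rw [Nat.cast_add, cc_vec] at h1
      rw [Pi.sub_apply, pt_dg, ← h1]
      simp only [fv]
      ring
    rcases hk with ((hk | hk) | hk) | hk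
    · have h1 := nat_beq_eq hk
      subst h1
      exact hE v hv hxT.symm
    · have h1 := nat_beq_eq hk
      have hp : (L0.map (gc stab1)).Perm L0 := by decide +kernel
      refine excl_perm hp (gok1.transfer zs_L0 rfl hE) v hv ?_
      rw [← hxT, h1, pt_c3]
    · exact hkey gok2 (by decide +kernel) hk
    · exact hkey gok3 (by decide +kernel) hk

/-- the representatives different from `1` -/
def reps1 : List ℕ := reps.filter (· ≠ 1)

theorem chk_all1 : ((List.range 243).filter (· ≠ 1)).all (chkR reps1) = true := by decide +kernel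

/-- if all other classes are excluded, the T-values of all images of `L0` are those of `1` -/
theorem TT_one (h : ∀ x ∈ reps, x ≠ 1 → Excl L0 (pt 5 x)) {v : (Fin 5 → ZMod 3) → (Fin 5 → ZMod 9)}
    (hv : IsLift D45 v) {G : GDat} (hG : GOK G) :
    TT (uu v) (L0.map (gc G)) = fv (gf G 1) := by
  by_contra hne
  obtain ⟨x, hx, hxT⟩ := exists_code ((gmat (bcol G)).mulVec (TT (uu v) (L0.map (gc G)) -
    fv (Nat.add G.t G.t)))
  have e : ∀ x, fv (gf G x) = (gmat (acol G)).mulVec (pt 5 x) + fv (Nat.add G.t G.t) := fun x =>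
    fv_gfa (acol G) (Nat.add G.t G.t) x 4 hG.ha hG.ht2 (by norm_num)
  have e2 : fv (gf G x) = TT (uu v) (L0.map (gc G)) := by
    rw [e, hxT, Matrix.mulVec_mulVec, hG.m1, Matrix.one_mulVec, sub_add_cancel]
  have hx1 : x ≠ 1 := by
    rintro rfl
    exact hne e2.symm
  have hex : Excl L0 (pt 5 x) := by
    refine excl_of_chk reps1 (fun r hr => ?_) x ?_
    · have h1 := List.mem_filter.1 hr
      exact h r h1.1 (by simpa using h1.2)
    · have h1 := chk_all1
      rw [List.all_eq_true] at h1
      exact h1 x (List.mem_filter.2 ⟨List.mem_range.2 hx, by simpa using hx1⟩)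
  exact hG.transfer zs_L0 rfl hex v hv e2.symm

theorem gz1 : GOK z1 := gok_of _ (by decide +kernel) (by decide +kernel)
theorem gz2 : GOK z2 := gok_of _ (by decide +kernel) (by decide +kernel)
theorem gz3 : GOK z3 := gok_of _ (by decide +kernel) (by decide +kernel)
theorem gz4 : GOK z4 := gok_of _ (by decide +kernel) (by decide +kernel)
theorem gz5 : GOK z5 := gok_of _ (by decide +kernel) (by decide +kernel)
theorem gz6 : GOK z6 := gok_of _ (by decide +kernel) (by decide +kernel)

/-- the T-value at the first coordinate of a list of six codes -/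
theorem TT_zero (u : ℕ → Fin 5 → ZMod 3) (a b c d e f : ℕ) :
    TT u [a, b, c, d, e, f] 0 =
      carry [a, b, c, d, e, f] 0 + (u a 0 + u b 0 + u c 0 + u d 0 + u e 0 + u f 0) := by
  unfold TT
  simp only [List.map_cons, List.map_nil, List.sum_cons, List.sum_nil, Pi.add_apply,
    Pi.zero_apply]
  ring

/-- the value with code `1` of the root list is excluded once all others are -/
theorem excl_one (h : ∀ x ∈ reps, x ≠ 1 → Excl L0 (pt 5 x)) : Excl L0 (pt 5 1) := by
  intro v hv _
  have m1 : L0.map (gc z1) = [43, 219, 84, 84, 97, 97] := by decide +kernel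
  have m2 : L0.map (gc z2) = [0, 61, 219, 219, 85, 85] := by decide +kernel
  have m3 : L0.map (gc z3) = [0, 107, 127, 127, 61, 61] := by decide +kernel
  have m4 : L0.map (gc z4) = [81, 84, 97, 97, 107, 107] := by decide +kernel
  have m5 : L0.map (gc z5) = [81, 85, 82, 82, 84, 84] := by decide +kernel
  have m6 : L0.map (gc z6) = [43, 127, 61, 61, 82, 82] := by decide +kernel
  have e1 := congrFun (TT_one h hv gz1) 0
  have e2 := congrFun (TT_one h hv gz2) 0
  have e3 := congrFun (TT_one h hv gz3) 0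
  have e4 := congrFun (TT_one h hv gz4) 0
  have e5 := congrFun (TT_one h hv gz5) 0
  have e6 := congrFun (TT_one h hv gz6) 0
  rw [m1, TT_zero, show carry [43, 219, 84, 84, 97, 97] 0 = 1 by decide +kernel,
    show fv (gf z1 1) 0 = 1 by decide +kernel] at e1
  rw [m2, TT_zero, show carry [0, 61, 219, 219, 85, 85] 0 = 1 by decide +kernel,
    show fv (gf z2 1) 0 = 1 by decide +kernel] at e2
  rw [m3, TT_zero, show carry [0, 107, 127, 127, 61, 61] 0 = 2 by decide +kernel,
    show fv (gf z3 1) 0 = 2 by decide +kernel] at e3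
  rw [m4, TT_zero, show carry [81, 84, 97, 97, 107, 107] 0 = 2 by decide +kernel,
    show fv (gf z4 1) 0 = 0 by decide +kernel] at e4
  rw [m5, TT_zero, show carry [81, 85, 82, 82, 84, 84] 0 = 1 by decide +kernel,
    show fv (gf z5 1) 0 = 1 by decide +kernel] at e5
  rw [m6, TT_zero, show carry [43, 127, 61, 61, 82, 82] 0 = 2 by decide +kernel,
    show fv (gf z6 1) 0 = 2 by decide +kernel] at e6
  have h3 : (3 : ZMod 3) = 0 := by decide
  have h4 : (4 : ZMod 3) = 0 := by
    linear_combination e1 + e2 + 2 * e3 + 2 * e4 + e5 + 2 * e6 -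
      (uu v 43 0 + uu v 219 0 + 2 * uu v 84 0 + 2 * uu v 97 0 + uu v 0 0 + 3 * uu v 61 0 +
        uu v 85 0 + 2 * uu v 107 0 + 2 * uu v 127 0 + uu v 81 0 + 2 * uu v 82 0) * h3
  exact absurd h4 (by decide)

end Pool.Agent.T2H98.EGZ
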