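import Pool.Agent.T2H98.EGZ.TightTab

/-!
# Package B4, kernel check of the completions of the first 18-cap (about 2 minutes)
-/

set_option autoImplicit false

namespace Pool.Agent.T2H98.EGZ.Tight

theorem dcheck0 : checkD 0 = true := by decide +kernel

end Pool.Agent.T2H98.EGZ.Tight
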