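import Pool.Agent.T2H98.EGZ.TightG
import Pool.Agent.T2H98.EGZ.TightH0
import Pool.Agent.T2H98.EGZ.TightH1

/-!
# Package B4, part H: the tight 45-caps
-/

set_option autoImplicit false

namespace Pool.Agent.T2H98.EGZ.Tight

open Finset

/-- the unfiltered cells -/
def cells0 : List (ℕ × List ℕ) :=
  [(1, seg 190 26), (8, seg 81 27), (2, seg 216 27), (5, seg 108 27), (5, seg 135 27),
    (5, seg 162 27)]

theorem cells0_nodup : (flat cells0).Nodup := by decide +kernel

theorem cells0_disj0 : ∀ x ∈ flat cells0, x ∉ startD 0 := by decide +kernel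

theorem cells0_disj1 : ∀ x ∈ flat cells0, x ∉ startD 1 := by decide +kernel

theorem quota_seg (D : Finset (Fin 5 → ZMod 3)) (i j : ZMod 3) :
    ((seg (81 * i.val + 27 * j.val) 27).filter (fun x => decide (x ∈ codes D))).length =
      (sec (sec D i) j).card := by
  classical
  rw [← List.toFinset_card_of_nodup ((nodup_seg _ _).filter _)]
  symm
  refine Finset.card_bij (fun y _ => code 3 y + 3 ^ 3 * j.val + 3 ^ 4 * i.val) ?_ ?_ ?_
  · intro y hy
    rw [List.mem_toFinset, List.mem_filter, mem_seg]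
    have h1 := (mem_codes_sn (K := sec D i) (y := y) (i := j)).2 hy
    have h2 : code 3 y + 3 ^ 3 * j.val + 3 ^ 4 * i.val ∈ codes D := by
      rw [← code_sn]
      rw [mem_codes_sn, ← mem_sec]
      exact hy
    refine ⟨?_, by simpa using h2⟩
    have h3 := code_lt 3 y
    norm_num at h3 ⊢
    omega
  · intro y _ y' _ h
    apply code_injective 3
    simpa using h
  · intro x hx
    rw [List.mem_toFinset, List.mem_filter, mem_seg, decide_eq_true_eq] at hx
    obtain ⟨⟨h1, h2⟩, hx⟩ := hx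
    obtain ⟨z, i', hz, rfl⟩ := exists_of_mem_codes hx
    obtain ⟨y, j', hy, hyz⟩ := exists_of_mem_codes (mem_codes.2 hz)
    rw [hyz] at h1 h2 ⊢
    have h3 := code_lt 3 y
    have hj : j'.val < 3 := ZMod.val_lt _
    have hj2 : j.val < 3 := ZMod.val_lt _
    norm_num at h1 h2 h3
    have e1 : i'.val = i.val := by omega
    have e2 : j'.val = j.val := by omega
    have e3 := ZMod.val_injective 3 e1
    have e4 := ZMod.val_injective 3 e2
    subst e3 e4
    exact ⟨y, hy, rfl⟩

theorem D_class {D : Finset (Fin 5 → ZMod 3)} (hD : TD D) {c : ℕ}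
    (hcheck : checkD c = true) (hdisj : ∀ x ∈ flat cells0, x ∉ startD c)
    (hnd : (startD c).Nodup) (h81 : ∀ x ∈ KS c, x < 81) (h0 : sec D 0 = ofL 4 (KS c))
    (hz : (0 : Fin 3 → ZMod 3) ∈ sec (sec D 2) 1)
    (c10 : (sec (sec D 1) 0).card = 8) (c11 : (sec (sec D 1) 1).card = 5)
    (c12 : (sec (sec D 1) 2).card = 5) (c20 : (sec (sec D 2) 0).card = 5)
    (c21 : (sec (sec D 2) 1).card = 2) (c22 : (sec (sec D 2) 2).card = 2) :
    AffEq D45 D := by
  classical
  have hcap := codes_cap5 hD.cap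
  have hv0 : (0 : ZMod 3).val = 0 := rfl
  have hv1 : (1 : ZMod 3).val = 1 := rfl
  have hv2 : (2 : ZMod 3).val = 2 := rfl
  have h189 : 189 ∈ codes D := by
    have h2 : code 3 (0 : Fin 3 → ZMod 3) + 3 ^ 3 * (1 : ZMod 3).val + 3 ^ 4 * (2 : ZMod 3).val ∈
        codes D := by
      rw [← code_sn, mem_codes_sn, ← mem_sec]
      exact hz
    rw [code_zero, hv1, hv2] at h2
    norm_num at h2
    exact h2
  have hCK : ∀ x ∈ startD c, x ∈ codes D := by
    intro x hx
    rcases List.mem_cons.1 hx with rfl | hx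
    · exact h189
    · have h3 : pt 4 x ∈ sec D 0 := by
        rw [h0]
        unfold ofL
        rw [List.mem_toFinset]
        exact List.mem_map_of_mem hx
      have h4 := (mem_codes_sn (K := D) (i := 0)).2 h3
      rw [hv0, code_pt 4 x (h81 x hx)] at h4
      simpa using h4
  have hfb : ∀ x ∈ codes D, (forb2 T5 (startD c)).testBit x = false :=
    fun x hx => forb2_false hcap hnd hCK hx
  have hKC0 : ∀ x ∈ codes D, x ∉ startD c → x ∈ flat cells0 := by
    intro x hx hxC
    obtain ⟨z, i, hz', rfl⟩ := exists_of_mem_codes hx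
    rcases z3 i with rfl | rfl | rfl
    · exfalso
      apply hxC
      rw [h0] at hz'
      unfold ofL at hz'
      rw [List.mem_toFinset, List.mem_map] at hz'
      obtain ⟨e, he, rfl⟩ := hz'
      rw [hv0, code_pt 4 e (h81 e he), mul_zero, add_zero]
      exact List.mem_cons_of_mem _ he
    · have h3 := code_lt 4 z
      rw [hv1]
      norm_num at h3 ⊢
      simp only [flat, cells0, List.mem_append, mem_seg, List.append_nil]
      omega
    · have h3 := code_lt 4 z
      rw [hv2] at hxC ⊢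
      have h4 : code 4 z + 3 ^ 4 * 2 ≠ 189 := by
        intro h
        apply hxC
        rw [h]
        exact List.mem_cons_self
      norm_num at h3 h4 ⊢
      simp only [flat, cells0, List.mem_append, mem_seg, List.append_nil]
      omega
  have hKC : ∀ x ∈ codes D, x ∉ startD c → x ∈ flat (cellsD c) := fun x hx hxC =>
    mem_flat_mapf (hKC0 x hx hxC) (hfb x hx)
  have hq0 : Quota (codes D) cells0 := by
    intro q hq
    have q10 := quota_seg D 1 0
    have q11 := quota_seg D 1 1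
    have q12 := quota_seg D 1 2
    have q20 := quota_seg D 2 0
    have q21 := quota_seg D 2 1
    have q22 := quota_seg D 2 2
    rw [c10, hv1, hv0] at q10
    rw [c11, hv1] at q11
    rw [c12, hv1, hv2] at q12
    rw [c20, hv2, hv0] at q20
    rw [c21, hv2, hv1] at q21
    rw [c22, hv2] at q22
    norm_num at q10 q11 q12 q20 q21 q22
    simp only [cells0, List.mem_cons, List.not_mem_nil, or_false] at hq
    rcases hq with rfl | rfl | rfl | rfl | rfl | rfl
    · have e : seg 189 27 = 189 :: seg 190 26 := rfl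
      rw [e, List.filter_cons_of_pos (by simpa using h189), List.length_cons] at q21
      exact Nat.succ.inj q21
    · exact q10
    · exact q22
    · exact q11
    · exact q12
    · exact q20
  have hq : Quota (codes D) (cellsD c) := quota_mapf (fun x hx _ => hfb x hx) hq0
  obtain ⟨L, hL, hLn, hLK⟩ := dfsc_sound T5 (inTabR tabD) (codes D) hcap 250 (cellsD c) (startD c)
    hcheck (cells0_nodup.sublist (flat_mapf_sublist _ _)) hnd hCK hKC
    (fun x hx => hdisj x ((flat_mapf_sublist _ _).subset hx)) hq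
  obtain ⟨e, he, hm⟩ := inTabR_iff hL
  exact okR_affEq unit5 (List.all_eq_true.1 tabD_ok e he) hm hLK

/-- level cardinals after a shear -/
theorem image_shift {r : ℕ} (K : Finset (Fin r → ZMod 3)) (v η : Fin r → ZMod 3) (j : ZMod 3) :
    nn (K.image (fun y => (1 : Matrix (Fin r) (Fin r) (ZMod 3)).mulVec y + 0 + v)) η j =
      nn K η (j - dotProduct η v) := by
  have := nn_image K (A := 1) (A' := 1) (by simp) v η j
  rw [Matrix.vecMul_one] at this
  rw [← this]
  congr 1
  refine Finset.image_congr ?_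
  intro y _
  show (1 : Matrix (Fin r) (Fin r) (ZMod 3)).mulVec y + 0 + v = _
  rw [add_zero]

theorem nnKS0 : nn (ofL 4 (KS 0)) (fn 0 1) 0 = 2 := by decide +kernel

theorem nnKS1 : nn (ofL 4 (KS 1)) (fn 0 1) 0 = 2 := by decide +kernel

theorem key {D1 : Finset (Fin 5 → ZMod 3)} (hD : TD D1) (h18 : (sec D1 0).card = 18)
    (h18' : (sec D1 1).card = 18) (h9 : (sec D1 2).card = 9) {c : ℕ}
    (hcheck : checkD c = true) (hdisj : ∀ x ∈ flat cells0, x ∉ startD c)
    (hnd : (startD c).Nodup) (h81 : ∀ x ∈ KS c, x < 81)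
    (hKS : nn (ofL 4 (KS c)) (fn 0 1) 0 = 2)
    (h : AffEq (ofL 4 (KS c)) (sec D1 0)) : AffEq D45 D1 := by
  classical
  obtain ⟨A, A', b, h1, h2, hA⟩ := h.symm
  obtain ⟨D2, h12, hsec2⟩ := lift_exists D1 h1 h2 b 0
  have hD2 := hD.aff h12
  have hs20 : sec D2 0 = ofL 4 (KS c) := by
    rw [hsec2, hA]
    refine Finset.image_congr ?_
    intro y _
    show A.mulVec y + b + (0 : ZMod 3) • (0 : Fin 4 → ZMod 3) = _
    rw [smul_zero, add_zero]
  have hc2 : ∀ j, (sec D2 j).card = (sec D1 j).card := by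
    intro j
    rw [hsec2]
    refine Finset.card_image_of_injective _ ?_
    intro x y hxy
    simp only [smul_zero, add_zero] at hxy
    exact aff_inj h2 b hxy
  -- the functional `x3`
  obtain ⟨η, hη⟩ : ∃ η : Fin 4 → ZMod 3, η = fn 0 1 := ⟨_, rfl⟩
  have hη0 : η ≠ 0 := by rw [hη]; exact fn01_ne
  have hn2 : ∀ j, nn D2 (fn 0 1) j = (sec D1 j).card := by
    intro j
    rw [← card_lev]
    exact hc2 j
  obtain ⟨t, ht⟩ := exists_15 hD2 (by rw [hn2, h18]) hη0
  obtain ⟨D3, h23, hsec3⟩ := lift_exists D2 (A := 1) (A' := 1) (by simp) (by simp) 0 (sn 0 t)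
  have hD3 := hD2.aff h23
  have hdot : ∀ i : ZMod 3, dotProduct η (i • (sn 0 t : Fin 4 → ZMod 3)) = i * t := by
    intro i
    rw [dotProduct_smul, hη, dot_last, sn_last, smul_eq_mul]
  have hn3 : ∀ i j, nn (lev D3 i) η j = nn (lev D2 i) η (j - i * t) := by
    intro i j
    have e : lev D3 i = (lev D2 i).image (fun y =>
      (1 : Matrix (Fin 4) (Fin 4) (ZMod 3)).mulVec y + 0 + i • (sn 0 t : Fin 4 → ZMod 3)) := hsec3 i
    rw [e, image_shift, hdot]
  have hs30 : sec D3 0 = ofL 4 (KS c) := by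
    rw [hsec3, ← hs20]
    conv_rhs => rw [← Finset.image_id (s := sec D2 0)]
    refine Finset.image_congr ?_
    intro y _
    show (1 : Matrix (Fin 4) (Fin 4) (ZMod 3)).mulVec y + 0 + (0 : ZMod 3) • _ = y
    rw [zero_smul, add_zero, add_zero, Matrix.one_mulVec]
  have h15 : ∀ j, nn D3 (fn η 0) j = 15 := by
    intro j
    rw [nn_levels, hn3, hn3, hn3, ← ht j, nn_levels]
    ring_nf
  have hc3 : ∀ i, nn D3 (fn 0 1) i = (sec D1 i).card := by
    intro i
    rw [← card_lev, ← hc2]
    have e : lev D3 i = (sec D2 i).image (fun y =>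
      (1 : Matrix (Fin 4) (Fin 4) (ZMod 3)).mulVec y + 0 + i • (sn 0 t : Fin 4 → ZMod 3)) := hsec3 i
    rw [e]
    refine Finset.card_image_of_injective _ ?_
    intro x y hxy
    simpa using hxy
  have P := fun i j => pencil D3 η i j
  have h00 : nn (lev D3 0) η 0 = 2 := by
    have : lev D3 0 = ofL 4 (KS c) := hs30
    rw [this, hη]; exact hKS
  have n1 : nn D3 (fn η 1) 0 = 9 ∧ nn D3 (fn η 2) 0 = 9 := by
    have h3 := P 0 0
    rw [h00, hD3.card, hc3, h18, h15] at h3
    have v1 := V_cases (hD3.val (fn_ne_zero hη0 1))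
    have v2 := V_cases (hD3.val (fn_ne_zero hη0 2))
    norm_num at h3
    omega
  have w1 := hD3.val9 (fn_ne_zero hη0 1) n1.1
  have w2 := hD3.val9 (fn_ne_zero hη0 2) n1.2
  have e01 : (0 : ZMod 3) + 1 = 1 := by decide
  have e11 : (1 : ZMod 3) + 1 = 2 := by decide
  have e21 : (2 : ZMod 3) + 1 = 0 := by decide
  have e02 : (0 : ZMod 3) + 2 = 2 := by decide
  have e12 : (1 : ZMod 3) + 2 = 0 := by decide
  have e22 : (2 : ZMod 3) + 2 = 1 := by decide
  have m21 : (2 : ZMod 3) * 1 = 2 := by decide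
  have m22 : (2 : ZMod 3) * 2 = 1 := by decide
  have w10 : nn D3 (fn η 1) 0 = 9 := n1.1
  have w11 : nn D3 (fn η 1) 1 = 18 := by rw [w1, if_neg (by decide)]
  have w12 : nn D3 (fn η 1) 2 = 18 := by rw [w1, if_neg (by decide)]
  have w20 : nn D3 (fn η 2) 0 = 9 := n1.2
  have w21 : nn D3 (fn η 2) 1 = 18 := by rw [w2, if_neg (by decide)]
  have w22 : nn D3 (fn η 2) 2 = 18 := by rw [w2, if_neg (by decide)]
  have p10 := P 1 0
  have p11 := P 1 1
  have p12 := P 1 2
  have p20 := P 2 0
  have p21 := P 2 1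
  have p22 := P 2 2
  rw [hD3.card, hc3, h18', h15] at p10 p11 p12
  rw [hD3.card, hc3, h9, h15] at p20 p21 p22
  rw [m21, e01, e02, w11, w22] at p10
  rw [m21, e11, e12, w12, w20] at p11
  rw [m21, e21, e22, w10, w21] at p12
  rw [m22, e01, e02, w12, w21] at p20
  rw [m22, e11, e12, w10, w22] at p21
  rw [m22, e21, e22, w11, w20] at p22
  -- put a point of the level (1, 2) to 0
  have hcl : ∀ i j, (sec (sec D3 i) j).card = nn (lev D3 i) η j := by
    intro i j
    rw [hη]
    exact card_lev (sec D3 i) j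
  obtain ⟨y, hy⟩ : (sec (sec D3 2) 1).Nonempty := by
    rw [← Finset.card_pos, hcl]
    omega
  obtain ⟨D4, h34, hsec4⟩ := lift_exists D3 (A := 1) (A' := 1) (by simp) (by simp) 0 (sn y 0)
  have hD4 := hD3.aff h34
  have hdot4 : ∀ i : ZMod 3, dotProduct η (i • (sn y 0 : Fin 4 → ZMod 3)) = 0 := by
    intro i
    rw [dotProduct_smul, hη, dot_last, sn_last, smul_zero]
  have hn4 : ∀ i j, (sec (sec D4 i) j).card = nn (lev D3 i) η j := by
    intro i j
    have e1 : (sec (sec D4 i) j).card = nn (sec D4 i) η j := by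
      rw [hη]
      exact card_lev (sec D4 i) j
    rw [e1, hsec4, image_shift, hdot4, sub_zero]
    rfl
  have hs40 : sec D4 0 = ofL 4 (KS c) := by
    rw [hsec4, ← hs30]
    conv_rhs => rw [← Finset.image_id (s := sec D3 0)]
    refine Finset.image_congr ?_
    intro y' _
    show (1 : Matrix (Fin 4) (Fin 4) (ZMod 3)).mulVec y' + 0 + (0 : ZMod 3) • _ = y'
    rw [zero_smul, add_zero, add_zero, Matrix.one_mulVec]
  have hz4 : (0 : Fin 3 → ZMod 3) ∈ sec (sec D4 2) 1 := by
    rw [mem_sec, hsec4, Finset.mem_image]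
    refine ⟨sn y 1, mem_sec.1 hy, ?_⟩
    have e3 : (2 : ZMod 3) • (sn y 0 : Fin 4 → ZMod 3) = sn y 0 + sn y 0 := by
      have : (2 : ZMod 3) = 1 + 1 := by decide
      rw [this, add_smul, one_smul]
    rw [Matrix.one_mulVec, add_zero, e3, sn_add, sn_add, add_zero, add_zero, ← add_assoc,
      three_smul_zero]
  refine (D_class hD4 hcheck hdisj hnd h81 hs40 hz4 ?_ ?_ ?_ ?_ ?_ ?_).trans
    (h12.trans (h23.trans h34)).symm
  · rw [hn4]; omega
  · rw [hn4]; omega
  · rw [hn4]; omega
  · rw [hn4]; omega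
  · rw [hn4]; omega
  · rw [hn4]; omega

/-- **The tight case**: a 45-cap all of whose classes are `{15,15,15}` or `{18,18,9}` is affinely
equivalent to the standard one. -/
theorem tight (D : Finset (Fin 5 → ZMod 3)) (hD : IsCap D) (h45 : D.card = 45)
    (hc : ∀ ξ, ξ ≠ 0 → Cls D ξ 15 15 15 ∨ Cls D ξ 18 18 9)
    (he : ∃ ξ, ξ ≠ 0 ∧ Cls D ξ 18 18 9) : AffEq D45 D := by
  classical
  obtain ⟨ξ, hξ, σ, s0, s1, s2⟩ := he
  obtain ⟨D1, h01, hlev⟩ := normalise D hξ σ
  have hD1 : TD D1 := TD.aff ⟨hD, h45, hc⟩ h01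
  have c0 : (sec D1 0).card = 18 := by rw [sec_card, hlev, s0]
  have c1 : (sec D1 1).card = 18 := by rw [sec_card, hlev, s1]
  have c2 : (sec D1 2).card = 9 := by rw [sec_card, hlev, s2]
  have h18 : nn D1 (fn 0 1) 0 = 18 := by
    rw [← card_lev]; exact c0
  rcases tight18 (hD1.tk h18) with h | h
  · exact (key hD1 c0 c1 c2 dcheck0 cells0_disj0 (by decide) (by decide) nnKS0 h).trans h01.symm
  · exact (key hD1 c0 c1 c2 dcheck1 cells0_disj1 (by decide) (by decide) nnKS1 h).trans h01.symm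

end Pool.Agent.T2H98.EGZ.Tight
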