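import Pool.Agent.T2H98.EGZ.Ident

/-!
# Package B1: affine equivalence and normalisation of a functional
-/

set_option autoImplicit false

namespace Pool.Agent.T2H98.EGZ

open Finset

variable {r : ℕ}

/-- `D'` is the image of `D` under an invertible affine map -/
def AffEq (D D' : Finset (Fin r → ZMod 3)) : Prop :=
  ∃ (A A' : Matrix (Fin r) (Fin r) (ZMod 3)) (b : Fin r → ZMod 3), A * A' = 1 ∧ A' * A = 1 ∧
    D' = D.image (fun x => A.mulVec x + b)

theorem AffEq.refl (D : Finset (Fin r → ZMod 3)) : AffEq D D :=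
  ⟨1, 1, 0, by simp, by simp, by ext x; simp⟩

theorem aff_inj {A A' : Matrix (Fin r) (Fin r) (ZMod 3)} (h : A' * A = 1) (b : Fin r → ZMod 3) :
    Function.Injective (fun x => A.mulVec x + b) := by
  intro x y hxy
  have h1 : A.mulVec x = A.mulVec y := by simpa using hxy
  have h2 := congrArg (A'.mulVec ·) h1
  simpa [Matrix.mulVec_mulVec, h] using h2

theorem AffEq.symm {D D' : Finset (Fin r → ZMod 3)} (h : AffEq D D') : AffEq D' D := by
  obtain ⟨A, A', b, h1, h2, rfl⟩ := h
  refine ⟨A', A, -A'.mulVec b, h2, h1, ?_⟩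
  rw [Finset.image_image]
  have : ((fun x => A'.mulVec x + -A'.mulVec b) ∘ fun x => A.mulVec x + b) = id := by
    funext x
    simp only [Function.comp_apply, Matrix.mulVec_add, Matrix.mulVec_mulVec, h2, Matrix.one_mulVec, id]
    abel
  rw [this, Finset.image_id]

theorem AffEq.trans {D D' D'' : Finset (Fin r → ZMod 3)} (h : AffEq D D') (h' : AffEq D' D'') :
    AffEq D D'' := by
  obtain ⟨A, A', b, h1, h2, rfl⟩ := h
  obtain ⟨B, B', c, h3, h4, rfl⟩ := h'
  refine ⟨B * A, A' * B', B.mulVec b + c, ?_, ?_, ?_⟩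
  · rw [Matrix.mul_assoc, ← Matrix.mul_assoc A, h1, Matrix.one_mul, h3]
  · rw [Matrix.mul_assoc, ← Matrix.mul_assoc B', h4, Matrix.one_mul, h2]
  · rw [Finset.image_image]
    refine Finset.image_congr ?_
    intro x _
    simp only [Function.comp_apply, Matrix.mulVec_add, Matrix.mulVec_mulVec]
    abel

theorem AffEq.card {D D' : Finset (Fin r → ZMod 3)} (h : AffEq D D') : D'.card = D.card := by
  obtain ⟨A, A', b, h1, h2, rfl⟩ := h
  exact Finset.card_image_of_injective _ (aff_inj h2 b)

theorem three_smul_zero (x : Fin r → ZMod 3) : x + x + x = 0 := by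
  funext i
  have : ∀ a : ZMod 3, a + a + a = 0 := by decide
  exact this (x i)

theorem AffEq.isCap {D D' : Finset (Fin r → ZMod 3)} (h : AffEq D D') (hD : IsCap D) :
    IsCap D' := by
  obtain ⟨A, A', b, h1, h2, rfl⟩ := h
  intro x' hx' y' hy' z' hz' hs
  obtain ⟨x, hx, rfl⟩ := Finset.mem_image.1 hx'
  obtain ⟨y, hy, rfl⟩ := Finset.mem_image.1 hy'
  obtain ⟨z, hz, rfl⟩ := Finset.mem_image.1 hz'
  have h3 : A.mulVec (x + y + z) = 0 := by
    rw [Matrix.mulVec_add, Matrix.mulVec_add]
    have := three_smul_zero b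
    calc A.mulVec x + A.mulVec y + A.mulVec z =
        (A.mulVec x + b + (A.mulVec y + b) + (A.mulVec z + b)) - (b + b + b) := by abel
      _ = 0 := by rw [hs, this, sub_zero]
  have h4 : x + y + z = 0 := by
    have h5 := congrArg (A'.mulVec ·) h3
    simpa [Matrix.mulVec_mulVec, h2] using h5
  rw [hD x hx y hy z hz h4]

theorem IsCap.subset {D D' : Finset (Fin r → ZMod 3)} (hD : IsCap D) (h : D' ⊆ D) : IsCap D' :=
  fun x hx y hy z hz => hD x (h hx) y (h hy) z (h hz)

/-- a linear automorphism taking the functional `ξ ≠ 0` to the last coordinate -/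
theorem exists_lin {ξ : Fin (r + 1) → ZMod 3} (hξ : ξ ≠ 0) :
    ∃ e : (Fin (r + 1) → ZMod 3) ≃ₗ[ZMod 3] (Fin (r + 1) → ZMod 3),
      ∀ x, e x (Fin.last r) = dotProduct ξ x := by
  classical
  obtain ⟨i, hi⟩ := Function.ne_iff.1 hξ
  let s : Equiv.Perm (Fin (r + 1)) := Equiv.swap i (Fin.last r)
  let φ : (Fin (r + 1) → ZMod 3) →ₗ[ZMod 3] (Fin (r + 1) → ZMod 3) :=
    { toFun := fun x k => if k = Fin.last r then dotProduct ξ x else x (s k)
      map_add' := by
        intro x y
        funext k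
        by_cases hk : k = Fin.last r
        · simp [hk, dotProduct_add]
        · simp [hk]
      map_smul' := by
        intro c x
        funext k
        by_cases hk : k = Fin.last r
        · simp [hk, dotProduct_smul]
        · simp [hk] }
  have hφ : ∀ x k, φ x k = if k = Fin.last r then dotProduct ξ x else x (s k) := fun _ _ => rfl
  have hinj : Function.Injective φ := by
    rw [injective_iff_map_eq_zero]
    intro x hx
    have h1 : ∀ l, l ≠ i → x l = 0 := by
      intro l hl
      have h2 : s l ≠ Fin.last r := by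
        intro h
        apply hl
        have : s (s l) = s (Fin.last r) := by rw [h]
        simpa [s] using this
      have h3 := congrFun hx (s l)
      rw [hφ, if_neg h2] at h3
      simpa [s] using h3
    have h4 := congrFun hx (Fin.last r)
    rw [hφ, if_pos rfl] at h4
    have h5 : dotProduct ξ x = ξ i * x i := by
      unfold dotProduct
      refine Finset.sum_eq_single i ?_ ?_
      · intro l _ hl; rw [h1 l hl, mul_zero]
      · intro h; exact absurd (Finset.mem_univ _) h
    rw [h5] at h4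
    have h6 : x i = 0 := by
      rcases mul_eq_zero.1 h4 with h | h
      · exact absurd h hi
      · exact h
    funext l
    by_cases hl : l = i
    · rw [hl, h6]; rfl
    · rw [h1 l hl]; rfl
  refine ⟨LinearEquiv.ofInjectiveEndo φ hinj, fun x => ?_⟩
  rw [LinearEquiv.coe_ofInjectiveEndo, hφ, if_pos rfl]

theorem exists_mat {ξ : Fin (r + 1) → ZMod 3} (hξ : ξ ≠ 0) :
    ∃ A A' : Matrix (Fin (r + 1)) (Fin (r + 1)) (ZMod 3), A * A' = 1 ∧ A' * A = 1 ∧
      ∀ x, A.mulVec x (Fin.last r) = dotProduct ξ x := by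
  classical
  obtain ⟨e, he⟩ := exists_lin hξ
  refine ⟨LinearMap.toMatrix' e.toLinearMap, LinearMap.toMatrix' e.symm.toLinearMap, ?_, ?_, ?_⟩
  · rw [← LinearMap.toMatrix'_comp]
    simp
  · rw [← LinearMap.toMatrix'_comp]
    simp
  · intro x
    rw [LinearMap.toMatrix'_mulVec]
    exact he x

/-- the sections with their last coordinate dropped are caps -/
theorem section_cap {D : Finset (Fin (r + 1) → ZMod 3)} (hD : IsCap D) (j : ZMod 3) :
    IsCap ((D.filter fun x => x (Fin.last r) = j).image (fun x (k : Fin r) => x k.castSucc)) := by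
  intro x' hx' y' hy' z' hz' hs
  obtain ⟨x, hx, rfl⟩ := Finset.mem_image.1 hx'
  obtain ⟨y, hy, rfl⟩ := Finset.mem_image.1 hy'
  obtain ⟨z, hz, rfl⟩ := Finset.mem_image.1 hz'
  rw [Finset.mem_filter] at hx hy hz
  have h : x + y + z = 0 := by
    funext k
    refine Fin.lastCases ?_ (fun i => ?_) k
    · simp only [Pi.add_apply, Pi.zero_apply]
      rw [hx.2, hy.2, hz.2]
      have : ∀ a : ZMod 3, a + a + a = 0 := by decide
      exact this j
    · exact congrFun hs i
  rw [hD x hx.1 y hy.1 z hz.1 h]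

theorem section_card (D : Finset (Fin (r + 1) → ZMod 3)) (j : ZMod 3) :
    ((D.filter fun x => x (Fin.last r) = j).image (fun x (k : Fin r) => x k.castSucc)).card =
      (D.filter fun x => x (Fin.last r) = j).card := by
  refine Finset.card_image_of_injOn ?_
  intro x hx y hy hxy
  rw [Finset.mem_coe, Finset.mem_filter] at hx hy
  funext k
  refine Fin.lastCases ?_ (fun i => ?_) k
  · rw [hx.2, hy.2]
  · exact congrFun hxy i

/-- levels of the last coordinate after an affine map with last row `ξ` -/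
theorem level_image (D : Finset (Fin (r + 1) → ZMod 3)) {ξ : Fin (r + 1) → ZMod 3}
    {A A' : Matrix (Fin (r + 1)) (Fin (r + 1)) (ZMod 3)} (h2 : A' * A = 1)
    (b : Fin (r + 1) → ZMod 3) (σ : ZMod 3 → ZMod 3)
    (h : ∀ x j, (A.mulVec x + b) (Fin.last r) = j ↔ dotProduct ξ x = σ j) (j : ZMod 3) :
    ((D.image (fun x => A.mulVec x + b)).filter fun x => x (Fin.last r) = j).card =
      nn D ξ (σ j) := by
  classical
  rw [Finset.filter_image, Finset.card_image_of_injective _ (aff_inj h2 b), nn]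
  congr 1
  ext x
  simp only [Finset.mem_filter]
  rw [h]

theorem nn_le {D : Finset (Fin (r + 1) → ZMod 3)} (hD : IsCap D) {M : ℕ}
    (hM : ∀ E : Finset (Fin r → ZMod 3), IsCap E → E.card ≤ M) {ξ : Fin (r + 1) → ZMod 3}
    (hξ : ξ ≠ 0) (j : ZMod 3) : nn D ξ j ≤ M := by
  classical
  obtain ⟨A, A', h1, h2, h3⟩ := exists_mat hξ
  have h4 := level_image D h2 0 id (fun x j => by rw [add_zero, h3]; rfl) j
  have hD' : IsCap (D.image (fun x => A.mulVec x + 0)) :=
    AffEq.isCap ⟨A, A', 0, h1, h2, rfl⟩ hD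
  have h5 := hM _ (section_cap hD' j)
  rw [section_card, h4] at h5
  exact h5

/-- every permutation of `ZMod 3` is affine -/
theorem perm_affine (σ : Equiv.Perm (ZMod 3)) : ∃ a b : ZMod 3, a ≠ 0 ∧ ∀ j, σ.symm j = a * j + b := by
  revert σ
  decide

/-- **Normalisation.** The classes of `D` with respect to `ξ` become, in any wanted order, the
levels of the last coordinate. -/
theorem normalise (D : Finset (Fin (r + 1) → ZMod 3)) {ξ : Fin (r + 1) → ZMod 3} (hξ : ξ ≠ 0)
    (σ : Equiv.Perm (ZMod 3)) : ∃ D', AffEq D D' ∧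
      ∀ j, (D'.filter fun x => x (Fin.last r) = j).card = nn D ξ (σ j) := by
  classical
  obtain ⟨a, b, ha, hab⟩ := perm_affine σ
  obtain ⟨A, A', h1, h2, h3⟩ := exists_mat (ξ := a • ξ) (smul_ne_zero ha hξ)
  refine ⟨_, ⟨A, A', Pi.single (Fin.last r) b, h1, h2, rfl⟩, fun j => ?_⟩
  refine level_image D h2 _ σ ?_ j
  intro x j
  rw [Pi.add_apply, h3, smul_dotProduct, Pi.single_eq_same, smul_eq_mul, ← hab]
  rw [Equiv.symm_apply_eq]

end Pool.Agent.T2H98.EGZ
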