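import Pool.Agent.T2H98.EGZ.Caps3

/-!
# Package B2: every cap of `F_3^4` with at least 19 points contains a copy of the standard 19-cap
-/

set_option autoImplicit false

namespace Pool.Agent.T2H98.EGZ

open Finset

variable {r : ℕ}

theorem code_sn (r : ℕ) (y : Fin r → ZMod 3) (j : ZMod 3) :
    code (r + 1) (sn y j) = code r y + 3 ^ r * j.val := by
  induction r with
  | zero =>
    have : sn y j 0 = j := sn_last y j
    simp only [code]
    rw [this]
    simp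
  | succ r ih =>
    have h1 : sn y j 0 = y 0 := sn_castSucc y j 0
    have h2 : (fun k : Fin (r + 1) => sn y j k.succ) = sn (fun k => y k.succ) j := by
      funext k
      refine Fin.lastCases ?_ (fun i => ?_) k
      · rw [sn_last]
        exact sn_last y j
      · rw [sn_castSucc]
        exact sn_castSucc y j i.succ
    have h3 : code (r + 1 + 1) (sn y j) = (sn y j 0).val +
        3 * code (r + 1) (fun k : Fin (r + 1) => sn y j k.succ) := rfl
    have h4 : code (r + 1) y = (y 0).val + 3 * code r (fun k => y k.succ) := rfl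
    rw [h3, h1, h2, ih, h4, pow_succ]
    ring

theorem glue {K : Finset (Fin (r + 1) → ZMod 3)} {L0 L1 L2 : List ℕ}
    (h0 : L0.toFinset = codes (sec K 0)) (h1 : L1.toFinset = codes (sec K 1))
    (h2 : L2.toFinset = codes (sec K 2)) :
    (L0 ++ (L1.map (· + 3 ^ r) ++ L2.map (· + 2 * 3 ^ r))).toFinset = codes K := by
  classical
  have hj : ∀ (L : List ℕ) (j : ZMod 3), L.toFinset = codes (sec K j) →
      ∀ a ∈ L, a + 3 ^ r * j.val ∈ codes K := by
    intro L j h a ha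
    have h3 : a ∈ codes (sec K j) := by rw [← h]; exact List.mem_toFinset.2 ha
    obtain ⟨y, hy, rfl⟩ := Finset.mem_image.1 h3
    rw [← code_sn, mem_codes]
    exact mem_sec.1 hy
  have v0 : (0 : ZMod 3).val = 0 := rfl
  have v1 : (1 : ZMod 3).val = 1 := rfl
  have v2 : (2 : ZMod 3).val = 2 := rfl
  ext a
  rw [List.mem_toFinset, List.mem_append, List.mem_append, List.mem_map, List.mem_map]
  constructor
  · rintro (ha | ⟨a, ha, rfl⟩ | ⟨a, ha, rfl⟩)
    · have := hj L0 0 h0 a ha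
      rwa [v0, mul_zero, add_zero] at this
    · have := hj L1 1 h1 a ha
      rwa [v1, mul_one] at this
    · have := hj L2 2 h2 a ha
      rwa [v2, mul_comm] at this
  · intro ha
    obtain ⟨x, hx, rfl⟩ := Finset.mem_image.1 ha
    have hx' : (fun k : Fin r => x k.castSucc) ∈ sec K (x (Fin.last r)) := by
      rw [mem_sec, sn_eta]; exact hx
    have hcx : code (r + 1) x = code r (fun k : Fin r => x k.castSucc) +
        3 ^ r * (x (Fin.last r)).val := by
      rw [← code_sn, sn_eta]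
    have h3 : ∀ j : ZMod 3, j = 0 ∨ j = 1 ∨ j = 2 := by decide
    rcases h3 (x (Fin.last r)) with h | h | h
    · left
      rw [hcx, h, v0, mul_zero, add_zero, ← List.mem_toFinset, h0, mem_codes, ← h]
      exact hx'
    · right; left
      refine ⟨code r (fun k : Fin r => x k.castSucc), ?_, ?_⟩
      · rw [← List.mem_toFinset, h1, mem_codes, ← h]
        exact hx'
      · rw [hcx, h, v1, mul_one]
    · right; right
      refine ⟨code r (fun k : Fin r => x k.castSucc), ?_, ?_⟩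
      · rw [← List.mem_toFinset, h2, mem_codes, ← h]
        exact hx'
      · rw [hcx, h, v2, mul_comm]

theorem mask_append (L L' : List ℕ) : mask (L ++ L') = mask L ||| mask L' := by
  induction L with
  | nil => simp [mask]
  | cons a L ih =>
    have h1 : mask (a :: L) = (1 <<< a) ||| mask L := rfl
    have h2 : mask (a :: L ++ L') = (1 <<< a) ||| mask (L ++ L') := rfl
    rw [h1, h2, ih, Nat.or_assoc]

theorem mask_map_add (L : List ℕ) (k : ℕ) : mask (L.map (· + k)) = mask L <<< k := by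
  induction L with
  | nil => simp [mask]
  | cons a L ih =>
    have h1 : mask (a :: L) = (1 <<< a) ||| mask L := rfl
    have h2 : mask ((a :: L).map (· + k)) = (1 <<< (a + k)) ||| mask (L.map (· + k)) := rfl
    rw [h1, h2, ih, Nat.shiftLeft_or_distrib, Nat.shiftLeft_add]

/-! ### affine maps of `F_3^4` on codes -/

/-- sum of codes -/
def add4 (a b : ℕ) : ℕ := thr 4 (thr 4 a b) 0

/-- multiple of a code by a digit -/
def sm4 (s c : ℕ) : ℕ :=
  match s with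
  | 0 => 0
  | 1 => c
  | _ => thr 4 c 0

/-- the affine map with constant `b` and columns `c0, ..., c3`, on codes -/
def ap4 (b c0 c1 c2 c3 x : ℕ) : ℕ :=
  add4 (add4 (add4 (add4 b (sm4 (x % 3) c0)) (sm4 (x / 3 % 3) c1)) (sm4 (x / 9 % 3) c2))
    (sm4 (x / 27 % 3) c3)

theorem pt_add4 (a b : ℕ) : pt 4 (add4 a b) = pt 4 a + pt 4 b := by
  unfold add4
  rw [pt_thr, pt_thr, pt_zero', add_zero, neg_neg]

theorem pt_sm4 {s : ℕ} (hs : s < 3) (c : ℕ) : pt 4 (sm4 s c) = ((s : ℕ) : ZMod 3) • pt 4 c := by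
  interval_cases s
  · simp [sm4, pt_zero']
  · simp [sm4]
  · show pt 4 (thr 4 c 0) = _
    rw [pt_thr, pt_zero', add_zero]
    have : ((2 : ℕ) : ZMod 3) = -1 := by decide
    rw [this, neg_one_smul]

/-- the matrix with columns given by codes -/
def colMat4 (c0 c1 c2 c3 : ℕ) : Matrix (Fin 4) (Fin 4) (ZMod 3) :=
  Matrix.of fun i j => (![pt 4 c0, pt 4 c1, pt 4 c2, pt 4 c3] j) i

theorem colMat4_mulVec (c0 c1 c2 c3 : ℕ) (v : Fin 4 → ZMod 3) :
    (colMat4 c0 c1 c2 c3).mulVec v = v 0 • pt 4 c0 + v 1 • pt 4 c1 + v 2 • pt 4 c2 +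
      v 3 • pt 4 c3 := by
  funext i
  simp [colMat4, Matrix.mulVec, dotProduct, Fin.sum_univ_four, mul_comm]

theorem ap4_spec (b c0 c1 c2 c3 x : ℕ) :
    pt 4 (ap4 b c0 c1 c2 c3 x) = (colMat4 c0 c1 c2 c3).mulVec (pt 4 x) + pt 4 b := by
  have a0 := pt_sm4 (Nat.mod_lt x (show 0 < 3 by norm_num)) c0
  have a1 := pt_sm4 (Nat.mod_lt (x / 3) (show 0 < 3 by norm_num)) c1
  have a2 := pt_sm4 (Nat.mod_lt (x / 9) (show 0 < 3 by norm_num)) c2
  have a3 := pt_sm4 (Nat.mod_lt (x / 27) (show 0 < 3 by norm_num)) c3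
  have e : ∀ n : ℕ, (((n % 3 : ℕ) : ZMod 3)) = ((n : ℕ) : ZMod 3) := fun n => ZMod.natCast_mod n 3
  rw [e] at a0 a1 a2 a3
  have p0 : pt 4 x 0 = ((x : ℕ) : ZMod 3) := by simp [pt]
  have p1 : pt 4 x 1 = ((x / 3 : ℕ) : ZMod 3) := by simp [pt]
  have p2 : pt 4 x 2 = ((x / 9 : ℕ) : ZMod 3) := by simp [pt]
  have p3 : pt 4 x 3 = ((x / 27 : ℕ) : ZMod 3) := by simp [pt]
  unfold ap4
  rw [pt_add4, pt_add4, pt_add4, pt_add4, a0, a1, a2, a3, colMat4_mulVec, p0, p1, p2, p3]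
  abel

theorem colMat4_inv {c0 c1 c2 c3 d0 d1 d2 d3 : ℕ} (i0 : ap4 0 c0 c1 c2 c3 d0 = 1)
    (i1 : ap4 0 c0 c1 c2 c3 d1 = 3) (i2 : ap4 0 c0 c1 c2 c3 d2 = 9)
    (i3 : ap4 0 c0 c1 c2 c3 d3 = 27) : colMat4 c0 c1 c2 c3 * colMat4 d0 d1 d2 d3 = 1 := by
  have j0 := ap4_spec 0 c0 c1 c2 c3 d0
  have j1 := ap4_spec 0 c0 c1 c2 c3 d1
  have j2 := ap4_spec 0 c0 c1 c2 c3 d2
  have j3 := ap4_spec 0 c0 c1 c2 c3 d3
  rw [i0, pt_zero', add_zero] at j0
  rw [i1, pt_zero', add_zero] at j1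
  rw [i2, pt_zero', add_zero] at j2
  rw [i3, pt_zero', add_zero] at j3
  have key : ∀ v : Fin 4 → ZMod 3,
      (colMat4 c0 c1 c2 c3 * colMat4 d0 d1 d2 d3).mulVec v = (1 : Matrix _ _ _).mulVec v := by
    intro v
    rw [← Matrix.mulVec_mulVec, colMat4_mulVec d0, Matrix.mulVec_add, Matrix.mulVec_add,
      Matrix.mulVec_add, Matrix.mulVec_smul, Matrix.mulVec_smul, Matrix.mulVec_smul,
      Matrix.mulVec_smul, ← j0, ← j1, ← j2, ← j3, Matrix.one_mulVec]
    have q0 : pt 4 1 = Pi.single 0 1 := by decide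
    have q1 : pt 4 3 = Pi.single 1 1 := by decide
    have q2 : pt 4 9 = Pi.single 2 1 := by decide
    have q3 : pt 4 27 = Pi.single 3 1 := by decide
    rw [q0, q1, q2, q3]
    funext i
    fin_cases i <;> simp
  ext i j
  have h3 := congrFun (key (Pi.single j 1)) i
  rwa [Matrix.mulVec_single_one, Matrix.mulVec_single_one] at h3

/-- the codes of the standard 19-cap -/
def k19 : List ℕ := [9, 18, 27, 40, 41, 43, 44, 46, 47, 48, 51, 64, 65, 66, 69, 76, 77, 79, 80]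

/-- certificate: second point of level 0, mask of level 2, constant, columns, inverse columns -/
structure Cert4 where
  p : ℕ
  m : ℕ
  b : ℕ
  c0 : ℕ
  c1 : ℕ
  c2 : ℕ
  c3 : ℕ
  d0 : ℕ
  d1 : ℕ
  d2 : ℕ
  d3 : ℕ

/-- check of a certificate -/
def Cert4.ok (e : Cert4) : Bool :=
  (Nat.beq (mask (k19.map (ap4 e.b e.c0 e.c1 e.c2 e.c3)))
    (Nat.lor (mask [0, e.p]) (Nat.lor (Nat.shiftLeft (mask (E3 0)) 27) (Nat.shiftLeft e.m 54)))).and
  ((Nat.beq (ap4 0 e.c0 e.c1 e.c2 e.c3 e.d0) 1).and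
  ((Nat.beq (ap4 0 e.c0 e.c1 e.c2 e.c3 e.d1) 3).and
  ((Nat.beq (ap4 0 e.c0 e.c1 e.c2 e.c3 e.d2) 9).and
  (Nat.beq (ap4 0 e.c0 e.c1 e.c2 e.c3 e.d3) 27))))

/-- certificates -/
def t4 : List Cert4 := [
  ⟨0, 113246798, 18, 5, 8, 36, 9, 4, 5, 27, 63⟩,
  ⟨0, 302512, 9, 1, 3, 45, 18, 1, 3, 54, 63⟩,
  ⟨9, 46137934, 18, 5, 13, 9, 31, 16, 17, 9, 42⟩,
  ⟨9, 79692366, 18, 4, 14, 9, 32, 23, 17, 9, 42⟩,
  ⟨9, 104858190, 18, 8, 16, 9, 34, 16, 22, 9, 42⟩,
  ⟨9, 109052494, 18, 7, 17, 9, 35, 23, 22, 9, 42⟩,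
  ⟨9, 113246286, 18, 5, 8, 9, 36, 4, 5, 9, 45⟩,
  ⟨9, 113246734, 18, 22, 23, 9, 48, 5, 17, 9, 31⟩,
  ⟨9, 113246790, 18, 25, 26, 9, 51, 5, 22, 9, 31⟩,
  ⟨9, 113246794, 18, 22, 25, 9, 46, 17, 5, 9, 31⟩,
  ⟨9, 113246796, 18, 23, 26, 9, 47, 22, 5, 9, 31⟩,
  ⟨18, 40368, 9, 1, 3, 18, 45, 1, 3, 18, 45⟩,
  ⟨18, 269744, 9, 1, 15, 18, 30, 1, 24, 18, 39⟩,
  ⟨18, 298416, 9, 1, 12, 18, 33, 1, 12, 18, 39⟩,
  ⟨18, 300464, 9, 11, 3, 18, 28, 20, 3, 18, 37⟩,
  ⟨18, 301488, 9, 10, 3, 18, 29, 10, 3, 18, 37⟩,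
  ⟨18, 302256, 9, 11, 15, 18, 40, 20, 24, 18, 31⟩,
  ⟨18, 302384, 9, 10, 15, 18, 41, 10, 24, 18, 31⟩,
  ⟨18, 302480, 9, 11, 12, 18, 43, 20, 12, 18, 31⟩,
  ⟨18, 302496, 9, 10, 12, 18, 44, 10, 12, 18, 31⟩]

theorem t4_ok : t4.all Cert4.ok = true := by decide +kernel

/-- the level 2 mask occurs in the table -/
def inTab4 (p : ℕ) (L : List ℕ) : Bool :=
  t4.any fun e => (Nat.beq e.p p).and (Nat.beq e.m (mask L))

/-- points of level 2 compatible with the levels 0 and 1 -/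
def allow (L0 L1 : List ℕ) : List ℕ :=
  (List.range 27).filter fun x => L0.all fun a => bit0 (mask L1) (tt a x)

theorem dfs991 : dfs tt (inTab4 0) 27 (allow [0] (E3 0)) [] 9 = true := by decide +kernel

theorem dfs982 : ((List.range 27).all fun p => (Nat.beq p 0).or
    (dfs tt (inTab4 p) 27 (allow [0, p] (E3 0)) [] 8)) = true := by decide +kernel

/-- the check for the class `{8,8,3}` -/
def chk883 (i : ℕ) : Bool :=
  (List.range 27).all fun p => (List.range p).all fun q => (Nat.beq q 0).or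
    ((Nat.beq (tt 0 p) q).or (dfs tt (fun _ => false) 27 (allow [0, p, q] (E3 i)) [] 8))

theorem chk883_1 : chk883 1 = true := by decide +kernel

theorem chk883_2 : chk883 2 = true := by decide +kernel

theorem chk883_3 : chk883 3 = true := by decide +kernel

theorem allow_complete {K : Finset (Fin 4 → ZMod 3)} (hK : IsCap K) {L0 L1 : List ℕ}
    (h0 : L0.toFinset = codes (sec K 0)) (h1 : L1.toFinset = codes (sec K 1)) {x : ℕ}
    (hx : x ∈ codes (sec K 2)) : x ∈ allow L0 L1 := by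
  unfold allow
  rw [List.mem_filter, List.mem_range]
  refine ⟨codes_lt hx, ?_⟩
  rw [List.all_eq_true]
  intro a ha
  rw [bit0_iff, Bool.not_eq_true', ← Bool.not_eq_true, testBit_mask]
  intro hmem
  have ha' : a ∈ codes (sec K 0) := by rw [← h0]; exact List.mem_toFinset.2 ha
  have hm' : tt a x ∈ codes (sec K 1) := by rw [← h1]; exact List.mem_toFinset.2 hmem
  obtain ⟨u, hu, rfl⟩ := Finset.mem_image.1 ha'
  obtain ⟨v, hv, rfl⟩ := Finset.mem_image.1 hx
  rw [tt_eq (codes_lt ha') (codes_lt hx), code_third, mem_codes] at hm'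
  refine sec_sum_ne hK (i := 0) (j := 1) (k := 2) (by decide) (by decide) hu hm' hv ?_
  abel

theorem search2 {K : Finset (Fin 4 → ZMod 3)} (hK : IsCap K) {L0 L1 : List ℕ}
    (h0 : L0.toFinset = codes (sec K 0)) (h1 : L1.toFinset = codes (sec K 1)) {t : ℕ}
    (ht : (sec K 2).card = t) {leaf : List ℕ → Bool}
    (hd : dfs tt leaf 27 (allow L0 L1) [] t = true) :
    ∃ L, leaf L = true ∧ L.Nodup ∧ L.toFinset = codes (sec K 2) := by
  refine dfs_sound tt leaf (codes (sec K 2)) (codes_cap3 (sec_cap hK 2)) 27 (allow L0 L1) [] t hd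
    ?_ ?_ List.nodup_nil (by simp) ?_ (by simp) ?_
  · unfold allow
    exact le_trans (List.length_filter_le _ _) (by simp)
  · unfold allow
    exact List.nodup_range.filter _
  · intro x hx _
    exact allow_complete hK h0 h1 hx
  · rw [codes_card, ht]; simp

theorem leaf4 {K : Finset (Fin 4 → ZMod 3)} {p : ℕ} {L : List ℕ} (hL : inTab4 p L = true)
    (h0 : [0, p].toFinset = codes (sec K 0)) (h1 : (E3 0).toFinset = codes (sec K 1))
    (h2 : L.toFinset = codes (sec K 2)) : AffEq (ofL 4 k19) K := by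
  classical
  unfold inTab4 at hL
  rw [List.any_eq_true] at hL
  obtain ⟨e, he, hm⟩ := hL
  simp only [Bool.and_eq_true, Nat.beq_eq] at hm
  obtain ⟨rfl, hm⟩ := hm
  have hok := (List.all_eq_true.1 t4_ok) e he
  unfold Cert4.ok at hok
  simp only [Bool.and_eq_true, Nat.beq_eq] at hok
  obtain ⟨hmask, i0, i1, i2, i3⟩ := hok
  have hinv := colMat4_inv i0 i1 i2 i3
  have hinv' := mul_eq_one_comm.1 hinv
  refine ⟨_, _, pt 4 e.b, hinv, hinv', ?_⟩
  have hg := glue h0 h1 h2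
  have h3 : (k19.map (ap4 e.b e.c0 e.c1 e.c2 e.c3)).toFinset = codes K := by
    rw [← hg]
    apply toFinset_eq_of_mask
    rw [hmask, mask_append, mask_append, mask_map_add, mask_map_add, ← hm]
    rfl
  rw [eq_ofL h3]
  ext x
  unfold ofL
  simp only [List.mem_toFinset, List.mem_map, Finset.mem_image]
  constructor
  · rintro ⟨a, ⟨c, hc, rfl⟩, rfl⟩
    exact ⟨pt 4 c, ⟨c, hc, rfl⟩, (ap4_spec _ _ _ _ _ _).symm⟩
  · rintro ⟨y, ⟨c, hc, rfl⟩, rfl⟩
    exact ⟨_, ⟨c, hc, rfl⟩, ap4_spec _ _ _ _ _ _⟩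

theorem codes_ofL {r : ℕ} {L : List ℕ} (h : ∀ a ∈ L, a < 3 ^ r) :
    L.toFinset = codes (ofL r L) := by
  ext x
  unfold codes ofL
  simp only [List.mem_toFinset, Finset.mem_image, List.mem_map]
  constructor
  · intro hx
    exact ⟨pt r x, ⟨x, hx, rfl⟩, code_pt r x (h x hx)⟩
  · rintro ⟨y, ⟨a, ha, rfl⟩, rfl⟩
    rw [code_pt r a (h a ha)]
    exact ha

/-- a set of three or fewer points containing `0`, on codes -/
theorem two_points {K : Finset (Fin 3 → ZMod 3)} (h0 : 0 ∈ K) (hc : K.card = 2) :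
    ∃ p, p < 27 ∧ p ≠ 0 ∧ [0, p].toFinset = codes K := by
  classical
  have h1 : (codes K).card = 2 := by rw [codes_card, hc]
  have h2 : (0 : ℕ) ∈ codes K := by rw [mem_codes' (by norm_num), pt_zero']; exact h0
  have h3 : ((codes K).erase 0).card = 1 := by rw [Finset.card_erase_of_mem h2, h1]
  obtain ⟨p, hp⟩ := Finset.card_eq_one.1 h3
  have h4 : p ∈ (codes K).erase 0 := by rw [hp]; exact Finset.mem_singleton_self p
  rw [Finset.mem_erase] at h4
  refine ⟨p, codes_lt h4.2, h4.1, ?_⟩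
  rw [← Finset.insert_erase h2, hp]
  simp

theorem three_points {K : Finset (Fin 3 → ZMod 3)} (hK : IsCap K) (h0 : 0 ∈ K)
    (hc : K.card = 3) :
    ∃ p q, p < 27 ∧ q < p ∧ q ≠ 0 ∧ tt 0 p ≠ q ∧ [0, p, q].toFinset = codes K := by
  classical
  have h1 : (codes K).card = 3 := by rw [codes_card, hc]
  have h2 : (0 : ℕ) ∈ codes K := by rw [mem_codes' (by norm_num), pt_zero']; exact h0
  have h3 : ((codes K).erase 0).card = 2 := by rw [Finset.card_erase_of_mem h2, h1]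
  obtain ⟨p, q, hpq, hs⟩ := Finset.card_eq_two.1 h3
  have h4 : p ∈ (codes K).erase 0 := by rw [hs]; simp
  have h5 : q ∈ (codes K).erase 0 := by rw [hs]; simp
  rw [Finset.mem_erase] at h4 h5
  have hcodes : codes K = {0, p, q} := by rw [← Finset.insert_erase h2, hs]
  have h6 : ∀ a b, a ∈ codes K → b ∈ codes K → a ≠ 0 → tt 0 a ≠ b := by
    intro a b ha hb ha0 hab
    rw [← hab] at hb
    exact ha0 (codes_cap3 hK 0 h2 a ha hb).symm
  rcases Nat.lt_or_gt_of_ne hpq with h | h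
  · refine ⟨q, p, codes_lt h5.2, h, h4.1, h6 q p h5.2 h4.2 h5.1, ?_⟩
    rw [hcodes]
    ext x; simp; tauto
  · refine ⟨p, q, codes_lt h4.2, h, h5.1, h6 p q h4.2 h5.2 h4.1, ?_⟩
    rw [hcodes]
    ext x; simp

/-- normalisation with chosen levels -/
theorem levels {K : Finset (Fin 4 → ZMod 3)} {ξ : Fin 4 → ZMod 3} (hξ : ξ ≠ 0) {a b c : ℕ}
    (h : Cls K ξ a b c) : ∃ K', AffEq K K' ∧ (sec K' 0).card = c ∧ (sec K' 1).card = a ∧
      (sec K' 2).card = b := by
  obtain ⟨σ, h0, h1, h2⟩ := h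
  let τ : Equiv.Perm (ZMod 3) := ⟨fun j => j + 2, fun j => j + 1, by
    intro j; show j + 2 + 1 = j; rw [add_assoc]; have : (2 : ZMod 3) + 1 = 0 := by decide
    rw [this, add_zero], by
    intro j; show j + 1 + 2 = j; rw [add_assoc]; have : (1 : ZMod 3) + 2 = 0 := by decide
    rw [this, add_zero]⟩
  obtain ⟨K', hK', hl⟩ := normalise K hξ (τ.trans σ)
  refine ⟨K', hK', ?_, ?_, ?_⟩
  · rw [sec_card, hl, ← h2]; rfl
  · rw [sec_card, hl, ← h0]; rfl
  · rw [sec_card, hl, ← h1]; rfl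

theorem E3_lt (i : ℕ) (hi : i < 4) : ∀ a ∈ E3 i, a < 3 ^ 3 := by
  interval_cases i <;> decide

theorem no883 {K : Finset (Fin 4 → ZMod 3)} (hK : IsCap K) {i : ℕ} (hi : i < 4)
    (hchk : chk883 i = true) (h1 : sec K 1 = ofL 3 (E3 i)) (h0 : 0 ∈ sec K 0)
    (c0 : (sec K 0).card = 3) (c2 : (sec K 2).card = 8) : False := by
  obtain ⟨p, q, hp, hq, hq0, hpq, hs⟩ := three_points (sec_cap hK 0) h0 c0
  have h2 := (List.all_eq_true.1 hchk) p (List.mem_range.2 hp)
  have h3 := (List.all_eq_true.1 h2) q (List.mem_range.2 hq)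
  simp only [Bool.or_eq_true, Nat.beq_eq] at h3
  rcases h3 with h | h | h
  · exact hq0 h
  · exact hpq h
  · obtain ⟨L, hL, -⟩ := search2 hK hs (by rw [h1]; exact codes_ofL (E3_lt i hi)) c2 h
    simp at hL

/-- **Every 19-cap of `F_3^4` is affinely equivalent to the standard one.** -/
theorem caps19 {K : Finset (Fin 4 → ZMod 3)} (hK : IsCap K) (hc : K.card = 19) :
    AffEq (ofL 4 k19) K := by
  obtain ⟨ξ, hξ, h | h | h⟩ := class19 hK hc
  · obtain ⟨K1, hK1, c0, c1, c2⟩ := levels hξ h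
    have k1 := hK1.isCap hK
    obtain ⟨p, hp⟩ := Finset.card_pos.1 (show 0 < (sec K1 0).card by omega)
    obtain ⟨K2, hK2, s1, s0, cc⟩ := lift_level (by decide) (caps9 (sec_cap k1 1) c1).symm hp
    have k2 := hK2.isCap k1
    have e0 : [0].toFinset = codes (sec K2 0) := by
      have h1 : (codes (sec K2 0)).card = 1 := by rw [codes_card, cc, c0]
      have h2 : (0 : ℕ) ∈ codes (sec K2 0) := by rw [mem_codes' (by norm_num), pt_zero']; exact s0
      obtain ⟨q, hq⟩ := Finset.card_eq_one.1 h1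
      rw [hq, Finset.mem_singleton] at h2
      rw [hq, ← h2]; rfl
    have e1 : (E3 0).toFinset = codes (sec K2 1) := by
      rw [s1]; exact codes_ofL (E3_lt 0 (by norm_num))
    obtain ⟨L, hL, -, hL2⟩ := search2 k2 e0 e1 (by rw [cc, c2]) dfs991
    refine (leaf4 hL ?_ e1 hL2).trans (hK1.trans hK2).symm
    rw [← e0]; rfl
  · obtain ⟨K1, hK1, c0, c1, c2⟩ := levels hξ h
    have k1 := hK1.isCap hK
    obtain ⟨p, hp⟩ := Finset.card_pos.1 (show 0 < (sec K1 0).card by omega)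
    obtain ⟨K2, hK2, s1, s0, cc⟩ := lift_level (by decide) (caps9 (sec_cap k1 1) c1).symm hp
    have k2 := hK2.isCap k1
    obtain ⟨q, hq, hq0, e0⟩ := two_points s0 (by rw [cc, c0])
    have e1 : (E3 0).toFinset = codes (sec K2 1) := by
      rw [s1]; exact codes_ofL (E3_lt 0 (by norm_num))
    have hd := (List.all_eq_true.1 dfs982) q (List.mem_range.2 hq)
    simp only [Bool.or_eq_true, Nat.beq_eq] at hd
    rcases hd with hd | hd
    · exact absurd hd hq0
    obtain ⟨L, hL, -, hL2⟩ := search2 k2 e0 e1 (by rw [cc, c2]) hd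
    exact (leaf4 hL e0 e1 hL2).trans (hK1.trans hK2).symm
  · exfalso
    obtain ⟨K1, hK1, c0, c1, c2⟩ := levels hξ h
    have k1 := hK1.isCap hK
    obtain ⟨p, hp⟩ := Finset.card_pos.1 (show 0 < (sec K1 0).card by omega)
    rcases caps8 (sec_cap k1 1) c1 with hE | hE | hE
    · obtain ⟨K2, hK2, s1, s0, cc⟩ := lift_level (by decide) hE.symm hp
      exact no883 (hK2.isCap k1) (by norm_num) chk883_1 s1 s0 (by rw [cc, c0]) (by rw [cc, c2])
    · obtain ⟨K2, hK2, s1, s0, cc⟩ := lift_level (by decide) hE.symm hp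
      exact no883 (hK2.isCap k1) (by norm_num) chk883_2 s1 s0 (by rw [cc, c0]) (by rw [cc, c2])
    · obtain ⟨K2, hK2, s1, s0, cc⟩ := lift_level (by decide) hE.symm hp
      exact no883 (hK2.isCap k1) (by norm_num) chk883_3 s1 s0 (by rw [cc, c0]) (by rw [cc, c2])

/-- the standard 19-cap as a punctured cone over the elliptic quadric -/
theorem k19_eq : ofL 4 k19 = ((Finset.univ.filter fun x : Fin 4 → ZMod 3 =>
    x 0 * x 0 + x 1 * x 1 + x 2 * x 3 = 0 ∧ x ≠ 0).erase ![0, 0, 0, 2]) := by decide +kernel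

/-- **Package B2.** -/
theorem contains19 {K : Finset (Fin 4 → ZMod 3)} (hK : IsCap K) (hc : 19 ≤ K.card) :
    ∃ (A A' : Matrix (Fin 4) (Fin 4) (ZMod 3)) (b : Fin 4 → ZMod 3), A * A' = 1 ∧ A' * A = 1 ∧
      ((Finset.univ.filter fun x : Fin 4 → ZMod 3 =>
        x 0 * x 0 + x 1 * x 1 + x 2 * x 3 = 0 ∧ x ≠ 0).erase ![0, 0, 0, 2]).image
          (fun x => A.mulVec x + b) ⊆ K := by
  obtain ⟨E, hE, hEc⟩ := Finset.exists_subset_card_eq hc
  obtain ⟨A, A', b, h1, h2, h3⟩ := caps19 (hK.subset hE) hEc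
  refine ⟨A, A', b, h1, h2, ?_⟩
  rw [← k19_eq, ← h3]
  exact hE

end Pool.Agent.T2H98.EGZ
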