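import Pool.Agent.T2H98.EGZ.Reduction
import Pool.Agent.T2H98.EGZ.Caps4

/-!
# Assembly: from the classification of the 45-caps of `F_3^5` and the nonexistence of a lift of the
standard one to the negation of the conjecture
-/

set_option autoImplicit false

namespace Pool.Agent.T2H98.EGZ

open Finset

theorem codes45_lt5 : ∀ a ∈ codes45, a < 3 ^ 5 := by decide +kernel

theorem codes45_nodup : codes45.Nodup := by decide +kernel

theorem codes_D45 : codes45.toFinset = codes D45 := codes_ofL codes45_lt5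

theorem D45_card : D45.card = 45 := by
  rw [← codes_card, ← codes_D45, List.toFinset_card_of_nodup codes45_nodup]
  rfl

theorem cap_check : (codes45.all fun a => codes45.all fun b =>
    (Nat.beq a b).or (bit0 (mask codes45) (thr 5 a b))) = true := by decide +kernel

theorem complete_check : ((List.range 243).all fun x =>
    (!(bit0 (mask codes45) x)).or (codes45.any fun a => !(bit0 (mask codes45) (thr 5 x a))))
    = true := by decide +kernel

theorem mem_D45 {a : ℕ} (h : a ∈ codes45) : pt 5 a ∈ D45 := by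
  rw [← mem_codes' (codes45_lt5 a h), ← codes_D45]
  exact List.mem_toFinset.2 h

theorem code_mem_D45 {x : Fin 5 → ZMod 3} (h : x ∈ D45) : code 5 x ∈ codes45 := by
  rw [← mem_codes, ← codes_D45] at h
  exact List.mem_toFinset.1 h

/-- the standard 45-cap is a cap -/
theorem D45_cap : IsCap D45 := by
  intro x hx y hy z hz hs
  have h1 := (List.all_eq_true.1 ((List.all_eq_true.1 cap_check) _ (code_mem_D45 hx))) _
    (code_mem_D45 hy)
  simp only [Bool.or_eq_true, Nat.beq_eq, bit0_iff, Bool.not_eq_true'] at h1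
  rcases h1 with h | h
  · exact code_injective 5 h
  · exfalso
    have hz' : z = -(x + y) := by rw [← add_eq_zero_iff_eq_neg']; exact hs
    rw [code_third, ← hz'] at h
    rw [(testBit_mask _ _).2 (code_mem_D45 hz)] at h
    exact absurd h (by decide)

/-- every point outside the standard 45-cap is on a secant -/
theorem D45_complete {x : Fin 5 → ZMod 3} (hx : x ∉ D45) :
    ∃ a ∈ D45, ∃ b ∈ D45, x + a + b = 0 := by
  have h1 := (List.all_eq_true.1 complete_check) (code 5 x) (List.mem_range.2 (code_lt 5 x))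
  simp only [Bool.or_eq_true, bit0_iff, Bool.not_not, List.any_eq_true, testBit_mask] at h1
  rcases h1 with h | ⟨a, ha, h⟩
  · exfalso
    apply hx
    have := mem_D45 h
    rwa [pt_code] at this
  · refine ⟨pt 5 a, mem_D45 ha, pt 5 (thr 5 (code 5 x) a), mem_D45 h, ?_⟩
    rw [pt_thr, pt_code]
    abel

/-- A cap with at least 45 points one of whose 45-subsets is equivalent to `D45` is equivalent to
`D45`. -/
theorem affEq_of_subset {D E : Finset (Fin 5 → ZMod 3)} (hD : IsCap D) (hE : E ⊆ D)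
    (h : AffEq D45 E) : AffEq D45 D := by
  classical
  obtain ⟨A, A', b, h1, h2, h3⟩ := h.symm
  have hD' : AffEq D (D.image fun x => A.mulVec x + b) := ⟨A, A', b, h1, h2, rfl⟩
  have hsub : D45 ⊆ D.image fun x => A.mulVec x + b := by
    rw [h3]; exact Finset.image_subset_image hE
  have heq : D45 = D.image fun x => A.mulVec x + b := by
    refine Finset.Subset.antisymm hsub ?_
    intro x hx
    by_contra hno
    obtain ⟨a, ha, c, hc, hs⟩ := D45_complete hno
    have := (hD'.isCap hD) x hx a (hsub ha) c (hsub hc) hs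
    rw [this] at hno
    exact hno ha
  rw [← heq] at hD'
  exact hD'.symm

/-- The excluded classes. -/
def BigCls (D : Finset (Fin 5 → ZMod 3)) (ξ : Fin 5 → ZMod 3) : Prop :=
  Cls D ξ 20 20 5 ∨ Cls D ξ 20 19 6 ∨ Cls D ξ 20 18 7 ∨ Cls D ξ 19 19 7 ∨ Cls D ξ 19 18 8

/-- **Classification of the caps with at least 45 points in `F_3^5`**, from the two parts. -/
theorem classify_of
    (hbig : ∀ D : Finset (Fin 5 → ZMod 3), IsCap D → D.card = 45 → ∀ ξ, ξ ≠ 0 → ¬ BigCls D ξ)
    (htight : ∀ D : Finset (Fin 5 → ZMod 3), IsCap D → D.card = 45 →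
      (∀ ξ, ξ ≠ 0 → Cls D ξ 15 15 15 ∨ Cls D ξ 18 18 9) → (∃ ξ, ξ ≠ 0 ∧ Cls D ξ 18 18 9) →
      AffEq D45 D)
    {D : Finset (Fin 5 → ZMod 3)} (hD : IsCap D) (hc : 45 ≤ D.card) : AffEq D45 D := by
  obtain ⟨E, hE, hEc⟩ := Finset.exists_subset_card_eq hc
  have hEcap := hD.subset hE
  refine affEq_of_subset hD hE ?_
  rcases class45 hEcap hEc with ⟨ξ, hξ, h⟩ | ⟨h1, h2⟩
  · exact absurd h (hbig E hEcap hEc ξ hξ)
  · exact htight E hEcap hEc h1 h2

/-! ### transfer of lifts -/

/-- the lift of a residue -/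
def up (c : ZMod 3) : ZMod 9 := (c.val : ZMod 9)

theorem red9_up (c : ZMod 3) : red9 (up c) = c := by
  unfold up
  rw [map_natCast, ZMod.natCast_val, ZMod.cast_id]

theorem isUnit_of_red9 {x : ZMod 9} (h : red9 x ≠ 0) : IsUnit x := by
  have h1 : ∀ x : ZMod 9, (∃ y, x * y = 1) ∨ ∃ y, x = 3 * y := by decide
  rcases h1 x with ⟨y, hy⟩ | ⟨y, rfl⟩
  · exact IsUnit.of_mul_eq_one _ hy
  · exfalso
    apply h
    rw [map_mul]
    have : red9 (3 : ZMod 9) = 0 := by
      have h2 : (3 : ZMod 9) = ((3 : ℕ) : ZMod 9) := rfl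
      rw [h2, map_natCast]
      decide
    rw [this, zero_mul]

theorem lift_transfer {D D' : Finset (Fin 5 → ZMod 3)} (h : AffEq D D')
    {v : (Fin 5 → ZMod 3) → (Fin 5 → ZMod 9)} (hv : IsLift D' v) : ∃ v', IsLift D v' := by
  classical
  obtain ⟨A, A', b, h1, h2, rfl⟩ := h
  let B : Matrix (Fin 5) (Fin 5) (ZMod 9) := A'.map up
  let c : Fin 5 → ZMod 9 := fun k => up (b k)
  have hBmap : B.map red9 = A' := by
    ext i j
    simp only [B, Matrix.map_apply, red9_up]
  have hdet : IsUnit B.det := by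
    apply isUnit_of_red9
    rw [RingHom.map_det, RingHom.mapMatrix_apply, hBmap]
    intro h0
    have h3 := congrArg Matrix.det h1
    rw [Matrix.det_mul, h0, mul_zero, Matrix.det_one] at h3
    exact absurd h3 (by decide)
  let φ : (Fin 5 → ZMod 3) ≃ (Fin 5 → ZMod 3) :=
    { toFun := fun x => A.mulVec x + b
      invFun := fun y => A'.mulVec (y - b)
      left_inv := by
        intro x
        simp only [add_sub_cancel_right, Matrix.mulVec_mulVec, h2, Matrix.one_mulVec]
      right_inv := by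
        intro y
        simp only [Matrix.mulVec_mulVec, h1, Matrix.one_mulVec, sub_add_cancel] }
  have hφ : ∀ x, φ x = A.mulVec x + b := fun _ => rfl
  refine ⟨fun a => B.mulVec (v (φ a) - c), ⟨?_, ?_⟩⟩
  · intro a ha k
    rw [RingHom.map_mulVec, hBmap]
    have h3 : (red9 ∘ (v (φ a) - c)) = A.mulVec a := by
      funext i
      simp only [Function.comp_apply, Pi.sub_apply, map_sub]
      rw [hv.red (φ a) (Finset.mem_image.2 ⟨a, ha, rfl⟩), red9_up, hφ, Pi.add_apply,
        add_sub_cancel_right]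
    rw [h3, Matrix.mulVec_mulVec, h2, Matrix.one_mulVec]
  · intro α hα hsum hzero
    have h4 : B.mulVec (∑ a, α a • v (φ a)) = 0 := by
      rw [← hzero]
      have h5 : ∑ a, α a • v (φ a) = ∑ a, α a • (v (φ a) - c) := by
        have h6 : ∑ a, α a • (v (φ a) - c) = ∑ a, α a • v (φ a) - (∑ a, α a) • c := by
          rw [Finset.sum_smul, ← Finset.sum_sub_distrib]
          exact Finset.sum_congr rfl fun a _ => smul_sub _ _ _
        have h7 : (9 : ℕ) • c = 0 := by
          funext k
          simp only [Pi.smul_apply, Pi.zero_apply]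
          have : ∀ x : ZMod 9, (9 : ℕ) • x = 0 := by decide
          exact this _
        rw [h6, hsum, h7, sub_zero]
      rw [h5, Matrix.mulVec_sum]
      exact Finset.sum_congr rfl fun a _ => Matrix.mulVec_smul _ _ _
    have h8 : ∑ a, α a • v (φ a) = 0 := by
      have h9 : (B⁻¹ * B).mulVec (∑ a, α a • v (φ a)) = 0 := by
        rw [← Matrix.mulVec_mulVec, h4, Matrix.mulVec_zero]
      rwa [Matrix.nonsing_inv_mul _ hdet, Matrix.one_mulVec] at h9
    have z1 : ∀ y, y ∉ D.image (fun x => A.mulVec x + b) → α (φ.symm y) = 0 := by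
      intro y hy
      apply hα
      intro hmem
      apply hy
      refine Finset.mem_image.2 ⟨φ.symm y, hmem, ?_⟩
      exact φ.apply_symm_apply y
    have z2 : ∑ y, α (φ.symm y) = 9 := by
      rw [Equiv.sum_comp φ.symm α]; exact hsum
    have z3 : ∑ y, α (φ.symm y) • v y = 0 := by
      rw [← h8, ← Equiv.sum_comp φ]
      refine Finset.sum_congr rfl fun a _ => ?_
      rw [Equiv.symm_apply_apply]
    obtain ⟨y, hy⟩ := hv.zs (fun y => α (φ.symm y)) z1 z2 z3
    exact ⟨_, hy⟩

/-- **The assembly.** -/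
theorem final_of
    (hbig : ∀ D : Finset (Fin 5 → ZMod 3), IsCap D → D.card = 45 → ∀ ξ, ξ ≠ 0 → ¬ BigCls D ξ)
    (htight : ∀ D : Finset (Fin 5 → ZMod 3), IsCap D → D.card = 45 →
      (∀ ξ, ξ ≠ 0 → Cls D ξ 15 15 15 ∨ Cls D ξ 18 18 9) → (∃ ξ, ξ ≠ 0 ∧ Cls D ξ 18 18 9) →
      AffEq D45 D)
    (hno : ¬ ∃ v, IsLift D45 v) :
    ¬ (∀ n : ℕ, Odd n → 3 ≤ n → ∀ r : ℕ,
      sInf {l : ℕ | ∀ f : Fin l → (Fin r → ZMod n), ∃ I : Finset (Fin l),
          I.card = AddMonoid.exponent (Fin r → ZMod n) ∧ ∑ i ∈ I, f i = 0}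
        = (sInf {l : ℕ | ∀ S : Finset (Fin r → ZMod 3), l ≤ S.card →
              ∃ T ⊆ S, T.card = AddMonoid.exponent (Fin r → ZMod 3) ∧ ∑ x ∈ T, x = 0} - 1)
            * (n - 1) + 1) := by
  intro h
  obtain ⟨D, hD, hmax, v, hv⟩ := reduction h
  have hc : 45 ≤ D.card := by
    rw [← D45_card]; exact hmax _ D45_cap
  exact hno (lift_transfer (classify_of hbig htight hD hc) hv)

end Pool.Agent.T2H98.EGZ
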