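import Pool.Agent.T2H98.EGZ.Constr

/-! # Package B: soundness of the base packs -/

set_option autoImplicit false

namespace Pool.Agent.T2H98.EGZ

open K

variable {v : (Fin 5 → ZMod 3) → (Fin 5 → ZMod 9)}

/-! ## the full mask -/

def l3 : List ℕ := [0, 1, 2]

def l6 : List ℕ := [0, 1, 2, 3, 4, 5]

theorem fW1 : (l3.all fun a => l3.all fun b => l3.all fun c => l3.all fun d => l3.all fun e =>
    W1.testBit (ps a b c d e)) = true := by
  decide +kernel

theorem fW2 : (l6.all fun a => l6.all fun b => l6.all fun c => l6.all fun d => l3.all fun e =>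
    !(W1.testBit (ps a b c d e)) || (decide (a ≤ 2) && decide (b ≤ 2) && decide (c ≤ 2) &&
      decide (d ≤ 2))) = true := by
  decide +kernel

set_option exponentiation.threshold 8000 in
theorem W1_lt : W1 < 2 ^ 3888 := by decide +kernel

theorem mem_l3 {a : ℕ} (h : a ≤ 2) : a ∈ l3 := by
  unfold l3
  interval_cases a <;> simp

theorem mem_l6 {a : ℕ} (h : a < 6) : a ∈ l6 := by
  unfold l6
  interval_cases a <;> simp

theorem W1_pos (w : Fin 5 → ZMod 3) : W1.testBit (pos w) = true := by
  have hw : ∀ k, (w k).val ≤ 2 := fun k => by have := ZMod.val_lt (w k); omega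
  rw [pos5]
  have h2 := List.all_eq_true.1 fW1 _ (mem_l3 (hw 0))
  have h3 := List.all_eq_true.1 h2 _ (mem_l3 (hw 1))
  have h4 := List.all_eq_true.1 h3 _ (mem_l3 (hw 2))
  have h5 := List.all_eq_true.1 h4 _ (mem_l3 (hw 3))
  exact List.all_eq_true.1 h5 _ (mem_l3 (hw 4))

theorem W1_wf {i : ℕ} (h : W1.testBit i = true) : ∃ w : Fin 5 → ZMod 3, i = pos w := by
  have hi : i < 3888 := by
    by_contra hcon
    rw [not_lt] at hcon
    have h1 : W1 < 2 ^ i := lt_of_lt_of_le W1_lt (Nat.pow_le_pow_right (by norm_num) hcon)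
    rw [Nat.testBit_lt_two_pow h1] at h
    exact absurd h (by decide)
  obtain ⟨a, b, c, d, e, ha, hb, hc, hd, he, hi2⟩ : ∃ a b c d e : ℕ, a < 6 ∧ b < 6 ∧ c < 6 ∧ d < 6 ∧
      e ≤ 2 ∧ i = ps a b c d e := by
    refine ⟨i % 6, i / 6 % 6, i / 6 / 6 % 6, i / 6 / 6 / 6 % 6, i / 6 / 6 / 6 / 6, ?_, ?_, ?_, ?_,
      ?_, ?_⟩
    · omega
    · omega
    · omega
    · omega
    · omega
    · unfold ps; omega
  have h2 := List.all_eq_true.1 fW2 _ (mem_l6 ha)
  have h3 := List.all_eq_true.1 h2 _ (mem_l6 hb)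
  have h4 := List.all_eq_true.1 h3 _ (mem_l6 hc)
  have h5 := List.all_eq_true.1 h4 _ (mem_l6 hd)
  have h6 := List.all_eq_true.1 h5 _ (mem_l3 he)
  rw [← hi2, h] at h6
  simp only [Bool.not_true, Bool.false_or, Bool.and_eq_true, decide_eq_true_eq] at h6
  obtain ⟨⟨⟨a2, b2⟩, c2⟩, d2⟩ := h6
  refine ⟨![(a : ZMod 3), b, c, d, e], ?_⟩
  have hval : ∀ x : ℕ, x ≤ 2 → ((x : ZMod 3)).val = x := by
    intro x hx
    rw [ZMod.val_natCast, Nat.mod_eq_of_lt (by omega)]
  rw [pos5, hi2]
  simp only [Matrix.cons_val_zero, Matrix.cons_val_one, Matrix.cons_val]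
  rw [hval a a2, hval b b2, hval c c2, hval d d2, hval e he]

/-! ## packs -/

theorem POK_mono {T T' : ℕ} (h : ∀ i, T.testBit i = true → T'.testBit i = true) :
    ∀ (ys : List (Fin 5 → ZMod 3)) (w : Fin 5 → ZMod 3) (off : ℕ), POK T ys w off →
      POK T' ys w off := by
  intro ys
  induction ys with
  | nil => intro w off h1; exact h _ h1
  | cons y ys ih =>
    intro w off h1
    exact ⟨ih _ _ h1.1, ih _ _ h1.2.1, ih _ _ h1.2.2⟩

theorem POK_shift {T s : ℕ} : ∀ (ys : List (Fin 5 → ZMod 3)) (w : Fin 5 → ZMod 3) (off : ℕ),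
    POK T ys w off → POK (T <<< s) ys w (off + s) := by
  intro ys
  induction ys with
  | nil =>
    intro w off h1
    show (T <<< s).testBit (off + s + pos w) = true
    rw [Nat.testBit_shiftLeft]
    have h2 : off + s + pos w - s = off + pos w := by omega
    have h3 : decide (off + s + pos w ≥ s) = true := decide_eq_true (by omega)
    rw [h2, h3]
    exact h1
  | cons y ys ih =>
    intro w off h1
    refine ⟨ih _ _ h1.1, ?_, ?_⟩
    · have h2 := ih _ _ h1.2.1
      rw [add_right_comm off] at h2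
      exact h2
    · have h2 := ih _ _ h1.2.2
      rw [add_right_comm off] at h2
      exact h2

theorem Wf_or {T0 T1 T2 m : ℕ} (h0 : Wf T0 m) (h1 : Wf T1 m) (h2 : Wf T2 m) :
    Wf (T0 ||| (T1 <<< (7776 * 3 ^ m) ||| T2 <<< (7776 * 3 ^ m + 7776 * 3 ^ m))) (m + 1) := by
  intro i hi
  rw [Nat.testBit_or, Nat.testBit_or, Nat.testBit_shiftLeft, Nat.testBit_shiftLeft,
    Bool.or_eq_true, Bool.or_eq_true, Bool.and_eq_true, Bool.and_eq_true, decide_eq_true_eq,
    decide_eq_true_eq] at hi
  have hp : 3 ^ (m + 1) = 3 ^ m + 3 ^ m + 3 ^ m := by rw [pow_succ]; omega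
  rcases hi with hi | hi | hi
  · obtain ⟨c, hc, w, hw⟩ := h0 i hi
    exact ⟨c, by omega, w, hw⟩
  · obtain ⟨c, hc, w, hw⟩ := h1 _ hi.2
    refine ⟨3 ^ m + c, by omega, w, ?_⟩
    have := hi.1
    have e : 7776 * (3 ^ m + c) = 7776 * 3 ^ m + 7776 * c := by ring
    omega
  · obtain ⟨c, hc, w, hw⟩ := h2 _ hi.2
    refine ⟨3 ^ m + 3 ^ m + c, by omega, w, ?_⟩
    have := hi.1
    have e : 7776 * (3 ^ m + 3 ^ m + c) = 7776 * 3 ^ m + 7776 * 3 ^ m + 7776 * c := by ring
    omega

/-! ## gauge points -/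

theorem gsum_ok (gs : List ℕ) : ∀ gam : ℕ, ∃ G : List ℕ, (∀ c ∈ G, c ∈ gs) ∧
    G.length ≤ 2 * gs.length ∧ gsum (gs.map statn) gam = (G.map statn).sum := by
  induction gs with
  | nil => intro gam; exact ⟨[], by simp, by simp, rfl⟩
  | cons g gs ih =>
    intro gam
    obtain ⟨G, h1, h2, h3⟩ := ih (gam >>> 8)
    refine ⟨List.replicate (dm gam 0) g ++ G, ?_, ?_, ?_⟩
    · intro c hc
      rw [List.mem_append] at hc
      rcases hc with hc | hc
      · rw [List.eq_of_mem_replicate hc]; exact List.mem_cons_self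
      · exact List.mem_cons_of_mem _ (h1 c hc)
    · rw [List.length_append, List.length_replicate, List.length_cons]
      have : dm gam 0 < 3 := by rw [dm_eq]; exact Nat.mod_lt _ (by norm_num)
      omega
    · have e : gsum ((g :: gs).map statn) gam = dm gam 0 * statn g + gsum (gs.map statn) (gam >>> 8) :=
        rfl
      rw [e, h3, List.map_append, List.sum_append, List.map_replicate, List.sum_replicate,
        smul_eq_mul]

/-- invariant of the construction: `A`, `B` are the stat sums of multisets containing the target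
once, twice; `o` is the offset -/
def Inv (v : (Fin 5 → ZMod 3) → (Fin 5 → ZMod 9)) (t n : ℕ) (A B o : ℕ) (w : Fin 5 → ZMod 3) :
    Prop :=
  ∃ (LA LB : List ℕ) (of : Fin 5 → ℕ), (∀ c ∈ LA, c ∈ codes45) ∧ (∀ c ∈ LB, c ∈ codes45) ∧
    LA.count t = 1 ∧ LB.count t = 2 ∧ LA.length ≤ n ∧ LB.length ≤ n ∧
    A = (LA.map statn).sum ∧ B = (LB.map statn).sum ∧ (∀ k, of k ≤ n) ∧
    o = ∑ k, of k * 2 ^ (8 * (k : ℕ)) ∧
    (LA.map (uu v)).sum = w + (fun k => (of k : ZMod 3)) ∧
    (LB.map (uu v)).sum = (2 : ZMod 3) • (w + (fun k => (of k : ZMod 3)))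

theorem leaf_ok (hv : IsLift D45 v) (gs : List ℕ) (hgs : ∀ g ∈ gs, g ∈ codes45 ∧ uu v g = 0)
    (hgl : gs.length ≤ 6) (t : ℕ) (htg : t ∉ gs) (n A B o gam m : ℕ) (hn : n ≤ 80)
    (w : Fin 5 → ZMod 3) (hI : Inv v t n A B o w) (hm : m.testBit (pos w) = true) :
    (leaf (gs.map statn) A B gam o m).testBit (pos w) = true := by
  obtain ⟨LA, LB, of, a1, a2, a3, a4, a5, a6, a7, a8, a9, a10, a11, a12⟩ := hI
  have e : leaf (gs.map statn) A B gam o m = cst 1 (B + gsum (gs.map statn) (gam + gam)) o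
    (cst 0 (A + gsum (gs.map statn) gam) o m) := rfl
  rw [e]
  have huu : ∀ G : List ℕ, (∀ c ∈ G, c ∈ gs) → (G.map (uu v)).sum = 0 := by
    intro G hG
    induction G with
    | nil => rfl
    | cons c G ih =>
      rw [List.map_cons, List.sum_cons, (hgs c (hG c List.mem_cons_self)).2, zero_add]
      exact ih fun d hd => hG d (List.mem_cons_of_mem _ hd)
  obtain ⟨G1, g1, g2, g3⟩ := gsum_ok gs gam
  obtain ⟨G2, k1, k2, k3⟩ := gsum_ok gs (gam + gam)
  have c1 : G1.count t = 0 := List.count_eq_zero.2 fun h => htg (g1 _ h)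
  have c2 : G2.count t = 0 := List.count_eq_zero.2 fun h => htg (k1 _ h)
  refine cst_ok hv (LB ++ G2) ?_ t 1 le_rfl ?_ ?_ _ o _ ?_ (fun k => (of k : ZMod 3)) w of ?_ a10
    (fun k => rfl) ?_ ?_
  · intro c hc
    rw [List.mem_append] at hc
    rcases hc with hc | hc
    · exact a2 c hc
    · exact (hgs c (k1 c hc)).1
  · rw [List.count_append, a4, c2]
  · rw [List.length_append]; omega
  · rw [List.map_append, List.sum_append, a8, k3]
  · intro k; have := a9 k; omega
  · rw [List.map_append, List.sum_append, huu G2 k1, add_zero, a12]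
    rfl
  · refine cst_ok hv (LA ++ G1) ?_ t 0 (by norm_num) ?_ ?_ _ o _ ?_ (fun k => (of k : ZMod 3)) w of
      ?_ a10 (fun k => rfl) ?_ hm
    · intro c hc
      rw [List.mem_append] at hc
      rcases hc with hc | hc
      · exact a1 c hc
      · exact (hgs c (g1 c hc)).1
    · rw [List.count_append, a3, c1]
    · rw [List.length_append]; omega
    · rw [List.map_append, List.sum_append, a7, g3]
    · intro k; have := a9 k; omega
    · rw [List.map_append, List.sum_append, huu G1 g1, add_zero, a11]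
      simp

theorem leaf_sub (gs : List ℕ) (A B gam o m i : ℕ) (h : (leaf gs A B gam o m).testBit i = true) :
    m.testBit i = true :=
  cst_sub _ _ _ _ _ (cst_sub _ _ _ _ _ h)

theorem ones5 : ∑ k : Fin 5, 1 * 2 ^ (8 * (k : ℕ)) = 0x101010101 := by decide

theorem z3_two (a b : ZMod 3) : a + 2 * b = 2 * (b + 2 * a) := by
  revert a b; decide

theorem Inv_root1 {t n A B o d : ℕ} {w : Fin 5 → ZMod 3} (hd : d ∈ codes45) (htd : t ≠ d)
    (hI : Inv v t n A B o w) :
    Inv v t (n + 4) (A + statn d) (B + (statn d + statn d)) (o + yfn (uu v d)) w := by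
  obtain ⟨LA, LB, of, a1, a2, a3, a4, a5, a6, a7, a8, a9, a10, a11, a12⟩ := hI
  refine ⟨d :: LA, d :: d :: LB, fun k => of k + (uu v d k).val, ?_, ?_, ?_, ?_, ?_, ?_, ?_, ?_, ?_,
    ?_, ?_, ?_⟩
  · intro c hc
    rcases List.mem_cons.1 hc with h | h
    · rw [h]; exact hd
    · exact a1 c h
  · intro c hc
    rcases List.mem_cons.1 hc with h | h
    · rw [h]; exact hd
    · rcases List.mem_cons.1 h with h | h
      · rw [h]; exact hd
      · exact a2 c h
  · rw [List.count_cons_of_ne htd.symm, a3]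
  · rw [List.count_cons_of_ne htd.symm, List.count_cons_of_ne htd.symm, a4]
  · rw [List.length_cons]; omega
  · rw [List.length_cons, List.length_cons]; omega
  · rw [List.map_cons, List.sum_cons, ← a7, add_comm]
  · rw [List.map_cons, List.sum_cons, List.map_cons, List.sum_cons, ← a8]; ring
  · intro k
    have h1 := a9 k
    have h2 := ZMod.val_lt (uu v d k)
    dsimp only
    omega
  · rw [a10]
    unfold yfn
    rw [← Finset.sum_add_distrib]
    refine Finset.sum_congr rfl fun k _ => ?_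
    rw [add_mul]
  · rw [List.map_cons, List.sum_cons, a11]
    funext k
    simp only [Pi.add_apply]
    push_cast
    rw [ZMod.natCast_zmod_val]
    ring
  · rw [List.map_cons, List.sum_cons, List.map_cons, List.sum_cons, a12]
    funext k
    simp only [Pi.add_apply, Pi.smul_apply, smul_eq_mul]
    push_cast
    rw [ZMod.natCast_zmod_val]
    ring

theorem Inv_root2 {t n A B o d : ℕ} {w : Fin 5 → ZMod 3} (hd : d ∈ codes45) (htd : t ≠ d)
    (hI : Inv v t n A B o w) :
    Inv v t (n + 4) (A + (statn d + statn d)) (B + statn d)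
      (o + (yfn (uu v d) + yfn (uu v d))) w := by
  obtain ⟨LA, LB, of, a1, a2, a3, a4, a5, a6, a7, a8, a9, a10, a11, a12⟩ := hI
  refine ⟨d :: d :: LA, d :: LB, fun k => of k + ((uu v d k).val + (uu v d k).val), ?_, ?_, ?_, ?_,
    ?_, ?_, ?_, ?_, ?_, ?_, ?_, ?_⟩
  · intro c hc
    rcases List.mem_cons.1 hc with h | h
    · rw [h]; exact hd
    · rcases List.mem_cons.1 h with h | h
      · rw [h]; exact hd
      · exact a1 c h
  · intro c hc
    rcases List.mem_cons.1 hc with h | h
    · rw [h]; exact hd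
    · exact a2 c h
  · rw [List.count_cons_of_ne htd.symm, List.count_cons_of_ne htd.symm, a3]
  · rw [List.count_cons_of_ne htd.symm, a4]
  · rw [List.length_cons, List.length_cons]; omega
  · rw [List.length_cons]; omega
  · rw [List.map_cons, List.sum_cons, List.map_cons, List.sum_cons, ← a7]; ring
  · rw [List.map_cons, List.sum_cons, ← a8, add_comm]
  · intro k
    have h1 := a9 k
    have h2 := ZMod.val_lt (uu v d k)
    dsimp only
    omega
  · rw [a10]
    unfold yfn
    rw [← Finset.sum_add_distrib, ← Finset.sum_add_distrib]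
    refine Finset.sum_congr rfl fun k _ => ?_
    ring
  · rw [List.map_cons, List.sum_cons, List.map_cons, List.sum_cons, a11]
    funext k
    simp only [Pi.add_apply]
    push_cast
    rw [ZMod.natCast_zmod_val]
    ring
  · rw [List.map_cons, List.sum_cons, a12]
    funext k
    simp only [Pi.add_apply, Pi.smul_apply, smul_eq_mul]
    push_cast
    rw [ZMod.natCast_zmod_val]
    generalize uu v d k = a
    have h1 : w k + ((of k : ZMod 3) + (a + a)) = (w k + (of k : ZMod 3)) + 2 * a := by ring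
    rw [h1]
    exact z3_two _ _

theorem Inv_ch1 {t n A B o d : ℕ} {w : Fin 5 → ZMod 3} (hd : d ∈ codes45) (htd : t ≠ d)
    (hI : Inv v t n A B o w) :
    Inv v t (n + 2) (A + statn d) (B + (statn d + statn d)) o (w + uu v d) := by
  obtain ⟨LA, LB, of, a1, a2, a3, a4, a5, a6, a7, a8, a9, a10, a11, a12⟩ := hI
  refine ⟨d :: LA, d :: d :: LB, of, ?_, ?_, ?_, ?_, ?_, ?_, ?_, ?_, ?_,
    a10, ?_, ?_⟩
  · intro c hc
    rcases List.mem_cons.1 hc with h | h
    · rw [h]; exact hd
    · exact a1 c h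
  · intro c hc
    rcases List.mem_cons.1 hc with h | h
    · rw [h]; exact hd
    · rcases List.mem_cons.1 h with h | h
      · rw [h]; exact hd
      · exact a2 c h
  · rw [List.count_cons_of_ne htd.symm, a3]
  · rw [List.count_cons_of_ne htd.symm, List.count_cons_of_ne htd.symm, a4]
  · rw [List.length_cons]; omega
  · rw [List.length_cons, List.length_cons]; omega
  · rw [List.map_cons, List.sum_cons, ← a7, add_comm]
  · rw [List.map_cons, List.sum_cons, List.map_cons, List.sum_cons, ← a8]; ring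
  · intro k
    have h1 := a9 k
    omega
  · rw [List.map_cons, List.sum_cons, a11]
    abel
  · rw [List.map_cons, List.sum_cons, List.map_cons, List.sum_cons, a12]
    funext k
    simp only [Pi.add_apply, Pi.smul_apply, smul_eq_mul]
    ring

theorem Inv_ch2 {t n A B o d : ℕ} {w : Fin 5 → ZMod 3} (hd : d ∈ codes45) (htd : t ≠ d)
    (hI : Inv v t n A B o w) :
    Inv v t (n + 2) (A + (statn d + statn d)) (B + statn d)
      (o + 0x101010101) (w + (2 : ZMod 3) • uu v d + 2) := by
  obtain ⟨LA, LB, of, a1, a2, a3, a4, a5, a6, a7, a8, a9, a10, a11, a12⟩ := hI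
  refine ⟨d :: d :: LA, d :: LB, fun k => of k + 1, ?_, ?_, ?_, ?_,
    ?_, ?_, ?_, ?_, ?_, ?_, ?_, ?_⟩
  · intro c hc
    rcases List.mem_cons.1 hc with h | h
    · rw [h]; exact hd
    · rcases List.mem_cons.1 h with h | h
      · rw [h]; exact hd
      · exact a1 c h
  · intro c hc
    rcases List.mem_cons.1 hc with h | h
    · rw [h]; exact hd
    · exact a2 c h
  · rw [List.count_cons_of_ne htd.symm, List.count_cons_of_ne htd.symm, a3]
  · rw [List.count_cons_of_ne htd.symm, a4]
  · rw [List.length_cons, List.length_cons]; omega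
  · rw [List.length_cons]; omega
  · rw [List.map_cons, List.sum_cons, List.map_cons, List.sum_cons, ← a7]; ring
  · rw [List.map_cons, List.sum_cons, ← a8, add_comm]
  · intro k
    have h1 := a9 k
    dsimp only
    omega
  · rw [a10, ← ones5, ← Finset.sum_add_distrib]
    refine Finset.sum_congr rfl fun k _ => ?_
    ring
  · rw [List.map_cons, List.sum_cons, List.map_cons, List.sum_cons, a11]
    funext k
    simp only [Pi.add_apply, Pi.smul_apply, smul_eq_mul, Pi.ofNat_apply]
    push_cast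
    generalize uu v d k = a
    generalize (of k : ZMod 3) = b
    generalize w k = c
    revert a b c
    decide
  · rw [List.map_cons, List.sum_cons, a12]
    funext k
    simp only [Pi.add_apply, Pi.smul_apply, smul_eq_mul, Pi.ofNat_apply]
    push_cast
    generalize uu v d k = a
    generalize (of k : ZMod 3) = b
    generalize w k = c
    revert a b c
    decide

theorem bld_nil (gs : List ℕ) (a0 st0 y0 s A B gam o : ℕ) :
    bld gs a0 st0 y0 [] s A B gam o =
      leaf gs (A + (st0 + st0)) (B + st0) (gam + (a0 + a0)) (o + (y0 + y0))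
        (leaf gs (A + st0) (B + (st0 + st0)) (gam + a0) (o + y0) (leaf gs A B gam o W1)) := rfl

theorem bld_cons (gs : List ℕ) (a0 st0 y0 : ℕ) (p : ℕ × ℕ) (cl : List (ℕ × ℕ))
    (s A B gam o : ℕ) :
    bld gs a0 st0 y0 (p :: cl) s A B gam o =
      bld gs a0 st0 y0 cl (s / 3) A B gam o |||
        (bld gs a0 st0 y0 cl (s / 3) (A + p.2) (B + (p.2 + p.2)) (gam + p.1) o <<< s |||
          bld gs a0 st0 y0 cl (s / 3) (A + (p.2 + p.2)) (B + p.2) (gam + (p.1 + p.1))
            (o + 0x101010101) <<< (s + s)) := rfl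

theorem bld_aux (hv : IsLift D45 v) (gs : List ℕ) (hgs : ∀ g ∈ gs, g ∈ codes45 ∧ uu v g = 0)
    (hgl : gs.length ≤ 6) (d : ℕ) (hd : d ∈ codes45) (t : ℕ) (htg : t ∉ gs) (htd : t ≠ d)
    (a0 : ℕ) : ∀ (ch : List ℕ) (cl : List (ℕ × ℕ)), cl.map Prod.snd = ch.map statn →
      (∀ c ∈ ch, c ∈ codes45) → t ∉ ch → ∀ (n A B gam o : ℕ) (w : Fin 5 → ZMod 3),
      n + 2 * ch.length ≤ 60 → Inv v t n A B o w →
      POK (bld (gs.map statn) a0 (statn d) (yfn (uu v d)) cl (7776 * 3 ^ ch.length / 3) A B gam o)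
        (ch.map (uu v)) w 0 ∧
      Wf (bld (gs.map statn) a0 (statn d) (yfn (uu v d)) cl (7776 * 3 ^ ch.length / 3) A B gam o)
        ch.length := by
  intro ch
  induction ch with
  | nil =>
    intro cl hcl _ _ n A B gam o w hn hI
    have hcl0 : cl = [] := by simpa using hcl
    subst hcl0
    rw [bld_nil]
    constructor
    · rw [List.map_nil, POK, zero_add]
      refine leaf_ok hv gs hgs hgl t htg (n + 4) _ _ _ _ _ (by omega) w (Inv_root2 hd htd hI) ?_
      refine leaf_ok hv gs hgs hgl t htg (n + 4) _ _ _ _ _ (by omega) w (Inv_root1 hd htd hI) ?_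
      exact leaf_ok hv gs hgs hgl t htg n _ _ _ _ _ (by omega) w hI (W1_pos w)
    · intro i hi
      obtain ⟨w', hw'⟩ := W1_wf (leaf_sub _ _ _ _ _ _ _ (leaf_sub _ _ _ _ _ _ _
        (leaf_sub _ _ _ _ _ _ _ hi)))
      exact ⟨0, by norm_num, w', by rw [hw']; ring⟩
  | cons c ch ih =>
    intro cl hcl hch htc n A B gam o w hn hI
    cases cl with
    | nil => simp at hcl
    | cons p cl =>
      rw [List.map_cons, List.map_cons, List.cons.injEq] at hcl
      obtain ⟨hp, hcl⟩ := hcl
      have hch' : ∀ c ∈ ch, c ∈ codes45 := fun x hx => hch x (List.mem_cons_of_mem _ hx)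
      have htc' : t ∉ ch := fun h => htc (List.mem_cons_of_mem _ h)
      have hc : c ∈ codes45 := hch c List.mem_cons_self
      have htc1 : t ≠ c := fun h => htc (h ▸ List.mem_cons_self)
      have hs1 : 7776 * 3 ^ (c :: ch).length / 3 = 7776 * 3 ^ ch.length := by
        rw [List.length_cons, pow_succ]; omega
      rw [List.length_cons] at hn
      rw [hs1, bld_cons, hp]
      obtain ⟨p0, f0⟩ := ih cl hcl hch' htc' (n + 2) A B gam o w (by omega) (by
        obtain ⟨LA, LB, of, a1, a2, a3, a4, a5, a6, a7, a8, a9, a10, a11, a12⟩ := hI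
        exact ⟨LA, LB, of, a1, a2, a3, a4, by omega, by omega, a7, a8, fun k => (a9 k).trans (by omega),
          a10, a11, a12⟩)
      obtain ⟨p1, f1⟩ := ih cl hcl hch' htc' (n + 2) (A + statn c) (B + (statn c + statn c))
        (gam + p.1) o _ (by omega) (Inv_ch1 hc htc1 hI)
      obtain ⟨p2, f2⟩ := ih cl hcl hch' htc' (n + 2) (A + (statn c + statn c)) (B + statn c)
        (gam + (p.1 + p.1)) (o + 0x101010101) _ (by omega) (Inv_ch2 hc htc1 hI)
      refine ⟨⟨?_, ?_, ?_⟩, ?_⟩
      · refine POK_mono (fun i hi => ?_) _ _ _ p0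
        rw [Nat.testBit_or, hi, Bool.true_or]
      · rw [List.length_map]
        refine POK_mono (fun i hi => ?_) _ _ _ (POK_shift (s := 7776 * 3 ^ ch.length) _ _ _ p1)
        rw [Nat.testBit_or, Nat.testBit_or, hi, Bool.true_or, Bool.or_true]
      · rw [List.length_map, two_mul]
        refine POK_mono (fun i hi => ?_) _ _ _
          (POK_shift (s := 7776 * 3 ^ ch.length + 7776 * 3 ^ ch.length) _ _ _ p2)
        rw [Nat.testBit_or, Nat.testBit_or, hi, Bool.or_true, Bool.or_true]
      · exact Wf_or f0 f1 f2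

theorem Inv_start {t : ℕ} (ht : t ∈ codes45) : Inv v t 2 (statn t) (2 * statn t) 0 (uu v t) := by
  refine ⟨[t], [t, t], fun _ => 0, ?_, ?_, ?_, ?_, ?_, ?_, ?_, ?_, ?_, ?_, ?_, ?_⟩
  · intro c hc
    rw [List.mem_singleton] at hc
    rw [hc]; exact ht
  · intro c hc
    rcases List.mem_cons.1 hc with h | h
    · rw [h]; exact ht
    · rw [List.mem_singleton] at h
      rw [h]; exact ht
  · rw [List.count_singleton_self]
  · rw [List.count_cons_self, List.count_singleton_self]
  · rw [List.length_singleton]; norm_num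
  · rw [List.length_cons, List.length_singleton]
  · rw [List.map_cons, List.map_nil, List.sum_cons, List.sum_nil, add_zero]
  · rw [List.map_cons, List.map_cons, List.map_nil, List.sum_cons, List.sum_cons, List.sum_nil,
      add_zero, two_mul]
  · intro k; exact Nat.zero_le _
  · rw [Finset.sum_eq_zero]
    intro k _
    rw [zero_mul]
  · rw [List.map_cons, List.map_nil, List.sum_cons, List.sum_nil, add_zero]
    funext k
    rw [Pi.add_apply, Nat.cast_zero, add_zero]
  · rw [List.map_cons, List.map_cons, List.map_nil, List.sum_cons, List.sum_cons, List.sum_nil,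
      add_zero]
    funext k
    rw [Pi.smul_apply, Pi.add_apply, Pi.add_apply, Nat.cast_zero, add_zero, smul_eq_mul, two_mul]

/-- the base pack of the target `t` with chain variables `ch`, gauge points `gs` and root `d`;
the gauge coordinates (`a0`, `gam`, first components of `cl`) are arbitrary -/
theorem bld_ok (hv : IsLift D45 v) (gs : List ℕ) (hgs : ∀ g ∈ gs, g ∈ codes45 ∧ uu v g = 0)
    (hgl : gs.length ≤ 6) (d : ℕ) (hd : d ∈ codes45) (ch : List ℕ) (hch : ∀ c ∈ ch, c ∈ codes45)
    (hcl : ch.length ≤ 6) (t : ℕ) (ht : t ∈ codes45) (htg : t ∉ gs) (htd : t ≠ d) (htc : t ∉ ch)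
    (a0 gam : ℕ) (cl : List (ℕ × ℕ)) (hcl' : cl.map Prod.snd = ch.map statn) :
    POK (bld (gs.map statn) a0 (statn d) (yfn (uu v d)) cl (7776 * 3 ^ ch.length / 3) (statn t)
      (2 * statn t) gam 0) (ch.map (uu v)) (uu v t) 0 ∧
    Wf (bld (gs.map statn) a0 (statn d) (yfn (uu v d)) cl (7776 * 3 ^ ch.length / 3) (statn t)
      (2 * statn t) gam 0) ch.length := by
  exact bld_aux hv gs hgs hgl d hd t htg htd a0 ch cl hcl' hch htc 2 (statn t) (2 * statn t) gam 0
    (uu v t) (by omega) (Inv_start ht)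

end Pool.Agent.T2H98.EGZ
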