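import Pool.Agent.T2H98.EGZ.Aff

/-!
# Package B1: caps in dimensions 2, 3, 4 have at most 4, 9, 20 points; classes of 45-caps
-/

set_option autoImplicit false

namespace Pool.Agent.T2H98.EGZ

open Finset

variable {r : ℕ}

/-- the parts of `D` with respect to `ξ` are `a, b, c` in some order -/
def Cls (D : Finset (Fin r → ZMod 3)) (ξ : Fin r → ZMod 3) (a b c : ℕ) : Prop :=
  ∃ σ : Equiv.Perm (ZMod 3), nn D ξ (σ 0) = a ∧ nn D ξ (σ 1) = b ∧ nn D ξ (σ 2) = c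

theorem prod3 (f : ZMod 3 → ℕ) : ∏ j, f j = f 0 * f 1 * f 2 := Fin.prod_univ_three f

theorem sum3_perm (f : ZMod 3 → ℕ) (σ : Equiv.Perm (ZMod 3)) :
    f 0 + f 1 + f 2 = f (σ 0) + f (σ 1) + f (σ 2) := by
  rw [← sum3, ← sum3 (fun j => f (σ j)), Equiv.sum_comp σ f]

theorem prod3_perm (f : ZMod 3 → ℕ) (σ : Equiv.Perm (ZMod 3)) :
    f 0 * f 1 * f 2 = f (σ 0) * f (σ 1) * f (σ 2) := by
  rw [← prod3, ← prod3 (fun j => f (σ j)), Equiv.prod_comp σ f]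

theorem Cls.sum {D : Finset (Fin r → ZMod 3)} {ξ : Fin r → ZMod 3} {a b c : ℕ}
    (h : Cls D ξ a b c) : a + b + c = D.card := by
  obtain ⟨σ, rfl, rfl, rfl⟩ := h
  rw [← nn_sum D ξ, sum3_perm (nn D ξ) σ]

theorem Cls.S2 {D : Finset (Fin r → ZMod 3)} {ξ : Fin r → ZMod 3} {a b c : ℕ}
    (h : Cls D ξ a b c) : S2 D ξ = a ^ 2 + b ^ 2 + c ^ 2 := by
  obtain ⟨σ, rfl, rfl, rfl⟩ := h
  exact sum3_perm (fun j => nn D ξ j ^ 2) σ

theorem Cls.S3 {D : Finset (Fin r → ZMod 3)} {ξ : Fin r → ZMod 3} {a b c : ℕ}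
    (h : Cls D ξ a b c) : S3 D ξ = a ^ 3 + b ^ 3 + c ^ 3 + 6 * (a * b * c) := by
  obtain ⟨σ, rfl, rfl, rfl⟩ := h
  rw [EGZ.S3, sum3_perm (fun j => nn D ξ j ^ 3) σ, prod3_perm (nn D ξ) σ]

theorem exists_cls (D : Finset (Fin r → ZMod 3)) (ξ : Fin r → ZMod 3) :
    ∃ a b c, b ≤ a ∧ c ≤ b ∧ Cls D ξ a b c := by
  have key : ∀ f : ZMod 3 → ℕ, ∃ σ : Equiv.Perm (ZMod 3), f (σ 1) ≤ f (σ 0) ∧
      f (σ 2) ≤ f (σ 1) := by
    intro f
    have e : ∀ i j k : ZMod 3, i ≠ j → j ≠ k → i ≠ k →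
        ∃ σ : Equiv.Perm (ZMod 3), σ 0 = i ∧ σ 1 = j ∧ σ 2 = k := by
      intro i j k h1 h2 h3
      have e1 : ∀ i j k : Fin 3, (i ≠ j ∧ j ≠ k ∧ i ≠ k) →
        ∃ σ : Equiv.Perm (Fin 3), σ 0 = i ∧ σ 1 = j ∧ σ 2 = k := by decide
      exact e1 i j k ⟨h1, h2, h3⟩
    have h2 : ∀ i j k : ZMod 3, i ≠ j → j ≠ k → i ≠ k → f j ≤ f i → f k ≤ f j →
        ∃ σ : Equiv.Perm (ZMod 3), f (σ 1) ≤ f (σ 0) ∧ f (σ 2) ≤ f (σ 1) := by
      intro i j k h1 h2 h3 h4 h5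
      obtain ⟨σ, s0, s1, s2⟩ := e i j k h1 h2 h3
      exact ⟨σ, by rw [s0, s1]; exact h4, by rw [s1, s2]; exact h5⟩
    rcases le_total (f 0) (f 1) with h01 | h01 <;> rcases le_total (f 1) (f 2) with h12 | h12 <;>
      rcases le_total (f 0) (f 2) with h02 | h02
    · exact h2 2 1 0 (by decide) (by decide) (by decide) h12 h01
    · exact h2 2 1 0 (by decide) (by decide) (by decide) h12 h01
    · exact h2 1 2 0 (by decide) (by decide) (by decide) h12 h02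
    · exact h2 1 0 2 (by decide) (by decide) (by decide) h01 h02
    · exact h2 2 0 1 (by decide) (by decide) (by decide) h02 h01
    · exact h2 0 2 1 (by decide) (by decide) (by decide) h02 h12
    · exact h2 0 1 2 (by decide) (by decide) (by decide) h01 h12
    · exact h2 0 1 2 (by decide) (by decide) (by decide) h01 h12
  obtain ⟨σ, h1, h2⟩ := key (nn D ξ)
  exact ⟨_, _, _, h1, h2, σ, rfl, rfl, rfl⟩

theorem nn_zero_zero (D : Finset (Fin r → ZMod 3)) : nn D 0 0 = D.card := by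
  unfold nn
  rw [Finset.filter_true_of_mem (by intro x _; simp)]

theorem nn_zero_ne (D : Finset (Fin r → ZMod 3)) {j : ZMod 3} (hj : j ≠ 0) : nn D 0 j = 0 := by
  unfold nn
  rw [Finset.filter_false_of_mem, Finset.card_empty]
  intro x _
  rw [zero_dotProduct]
  exact hj.symm

theorem S2_zero (D : Finset (Fin r → ZMod 3)) : S2 D 0 = D.card ^ 2 := by
  unfold S2
  rw [nn_zero_zero, nn_zero_ne D (by decide), nn_zero_ne D (by decide)]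
  ring

theorem S3_zero (D : Finset (Fin r → ZMod 3)) : S3 D 0 = D.card ^ 3 := by
  unfold S3
  rw [nn_zero_zero, nn_zero_ne D (by decide), nn_zero_ne D (by decide)]
  ring

/-- the nonzero functionals -/
def nz (r : ℕ) : Finset (Fin r → ZMod 3) := Finset.univ.erase 0

theorem mem_nz {ξ : Fin r → ZMod 3} : ξ ∈ nz r ↔ ξ ≠ 0 := by
  unfold nz; simp

theorem card_nz : (nz r).card = 3 ^ r - 1 := by
  unfold nz
  rw [Finset.card_erase_of_mem (Finset.mem_univ _)]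
  simp [ZMod.card]

theorem sumS2' (D : Finset (Fin r → ZMod 3)) :
    3 * (D.card ^ 2 + ∑ ξ ∈ nz r, S2 D ξ) = 3 ^ r * (D.card ^ 2 + 2 * D.card) := by
  rw [← sumS2 D, ← S2_zero, nz, Finset.add_sum_erase _ _ (Finset.mem_univ _)]

theorem sumS3' {D : Finset (Fin r → ZMod 3)} (hD : IsCap D) :
    3 * (D.card ^ 3 + ∑ ξ ∈ nz r, S3 D ξ) = 3 ^ r * (D.card ^ 3 + 2 * D.card) := by
  rw [← sumS3 hD, ← S3_zero, nz, Finset.add_sum_erase _ _ (Finset.mem_univ _)]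

theorem Cls.le {D : Finset (Fin (r + 1) → ZMod 3)} (hD : IsCap D) {M : ℕ}
    (hM : ∀ E : Finset (Fin r → ZMod 3), IsCap E → E.card ≤ M) {ξ : Fin (r + 1) → ZMod 3}
    (hξ : ξ ≠ 0) {a b c : ℕ} (h : Cls D ξ a b c) : a ≤ M ∧ b ≤ M ∧ c ≤ M := by
  obtain ⟨σ, rfl, rfl, rfl⟩ := h
  exact ⟨nn_le hD hM hξ _, nn_le hD hM hξ _, nn_le hD hM hξ _⟩

/-- the sorted class of a nonzero functional -/
theorem exists_cls_le {D : Finset (Fin (r + 1) → ZMod 3)} (hD : IsCap D) {M m : ℕ}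
    (hM : ∀ E : Finset (Fin r → ZMod 3), IsCap E → E.card ≤ M) (hm : D.card = m)
    {ξ : Fin (r + 1) → ZMod 3}
    (hξ : ξ ≠ 0) : ∃ a b c, a ≤ M ∧ b ≤ a ∧ c ≤ b ∧ a + b + c = m ∧ Cls D ξ a b c := by
  obtain ⟨a, b, c, h1, h2, h3⟩ := exists_cls D ξ
  exact ⟨a, b, c, (h3.le hD hM hξ).1, h1, h2, h3.sum.trans hm, h3⟩

theorem card_le_of_no {M : ℕ} (h : ∀ D : Finset (Fin r → ZMod 3), IsCap D → D.card ≠ M + 1)
    (D : Finset (Fin r → ZMod 3)) (hD : IsCap D) : D.card ≤ M := by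
  by_contra hlt
  obtain ⟨E, hE, hEc⟩ := Finset.exists_subset_card_eq (show M + 1 ≤ D.card by omega)
  exact h E (hD.subset hE) hEc

theorem card_le_one_dim (D : Finset (Fin 1 → ZMod 3)) (hD : IsCap D) : D.card ≤ 2 := by
  refine card_le_of_no (M := 2) (fun D hD hc => ?_) D hD
  have h : D = Finset.univ := by
    rw [← Finset.card_eq_iff_eq_univ, hc]
    simp [ZMod.card]
  subst h
  have := hD (fun _ => 0) (Finset.mem_univ _) (fun _ => 1) (Finset.mem_univ _) (fun _ => 2)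
    (Finset.mem_univ _) (by decide)
  exact absurd (congrFun this 0) (by decide)

/-- **Caps in `F_3^2` have at most 4 points.** -/
theorem card_le_two_dim (D : Finset (Fin 2 → ZMod 3)) (hD : IsCap D) : D.card ≤ 4 := by
  refine card_le_of_no (M := 4) (fun D hD hc => ?_) D hD
  have h1 := sumS2' D
  rw [hc] at h1
  have h2 : ∑ ξ ∈ nz 2, S2 D ξ ≤ (nz 2).card • 9 := by
    refine Finset.sum_le_card_nsmul _ _ _ fun ξ hξ => ?_
    obtain ⟨a, b, c, ha, hb, hc, hs, hcl⟩ := exists_cls_le hD card_le_one_dim hc (mem_nz.1 hξ)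
    rw [hcl.S2]
    interval_cases a <;> interval_cases b <;> interval_cases c <;> simp_all
  rw [card_nz, smul_eq_mul] at h2
  omega

/-- **Caps in `F_3^3` have at most 9 points.** -/
theorem card_le_three_dim (D : Finset (Fin 3 → ZMod 3)) (hD : IsCap D) : D.card ≤ 9 := by
  refine card_le_of_no (M := 9) (fun D hD hc => ?_) D hD
  have h1 := sumS2' D
  rw [hc] at h1
  have h2 : ∑ ξ ∈ nz 3, S2 D ξ ≤ (nz 3).card • 36 := by
    refine Finset.sum_le_card_nsmul _ _ _ fun ξ hξ => ?_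
    obtain ⟨a, b, c, ha, hb, hc, hs, hcl⟩ := exists_cls_le hD card_le_two_dim hc (mem_nz.1 hξ)
    rw [hcl.S2]
    interval_cases a <;> interval_cases b <;> interval_cases c <;> simp_all
  rw [card_nz, smul_eq_mul] at h2
  omega

theorem nn_neg (D : Finset (Fin r → ZMod 3)) (ξ : Fin r → ZMod 3) (j : ZMod 3) :
    nn D (-ξ) j = nn D ξ (-j) := by
  unfold nn
  congr 1
  ext x
  simp only [Finset.mem_filter, neg_dotProduct]
  rw [neg_eq_iff_eq_neg]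

theorem S2_neg (D : Finset (Fin r → ZMod 3)) (ξ : Fin r → ZMod 3) : S2 D (-ξ) = S2 D ξ := by
  unfold S2
  rw [nn_neg, nn_neg, nn_neg]
  have h1 : (-1 : ZMod 3) = 2 := by decide
  have h2 : (-2 : ZMod 3) = 1 := by decide
  rw [neg_zero, h1, h2]
  ring

theorem ne_neg {ξ : Fin r → ZMod 3} (hξ : ξ ≠ 0) : -ξ ≠ ξ := by
  intro h
  apply hξ
  funext i
  have h1 := congrFun h i
  have : ∀ a : ZMod 3, -a = a → a = 0 := by decide
  exact this _ h1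

/-- the number of nonzero functionals with a given value of `S2` is even -/
theorem even_card (D : Finset (Fin r → ZMod 3)) (s : ℕ) :
    Even ((nz r).filter fun ξ => S2 D ξ = s).card := by
  rw [← ZMod.natCast_eq_zero_iff_even, Finset.card_eq_sum_ones, Nat.cast_sum]
  refine Finset.sum_involution (fun ξ _ => -ξ) ?_ ?_ ?_ ?_
  · intro ξ _; decide
  · intro ξ hξ _
    exact ne_neg (mem_nz.1 (Finset.mem_filter.1 hξ).1)
  · intro ξ hξ
    rw [Finset.mem_filter, mem_nz] at hξ ⊢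
    exact ⟨neg_ne_zero.2 hξ.1, by rw [S2_neg]; exact hξ.2⟩
  · intro ξ _; exact neg_neg ξ

/-- **Caps in `F_3^4` have at most 20 points.** -/
theorem card_le_four_dim (D : Finset (Fin 4 → ZMod 3)) (hD : IsCap D) : D.card ≤ 20 := by
  refine card_le_of_no (M := 20) (fun D hD hc => ?_) D hD
  have h1 := sumS2' D
  have h2 := sumS3' hD
  rw [hc] at h1 h2
  have h3 : ∀ ξ ∈ nz 4, 3969 ≤ S3 D ξ + 6 * S2 D ξ ∧
      (3969 = S3 D ξ + 6 * S2 D ξ → S2 D ξ = 147 ∨ S2 D ξ = 171) := by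
    intro ξ hξ
    obtain ⟨a, b, c, ha, hb, hc, hs, hcl⟩ := exists_cls_le hD card_le_three_dim hc (mem_nz.1 hξ)
    rw [hcl.S2, hcl.S3]
    obtain ⟨rfl⟩ : c = 21 - a - b := by omega
    have : 7 ≤ a := by omega
    have : 6 ≤ b := by omega
    interval_cases a <;> interval_cases b <;> simp_all
  have h4 : ∑ ξ ∈ nz 4, (S3 D ξ + 6 * S2 D ξ) = ∑ ξ ∈ nz 4, 3969 := by
    rw [Finset.sum_add_distrib, ← Finset.mul_sum, Finset.sum_const, card_nz, smul_eq_mul]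
    omega
  have h5 := (Finset.sum_eq_sum_iff_of_le (fun ξ hξ => (h3 ξ hξ).1)).1 h4.symm
  have h6 : ∑ ξ ∈ nz 4, S2 D ξ = ∑ ξ ∈ nz 4, (147 + if S2 D ξ = 171 then 24 else 0) := by
    refine Finset.sum_congr rfl fun ξ hξ => ?_
    rcases (h3 ξ hξ).2 (h5 ξ hξ) with h | h
    · rw [h]; rfl
    · rw [h]; rfl
  rw [Finset.sum_add_distrib, ← Finset.sum_filter, Finset.sum_const, Finset.sum_const, card_nz,
    smul_eq_mul, smul_eq_mul] at h6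
  have h7 := even_card D 171
  obtain ⟨k, hk⟩ := h7
  rw [hk] at h6
  omega

/-- **Classes of 45-caps in `F_3^5`.** -/
theorem class45 {D : Finset (Fin 5 → ZMod 3)} (hD : IsCap D) (hc : D.card = 45) :
    (∃ ξ, ξ ≠ 0 ∧ (Cls D ξ 20 20 5 ∨ Cls D ξ 20 19 6 ∨ Cls D ξ 20 18 7 ∨ Cls D ξ 19 19 7 ∨
      Cls D ξ 19 18 8)) ∨
    ((∀ ξ, ξ ≠ 0 → Cls D ξ 15 15 15 ∨ Cls D ξ 18 18 9) ∧ ∃ ξ, ξ ≠ 0 ∧ Cls D ξ 18 18 9) := by
  by_cases hex : ∃ ξ, ξ ≠ 0 ∧ (Cls D ξ 20 20 5 ∨ Cls D ξ 20 19 6 ∨ Cls D ξ 20 18 7 ∨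
      Cls D ξ 19 19 7 ∨ Cls D ξ 19 18 8)
  · exact Or.inl hex
  right
  push Not at hex
  have h1 := sumS2' D
  have h2 := sumS3' hD
  rw [hc] at h1 h2
  have h3 : ∀ ξ ∈ nz 5, 36450 ≤ S3 D ξ + 9 * S2 D ξ ∧
      (36450 = S3 D ξ + 9 * S2 D ξ → Cls D ξ 15 15 15 ∨ Cls D ξ 18 18 9) := by
    intro ξ hξ
    obtain ⟨a, b, c, ha, hb, hc, hs, hcl⟩ := exists_cls_le hD card_le_four_dim hc (mem_nz.1 hξ)
    obtain ⟨n1, n2, n3, n4, n5⟩ := hex ξ (mem_nz.1 hξ)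
    rw [hcl.S2, hcl.S3]
    obtain ⟨rfl⟩ : c = 45 - a - b := by omega
    have : 15 ≤ a := by omega
    have : 13 ≤ b := by omega
    interval_cases a <;> interval_cases b <;> simp_all
  have h4 : ∑ ξ ∈ nz 5, (S3 D ξ + 9 * S2 D ξ) = ∑ ξ ∈ nz 5, 36450 := by
    rw [Finset.sum_add_distrib, ← Finset.mul_sum, Finset.sum_const, card_nz, smul_eq_mul]
    omega
  have h5 := (Finset.sum_eq_sum_iff_of_le (fun ξ hξ => (h3 ξ hξ).1)).1 h4.symm
  have h6 : ∀ ξ, ξ ≠ 0 → Cls D ξ 15 15 15 ∨ Cls D ξ 18 18 9 := fun ξ hξ =>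
    (h3 ξ (mem_nz.2 hξ)).2 (h5 ξ (mem_nz.2 hξ))
  refine ⟨h6, ?_⟩
  by_contra hno
  push Not at hno
  have h7 : ∑ ξ ∈ nz 5, S2 D ξ = ∑ ξ ∈ nz 5, 675 := by
    refine Finset.sum_congr rfl fun ξ hξ => ?_
    rcases h6 ξ (mem_nz.1 hξ) with h | h
    · rw [h.S2]; norm_num
    · exact absurd h (hno ξ (mem_nz.1 hξ))
  rw [h7, Finset.sum_const, card_nz, smul_eq_mul] at h1
  omega

/-- a 19-cap in `F_3^4` has a class `{9,9,1}`, `{9,8,2}` or `{8,8,3}` -/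
theorem class19 {D : Finset (Fin 4 → ZMod 3)} (hD : IsCap D) (hc : D.card = 19) :
    ∃ ξ, ξ ≠ 0 ∧ (Cls D ξ 9 9 1 ∨ Cls D ξ 9 8 2 ∨ Cls D ξ 8 8 3) := by
  by_contra hex
  push Not at hex
  have h1 := sumS2' D
  have h2 := sumS3' hD
  rw [hc] at h1 h2
  have h3 : ∀ ξ ∈ nz 4, 2763 ≤ S3 D ξ + 4 * S2 D ξ := by
    intro ξ hξ
    obtain ⟨a, b, c, ha, hb, hc, hs, hcl⟩ := exists_cls_le hD card_le_three_dim hc (mem_nz.1 hξ)
    obtain ⟨n1, n2, n3⟩ := hex ξ (mem_nz.1 hξ)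
    rw [hcl.S2, hcl.S3]
    obtain ⟨rfl⟩ : c = 19 - a - b := by omega
    have : 7 ≤ a := by omega
    have : 5 ≤ b := by omega
    interval_cases a <;> interval_cases b <;> simp_all
  have h4 : (nz 4).card • 2763 ≤ ∑ ξ ∈ nz 4, (S3 D ξ + 4 * S2 D ξ) :=
    Finset.card_nsmul_le_sum _ _ _ h3
  rw [Finset.sum_add_distrib, ← Finset.mul_sum, card_nz, smul_eq_mul] at h4
  omega

/-- an 18-cap in `F_3^4` has a class `{9,9,0}`, `{8,8,2}`, `{9,8,1}`, `{9,7,2}` or `{8,7,3}` -/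
theorem class18 {D : Finset (Fin 4 → ZMod 3)} (hD : IsCap D) (hc : D.card = 18) :
    ∃ ξ, ξ ≠ 0 ∧ (Cls D ξ 9 9 0 ∨ Cls D ξ 8 8 2 ∨ Cls D ξ 9 8 1 ∨ Cls D ξ 9 7 2 ∨
      Cls D ξ 8 7 3) := by
  by_contra hex
  push Not at hex
  have h1 := sumS2' D
  have h2 := sumS3' hD
  rw [hc] at h1 h2
  have h3 : ∀ ξ ∈ nz 4, 16524 ≤ 7 * S3 D ξ + 27 * S2 D ξ ∧
      (16524 = 7 * S3 D ξ + 27 * S2 D ξ → S2 D ξ = 108) := by
    intro ξ hξ
    obtain ⟨a, b, c, ha, hb, hc, hs, hcl⟩ := exists_cls_le hD card_le_three_dim hc (mem_nz.1 hξ)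
    obtain ⟨n1, n2, n3, n4, n5⟩ := hex ξ (mem_nz.1 hξ)
    rw [hcl.S2, hcl.S3]
    obtain ⟨rfl⟩ : c = 18 - a - b := by omega
    have : 6 ≤ a := by omega
    have : 5 ≤ b := by omega
    interval_cases a <;> interval_cases b <;> simp_all
  have h4 : ∑ ξ ∈ nz 4, (7 * S3 D ξ + 27 * S2 D ξ) = ∑ ξ ∈ nz 4, 16524 := by
    rw [Finset.sum_add_distrib, ← Finset.mul_sum, ← Finset.mul_sum, Finset.sum_const, card_nz,
      smul_eq_mul]
    omega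
  have h5 := (Finset.sum_eq_sum_iff_of_le (fun ξ hξ => (h3 ξ hξ).1)).1 h4.symm
  have h6 : ∑ ξ ∈ nz 4, S2 D ξ = ∑ ξ ∈ nz 4, 108 :=
    Finset.sum_congr rfl fun ξ hξ => (h3 ξ hξ).2 (h5 ξ hξ)
  rw [h6, Finset.sum_const, card_nz, smul_eq_mul] at h1
  omega

end Pool.Agent.T2H98.EGZ
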