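import Pool.Agent.T2H98.EGZ.Bounds

/-!
# Package B2: frames, sections and lifts of affine maps
-/

set_option autoImplicit false

namespace Pool.Agent.T2H98.EGZ

open Finset

variable {r : ℕ}

theorem AffEq.of_equiv (D : Finset (Fin r → ZMod 3))
    (e : (Fin r → ZMod 3) ≃ₗ[ZMod 3] (Fin r → ZMod 3)) (b : Fin r → ZMod 3) :
    AffEq D (D.image fun x => e x + b) := by
  classical
  refine ⟨LinearMap.toMatrix' e.toLinearMap, LinearMap.toMatrix' e.symm.toLinearMap, b, ?_, ?_, ?_⟩
  · rw [← LinearMap.toMatrix'_comp]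
    simp
  · rw [← LinearMap.toMatrix'_comp]
    simp
  · refine Finset.image_congr ?_
    intro x _
    show e x + b = (LinearMap.toMatrix' e.toLinearMap).mulVec x + b
    rw [LinearMap.toMatrix'_mulVec]
    rfl

/-- **Frame lemma.** A set on which no nonzero functional is constant can be moved to a set
containing `0` and all `e_i`. -/
theorem frame {K : Finset (Fin r → ZMod 3)} {a : Fin r → ZMod 3} (ha : a ∈ K)
    (h : ∀ ξ : Fin r → ZMod 3, ξ ≠ 0 → ∃ x ∈ K, dotProduct ξ x ≠ dotProduct ξ a) :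
    ∃ K', AffEq K K' ∧ (0 : Fin r → ZMod 3) ∈ K' ∧
      ∀ i, (Pi.single i 1 : Fin r → ZMod 3) ∈ K' := by
  classical
  let S : Set (Fin r → ZMod 3) := {v | v + a ∈ K}
  have hspan : Submodule.span (ZMod 3) S = ⊤ := by
    by_contra hne
    obtain ⟨f, hf0, hf⟩ := Submodule.exists_le_ker_of_lt_top _ (lt_top_iff_ne_top.2 hne)
    let ξ : Fin r → ZMod 3 := fun i => f (Pi.single i 1)
    have hξ : ∀ x, f x = dotProduct ξ x := by
      intro x
      conv_lhs => rw [pi_eq_sum_univ' x]
      rw [map_sum]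
      unfold dotProduct
      refine Finset.sum_congr rfl fun i _ => ?_
      rw [map_smul, smul_eq_mul, mul_comm]
    have hξ0 : ξ ≠ 0 := by
      intro h0
      apply hf0
      refine LinearMap.ext fun x => ?_
      rw [hξ, h0]
      simp
    obtain ⟨x, hx, hne⟩ := h ξ hξ0
    apply hne
    have h1 : x - a ∈ S := by
      show x - a + a ∈ K
      rwa [sub_add_cancel]
    have h2 : f (x - a) = 0 := hf (Submodule.subset_span h1)
    rw [hξ, dotProduct_sub, sub_eq_zero] at h2
    exact h2
  obtain ⟨b, hbS, hbspan, hbli⟩ := exists_linearIndependent (ZMod 3) S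
  have hsp : ⊤ ≤ Submodule.span (ZMod 3) (Set.range ((↑) : b → Fin r → ZMod 3)) := by
    rw [Subtype.range_coe, hbspan, hspan]
  let B := Module.Basis.mk hbli hsp
  let hfin : Fintype b := FiniteDimensional.fintypeBasisIndex B
  have hcard : Fintype.card b = r := by
    have h1 := Module.finrank_eq_card_basis B
    rw [Module.finrank_fin_fun] at h1
    exact h1.symm
  let eq : b ≃ Fin r := Fintype.equivFinOfCardEq hcard
  let B' := B.reindex eq
  have hB' : ∀ i, B' i ∈ S := by
    intro i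
    have : B' i = ((eq.symm i : b) : Fin r → ZMod 3) := by
      simp [B', B]
    rw [this]
    exact hbS (eq.symm i).2
  let L : (Fin r → ZMod 3) ≃ₗ[ZMod 3] (Fin r → ZMod 3) := B'.equivFun
  refine ⟨K.image fun x => L x + -(L a), AffEq.of_equiv K L _, ?_, ?_⟩
  · refine Finset.mem_image.2 ⟨a, ha, ?_⟩
    rw [add_neg_cancel]
  · intro i
    refine Finset.mem_image.2 ⟨B' i + a, hB' i, ?_⟩
    rw [map_add, add_assoc, add_neg_cancel, add_zero]
    funext j
    rw [Module.Basis.equivFun_apply, Module.Basis.repr_self, Finsupp.single_apply, Pi.single_apply]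
    simp only [eq_comm]

/-- the section of `K` at level `j` of the last coordinate -/
def sec (K : Finset (Fin (r + 1) → ZMod 3)) (j : ZMod 3) : Finset (Fin r → ZMod 3) :=
  (K.filter fun x => x (Fin.last r) = j).image (fun x (k : Fin r) => x k.castSucc)

/-- the point of level `j` above `y` -/
def sn (y : Fin r → ZMod 3) (j : ZMod 3) : Fin (r + 1) → ZMod 3 := Fin.snoc (α := fun _ => ZMod 3) y j

theorem sn_last (y : Fin r → ZMod 3) (j : ZMod 3) : sn y j (Fin.last r) = j := by
  unfold sn; rw [Fin.snoc_last]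

theorem sn_castSucc (y : Fin r → ZMod 3) (j : ZMod 3) (k : Fin r) : sn y j k.castSucc = y k := by
  unfold sn; rw [Fin.snoc_castSucc]

theorem sn_eta (x : Fin (r + 1) → ZMod 3) : sn (fun k => x k.castSucc) (x (Fin.last r)) = x := by
  funext k
  refine Fin.lastCases ?_ (fun i => ?_) k
  · rw [sn_last]
  · rw [sn_castSucc]

theorem sn_add (y z : Fin r → ZMod 3) (i j : ZMod 3) : sn y i + sn z j = sn (y + z) (i + j) := by
  funext k
  refine Fin.lastCases ?_ (fun l => ?_) k
  · rw [Pi.add_apply, sn_last, sn_last, sn_last]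
  · rw [Pi.add_apply, sn_castSucc, sn_castSucc, sn_castSucc, Pi.add_apply]

theorem sn_zero : sn (0 : Fin r → ZMod 3) 0 = 0 := by
  funext k
  refine Fin.lastCases ?_ (fun l => ?_) k
  · rw [sn_last]; rfl
  · rw [sn_castSucc]; rfl

theorem mem_sec {K : Finset (Fin (r + 1) → ZMod 3)} {j : ZMod 3} {y : Fin r → ZMod 3} :
    y ∈ sec K j ↔ sn y j ∈ K := by
  unfold sec
  rw [Finset.mem_image]
  constructor
  · rintro ⟨x, hx, rfl⟩
    rw [Finset.mem_filter] at hx
    rw [← hx.2, sn_eta]
    exact hx.1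
  · intro h
    refine ⟨sn y j, Finset.mem_filter.2 ⟨h, sn_last y j⟩, ?_⟩
    funext k
    rw [sn_castSucc]

theorem sec_ext {K K' : Finset (Fin (r + 1) → ZMod 3)} (h : ∀ j, sec K j = sec K' j) :
    K = K' := by
  ext x
  rw [← sn_eta x, ← mem_sec, ← mem_sec, h]

theorem sec_cap {K : Finset (Fin (r + 1) → ZMod 3)} (hK : IsCap K) (j : ZMod 3) :
    IsCap (sec K j) := section_cap hK j

theorem sec_card (K : Finset (Fin (r + 1) → ZMod 3)) (j : ZMod 3) :
    (sec K j).card = (K.filter fun x => x (Fin.last r) = j).card := section_card K j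

/-- no line through the three levels -/
theorem sec_sum_ne {K : Finset (Fin (r + 1) → ZMod 3)} (hK : IsCap K) {i j k : ZMod 3}
    (hij : i ≠ j) (hs : i + j + k = 0) {x y z : Fin r → ZMod 3} (hx : x ∈ sec K i)
    (hy : y ∈ sec K j) (hz : z ∈ sec K k) : x + y + z ≠ 0 := by
  intro h0
  have h1 := hK _ (mem_sec.1 hx) _ (mem_sec.1 hy) _ (mem_sec.1 hz)
    (by rw [sn_add, sn_add, h0, hs, sn_zero])
  have h2 := congrFun h1 (Fin.last r)
  rw [sn_last, sn_last] at h2
  exact hij h2

/-- the extension of `y ↦ A y` by a shear -/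
def extEquiv {A A' : Matrix (Fin r) (Fin r) (ZMod 3)} (h1 : A * A' = 1) (h2 : A' * A = 1)
    (w : Fin r → ZMod 3) : (Fin (r + 1) → ZMod 3) ≃ₗ[ZMod 3] (Fin (r + 1) → ZMod 3) where
  toFun x := sn (A.mulVec (fun k => x k.castSucc) + x (Fin.last r) • w) (x (Fin.last r))
  invFun x := sn (A'.mulVec ((fun k => x k.castSucc) - x (Fin.last r) • w)) (x (Fin.last r))
  map_add' x y := by
    rw [sn_add]
    congr 1
    have : (fun k : Fin r => (x + y) k.castSucc) = (fun k => x k.castSucc) + fun k => y k.castSucc :=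
      rfl
    rw [this, Matrix.mulVec_add, Pi.add_apply, add_smul]
    abel
  map_smul' c x := by
    have h3 : ∀ (y : Fin r → ZMod 3) (j : ZMod 3), c • sn y j = sn (c • y) (c * j) := by
      intro y j
      funext k
      refine Fin.lastCases ?_ (fun l => ?_) k
      · rw [Pi.smul_apply, sn_last, sn_last, smul_eq_mul]
      · rw [Pi.smul_apply, sn_castSucc, sn_castSucc, Pi.smul_apply]
    rw [RingHom.id_apply, h3]
    congr 1
    have : (fun k : Fin r => (c • x) k.castSucc) = c • (fun k => x k.castSucc) := rfl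
    rw [this, Matrix.mulVec_smul, Pi.smul_apply, smul_add, smul_eq_mul, mul_smul]
  left_inv x := by
    simp only [sn_last, sn_castSucc]
    rw [add_sub_cancel_right, Matrix.mulVec_mulVec, h2, Matrix.one_mulVec, sn_eta]
  right_inv x := by
    simp only [sn_last, sn_castSucc]
    rw [Matrix.mulVec_mulVec, h1, Matrix.one_mulVec, sub_add_cancel, sn_eta]

/-- **Lift lemma.** The affine map `y ↦ A y + b + j w` on the three levels. -/
theorem lift_exists (K : Finset (Fin (r + 1) → ZMod 3)) {A A' : Matrix (Fin r) (Fin r) (ZMod 3)}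
    (h1 : A * A' = 1) (h2 : A' * A = 1) (b w : Fin r → ZMod 3) :
    ∃ K', AffEq K K' ∧ ∀ j, sec K' j = (sec K j).image (fun y => A.mulVec y + b + j • w) := by
  classical
  refine ⟨K.image fun x => extEquiv h1 h2 w x + sn b 0, AffEq.of_equiv K _ _, fun j => ?_⟩
  have hform : ∀ x, extEquiv h1 h2 w x + sn b 0 =
      sn (A.mulVec (fun k => x k.castSucc) + b + x (Fin.last r) • w) (x (Fin.last r)) := by
    intro x
    have h3 : extEquiv h1 h2 w x =
      sn (A.mulVec (fun k => x k.castSucc) + x (Fin.last r) • w) (x (Fin.last r)) := rfl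
    rw [h3, sn_add, add_zero]
    congr 1
    abel
  ext y
  rw [mem_sec, Finset.mem_image, Finset.mem_image]
  constructor
  · rintro ⟨x, hx, hxy⟩
    rw [hform] at hxy
    have h4 := congrFun hxy (Fin.last r)
    rw [sn_last, sn_last] at h4
    refine ⟨fun k => x k.castSucc, ?_, ?_⟩
    · rw [mem_sec, ← h4, sn_eta]; exact hx
    · funext k
      have h5 := congrFun hxy k.castSucc
      rw [sn_castSucc, sn_castSucc, h4] at h5
      exact h5
  · rintro ⟨x, hx, rfl⟩
    refine ⟨sn x j, mem_sec.1 hx, ?_⟩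
    rw [hform, sn_last]
    congr 4
    funext k
    rw [sn_castSucc]

/-- Move the section at level `j ≠ 0` to `E` and the point `p` of level `0` to `0`. -/
theorem lift_level {K : Finset (Fin (r + 1) → ZMod 3)} {j : ZMod 3} (hj : j ≠ 0)
    {E : Finset (Fin r → ZMod 3)} (hE : AffEq (sec K j) E) {p : Fin r → ZMod 3}
    (hp : p ∈ sec K 0) :
    ∃ K', AffEq K K' ∧ sec K' j = E ∧ 0 ∈ sec K' 0 ∧ ∀ i, (sec K' i).card = (sec K i).card := by
  classical
  obtain ⟨A, A', b, h1, h2, rfl⟩ := hE
  obtain ⟨K', hK', hsec⟩ := lift_exists K h1 h2 (-(A.mulVec p)) (j⁻¹ • (b + A.mulVec p))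
  refine ⟨K', hK', ?_, ?_, ?_⟩
  · rw [hsec]
    refine Finset.image_congr ?_
    intro y _
    show A.mulVec y + -(A.mulVec p) + j • (j⁻¹ • (b + A.mulVec p)) = A.mulVec y + b
    rw [smul_smul, mul_inv_cancel₀ hj, one_smul]
    abel
  · rw [hsec, Finset.mem_image]
    refine ⟨p, hp, ?_⟩
    rw [zero_smul, add_zero, add_neg_cancel]
  · intro i
    rw [hsec]
    refine Finset.card_image_of_injective _ ?_
    intro x y hxy
    refine aff_inj h2 (-(A.mulVec p) + i • (j⁻¹ • (b + A.mulVec p))) ?_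
    simp only [← add_assoc]
    exact hxy

end Pool.Agent.T2H98.EGZ
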