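import Pool.Agent.T2H98.EGZ.Search
import Pool.Agent.T2H98.EGZ.Lift

/-!
# Package B2: classification of the 8-caps and 9-caps of `F_3^3`
-/

set_option autoImplicit false

namespace Pool.Agent.T2H98.EGZ

open Finset

/-- sum of codes -/
def add3 (a b : ℕ) : ℕ := tt (tt a b) 0

/-- multiple of a code by a digit -/
def sm3 (s c : ℕ) : ℕ :=
  match s with
  | 0 => 0
  | 1 => c
  | _ => tt c 0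

/-- the affine map with constant `b` and columns `c0, c1, c2`, on codes -/
def ap3 (b c0 c1 c2 x : ℕ) : ℕ :=
  add3 (add3 (add3 b (sm3 (x % 3) c0)) (sm3 (x / 3 % 3) c1)) (sm3 (x / 9 % 3) c2)

theorem tt_lt {a b : ℕ} (ha : a < 27) (hb : b < 27) : tt a b < 27 := by
  rw [tt_eq ha hb]; exact thr_lt 3 a b

theorem pt_tt {a b : ℕ} (ha : a < 27) (hb : b < 27) : pt 3 (tt a b) = -(pt 3 a + pt 3 b) := by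
  rw [tt_eq ha hb, pt_thr]

theorem pt_zero' (r : ℕ) : pt r 0 = 0 := by
  funext k; simp [pt]

theorem add3_lt {a b : ℕ} (ha : a < 27) (hb : b < 27) : add3 a b < 27 :=
  tt_lt (tt_lt ha hb) (by norm_num)

theorem pt_add3 {a b : ℕ} (ha : a < 27) (hb : b < 27) : pt 3 (add3 a b) = pt 3 a + pt 3 b := by
  unfold add3
  rw [pt_tt (tt_lt ha hb) (by norm_num), pt_tt ha hb, pt_zero', add_zero, neg_neg]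

theorem sm3_spec {s c : ℕ} (hs : s < 3) (hc : c < 27) :
    sm3 s c < 27 ∧ pt 3 (sm3 s c) = ((s : ℕ) : ZMod 3) • pt 3 c := by
  interval_cases s
  · exact ⟨by simp [sm3], by simp [sm3, pt_zero']⟩
  · exact ⟨hc, by simp [sm3]⟩
  · refine ⟨tt_lt hc (by norm_num), ?_⟩
    show pt 3 (tt c 0) = _
    rw [pt_tt hc (by norm_num), pt_zero', add_zero]
    have : ((2 : ℕ) : ZMod 3) = -1 := by decide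
    rw [this, neg_one_smul]

/-- the matrix with columns given by codes -/
def colMat (c0 c1 c2 : ℕ) : Matrix (Fin 3) (Fin 3) (ZMod 3) :=
  Matrix.of fun i j => (![pt 3 c0, pt 3 c1, pt 3 c2] j) i

theorem colMat_mulVec (c0 c1 c2 : ℕ) (v : Fin 3 → ZMod 3) :
    (colMat c0 c1 c2).mulVec v = v 0 • pt 3 c0 + v 1 • pt 3 c1 + v 2 • pt 3 c2 := by
  funext i
  simp [colMat, Matrix.mulVec, dotProduct, Fin.sum_univ_three, mul_comm]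

theorem ap3_spec {b c0 c1 c2 x : ℕ} (hb : b < 27) (h0 : c0 < 27) (h1 : c1 < 27) (h2 : c2 < 27) :
    ap3 b c0 c1 c2 x < 27 ∧
      pt 3 (ap3 b c0 c1 c2 x) = (colMat c0 c1 c2).mulVec (pt 3 x) + pt 3 b := by
  have a0 := sm3_spec (Nat.mod_lt x (show 0 < 3 by norm_num)) h0
  have a1 := sm3_spec (Nat.mod_lt (x / 3) (show 0 < 3 by norm_num)) h1
  have a2 := sm3_spec (Nat.mod_lt (x / 9) (show 0 < 3 by norm_num)) h2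
  have e : ∀ n : ℕ, (((n % 3 : ℕ) : ZMod 3)) = ((n : ℕ) : ZMod 3) := fun n => ZMod.natCast_mod n 3
  rw [e] at a0 a1 a2
  have p0 : pt 3 x 0 = ((x : ℕ) : ZMod 3) := by simp [pt]
  have p1 : pt 3 x 1 = ((x / 3 : ℕ) : ZMod 3) := by simp [pt]
  have p2 : pt 3 x 2 = ((x / 9 : ℕ) : ZMod 3) := by simp [pt]
  have s1 := add3_lt hb a0.1
  have s2 := add3_lt s1 a1.1
  refine ⟨add3_lt s2 a2.1, ?_⟩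
  unfold ap3
  rw [pt_add3 s2 a2.1, pt_add3 s1 a1.1, pt_add3 hb a0.1, a0.2, a1.2, a2.2, colMat_mulVec, p0, p1,
    p2]
  abel

/-- certificate: mask, type, constant, columns, columns of the inverse -/
structure Cert where
  m : ℕ
  typ : ℕ
  b : ℕ
  c0 : ℕ
  c1 : ℕ
  c2 : ℕ
  d0 : ℕ
  d1 : ℕ
  d2 : ℕ

/-- codes of the standard caps: the 9-cap and the three types of 8-caps -/
def E3 : ℕ → List ℕ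
  | 0 => [0, 10, 11, 12, 22, 23, 15, 25, 26]
  | 1 => [0, 1, 3, 4, 9, 10, 12, 13]
  | 2 => [0, 1, 3, 5, 9, 10, 12, 13]
  | _ => [0, 1, 3, 7, 9, 11, 12, 13]

/-- all entries smaller than 27 -/
def all27 : List ℕ → Bool
  | [] => true
  | a :: l => (Nat.ble (a + 1) 27).and (all27 l)

theorem all27_iff (l : List ℕ) : all27 l = true ↔ ∀ a ∈ l, a < 27 := by
  induction l with
  | nil => simp [all27]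
  | cons a l ih =>
    have : Nat.ble (a + 1) 27 = true ↔ a < 27 := by
      rw [Nat.ble_eq]; rfl
    simp only [all27, Bool.and_eq_true, this, ih]
    simp

/-- check of a certificate -/
def Cert.ok (e : Cert) : Bool :=
  (all27 [e.b, e.c0, e.c1, e.c2, e.d0, e.d1, e.d2]).and
  ((Nat.beq (mask ((E3 e.typ).map (ap3 e.b e.c0 e.c1 e.c2))) e.m).and
  ((Nat.beq (ap3 0 e.c0 e.c1 e.c2 e.d0) 1).and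
  ((Nat.beq (ap3 0 e.c0 e.c1 e.c2 e.d1) 3).and
  (Nat.beq (ap3 0 e.c0 e.c1 e.c2 e.d2) 9))))

theorem Cert.affEq {e : Cert} (h : e.ok = true) {L : List ℕ} (hm : mask L = e.m)
    {K : Finset (Fin 3 → ZMod 3)} (hK : L.toFinset = codes K) : AffEq (ofL 3 (E3 e.typ)) K := by
  classical
  unfold Cert.ok at h
  simp only [Bool.and_eq_true, Nat.beq_eq, all27_iff, List.mem_cons, List.not_mem_nil,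
    or_false, forall_eq_or_imp, forall_eq] at h
  obtain ⟨⟨hb, h0, h1, h2, k0, k1, k2⟩, hmask, i0, i1, i2⟩ := h
  have z27 : (0 : ℕ) < 27 := by norm_num
  have hinv : colMat e.c0 e.c1 e.c2 * colMat e.d0 e.d1 e.d2 = 1 := by
    have j0 := (ap3_spec (x := e.d0) z27 h0 h1 h2).2
    have j1 := (ap3_spec (x := e.d1) z27 h0 h1 h2).2
    have j2 := (ap3_spec (x := e.d2) z27 h0 h1 h2).2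
    rw [i0, pt_zero', add_zero] at j0
    rw [i1, pt_zero', add_zero] at j1
    rw [i2, pt_zero', add_zero] at j2
    have key : ∀ v : Fin 3 → ZMod 3,
        (colMat e.c0 e.c1 e.c2 * colMat e.d0 e.d1 e.d2).mulVec v = (1 : Matrix _ _ _).mulVec v := by
      intro v
      rw [← Matrix.mulVec_mulVec, colMat_mulVec e.d0, Matrix.mulVec_add, Matrix.mulVec_add,
        Matrix.mulVec_smul, Matrix.mulVec_smul, Matrix.mulVec_smul, ← j0, ← j1, ← j2,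
        Matrix.one_mulVec]
      have q0 : pt 3 1 = Pi.single 0 1 := by decide
      have q1 : pt 3 3 = Pi.single 1 1 := by decide
      have q2 : pt 3 9 = Pi.single 2 1 := by decide
      rw [q0, q1, q2]
      funext i
      fin_cases i <;> simp
    ext i j
    have h3 := congrFun (key (Pi.single j 1)) i
    rwa [Matrix.mulVec_single_one, Matrix.mulVec_single_one] at h3
  have hinv' := mul_eq_one_comm.1 hinv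
  refine ⟨colMat e.c0 e.c1 e.c2, colMat e.d0 e.d1 e.d2, pt 3 e.b, hinv, hinv', ?_⟩
  have h3 : ((E3 e.typ).map (ap3 e.b e.c0 e.c1 e.c2)).toFinset = codes K := by
    rw [← hK]
    exact toFinset_eq_of_mask (hmask.trans hm.symm)
  rw [eq_ofL h3]
  ext x
  unfold ofL
  simp only [List.mem_toFinset, List.mem_map, Finset.mem_image]
  constructor
  · rintro ⟨a, ⟨c, hc, rfl⟩, rfl⟩
    exact ⟨pt 3 c, ⟨c, hc, rfl⟩, (ap3_spec hb h0 h1 h2).2.symm⟩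
  · rintro ⟨y, ⟨c, hc, rfl⟩, rfl⟩
    exact ⟨_, ⟨c, hc, rfl⟩, (ap3_spec hb h0 h1 h2).2⟩

/-- the remaining points once `0, 1, 3, 9` are chosen -/
def rest0 : List ℕ := [4, 5, 7, 10, 11, 12, 13, 14, 15, 16, 17, 19, 21, 22, 23, 25, 26]

/-- the mask of the list occurs in the table -/
def inTab (tb : List Cert) (L : List ℕ) : Bool := tb.any fun e => Nat.beq e.m (mask L)

/-- certificates -/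
def t8 : List Cert := [
  ⟨13851, 1, 0, 1, 3, 9, 1, 3, 9⟩, ⟨22043, 2, 9, 1, 3, 18, 1, 3, 18⟩,
  ⟨71195, 2, 9, 3, 1, 18, 3, 1, 18⟩, ⟨4199963, 2, 3, 9, 1, 6, 3, 18, 1⟩,
  ⟨26139, 2, 0, 1, 4, 9, 1, 5, 9⟩, ⟨42523, 2, 10, 3, 2, 18, 6, 1, 18⟩,
  ⟨2106907, 2, 4, 9, 2, 6, 6, 18, 1⟩, ⟨149019, 3, 9, 1, 5, 19, 1, 4, 19⟩,
  ⟨8406555, 3, 3, 1, 11, 7, 1, 19, 4⟩, ⟨99867, 1, 0, 1, 3, 15, 1, 3, 12⟩,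
  ⟨165403, 2, 0, 1, 4, 17, 1, 5, 12⟩, ⟨4228635, 2, 0, 15, 1, 3, 3, 9, 10⟩,
  ⟨198171, 2, 16, 1, 3, 23, 1, 3, 23⟩, ⟨2164251, 2, 1, 15, 2, 3, 6, 9, 10⟩,
  ⟨8521243, 3, 0, 1, 17, 4, 1, 11, 12⟩, ⟨6293019, 1, 21, 1, 9, 15, 1, 21, 3⟩,
  ⟨10487323, 2, 0, 1, 10, 23, 1, 12, 5⟩, ⟨12584475, 2, 22, 1, 9, 17, 1, 23, 3⟩,
  ⟨14875, 2, 0, 1, 4, 11, 1, 5, 10⟩, ⟨23067, 1, 0, 1, 3, 11, 1, 3, 10⟩,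
  ⟨137755, 2, 9, 3, 2, 19, 6, 1, 24⟩, ⟨4200987, 2, 4, 11, 2, 6, 6, 18, 7⟩,
  ⟨27163, 2, 11, 1, 3, 19, 1, 3, 19⟩, ⟨76315, 3, 11, 1, 5, 20, 1, 4, 20⟩,
  ⟨2107931, 3, 3, 1, 10, 7, 1, 19, 5⟩, ⟨51739, 2, 11, 3, 1, 19, 3, 1, 21⟩,
  ⟨8407579, 2, 3, 11, 1, 6, 3, 18, 4⟩, ⟨100891, 2, 15, 1, 3, 21, 1, 3, 21⟩,
  ⟨166427, 1, 0, 1, 3, 17, 1, 3, 13⟩, ⟨4229659, 2, 1, 17, 2, 3, 6, 9, 16⟩,
  ⟨199195, 2, 0, 1, 4, 16, 1, 5, 13⟩, ⟨2165275, 3, 0, 1, 16, 4, 1, 11, 13⟩,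
  ⟨8522267, 2, 0, 17, 1, 3, 3, 9, 13⟩, ⟨6294043, 2, 0, 1, 9, 21, 1, 12, 3⟩,
  ⟨10488347, 2, 23, 1, 11, 16, 1, 23, 4⟩, ⟨12585499, 1, 22, 1, 11, 17, 1, 21, 4⟩,
  ⟨78363, 2, 13, 3, 2, 24, 6, 1, 20⟩, ⟨537115, 2, 0, 9, 1, 3, 3, 9, 1⟩,
  ⟨152091, 2, 14, 3, 1, 25, 3, 1, 23⟩, ⟨545307, 2, 1, 11, 2, 3, 6, 9, 7⟩,
  ⟨201243, 3, 16, 1, 5, 21, 1, 4, 22⟩, ⟨33624603, 3, 1, 3, 15, 5, 19, 1, 4⟩,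
  ⟨33690139, 3, 0, 3, 17, 4, 11, 1, 12⟩, ⟨4723227, 1, 19, 3, 9, 11, 21, 1, 3⟩,
  ⟨34083355, 2, 0, 3, 12, 25, 12, 1, 5⟩, ⟨37753371, 2, 22, 3, 9, 17, 23, 1, 3⟩,
  ⟨57883, 3, 13, 1, 5, 24, 1, 4, 26⟩, ⟨549403, 3, 0, 1, 9, 4, 1, 11, 3⟩,
  ⟨107035, 2, 15, 3, 1, 21, 3, 1, 19⟩, ⟨565787, 3, 1, 3, 12, 5, 19, 1, 5⟩,
  ⟨2171419, 3, 0, 3, 9, 4, 11, 1, 3⟩, ⟨2630171, 2, 21, 9, 19, 15, 4, 19, 1⟩,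
  ⟨180763, 2, 15, 3, 2, 22, 6, 1, 25⟩, ⟨573979, 3, 0, 3, 14, 4, 11, 1, 13⟩,
  ⟨8536603, 3, 1, 3, 11, 5, 19, 1, 22⟩, ⟨8929819, 2, 23, 11, 18, 17, 8, 19, 6⟩,
  ⟨33653275, 2, 3, 15, 1, 6, 3, 18, 19⟩, ⟨33718811, 2, 4, 17, 2, 6, 6, 18, 25⟩,
  ⟨4751899, 2, 0, 3, 9, 19, 12, 1, 3⟩, ⟨34112027, 2, 25, 3, 15, 14, 23, 1, 4⟩,
  ⟨37782043, 1, 22, 3, 15, 17, 21, 1, 4⟩, ⟨33751579, 3, 3, 1, 15, 7, 1, 19, 22⟩,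
  ⟨35717659, 2, 25, 15, 18, 17, 19, 8, 6⟩, ⟨42074651, 2, 25, 17, 19, 15, 11, 8, 17⟩,
  ⟨6816283, 2, 0, 9, 1, 21, 3, 10, 1⟩, ⟨11010587, 3, 0, 1, 9, 21, 1, 12, 3⟩,
  ⟨36176411, 3, 0, 3, 9, 19, 12, 1, 3⟩, ⟨13107739, 2, 1, 11, 2, 22, 6, 10, 7⟩,
  ⟨42467867, 3, 1, 3, 11, 18, 24, 1, 18⟩, ⟨39846427, 2, 3, 15, 1, 18, 3, 20, 18⟩,
  ⟨44040731, 3, 3, 1, 15, 18, 1, 24, 18⟩, ⟨46137883, 2, 4, 17, 2, 19, 6, 20, 24⟩,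
  ⟨13867, 2, 0, 1, 3, 9, 1, 3, 9⟩, ⟨22059, 1, 0, 1, 5, 9, 1, 4, 9⟩,
  ⟨71211, 2, 10, 5, 2, 18, 6, 7, 18⟩, ⟨8394283, 2, 3, 9, 2, 7, 6, 24, 1⟩,
  ⟨26155, 2, 9, 1, 5, 18, 1, 4, 18⟩, ⟨42539, 3, 9, 1, 4, 19, 1, 5, 19⟩,
  ⟨4204075, 3, 5, 1, 11, 8, 1, 20, 4⟩, ⟨149035, 2, 9, 5, 1, 18, 3, 4, 18⟩,
  ⟨2115115, 2, 5, 9, 1, 7, 3, 21, 1⟩, ⟨99883, 2, 0, 1, 3, 15, 1, 3, 12⟩,
  ⟨165419, 2, 17, 1, 5, 22, 1, 4, 23⟩, ⟨4228651, 3, 0, 1, 15, 3, 1, 9, 12⟩,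
  ⟨198187, 1, 0, 1, 5, 16, 1, 4, 12⟩, ⟨2164267, 2, 0, 16, 1, 5, 3, 12, 10⟩,
  ⟨8521259, 2, 1, 16, 2, 5, 6, 15, 10⟩, ⟨6293035, 2, 21, 1, 9, 15, 1, 21, 3⟩,
  ⟨10487339, 1, 23, 1, 9, 16, 1, 22, 3⟩, ⟨12584491, 2, 0, 1, 10, 22, 1, 13, 5⟩,
  ⟨14891, 2, 11, 1, 5, 19, 1, 4, 19⟩, ⟨23083, 2, 0, 1, 3, 11, 1, 3, 10⟩,
  ⟨137771, 3, 11, 1, 4, 20, 1, 5, 20⟩, ⟨8395307, 3, 5, 1, 10, 8, 1, 20, 5⟩,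
  ⟨27179, 1, 0, 1, 5, 11, 1, 4, 10⟩, ⟨76331, 2, 11, 5, 1, 19, 3, 4, 21⟩,
  ⟨4205099, 2, 5, 11, 1, 7, 3, 21, 4⟩, ⟨51755, 2, 9, 5, 2, 19, 6, 7, 24⟩,
  ⟨2116139, 2, 3, 11, 2, 7, 6, 24, 7⟩, ⟨100907, 1, 0, 1, 5, 15, 1, 4, 13⟩,
  ⟨166443, 2, 0, 1, 3, 17, 1, 3, 13⟩, ⟨4229675, 2, 0, 15, 1, 5, 3, 12, 13⟩,
  ⟨199211, 2, 16, 1, 5, 23, 1, 4, 21⟩, ⟨2165291, 2, 1, 15, 2, 5, 6, 15, 16⟩,
  ⟨8522283, 3, 0, 1, 17, 3, 1, 9, 13⟩, ⟨6294059, 1, 21, 1, 11, 15, 1, 22, 4⟩,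
  ⟨10488363, 2, 0, 1, 9, 23, 1, 13, 3⟩, ⟨12585515, 2, 22, 1, 11, 17, 1, 21, 4⟩,
  ⟨78379, 3, 12, 1, 4, 25, 1, 5, 26⟩, ⟨537131, 3, 0, 1, 9, 3, 1, 9, 3⟩,
  ⟨152107, 2, 12, 5, 2, 25, 6, 7, 20⟩, ⟨545323, 2, 0, 9, 1, 5, 3, 12, 1⟩,
  ⟨201259, 2, 16, 5, 1, 23, 3, 4, 19⟩, ⟨594475, 3, 1, 5, 14, 4, 19, 20, 5⟩,
  ⟨8524331, 3, 0, 5, 9, 3, 11, 9, 3⟩, ⟨8917547, 2, 23, 9, 19, 16, 4, 23, 1⟩,
  ⟨57899, 2, 13, 5, 1, 26, 3, 4, 23⟩, ⟨549419, 2, 1, 11, 2, 5, 6, 15, 7⟩,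
  ⟨107051, 2, 16, 5, 2, 21, 6, 7, 25⟩, ⟨4235819, 3, 1, 5, 11, 4, 19, 20, 22⟩,
  ⟨598571, 3, 0, 5, 13, 3, 11, 9, 13⟩, ⟨4727339, 2, 22, 11, 18, 15, 8, 24, 6⟩,
  ⟨180779, 3, 17, 1, 4, 23, 1, 5, 22⟩, ⟨67158571, 3, 0, 5, 15, 3, 11, 9, 12⟩,
  ⟨67256875, 3, 1, 5, 16, 4, 19, 20, 4⟩, ⟨2638379, 1, 19, 5, 9, 11, 21, 22, 3⟩,
  ⟨67650091, 2, 1, 5, 13, 25, 24, 25, 20⟩, ⟨69222955, 2, 21, 5, 9, 15, 23, 21, 3⟩,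
  ⟨67207723, 2, 3, 15, 2, 7, 6, 24, 25⟩, ⟨67273259, 3, 5, 1, 16, 8, 1, 20, 22⟩,
  ⟨71336491, 2, 26, 15, 19, 16, 11, 16, 17⟩, ⟨67306027, 2, 5, 16, 1, 7, 3, 21, 19⟩,
  ⟨2687531, 2, 0, 5, 9, 19, 12, 13, 3⟩, ⟨67699243, 2, 26, 5, 15, 14, 16, 17, 11⟩,
  ⟨69272107, 1, 21, 5, 15, 16, 15, 16, 10⟩, ⟨75629099, 2, 26, 16, 18, 15, 19, 24, 6⟩,
  ⟨6816299, 2, 1, 11, 2, 21, 6, 16, 7⟩, ⟨11010603, 2, 0, 9, 1, 23, 3, 13, 1⟩,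
  ⟨13107755, 3, 0, 1, 9, 23, 1, 13, 3⟩, ⟨71828011, 3, 1, 5, 11, 18, 24, 25, 18⟩,
  ⟨76022315, 3, 0, 5, 9, 19, 12, 13, 3⟩, ⟨73400875, 2, 3, 15, 2, 19, 6, 26, 24⟩,
  ⟨77595179, 2, 5, 16, 1, 18, 3, 23, 18⟩, ⟨79692331, 3, 5, 1, 16, 18, 1, 25, 18⟩,
  ⟨13963, 2, 0, 3, 1, 9, 3, 1, 9⟩, ⟨22155, 2, 1, 5, 2, 9, 6, 7, 9⟩,
  ⟨71307, 1, 7, 3, 5, 9, 7, 1, 9⟩, ⟨33560203, 2, 1, 9, 6, 5, 24, 6, 1⟩,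
  ⟨26251, 3, 0, 1, 3, 10, 1, 3, 11⟩, ⟨42635, 2, 15, 3, 7, 21, 4, 1, 19⟩,
  ⟨2107019, 3, 0, 3, 9, 1, 9, 1, 3⟩, ⟨149131, 2, 17, 5, 6, 23, 8, 6, 19⟩,
  ⟨2115211, 3, 1, 5, 9, 2, 18, 19, 3⟩, ⟨99979, 2, 0, 3, 1, 15, 3, 1, 10⟩,
  ⟨165515, 3, 0, 1, 3, 15, 1, 3, 12⟩, ⟨33588875, 3, 7, 3, 12, 8, 20, 1, 5⟩,
  ⟨198283, 2, 1, 5, 2, 16, 6, 7, 10⟩, ⟨2164363, 2, 0, 9, 3, 7, 12, 3, 1⟩,
  ⟨33687179, 3, 7, 5, 14, 8, 10, 11, 5⟩, ⟨35653259, 2, 25, 9, 21, 14, 23, 4, 1⟩,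
  ⟨14987, 3, 0, 1, 3, 9, 1, 3, 9⟩, ⟨23179, 2, 0, 3, 1, 11, 3, 1, 12⟩,
  ⟨137867, 2, 17, 3, 7, 22, 4, 1, 23⟩, ⟨4201099, 3, 0, 3, 11, 1, 9, 1, 12⟩,
  ⟨27275, 2, 1, 5, 2, 11, 6, 7, 15⟩, ⟨76427, 2, 16, 5, 6, 21, 8, 6, 24⟩,
  ⟨4205195, 3, 1, 5, 11, 2, 18, 19, 21⟩, ⟨51851, 1, 7, 3, 5, 11, 7, 1, 16⟩,
  ⟨67127947, 2, 1, 11, 6, 5, 24, 6, 25⟩, ⟨101003, 2, 1, 5, 2, 15, 6, 7, 16⟩,
  ⟨166539, 2, 0, 3, 1, 17, 3, 1, 13⟩, ⟨4229771, 2, 0, 11, 3, 7, 12, 3, 13⟩,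
  ⟨199307, 3, 0, 1, 3, 17, 1, 3, 13⟩, ⟨67177099, 3, 7, 5, 13, 8, 10, 11, 12⟩,
  ⟨67242635, 3, 7, 3, 14, 8, 20, 1, 22⟩, ⟨71305867, 2, 26, 11, 21, 14, 16, 11, 17⟩,
  ⟨78475, 2, 9, 3, 7, 18, 4, 1, 18⟩, ⟨4207243, 3, 7, 3, 15, 8, 20, 1, 4⟩,
  ⟨152203, 1, 7, 3, 5, 14, 7, 1, 15⟩, ⟨545419, 2, 0, 14, 3, 7, 12, 3, 10⟩,
  ⟨201355, 2, 12, 5, 6, 25, 8, 6, 20⟩, ⟨594571, 2, 7, 9, 3, 5, 21, 3, 1⟩,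
  ⟨33690251, 2, 7, 14, 5, 3, 15, 9, 7⟩, ⟨4723339, 2, 19, 3, 9, 11, 21, 1, 3⟩,
  ⟨34083467, 1, 25, 3, 9, 14, 22, 1, 3⟩, ⟨37753483, 2, 0, 3, 12, 22, 13, 1, 5⟩,
  ⟨57995, 2, 9, 5, 6, 19, 8, 6, 26⟩, ⟨2122379, 3, 7, 5, 15, 8, 10, 11, 14⟩,
  ⟨107147, 1, 7, 3, 5, 15, 7, 1, 10⟩, ⟨4235915, 2, 7, 15, 3, 5, 21, 3, 4⟩,
  ⟨2171531, 2, 7, 15, 5, 3, 15, 9, 10⟩, ⟨6300299, 2, 22, 15, 18, 11, 24, 8, 6⟩,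
  ⟨180875, 2, 14, 3, 7, 25, 4, 1, 21⟩, ⟨574091, 2, 7, 11, 5, 3, 15, 9, 16⟩,
  ⟨67256971, 2, 7, 14, 3, 5, 21, 3, 19⟩, ⟨2638475, 2, 19, 5, 11, 9, 15, 16, 9⟩,
  ⟨67650187, 1, 26, 5, 11, 14, 17, 15, 11⟩, ⟨69223051, 2, 1, 5, 13, 23, 26, 24, 19⟩,
  ⟨623243, 2, 1, 15, 6, 5, 24, 6, 7⟩, ⟨33718923, 3, 0, 3, 17, 1, 9, 1, 13⟩,
  ⟨4752011, 1, 19, 3, 11, 15, 16, 1, 10⟩, ⟨34112139, 2, 0, 3, 9, 25, 13, 1, 3⟩,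
  ⟨37782155, 2, 22, 3, 11, 12, 17, 1, 11⟩, ⟨67306123, 3, 1, 5, 16, 2, 18, 19, 4⟩,
  ⟨2687627, 1, 19, 5, 9, 15, 23, 21, 3⟩, ⟨67699339, 2, 1, 5, 11, 25, 26, 24, 20⟩,
  ⟨69272203, 2, 21, 5, 9, 13, 22, 23, 3⟩, ⟨100795019, 2, 26, 14, 18, 11, 24, 19, 6⟩,
  ⟨6816395, 2, 3, 15, 6, 19, 16, 6, 7⟩, ⟨36176523, 2, 0, 9, 3, 25, 13, 3, 1⟩,
  ⟨71828107, 2, 1, 11, 5, 25, 26, 20, 24⟩, ⟨101188235, 2, 7, 14, 3, 18, 23, 3, 18⟩,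
  ⟨39846539, 3, 0, 3, 9, 25, 13, 1, 3⟩, ⟨73400971, 3, 1, 5, 11, 25, 26, 24, 20⟩,
  ⟨102761099, 3, 7, 5, 14, 19, 14, 12, 5⟩, ⟨104858251, 3, 7, 3, 14, 18, 25, 1, 18⟩,
  ⟨4208139, 2, 13, 9, 2, 24, 6, 20, 1⟩, ⟨8410635, 2, 14, 9, 1, 25, 3, 23, 1⟩,
  ⟨33625611, 2, 16, 9, 3, 23, 23, 3, 1⟩, ⟨12588555, 3, 22, 1, 11, 15, 1, 22, 4⟩,
  ⟨37754379, 3, 22, 3, 15, 11, 22, 1, 4⟩, ⟨41948683, 3, 23, 5, 16, 10, 17, 15, 4⟩,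
  ⟨2123275, 3, 13, 1, 11, 24, 1, 26, 4⟩, ⟨4236811, 3, 10, 3, 12, 23, 26, 1, 5⟩,
  ⟨6301195, 2, 21, 9, 1, 15, 3, 19, 1⟩, ⟨8537611, 3, 9, 5, 14, 21, 13, 14, 5⟩,
  ⟨10503691, 2, 21, 9, 2, 16, 6, 25, 1⟩, ⟨33654283, 2, 10, 15, 2, 18, 6, 20, 18⟩,
  ⟨33719819, 3, 9, 1, 16, 19, 1, 26, 19⟩, ⟨37783051, 2, 22, 15, 3, 17, 19, 3, 4⟩,
  ⟨33752587, 2, 9, 16, 1, 18, 3, 23, 18⟩, ⟨35718667, 1, 21, 9, 15, 16, 15, 7, 1⟩,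
  ⟨42075659, 2, 23, 16, 5, 17, 11, 14, 4⟩, ⟨39847435, 2, 10, 15, 2, 12, 6, 19, 20⟩,
  ⟨44041739, 2, 9, 16, 1, 14, 3, 22, 20⟩, ⟨46138891, 3, 9, 1, 16, 14, 1, 22, 24⟩,
  ⟨4209163, 3, 12, 1, 10, 25, 1, 26, 5⟩, ⟨8411659, 2, 12, 11, 2, 25, 6, 20, 7⟩,
  ⟨8526347, 3, 9, 3, 14, 21, 26, 1, 19⟩, ⟨12589579, 2, 22, 11, 1, 17, 3, 19, 4⟩,
  ⟨2124299, 2, 13, 11, 1, 26, 3, 23, 4⟩, ⟨2173451, 3, 11, 5, 13, 22, 13, 14, 15⟩,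
  ⟨6302219, 2, 22, 11, 2, 15, 6, 25, 7⟩, ⟨67160587, 2, 15, 11, 3, 21, 23, 3, 21⟩,
  ⟨10504715, 3, 23, 1, 10, 17, 1, 22, 5⟩, ⟨69224971, 3, 21, 5, 15, 9, 17, 15, 9⟩,
  ⟨75516427, 3, 23, 3, 17, 10, 22, 1, 26⟩, ⟨67209739, 2, 11, 15, 1, 19, 3, 23, 21⟩,
  ⟨67275275, 2, 9, 17, 2, 19, 6, 20, 24⟩, ⟨71338507, 1, 22, 11, 15, 17, 21, 19, 22⟩,
  ⟨67308043, 3, 11, 1, 15, 20, 1, 26, 20⟩, ⟨69274123, 2, 21, 15, 5, 16, 11, 14, 12⟩,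
  ⟨75631115, 2, 23, 17, 3, 16, 19, 3, 23⟩, ⟨73402891, 2, 11, 15, 1, 13, 3, 22, 23⟩,
  ⟨77597195, 3, 11, 1, 15, 13, 1, 22, 25⟩, ⟨79694347, 2, 9, 17, 2, 14, 6, 19, 26⟩,
  ⟨602635, 3, 13, 3, 15, 20, 26, 1, 4⟩, ⟨4731403, 2, 19, 9, 3, 11, 19, 3, 1⟩,
  ⟨8540683, 2, 9, 14, 3, 18, 23, 3, 18⟩, ⟨8933899, 1, 19, 9, 11, 14, 7, 15, 1⟩,
  ⟨33755659, 3, 16, 5, 9, 26, 13, 14, 3⟩, ⟨34148875, 2, 19, 9, 6, 14, 25, 6, 1⟩,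
  ⟨42078731, 2, 25, 14, 7, 17, 14, 11, 4⟩, ⟨13111819, 2, 12, 11, 6, 10, 19, 6, 20⟩,
  ⟨42471947, 2, 9, 14, 3, 16, 22, 3, 20⟩, ⟨46141963, 3, 9, 3, 14, 16, 22, 1, 24⟩,
  ⟨582155, 3, 13, 5, 15, 20, 13, 14, 17⟩, ⟨2646539, 2, 19, 11, 5, 9, 11, 14, 9⟩,
  ⟨631307, 2, 13, 15, 3, 26, 23, 3, 4⟩, ⟨4760075, 2, 22, 15, 6, 11, 25, 6, 7⟩,
  ⟨2695691, 2, 21, 15, 7, 9, 14, 11, 9⟩, ⟨6824459, 1, 13, 9, 11, 15, 7, 19, 1⟩,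
  ⟨67289611, 3, 15, 3, 11, 24, 26, 1, 20⟩, ⟨67682827, 2, 19, 11, 7, 14, 14, 11, 12⟩,
  ⟨75645451, 2, 26, 14, 6, 16, 25, 6, 20⟩, ⟨11026955, 2, 14, 9, 7, 10, 11, 17, 1⟩,
  ⟨76038667, 2, 9, 14, 5, 17, 17, 11, 7⟩, ⟨77611531, 3, 9, 5, 14, 17, 17, 15, 5⟩,
  ⟨34177547, 3, 25, 3, 12, 17, 22, 1, 5⟩, ⟨67731979, 3, 26, 5, 13, 16, 17, 15, 10⟩,
  ⟨100762123, 3, 25, 1, 17, 12, 1, 22, 26⟩, ⟨100827659, 2, 25, 17, 1, 14, 3, 19, 23⟩,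
  ⟨71860747, 2, 15, 11, 3, 13, 22, 3, 23⟩, ⟨101220875, 3, 15, 3, 11, 13, 22, 1, 25⟩,
  ⟨104890891, 2, 9, 17, 6, 16, 19, 6, 26⟩, ⟨100860427, 2, 26, 16, 2, 14, 6, 25, 20⟩,
  ⟨36241931, 2, 16, 9, 5, 12, 17, 11, 1⟩, ⟨101253643, 3, 16, 5, 9, 12, 17, 15, 3⟩,
  ⟨102826507, 2, 9, 16, 7, 17, 11, 17, 7⟩, ⟨109183499, 1, 9, 14, 16, 17, 15, 11, 8⟩,
  ⟨44565003, 3, 23, 5, 16, 1, 9, 10, 4⟩, ⟨80216587, 3, 23, 3, 17, 2, 18, 1, 22⟩,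
  ⟨109576715, 2, 26, 14, 6, 5, 24, 6, 19⟩, ⟨106955275, 3, 25, 1, 17, 6, 1, 18, 22⟩,
  ⟨111149579, 2, 26, 16, 2, 7, 6, 24, 19⟩, ⟨113246731, 2, 25, 17, 1, 6, 3, 18, 22⟩]

/-- certificates -/
def t9 : List Cert := [
  ⟨8537627, 0, 23, 1, 3, 24, 1, 3, 24⟩, ⟨2173467, 0, 21, 1, 3, 25, 1, 3, 25⟩,
  ⟨33755675, 0, 25, 1, 3, 20, 1, 3, 20⟩, ⟨582171, 0, 19, 1, 3, 23, 1, 3, 23⟩,
  ⟨44565019, 0, 9, 1, 3, 13, 1, 3, 17⟩, ⟨4236843, 0, 22, 1, 5, 25, 1, 4, 24⟩,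
  ⟨8526379, 0, 23, 1, 5, 26, 1, 4, 25⟩, ⟨602667, 0, 19, 1, 5, 22, 1, 4, 23⟩,
  ⟨67289643, 0, 26, 1, 5, 20, 1, 4, 20⟩, ⟨80216619, 0, 9, 1, 5, 12, 1, 4, 17⟩,
  ⟨2123403, 0, 21, 1, 4, 17, 1, 5, 12⟩, ⟨33719947, 0, 25, 1, 4, 13, 1, 5, 15⟩,
  ⟨4209291, 0, 22, 1, 4, 16, 1, 5, 13⟩, ⟨67308171, 0, 26, 1, 4, 12, 1, 5, 16⟩,
  ⟨106955403, 0, 9, 1, 4, 20, 1, 5, 20⟩, ⟨46142987, 0, 25, 1, 9, 8, 1, 20, 3⟩,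
  ⟨77613579, 0, 26, 1, 11, 8, 1, 20, 4⟩, ⟨101286411, 0, 3, 1, 10, 8, 1, 20, 5⟩]

theorem t8_ok : t8.all Cert.ok = true := by decide +kernel

theorem t9_ok : t9.all Cert.ok = true := by decide +kernel

theorem t9_typ : t9.all (fun e => Nat.beq e.typ 0) = true := by decide +kernel

theorem t8_typ : t8.all (fun e => (Nat.beq e.typ 1).or ((Nat.beq e.typ 2).or (Nat.beq e.typ 3)))
    = true := by decide +kernel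

theorem dfs8 : dfs tt (inTab t8) 27 rest0 [0, 1, 3, 9] 4 = true := by decide +kernel

theorem dfs9 : dfs tt (inTab t9) 27 rest0 [0, 1, 3, 9] 5 = true := by decide +kernel

theorem framed_search {K : Finset (Fin 3 → ZMod 3)} (hK : IsCap K) (h0 : (0 : Fin 3 → ZMod 3) ∈ K)
    (he : ∀ i, (Pi.single i 1 : Fin 3 → ZMod 3) ∈ K) {t : ℕ} (hc : K.card = 4 + t)
    {leaf : List ℕ → Bool} (hd : dfs tt leaf 27 rest0 [0, 1, 3, 9] t = true) :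
    ∃ L, leaf L = true ∧ L.Nodup ∧ L.toFinset = codes K := by
  have m0 : 0 ∈ codes K := by rw [mem_codes' (by norm_num), pt_zero']; exact h0
  have m1 : 1 ∈ codes K := by
    rw [mem_codes' (by norm_num)]
    have : pt 3 1 = Pi.single 0 1 := by decide
    rw [this]; exact he 0
  have m3 : 3 ∈ codes K := by
    rw [mem_codes' (by norm_num)]
    have : pt 3 3 = Pi.single 1 1 := by decide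
    rw [this]; exact he 1
  have m9 : 9 ∈ codes K := by
    rw [mem_codes' (by norm_num)]
    have : pt 3 9 = Pi.single 2 1 := by decide
    rw [this]; exact he 2
  have hC : ∀ c ∈ [0, 1, 3, 9], c ∈ codes K := by
    intro c hc
    simp only [List.mem_cons, List.not_mem_nil, or_false] at hc
    rcases hc with rfl | rfl | rfl | rfl
    · exact m0
    · exact m1
    · exact m3
    · exact m9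
  refine dfs_sound tt leaf (codes K) (codes_cap3 hK) 27 rest0 [0, 1, 3, 9] t hd (by decide)
    (by decide) (by decide) hC ?_ (by decide) ?_
  · intro x hx hxC
    have h1 : ∀ x < 27, x ∉ [0, 1, 3, 9] → x ∉ rest0 →
        ∃ a ∈ [0, 1, 3, 9], ∃ b ∈ [0, 1, 3, 9], a ≠ b ∧ tt a b = x := by decide +kernel
    by_contra hxr
    obtain ⟨a, ha, b, hb, hab, rfl⟩ := h1 x (codes_lt hx) hxC hxr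
    exact hab (codes_cap3 hK a (hC a ha) b (hC b hb) hx)
  · rw [codes_card, hc]; rfl

theorem exists_framed {K : Finset (Fin 3 → ZMod 3)} (hK : IsCap K) (hc : 5 ≤ K.card) :
    ∃ K', AffEq K K' ∧ (0 : Fin 3 → ZMod 3) ∈ K' ∧ ∀ i, (Pi.single i 1 : Fin 3 → ZMod 3) ∈ K' := by
  obtain ⟨a, ha⟩ := Finset.card_pos.1 (show 0 < K.card by omega)
  refine frame ha fun ξ hξ => ?_
  by_contra hno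
  push Not at hno
  have h1 := nn_le hK card_le_two_dim hξ (dotProduct ξ a)
  have h2 : nn K ξ (dotProduct ξ a) = K.card := by
    unfold nn
    rw [Finset.filter_true_of_mem hno]
  omega

theorem inTab_iff {tb : List Cert} {L : List ℕ} (h : inTab tb L = true) :
    ∃ e ∈ tb, mask L = e.m := by
  unfold inTab at h
  rw [List.any_eq_true] at h
  obtain ⟨e, he, hm⟩ := h
  exact ⟨e, he, (Nat.eq_of_beq_eq_true hm).symm⟩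

/-- **Every 9-cap of `F_3^3` is an elliptic quadric.** -/
theorem caps9 {K : Finset (Fin 3 → ZMod 3)} (hK : IsCap K) (hc : K.card = 9) :
    AffEq (ofL 3 (E3 0)) K := by
  obtain ⟨K', hKK', h0, he⟩ := exists_framed hK (by omega)
  obtain ⟨L, hL, -, hLK⟩ := framed_search (hKK'.isCap hK) h0 he
    (t := 5) (by rw [hKK'.card, hc]) dfs9
  obtain ⟨e, he, hm⟩ := inTab_iff hL
  have h1 := (List.all_eq_true.1 t9_ok) e he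
  have h2 := Nat.eq_of_beq_eq_true ((List.all_eq_true.1 t9_typ) e he)
  have h3 := Cert.affEq h1 hm hLK
  rw [h2] at h3
  exact h3.trans hKK'.symm

/-- **Every 8-cap of `F_3^3` is of one of three types.** -/
theorem caps8 {K : Finset (Fin 3 → ZMod 3)} (hK : IsCap K) (hc : K.card = 8) :
    AffEq (ofL 3 (E3 1)) K ∨ AffEq (ofL 3 (E3 2)) K ∨ AffEq (ofL 3 (E3 3)) K := by
  obtain ⟨K', hKK', h0, he⟩ := exists_framed hK (by omega)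
  obtain ⟨L, hL, -, hLK⟩ := framed_search (hKK'.isCap hK) h0 he
    (t := 4) (by rw [hKK'.card, hc]) dfs8
  obtain ⟨e, he, hm⟩ := inTab_iff hL
  have h1 := (List.all_eq_true.1 t8_ok) e he
  have h2 := (List.all_eq_true.1 t8_typ) e he
  have h3 := (Cert.affEq h1 hm hLK).trans hKK'.symm
  simp only [Bool.or_eq_true, Nat.beq_eq] at h2
  rcases h2 with h | h | h
  · rw [h] at h3; exact Or.inl h3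
  · rw [h] at h3; exact Or.inr (Or.inl h3)
  · rw [h] at h3; exact Or.inr (Or.inr h3)

end Pool.Agent.T2H98.EGZ
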