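import Pool.Agent.T2H98.EGZ.Eng

set_option autoImplicit false
set_option linter.unusedVariables false

/-!
# Kernel engine, part 2: data of one class of root values (definitions only)
-/

namespace Pool.Agent.T2H98.EGZ.K

/-- digit: `k3 = 3 ^ k` -/
noncomputable def d3 (x k3 : Nat) : Nat := Nat.mod (Nat.div x k3) 3

/-- an affine automorphism of the cap: columns of the matrix, translation, twice the translation,
columns of the inverse matrix, all in field form -/
structure GDat where
  a0 : Nat
  a1 : Nat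
  a2 : Nat
  a3 : Nat
  a4 : Nat
  t : Nat
  b0 : Nat
  b1 : Nat
  b2 : Nat
  b3 : Nat
  b4 : Nat

/-- `A x + t` in field form (not reduced) -/
noncomputable def gfa (a0 a1 a2 a3 a4 t x : Nat) : Nat :=
  Nat.add t (Nat.add (Nat.mul (d3 x 1) a0) (Nat.add (Nat.mul (d3 x 3) a1)
    (Nat.add (Nat.mul (d3 x 9) a2) (Nat.add (Nat.mul (d3 x 27) a3) (Nat.mul (d3 x 81) a4)))))
/-- `A x + 2 t` in field form (not reduced), `x` a code -/
noncomputable def gf (G : GDat) (x : Nat) : Nat :=
  gfa G.a0 G.a1 G.a2 G.a3 G.a4 (Nat.add G.t G.t) x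
/-- code of the vector with field form `T` -/
noncomputable def c3 (T : Nat) : Nat :=
  Nat.add (dm T 0) (Nat.mul 3 (Nat.add (dm T 8) (Nat.mul 3 (Nat.add (dm T 16)
    (Nat.mul 3 (Nat.add (dm T 24) (Nat.mul 3 (dm T 32))))))))
/-- code of `A x + t`, `x` a code -/
noncomputable def gc (G : GDat) (x : Nat) : Nat := c3 (gfa G.a0 G.a1 G.a2 G.a3 G.a4 G.t x)

/-- the codes of the cap as a mask -/
noncomputable def DM : Nat := 0x4200288140000080200012a0091a080000a0600370800a20208440848121b
noncomputable def inD (x : Nat) : Bool := Nat.beq (Nat.land (Nat.shiftRight DM x) 1) 1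
noncomputable def allD (f : Nat → Nat) (l : List Nat) : Bool :=
  List.rec (motive := fun _ => Bool) true
    (fun c _ ih => Bool.rec (motive := fun _ => Bool) false ih (inD (f c))) l
/-- `A b = e_k` where `k3 = 3 ^ k` -/
noncomputable def ck1 (a0 a1 a2 a3 a4 b k3 : Nat) : Bool :=
  Nat.beq (c3 (gfa a0 a1 a2 a3 a4 0 (c3 b))) k3
noncomputable def ckm (a0 a1 a2 a3 a4 b0 b1 b2 b3 b4 : Nat) : Bool :=
  (ck1 a0 a1 a2 a3 a4 b0 1).and ((ck1 a0 a1 a2 a3 a4 b1 3).and ((ck1 a0 a1 a2 a3 a4 b2 9).and
    ((ck1 a0 a1 a2 a3 a4 b3 27).and (ck1 a0 a1 a2 a3 a4 b4 81))))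
noncomputable def gck (l : List Nat) (G : GDat) : Bool :=
  (ckm G.a0 G.a1 G.a2 G.a3 G.a4 G.b0 G.b1 G.b2 G.b3 G.b4).and
    ((ckm G.b0 G.b1 G.b2 G.b3 G.b4 G.a0 G.a1 G.a2 G.a3 G.a4).and (allD (gc G) l))

noncomputable def mkX (G : GDat) (done : List Nat) : List Nat :=
  List.rec (motive := fun _ => List Nat) List.nil (fun x _ ih => List.cons (gf G x) ih) done

noncomputable def G0 : GDat :=
  ⟨1, 0x100, 0x10000, 0x1000000, 0x100000000, 0, 1, 0x100, 0x10000, 0x1000000, 0x100000000⟩
noncomputable def gg (Gs : List GDat) : Nat → GDat :=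
  List.rec (motive := fun _ => Nat → GDat) (fun _ => G0)
    (fun h _ ih i => Nat.rec (motive := fun _ => GDat) h (fun n _ => ih n) i) Gs

/-- data of one excluded list of class data: index of the group element, multiplicity of the target minus one,
coefficient of the root, pattern of the chain, carry of the list (field form) -/
structure PRD where
  g : Nat
  s1 : Nat
  c0 : Nat
  c : List Nat
  q : Nat

noncomputable def pix (c : List Nat) : Nat :=
  List.rec (motive := fun _ => Nat → Nat) (fun n => n) (fun a _ ih n => ih (Nat.add (Nat.mul 3 n) a))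
    c 0
noncomputable def cn2 (c : List Nat) : Nat :=
  List.rec (motive := fun _ => Nat) 0 (fun a _ ih => Nat.add (Nat.div a 2) ih) c
noncomputable def toR (Gs : List GDat) (Y0 : Nat) (done : List Nat) (r : PRD) : PiR :=
  ⟨Nat.mul 7776 (pix r.c), r.s1, r.q, Nat.add (Nat.mul r.c0 Y0) (Nat.mul (cn2 r.c) 0x101010101),
    mkX (gg Gs r.g) done⟩
noncomputable def toRs (Gs : List GDat) (Y0 : Nat) (done : List Nat) (l : List PRD) : List PiR :=
  List.rec (motive := fun _ => List PiR) List.nil (fun r _ ih => List.cons (toR Gs Y0 done r) ih) l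
/-- chain data: (gauge coordinates, index) to (gauge coordinates, stat) -/
noncomputable def clm (l : List (Nat × Nat)) : List (Nat × Nat) :=
  List.rec (motive := fun _ => List (Nat × Nat)) List.nil
    (fun r _ ih => List.cons (r.1, stp r.2) ih) l
/-- table of the target with index `t`; the root is the point with index `6`, its three other points
have indices `0, 1, 4` -/
noncomputable def Bt (g4 g5 a0 Y0 : Nat) (cl : List (Nat × Nat)) (s t gam : Nat) : Nat :=
  bld (List.cons (stp 0) (List.cons (stp 1) (List.cons (stp 4) (List.cons (stp g4)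
    (List.cons (stp g5) List.nil))))) a0 (stp 6) Y0 (clm cl) s (stp t) (Nat.mul 2 (stp t)) gam 0
/-- check of one table -/
noncomputable def tck (Gs : List GDat) (Q g4 g5 a0 Y0 : Nat) (cl : List (Nat × Nat)) (s t gam : Nat)
    (done : List Nat) (l : List PRD) : Bool :=
  Nat.beq Q (rmv (Bt g4 g5 a0 Y0 cl s t gam) (fbs (toRs Gs Y0 done l)))
noncomputable def orl (l : List Nat) : Nat :=
  List.rec (motive := fun _ => Nat) 0 (fun M _ ih => Nat.lor M ih) l
/-- the masks of the chunks cover the base domain of `x1` -/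
noncomputable def cov (Q : Nat) (l : List Nat) : Bool := Nat.beq (Nat.land Q (orl l)) Q

/-- the environment with the gauge points and the root assigned -/
noncomputable def mkE0 (F l0 : Nat) : Nat := asg (mkE F 45) 6 l0
noncomputable def outl (l : List Nat) : List (Nat × Nat) :=
  List.rec (motive := fun _ => List (Nat × Nat)) List.nil (fun p _ ih => List.cons (p, W1) ih) l

end Pool.Agent.T2H98.EGZ.K
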