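import Pool.Agent.T2H98.EGZ.PiSound
import Pool.Agent.T2H98.EGZ.Eng2

/-! # Transfer of excluded values by automorphisms of the cap, in field form -/

set_option autoImplicit false

namespace Pool.Agent.T2H98.EGZ

open K

/-- the root list -/
def L0 : List ℕ := [0, 1, 9, 9, 19, 19]

/-- field `k` of a number -/
def fl8 (n : ℕ) (k : ℕ) : ℕ := n / 2 ^ (8 * k) % 256

/-- the vector of a field form -/
def fv (n : ℕ) : Fin 5 → ZMod 3 := fun k => (fl8 n k : ZMod 3)

/-- field form with fields at most `b` -/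
def nrmb (b n : ℕ) : Bool :=
  decide (n < 2 ^ 40) && (List.range 5).all fun k => decide (fl8 n k ≤ b)

theorem nrmb_sum {b n : ℕ} (h : nrmb b n = true) :
    n = ∑ k : Fin 5, fl8 n k * 2 ^ (8 * (k : ℕ)) := by
  simp only [nrmb, Bool.and_eq_true, decide_eq_true_eq] at h
  simp only [fl8, Fin.sum_univ_five]
  norm_num
  omega

theorem nrmb_le {b n : ℕ} (h : nrmb b n = true) (k : Fin 5) : fl8 n k ≤ b := by
  simp only [nrmb, Bool.and_eq_true, decide_eq_true_eq, List.all_eq_true, List.mem_range] at h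
  exact h.2 k k.2

theorem fin5 (k : Fin 5) : k = 0 ∨ k = 1 ∨ k = 2 ∨ k = 3 ∨ k = 4 := by
  revert k; decide

theorem fl8_sum (f : Fin 5 → ℕ) (hf : ∀ k, f k < 256) (k : Fin 5) :
    fl8 (∑ k : Fin 5, f k * 2 ^ (8 * (k : ℕ))) k = f k := by
  have h0 := hf 0
  have h1 := hf 1
  have h2 := hf 2
  have h3 := hf 3
  have h4 := hf 4
  simp only [fl8, Fin.sum_univ_five]
  rcases fin5 k with rfl | rfl | rfl | rfl | rfl <;> norm_num <;> omega

theorem land_255 (n : ℕ) : Nat.land n 255 = n % 256 := by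
  have := Nat.and_two_pow_sub_one_eq_mod n 8
  simpa using this

theorem tr_dm_eq (T k : ℕ) : dm T (8 * k) = fl8 T k % 3 := by
  unfold dm fl8
  show (Nat.land (T >>> (8 * k)) 255) % 3 = _
  rw [land_255, Nat.shiftRight_eq_div_pow]

theorem d3_eq (x k : ℕ) : d3 x (3 ^ k) = dg x k := rfl

theorem dg_lt (x k : ℕ) : dg x k ≤ 2 := by
  unfold dg; omega

/-- fields of `A x + t` -/
theorem gfa_eq (a : Fin 5 → ℕ) (t x : ℕ) (ha : ∀ j, nrmb 2 (a j) = true) (b : ℕ)
    (ht : nrmb b t = true) :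
    gfa (a 0) (a 1) (a 2) (a 3) (a 4) t x =
      ∑ k : Fin 5, (fl8 t k + ∑ j : Fin 5, dg x j * fl8 (a j) k) * 2 ^ (8 * (k : ℕ)) := by
  have h : gfa (a 0) (a 1) (a 2) (a 3) (a 4) t x = t + (dg x 0 * a 0 + (dg x 1 * a 1 +
    (dg x 2 * a 2 + (dg x 3 * a 3 + dg x 4 * a 4)))) := rfl
  rw [h]
  conv_lhs => rw [nrmb_sum ht, nrmb_sum (ha 0), nrmb_sum (ha 1), nrmb_sum (ha 2), nrmb_sum (ha 3),
    nrmb_sum (ha 4)]
  simp only [Fin.sum_univ_five]
  norm_num
  ring

/-- the code of a vector given by fields -/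
theorem c3_eq (T : ℕ) : c3 T = ∑ k : Fin 5, (fl8 T k % 3) * 3 ^ (k : ℕ) := by
  have h : c3 T = dm T (8 * 0) + 3 * (dm T (8 * 1) + 3 * (dm T (8 * 2) + 3 * (dm T (8 * 3) +
    3 * dm T (8 * 4)))) := rfl
  rw [h]
  simp only [tr_dm_eq, Fin.sum_univ_five]
  norm_num
  ring

theorem pt_c3 (T : ℕ) : pt 5 (c3 T) = fv T := by
  funext k
  rw [c3_eq]
  simp only [pt, fv]
  have h0 : fl8 T 0 % 3 < 3 := Nat.mod_lt _ (by norm_num)
  have h1 : fl8 T 1 % 3 < 3 := Nat.mod_lt _ (by norm_num)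
  have h2 : fl8 T 2 % 3 < 3 := Nat.mod_lt _ (by norm_num)
  have h3 : fl8 T 3 % 3 < 3 := Nat.mod_lt _ (by norm_num)
  have h4 : fl8 T 4 % 3 < 3 := Nat.mod_lt _ (by norm_num)
  rw [ZMod.natCast_eq_natCast_iff']
  simp only [Fin.sum_univ_five]
  rcases fin5 k with rfl | rfl | rfl | rfl | rfl <;> norm_num <;> omega

def acol (G : GDat) : Fin 5 → ℕ := ![G.a0, G.a1, G.a2, G.a3, G.a4]

def bcol (G : GDat) : Fin 5 → ℕ := ![G.b0, G.b1, G.b2, G.b3, G.b4]

def gmat (f : Fin 5 → ℕ) : Matrix (Fin 5) (Fin 5) (ZMod 3) :=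
  Matrix.of fun i j => (fl8 (f j) i : ZMod 3)

theorem pt_dg (x : ℕ) (j : Fin 5) : pt 5 x j = (dg x j : ZMod 3) := by
  simp only [pt, dg]
  rw [ZMod.natCast_mod]

theorem fv_gfa (a : Fin 5 → ℕ) (t x b : ℕ) (ha : ∀ j, nrmb 2 (a j) = true)
    (ht : nrmb b t = true) (hb : b ≤ 200) :
    fv (gfa (a 0) (a 1) (a 2) (a 3) (a 4) t x) = (gmat a).mulVec (pt 5 x) + fv t := by
  funext k
  have hs : ∀ k : Fin 5, fl8 t k + ∑ j : Fin 5, dg x j * fl8 (a j) k < 256 := by
    intro k
    have h1 : ∀ j : Fin 5, dg x j * fl8 (a j) k ≤ 2 * 2 := fun j =>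
      Nat.mul_le_mul (dg_lt x j) (nrmb_le (ha j) k)
    have h2 : ∑ j : Fin 5, dg x j * fl8 (a j) k ≤ ∑ _j : Fin 5, 2 * 2 :=
      Finset.sum_le_sum fun j _ => h1 j
    have h3 := nrmb_le ht k
    simp only [Finset.sum_const, Finset.card_univ, Fintype.card_fin, smul_eq_mul] at h2
    omega
  rw [gfa_eq a t x ha b ht]
  simp only [fv, Pi.add_apply, Matrix.mulVec, dotProduct]
  rw [fl8_sum _ hs k]
  push_cast
  rw [add_comm]
  congr 1
  refine Finset.sum_congr rfl fun j _ => ?_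
  rw [pt_dg, gmat, Matrix.of_apply, mul_comm]

def gcheck (G : GDat) : Bool :=
  (List.all [G.a0, G.a1, G.a2, G.a3, G.a4, G.b0, G.b1, G.b2, G.b3, G.b4, G.t] (nrmb 2))

structure GOK (G : GDat) : Prop where
  ha : ∀ j, nrmb 2 (acol G j) = true
  ht : nrmb 2 G.t = true
  ht2 : nrmb 4 (Nat.add G.t G.t) = true
  m1 : gmat (acol G) * gmat (bcol G) = 1
  m2 : gmat (bcol G) * gmat (acol G) = 1
  hD : ∀ c ∈ codes45, gc G c ∈ codes45

theorem inD_iff (x : ℕ) : inD x = true → x ∈ codes45 := by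
  intro h
  have h1 : inD x = decide ((DM >>> x) % 2 = 1) := by
    unfold inD
    have : Nat.land (Nat.shiftRight DM x) 1 = (DM >>> x) % 2 := by
      have := Nat.and_one_is_mod (DM >>> x)
      simpa using this
    rw [this]
    by_cases h : DM >>> x % 2 = 1
    · simp [h]
    · simp only [h, decide_false]
      cases hb : Nat.beq (DM >>> x % 2) 1 with
      | true => exact absurd (Nat.eq_of_beq_eq_true hb) h
      | false => rfl
  rw [h1, decide_eq_true_eq] at h
  have hx : x < 243 := by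
    by_contra hx
    have : DM >>> x = 0 := by
      rw [Nat.shiftRight_eq_div_pow]
      refine Nat.div_eq_of_lt (lt_of_lt_of_le (b := 2 ^ 243) ?_ (Nat.pow_le_pow_right (by norm_num)
        (by omega)))
      decide +kernel
    rw [this] at h
    simp at h
  have key : ∀ x < 243, (DM >>> x) % 2 = 1 → x ∈ codes45 := by decide +kernel
  exact key x hx h

theorem allD_iff (f : ℕ → ℕ) (l : List ℕ) (h : allD f l = true) : ∀ c ∈ l, f c ∈ codes45 := by
  induction l with
  | nil => intro c hc; simp at hc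
  | cons a l ih =>
    have h' : (Bool.rec (motive := fun _ => Bool) false (allD f l) (inD (f a)) : Bool) = true := h
    cases hb : inD (f a) with
    | false => rw [hb] at h'; exact absurd h' (by simp)
    | true =>
      rw [hb] at h'
      intro c hc
      rcases List.mem_cons.1 hc with rfl | hc
      · exact inD_iff _ hb
      · exact ih h' c hc

theorem nat_beq_eq {a b : ℕ} (h : Nat.beq a b = true) : a = b := Nat.eq_of_beq_eq_true h

theorem ckm_mat (a b : Fin 5 → ℕ) (ha : ∀ j, nrmb 2 (a j) = true)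
    (h : ckm (a 0) (a 1) (a 2) (a 3) (a 4) (b 0) (b 1) (b 2) (b 3) (b 4) = true) :
    gmat a * gmat b = 1 := by
  have h0 : nrmb 0 0 = true := by decide
  have key : ∀ (k : Fin 5), ck1 (a 0) (a 1) (a 2) (a 3) (a 4) (b k) (3 ^ (k : ℕ)) = true →
      (gmat a).mulVec (fv (b k)) = pt 5 (3 ^ (k : ℕ)) := by
    intro k hk
    have h1 := nat_beq_eq hk
    have h2 := fv_gfa a 0 (c3 (b k)) 0 ha h0 (by norm_num)
    rw [pt_c3] at h2
    have h3 : fv 0 = 0 := by
      funext k; simp [fv, fl8]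
    rw [h3, add_zero] at h2
    rw [← h2, ← pt_c3, h1]
  simp only [ckm, Bool.and_eq_true] at h
  obtain ⟨k0, k1, k2, k3, k4⟩ := h
  have hall : ∀ k : Fin 5, (gmat a).mulVec (fv (b k)) = pt 5 (3 ^ (k : ℕ)) := by
    intro k
    rcases fin5 k with rfl | rfl | rfl | rfl | rfl
    · exact key 0 k0
    · exact key 1 k1
    · exact key 2 k2
    · exact key 3 k3
    · exact key 4 k4
  have hunit : ∀ k i : Fin 5, pt 5 (3 ^ (k : ℕ)) i = if i = k then 1 else 0 := by decide +kernel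
  ext i k
  have := congrFun (hall k) i
  rw [hunit] at this
  rw [Matrix.mul_apply, Matrix.one_apply, ← this]
  rfl

theorem gok_of (G : GDat) (h1 : gcheck G = true) (h2 : gck codes45 G = true) : GOK G := by
  simp only [gcheck, List.all_cons, List.all_nil, Bool.and_true, Bool.and_eq_true] at h1
  obtain ⟨a0, a1, a2, a3, a4, b0, b1, b2, b3, b4, t⟩ := h1
  simp only [gck, Bool.and_eq_true] at h2
  obtain ⟨m1, m2, hD⟩ := h2
  have ha : ∀ j, nrmb 2 (acol G j) = true := by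
    intro k
    rcases fin5 k with rfl | rfl | rfl | rfl | rfl <;> assumption
  have hb : ∀ j, nrmb 2 (bcol G j) = true := by
    intro k
    rcases fin5 k with rfl | rfl | rfl | rfl | rfl <;> assumption
  refine ⟨ha, t, ?_, ckm_mat _ _ ha m1, ckm_mat _ _ hb m2, allD_iff _ _ hD⟩
  have e := nrmb_sum t
  have l := nrmb_le t
  have l0 := l 0
  have l1 := l 1
  have l2 := l 2
  have l3 := l 3
  have l4 := l 4
  simp only [nrmb, Bool.and_eq_true, decide_eq_true_eq, List.all_eq_true, List.mem_range] at t ⊢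
  obtain ⟨t1, -⟩ := t
  simp only [Fin.sum_univ_five] at e
  norm_num at e l0 l1 l2 l3 l4
  have hh : Nat.add G.t G.t = G.t + G.t := rfl
  refine ⟨by rw [hh]; omega, ?_⟩
  intro k hk
  rw [hh]
  interval_cases k <;> simp only [fl8] at * <;> norm_num at * <;> omega

/-- transfer -/
theorem GOK.transfer {G : GDat} (hG : GOK G) {L : List ℕ} (hL : Zs L) (h6 : L.length = 6) {x : ℕ}
    (h : Excl L (pt 5 x)) : Excl (L.map (gc G)) (fv (gf G x)) := by
  have hg : ∀ c ∈ codes45, gc G c ∈ codes45 ∧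
      pt 5 (gc G c) = (gmat (acol G)).mulVec (pt 5 c) + fv G.t := by
    intro c hc
    refine ⟨hG.hD c hc, ?_⟩
    unfold gc
    rw [pt_c3]
    exact fv_gfa (acol G) G.t c 2 hG.ha hG.ht (by norm_num)
  have := Excl.transfer hL h6 h (gmat (acol G)) (gmat (bcol G)) (fv G.t) hG.m1 hG.m2 (gc G) hg
  have e : fv (gf G x) = (gmat (acol G)).mulVec (pt 5 x) + fv (Nat.add G.t G.t) :=
    fv_gfa (acol G) (Nat.add G.t G.t) x 4 hG.ha hG.ht2 (by norm_num)
  have e2 : fv (Nat.add G.t G.t) = (2 : ZMod 3) • fv G.t := by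
    funext k
    have hl := nrmb_le hG.ht
    have l0 := hl 0
    have l1 := hl 1
    have l2 := hl 2
    have l3 := hl 3
    have l4 := hl 4
    have e := nrmb_sum hG.ht
    have : fl8 (Nat.add G.t G.t) k = 2 * fl8 G.t k := by
      have hh : Nat.add G.t G.t = G.t + G.t := rfl
      rw [hh]
      simp only [Fin.sum_univ_five] at e
      norm_num at e l0 l1 l2 l3 l4
      rcases fin5 k with rfl | rfl | rfl | rfl | rfl <;> simp only [fl8] at * <;> norm_num at * <;>
        omega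
    simp only [fv, this, Pi.smul_apply, smul_eq_mul]
    push_cast
    ring
  rw [e, e2]
  exact this

end Pool.Agent.T2H98.EGZ
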