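import Pool.Agent.T2H98.EGZ.TailSound
import Pool.Agent.T2H98.EGZ.BldSound
import Pool.Agent.T2H98.EGZ.Trans

/-! # One class of root values: from the kernel checks to the exclusion of the value -/

set_option autoImplicit false

namespace Pool.Agent.T2H98.EGZ

open K

variable {v : (Fin 5 → ZMod 3) → (Fin 5 → ZMod 9)}

theorem cls_stp_eq : ∀ p < 45, stp p = statn (cd p) := by decide +kernel

theorem cls_cd_mem : ∀ p < 45, cd p ∈ codes45 := by decide +kernel

theorem cls_cd_inj : ∀ p < 45, ∀ q < 45, cd p = cd q → p = q := by decide +kernel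

theorem gok0 : GOK G0 := gok_of G0 (by decide +kernel) (by decide +kernel)

theorem gg_ok (Gs : List GDat) (h : ∀ G ∈ Gs, GOK G) (i : ℕ) : GOK (gg Gs i) := by
  induction Gs generalizing i with
  | nil => exact gok0
  | cons a l ih =>
    cases i with
    | zero => exact h a List.mem_cons_self
    | succ n => exact ih (fun G hG => h G (List.mem_cons_of_mem _ hG)) n

theorem mem_mkX (G : GDat) (done : List ℕ) (x : ℕ) (h : x ∈ mkX G done) :
    ∃ z ∈ done, x = gf G z := by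
  induction done with
  | nil => exact absurd h (by intro h; cases h)
  | cons a l ih =>
    have h' : x ∈ gf G a :: mkX G l := h
    rcases List.mem_cons.1 h' with rfl | h'
    · exact ⟨a, List.mem_cons_self, rfl⟩
    · obtain ⟨z, hz, rfl⟩ := ih h'
      exact ⟨z, List.mem_cons_of_mem _ hz, rfl⟩

theorem pix_aux (c : List ℕ) (n : ℕ) :
    (List.rec (motive := fun _ => ℕ → ℕ) (fun n => n)
      (fun a _ ih n => ih (Nat.add (Nat.mul 3 n) a)) c : ℕ → ℕ) n =
      n * 3 ^ c.length + pidx c := by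
  induction c generalizing n with
  | nil => simp [pidx]
  | cons a l ih =>
    show (List.rec (motive := fun _ => ℕ → ℕ) (fun n => n)
      (fun a _ ih n => ih (Nat.add (Nat.mul 3 n) a)) l : ℕ → ℕ) (3 * n + a) = _
    rw [ih]
    simp only [pidx, List.length_cons, pow_succ]
    ring

theorem pix_eq (c : List ℕ) : pix c = pidx c := by
  have := pix_aux c 0
  simpa [pix] using this

theorem cn2_eq (c : List ℕ) (h : ∀ a ∈ c, a ≤ 2) : cn2 c = c.count 2 := by
  induction c with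
  | nil => rfl
  | cons a l ih =>
    have h1 := ih fun x hx => h x (List.mem_cons_of_mem _ hx)
    have h2 : a ≤ 2 := h a List.mem_cons_self
    show Nat.add (Nat.div a 2) (cn2 l) = _
    rw [h1, List.count_cons]
    show a / 2 + l.count 2 = _
    interval_cases a <;> simp [Nat.add_comm]

/-- check of the data of one excluded list -/
noncomputable def rok (Gs : List GDat) (gs : List ℕ) (d t : ℕ) (ch : List ℕ) (r : PRD) : Bool :=
  decide (r.s1 ≤ 1) && decide (r.c0 ≤ 2) && decide (r.c.length = ch.length) &&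
  r.c.all (fun a => decide (a ≤ 2)) &&
  (L0.map (gc (gg Gs r.g))).all (fun p => gs.contains p || (d :: t :: ch).contains p) &&
  decide ((L0.map (gc (gg Gs r.g))).count t % 3 = (1 + r.s1) % 3) &&
  decide ((L0.map (gc (gg Gs r.g))).count d % 3 = (1 + r.s1) * r.c0 % 3) &&
  (List.range ch.length).all (fun i => decide ((L0.map (gc (gg Gs r.g))).count (ch.getD i 0) % 3 =
    (1 + r.s1) * r.c.getD i 0 % 3)) &&
  nrmb 20 r.q &&
  (List.range 5).all (fun k => decide (3 * fl8 r.q k = dsum (L0.map (gc (gg Gs r.g))) k))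

theorem zsL0 : Zs L0 := by
  refine ⟨by decide, ⟨0, by decide, 1, by decide, by decide⟩, ?_⟩
  decide

theorem yfn_fields (w : Fin 5 → ZMod 3) (a b : ℕ) :
    a * yfn w + b * 0x101010101 = ∑ k : Fin 5, (a * (w k).val + b) * 2 ^ (8 * (k : ℕ)) := by
  simp only [yfn, Fin.sum_univ_five]
  norm_num
  ring

theorem rec_ok (hv : IsLift D45 v) (Gs : List GDat) (hGs : ∀ G ∈ Gs, GOK G) (done : List ℕ)
    (hdone : ∀ x ∈ done, Excl L0 (pt 5 x)) (gs ch : List ℕ) (d t : ℕ)
    (hgs : ∀ g ∈ gs, uu v g = 0) (hnd : (d :: t :: ch).Nodup) (hch : ch.length ≤ 5) (Y0 : ℕ)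
    (hY : Y0 = yfn (uu v d)) (r : PRD) (hr : rok Gs gs d t ch r = true) :
    ∃ c : List ℕ, c.length = (ch.map (uu v)).length ∧ (∀ a ∈ c, a ≤ 2) ∧
      (toR Gs Y0 done r).off = 7776 * pidx c ∧
      (fbm (toR Gs Y0 done r).s1 (toR Gs Y0 done r).q (toR Gs Y0 done r).o
        (toR Gs Y0 done r).X).testBit (pos (pw c (ch.map (uu v)) (uu v t))) = false := by
  simp only [rok, Bool.and_eq_true, decide_eq_true_eq, List.all_eq_true, List.mem_range,
    Bool.or_eq_true, List.contains_iff_mem] at hr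
  obtain ⟨⟨⟨⟨⟨⟨⟨⟨⟨hs1, hc0⟩, hlen⟩, hc2⟩, hmem⟩, hct⟩, hcd⟩, hcc⟩, hqn⟩, hq⟩ := hr
  have hG := gg_ok Gs hGs r.g
  refine ⟨r.c, by rw [List.length_map]; exact hlen, hc2, ?_, ?_⟩
  · show Nat.mul 7776 (pix r.c) = _
    rw [pix_eq]; rfl
  · have hsum := sum_of_counts (uu v) (L0.map (gc (gg Gs r.g))) gs ch d t r.c r.c0 (1 + r.s1)
      hgs hmem hnd hlen hct hcd hcc
    have ho : (toR Gs Y0 done r).o =
        ∑ k : Fin 5, (r.c0 * (uu v d k).val + r.c.count 2) * 2 ^ (8 * (k : ℕ)) := by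
      show r.c0 * Y0 + cn2 r.c * 0x101010101 = _
      rw [hY, cn2_eq _ hc2, yfn_fields]
    have hcount : r.c.count 2 ≤ 5 := (List.count_le_length).trans (by omega)
    refine fbm_ok _ _ _ _ hs1 (fun k => fl8 r.q k)
      (fun k => r.c0 * (uu v d k).val + r.c.count 2) (fun k => nrmb_le hqn k) ?_
      (nrmb_sum hqn) ho (TT (uu v) (L0.map (gc (gg Gs r.g)))) _ ?_ ?_
    · intro k
      have h1 : (uu v d k).val ≤ 2 := by
        have := ZMod.val_lt (uu v d k); omega
      have h2 : r.c0 * (uu v d k).val ≤ 2 * 2 := Nat.mul_le_mul hc0 h1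
      omega
    · rw [TT, hsum]
      congr 1
      · funext k
        have := hq k k.2
        simp only [carry]
        rw [← this, Nat.mul_div_cancel_left _ (by norm_num : 0 < 3)]
      · congr 1
        congr 1
        funext k
        simp only [Pi.add_apply, Pi.smul_apply, smul_eq_mul, Pi.natCast_apply]
        push_cast
        rw [ZMod.natCast_zmod_val]
    · intro x hx
      obtain ⟨z, hz, rfl⟩ := mem_mkX _ _ _ hx
      have e := gfa_eq (acol (gg Gs r.g)) (Nat.add (gg Gs r.g).t (gg Gs r.g).t) z hG.ha 4 hG.ht2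
      have hb : ∀ k : Fin 5, fl8 (Nat.add (gg Gs r.g).t (gg Gs r.g).t) k +
          ∑ j : Fin 5, dg z j * fl8 (acol (gg Gs r.g) j) k ≤ 24 := by
        intro k
        have h1 : ∀ j : Fin 5, dg z j * fl8 (acol (gg Gs r.g) j) k ≤ 2 * 2 := fun j =>
          Nat.mul_le_mul (dg_lt z j) (nrmb_le (hG.ha j) k)
        have h2 : ∑ j : Fin 5, dg z j * fl8 (acol (gg Gs r.g) j) k ≤ ∑ _j : Fin 5, 2 * 2 :=
          Finset.sum_le_sum fun j _ => h1 j
        have h3 := nrmb_le hG.ht2 k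
        simp only [Finset.sum_const, Finset.card_univ, Fintype.card_fin, smul_eq_mul] at h2
        omega
      refine ⟨_, fun k => (hb k).trans (by norm_num), e, ?_⟩
      have hex := hG.transfer zsL0 rfl (hdone z hz) v hv
      intro heq
      apply hex
      rw [heq]
      funext k
      have e' : gf (gg Gs r.g) z = _ := e
      simp only [fv]
      rw [e', fl8_sum _ (fun k => lt_of_le_of_lt (hb k) (by norm_num)) k]

theorem mem_toRs (Gs : List GDat) (Y0 : ℕ) (done : List ℕ) (l : List PRD) (r : PiR)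
    (h : r ∈ toRs Gs Y0 done l) : ∃ r' ∈ l, r = toR Gs Y0 done r' := by
  induction l with
  | nil => exact absurd h (by intro h; cases h)
  | cons a l ih =>
    have h' : r ∈ toR Gs Y0 done a :: toRs Gs Y0 done l := h
    rcases List.mem_cons.1 h' with rfl | h'
    · exact ⟨a, List.mem_cons_self, rfl⟩
    · obtain ⟨z, hz, rfl⟩ := ih h'
      exact ⟨z, List.mem_cons_of_mem _ hz, rfl⟩

theorem clm_snd (l : List (ℕ × ℕ)) (h : ∀ r ∈ l, r.2 < 45) :
    (clm l).map Prod.snd = (l.map Prod.snd).map fun p => statn (cd p) := by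
  induction l with
  | nil => rfl
  | cons a l ih =>
    show stp a.2 :: (clm l).map Prod.snd = statn (cd a.2) :: _
    rw [ih fun r hr => h r (List.mem_cons_of_mem _ hr), cls_stp_eq a.2 (h a List.mem_cons_self)]

theorem table_ok (hv : IsLift D45 v) (Gs : List GDat) (hGs : ∀ G ∈ Gs, GOK G) (done : List ℕ)
    (hdone : ∀ x ∈ done, Excl L0 (pt 5 x)) (Q g4 g5 a0 Y0 : ℕ) (cl : List (ℕ × ℕ)) (s t gam : ℕ)
    (D : List PRD)
    (hlt : ∀ p ∈ 0 :: 1 :: 4 :: g4 :: g5 :: 6 :: t :: cl.map Prod.snd, p < 45)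
    (hnd : (0 :: 1 :: 4 :: g4 :: g5 :: 6 :: t :: cl.map Prod.snd).Nodup)
    (hlen : cl.length ≤ 5) (hs : s = 7776 * 3 ^ cl.length / 3)
    (hz : ∀ g ∈ [0, 1, 4, g4, g5], uu v (cd g) = 0) (hY : Y0 = yfn (uu v (cd 6)))
    (hD : D.all (rok Gs [cd 0, cd 1, cd 4, cd g4, cd g5] (cd 6) (cd t)
      ((cl.map Prod.snd).map cd)) = true)
    (ht : tck Gs Q g4 g5 a0 Y0 cl s t gam done D = true) :
    POK Q ((cl.map Prod.snd).map fun p => uu v (cd p)) (uu v (cd t)) 0 ∧ Wf Q cl.length := by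
  have hlt' : ∀ p ∈ cl.map Prod.snd, p < 45 := fun p hp => hlt p (by simp [hp])
  have hclt : ∀ r ∈ cl, r.2 < 45 := fun r hr => hlt' _ (List.mem_map_of_mem hr)
  have h6 : (6 : ℕ) < 45 := by norm_num
  have htlt : t < 45 := hlt t (by simp)
  have hinj : ∀ p ∈ 0 :: 1 :: 4 :: g4 :: g5 :: 6 :: t :: cl.map Prod.snd,
      ∀ q ∈ 0 :: 1 :: 4 :: g4 :: g5 :: 6 :: t :: cl.map Prod.snd, cd p = cd q → p = q :=
    fun p hp q hq => cls_cd_inj p (hlt p hp) q (hlt q hq)
  have hndc : ((0 :: 1 :: 4 :: g4 :: g5 :: 6 :: t :: cl.map Prod.snd).map cd).Nodup :=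
    List.Nodup.map_on hinj hnd
  have hgs' : ∀ g ∈ [cd 0, cd 1, cd 4, cd g4, cd g5], g ∈ codes45 ∧ uu v g = 0 := by
    intro g hg
    have : g ∈ [0, 1, 4, g4, g5].map cd := hg
    obtain ⟨p, hp, rfl⟩ := List.mem_map.1 this
    refine ⟨cls_cd_mem p (hlt p ?_), hz p hp⟩
    simp only [List.mem_cons, List.not_mem_nil, or_false] at hp
    rcases hp with rfl | rfl | rfl | rfl | rfl <;> simp
  have hmc : ∀ c ∈ (cl.map Prod.snd).map cd, c ∈ codes45 := by
    intro c hc
    obtain ⟨p, hp, rfl⟩ := List.mem_map.1 hc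
    exact cls_cd_mem p (hlt' p hp)
  simp only [List.map_cons, List.nodup_cons, List.mem_cons, not_or] at hndc
  obtain ⟨⟨n01, n04, n0g, n0h, n06, n0t, n0c⟩, ⟨n14, n1g, n1h, n16, n1t, n1c⟩,
    ⟨n4g, n4h, n46, n4t, n4c⟩, ⟨ngh, ng6, ngt, ngc⟩, ⟨nh6, nht, nhc⟩, ⟨n6t, n6c⟩, ntc, nc⟩ := hndc
  have hb := bld_ok hv [cd 0, cd 1, cd 4, cd g4, cd g5] hgs' (by simp) (cd 6) (cls_cd_mem 6 h6)
    ((cl.map Prod.snd).map cd) hmc (by simp; omega) (cd t) (cls_cd_mem t htlt)
    (by
      simp only [List.mem_cons, List.not_mem_nil, or_false, not_or]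
      exact ⟨Ne.symm n0t, Ne.symm n1t, Ne.symm n4t, Ne.symm ngt, Ne.symm nht⟩)
    (Ne.symm n6t) ntc a0 gam (clm cl) (by
      rw [clm_snd cl hclt, List.map_map, List.map_map, List.map_map]; rfl)
  have e1 : Bt g4 g5 a0 Y0 cl s t gam = bld ([cd 0, cd 1, cd 4, cd g4, cd g5].map statn) a0
      (statn (cd 6)) (yfn (uu v (cd 6))) (clm cl) (7776 * 3 ^ ((cl.map Prod.snd).map cd).length / 3)
      (statn (cd t)) (2 * statn (cd t)) gam 0 := by
    have a1 := cls_stp_eq 0 (by norm_num)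
    have a2 := cls_stp_eq 1 (by norm_num)
    have a3 := cls_stp_eq 4 (by norm_num)
    have a4 := cls_stp_eq g4 (hlt g4 (by simp))
    have a5 := cls_stp_eq g5 (hlt g5 (by simp))
    have a6 := cls_stp_eq 6 h6
    have a7 := cls_stp_eq t htlt
    unfold Bt
    rw [a1, a2, a3, a4, a5, a6, a7, hY, hs]
    simp only [List.length_map]
    rfl
  have hQ : Q = rmv (Bt g4 g5 a0 Y0 cl s t gam) (fbs (toRs Gs Y0 done D)) := nat_beq_eq ht
  rw [← e1] at hb
  have hmm : ((cl.map Prod.snd).map cd).map (uu v) =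
      (cl.map Prod.snd).map fun p => uu v (cd p) := by
    rw [List.map_map]; rfl
  rw [hmm] at hb
  have hl3 : ((cl.map Prod.snd).map fun p => uu v (cd p)).length = cl.length := by simp
  have hl4 : ((cl.map Prod.snd).map cd).length = cl.length := by simp
  rw [hl4] at hb
  have := fbs_ok ((cl.map Prod.snd).map fun p => uu v (cd p)) (uu v (cd t)) _ hb.1
    (by rw [hl3]; exact hb.2) (toRs Gs Y0 done D) (by
      intro r hr
      obtain ⟨r', hr', rfl⟩ := mem_toRs _ _ _ _ _ hr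
      have h1 : rok Gs [cd 0, cd 1, cd 4, cd g4, cd g5] (cd 6) (cd t)
        ((cl.map Prod.snd).map cd) r' = true := List.all_eq_true.1 hD r' hr'
      have h2 := rec_ok hv Gs hGs done hdone _ _ _ _ (fun g hg => (hgs' g hg).2)
        (by
          simp only [List.nodup_cons, List.mem_cons, not_or]
          exact ⟨⟨n6t, n6c⟩, ntc, nc⟩) (by simp; omega) Y0 hY r' h1
      rw [hmm] at h2
      exact h2)
  rw [hl3, ← hQ] at this
  exact this

end Pool.Agent.T2H98.EGZ
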