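import Pool.Agent.T2H98.EGZ.Sem

/-! # Shared lemma: the constraints in field form (package B, used by packages T and F) -/

set_option autoImplicit false

namespace Pool.Agent.T2H98.EGZ

open K

variable {v : (Fin 5 → ZMod 3) → (Fin 5 → ZMod 9)}

/-! ## the masks -/

/-- position of an extended vector -/
def ps (a b c d e : ℕ) : ℕ := a + 6 * b + 36 * c + 216 * d + 1296 * e

/-- `(a..e) + point c = 0` -/
def hz (a b c d e x : ℕ) : Bool :=
  ((a + dg x 0) % 3 == 0) && ((b + dg x 1) % 3 == 0) && ((c + dg x 2) % 3 == 0) &&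
    ((d + dg x 3) % 3 == 0) && ((e + dg x 4) % 3 == 0)

/-- `(a..e) = point c` -/
def hq (a b c d e x : ℕ) : Bool :=
  (a % 3 == dg x 0) && (b % 3 == dg x 1) && (c % 3 == dg x 2) &&
    (d % 3 == dg x 3) && (e % 3 == dg x 4)

def l5 : List ℕ := [0, 1, 2, 3, 4]

theorem fA1 : (l5.all fun a => l5.all fun b => l5.all fun c => l5.all fun d => l5.all fun e =>
    A1.testBit (ps a b c d e) || codes45.any (hz a b c d e)) = true := by
  decide +kernel

theorem fA2 : (l5.all fun a => l5.all fun b => l5.all fun c => l5.all fun d => l5.all fun e =>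
    A2.testBit (ps a b c d e) || codes45.any (hq a b c d e)) = true := by
  decide +kernel

theorem fA9 : (l5.all fun a => l5.all fun b => l5.all fun c => l5.all fun d => l5.all fun e =>
    A9.testBit (ps a b c d e) || ((a % 3 == 0) && (b % 3 == 0) && (c % 3 == 0) && (d % 3 == 0) &&
      (e % 3 == 0))) = true := by
  decide +kernel

theorem mem_l5 {a : ℕ} (h : a ≤ 4) : a ∈ l5 := by
  unfold l5
  interval_cases a <;> simp

theorem gA1 {a b c d e : ℕ} (ha : a ≤ 4) (hb : b ≤ 4) (hc : c ≤ 4) (hd : d ≤ 4) (he : e ≤ 4)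
    (h : ∀ x ∈ codes45, hz a b c d e x = false) : A1.testBit (ps a b c d e) = true := by
  have h1 := fA1
  have h2 := List.all_eq_true.1 h1 a (mem_l5 ha)
  have h3 := List.all_eq_true.1 h2 b (mem_l5 hb)
  have h4 := List.all_eq_true.1 h3 c (mem_l5 hc)
  have h5 := List.all_eq_true.1 h4 d (mem_l5 hd)
  have h6 := List.all_eq_true.1 h5 e (mem_l5 he)
  rcases Bool.or_eq_true _ _ ▸ h6 with h7 | h7
  · exact h7
  · obtain ⟨x, hx, hx2⟩ := List.any_eq_true.1 h7
    rw [h x hx] at hx2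
    exact absurd hx2 (by decide)

theorem gA2 {a b c d e : ℕ} (ha : a ≤ 4) (hb : b ≤ 4) (hc : c ≤ 4) (hd : d ≤ 4) (he : e ≤ 4)
    (h : ∀ x ∈ codes45, hq a b c d e x = false) : A2.testBit (ps a b c d e) = true := by
  have h1 := fA2
  have h2 := List.all_eq_true.1 h1 a (mem_l5 ha)
  have h3 := List.all_eq_true.1 h2 b (mem_l5 hb)
  have h4 := List.all_eq_true.1 h3 c (mem_l5 hc)
  have h5 := List.all_eq_true.1 h4 d (mem_l5 hd)
  have h6 := List.all_eq_true.1 h5 e (mem_l5 he)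
  rcases Bool.or_eq_true _ _ ▸ h6 with h7 | h7
  · exact h7
  · obtain ⟨x, hx, hx2⟩ := List.any_eq_true.1 h7
    rw [h x hx] at hx2
    exact absurd hx2 (by decide)

theorem gA9 {a b c d e : ℕ} (ha : a ≤ 4) (hb : b ≤ 4) (hc : c ≤ 4) (hd : d ≤ 4) (he : e ≤ 4)
    (h : ¬(a % 3 = 0 ∧ b % 3 = 0 ∧ c % 3 = 0 ∧ d % 3 = 0 ∧ e % 3 = 0)) :
    A9.testBit (ps a b c d e) = true := by
  have h1 := fA9
  have h2 := List.all_eq_true.1 h1 a (mem_l5 ha)
  have h3 := List.all_eq_true.1 h2 b (mem_l5 hb)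
  have h4 := List.all_eq_true.1 h3 c (mem_l5 hc)
  have h5 := List.all_eq_true.1 h4 d (mem_l5 hd)
  have h6 := List.all_eq_true.1 h5 e (mem_l5 he)
  rcases Bool.or_eq_true _ _ ▸ h6 with h7 | h7
  · exact h7
  · exfalso
    apply h
    simp only [Bool.and_eq_true, beq_iff_eq] at h7
    tauto

/-! ## removing bits -/

theorem cst4_tb (M T m i : ℕ) : (cst4 M T m).testBit i = (m.testBit i && M.testBit (p3 T + i)) := by
  have : cst4 M T m = m &&& (M >>> p3 T) := rfl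
  rw [this, Nat.testBit_and, Nat.testBit_shiftRight]

theorem cq_sub (M s1 D o m i : ℕ) (h : (cq M s1 D o m).testBit i = true) :
    m.testBit i = true := by
  unfold cq cq2 at h
  cases h1 : Nat.beq (Nat.mul 3 (Nat.div D 3)) D
  · rw [h1] at h; exact h
  · rw [h1] at h
    cases h2 : Nat.beq (Nat.land (Nat.div D 3) 0xF8F8F8F8F8) 0
    · rw [h2] at h; exact h
    · rw [h2] at h
      have h3 := cst4_tb M (Nat.add (Nat.mul (Nat.div D 3) (Nat.add 1 s1)) o) m i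
      have h4 : (cst4 M (Nat.add (Nat.mul (Nat.div D 3) (Nat.add 1 s1)) o) m).testBit i = true := h
      rw [h3, Bool.and_eq_true] at h4
      exact h4.1

theorem cc_sub (s1 D cn o m i : ℕ) (h : (cc s1 D cn o m).testBit i = true) :
    m.testBit i = true := by
  unfold cc at h
  cases h1 : Nat.beq cn 6
  · rw [h1] at h
    cases h2 : Nat.beq cn 9
    · rw [h2] at h; exact h
    · rw [h2] at h; exact cq_sub _ _ _ _ _ _ h
  · rw [h1] at h; exact cq_sub _ _ _ _ _ _ h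

/-- `cst` only removes bits -/
theorem cst_sub (s1 S o m i : ℕ) (h : (cst s1 S o m).testBit i = true) : m.testBit i = true :=
  cc_sub _ _ _ _ _ _ h

theorem cq_ok (M s1 D o m i : ℕ) (hm : m.testBit i = true)
    (h : 3 * (D / 3) = D → (D / 3) &&& 0xF8F8F8F8F8 = 0 →
      M.testBit (p3 ((D / 3) * (1 + s1) + o) + i) = true) :
    (cq M s1 D o m).testBit i = true := by
  unfold cq cq2
  cases h1 : Nat.beq (Nat.mul 3 (Nat.div D 3)) D
  · exact hm
  · cases h2 : Nat.beq (Nat.land (Nat.div D 3) 0xF8F8F8F8F8) 0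
    · exact hm
    · have h3 := cst4_tb M (Nat.add (Nat.mul (Nat.div D 3) (Nat.add 1 s1)) o) m i
      have h4 := h (Nat.eq_of_beq_eq_true h1) (Nat.eq_of_beq_eq_true h2)
      have h5 : (cst4 M (Nat.add (Nat.mul (Nat.div D 3) (Nat.add 1 s1)) o) m).testBit i = true := by
        rw [h3, hm]
        exact h4
      exact h5

theorem cc_ok (s1 D cn o m i : ℕ) (hm : m.testBit i = true)
    (h6 : cn = 6 → 3 * (D / 3) = D → (D / 3) &&& 0xF8F8F8F8F8 = 0 →
      (As s1).testBit (p3 ((D / 3) * (1 + s1) + o) + i) = true)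
    (h9 : cn = 9 → 3 * (D / 3) = D → (D / 3) &&& 0xF8F8F8F8F8 = 0 →
      A9.testBit (p3 ((D / 3) * (1 + s1) + o) + i) = true) :
    (cc s1 D cn o m).testBit i = true := by
  unfold cc
  cases h1 : Nat.beq cn 6
  · cases h2 : Nat.beq cn 9
    · exact hm
    · exact cq_ok _ _ _ _ _ _ hm (h9 (Nat.eq_of_beq_eq_true h2))
  · exact cq_ok _ _ _ _ _ _ hm (h6 (Nat.eq_of_beq_eq_true h1))

/-! ## fields -/

theorem mask_byte : ∀ y < 256, y &&& 0xF8 = 0 → y < 8 := by decide +kernel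

theorem mask_bits : ∀ k < 5, ∀ i < 8, Nat.testBit 0xF8F8F8F8F8 (8 * k + i) = Nat.testBit 0xF8 i := by
  decide +kernel

theorem small_byte {q : ℕ} (h : q &&& 0xF8F8F8F8F8 = 0) (k : ℕ) (hk : k < 5) :
    q / 2 ^ (8 * k) % 256 < 8 := by
  apply mask_byte _ (Nat.mod_lt _ (by norm_num))
  apply Nat.eq_of_testBit_eq
  intro i
  rw [Nat.testBit_and, Nat.zero_testBit]
  have h256 : (256 : ℕ) = 2 ^ 8 := by norm_num
  rw [h256, Nat.testBit_mod_two_pow]
  by_cases hi : i < 8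
  · have h1 : (q &&& 0xF8F8F8F8F8).testBit (8 * k + i) = false := by rw [h, Nat.zero_testBit]
    rw [Nat.testBit_and] at h1
    rw [Nat.testBit_div_two_pow]
    rw [mask_bits k hk i hi, Nat.add_comm] at h1
    rw [Bool.and_eq_false_iff] at h1 ⊢
    rcases h1 with h1 | h1
    · left; rw [h1]; simp
    · right; exact h1
  · have h1 : Nat.testBit 0xF8 i = false := by
      apply Nat.testBit_lt_two_pow
      calc (0xF8 : ℕ) < 2 ^ 8 := by norm_num
        _ ≤ 2 ^ i := Nat.pow_le_pow_right (by norm_num) (by omega)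
    rw [h1, Bool.and_false]

theorem pos5 (w : Fin 5 → ZMod 3) : pos w = ps (w 0).val (w 1).val (w 2).val (w 3).val (w 4).val := by
  unfold pos ps
  rw [Fin.sum_univ_five]
  have e3 : ((3 : Fin 5) : ℕ) = 3 := rfl
  have e4 : ((4 : Fin 5) : ℕ) = 4 := rfl
  rw [e3, e4]
  norm_num
  ring

theorem dm_eq (S k : ℕ) : dm S k = S / 2 ^ k % 256 % 3 := by
  have h : dm S k = ((S >>> k) &&& 255) % 3 := rfl
  have h2 : (255 : ℕ) = 2 ^ 8 - 1 := by norm_num
  rw [h, h2, Nat.and_two_pow_sub_one_eq_mod, Nat.shiftRight_eq_div_pow]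

theorem p3_eq (x0 x1 x2 x3 x4 : ℕ) (h0 : x0 < 256) (h1 : x1 < 256) (h2 : x2 < 256)
    (h3 : x3 < 256) (h4 : x4 < 256) :
    p3 (x0 + x1 * 2 ^ 8 + x2 * 2 ^ 16 + x3 * 2 ^ 24 + x4 * 2 ^ 32) =
      ps (x0 % 3) (x1 % 3) (x2 % 3) (x3 % 3) (x4 % 3) := by
  set T := x0 + x1 * 2 ^ 8 + x2 * 2 ^ 16 + x3 * 2 ^ 24 + x4 * 2 ^ 32 with hT
  have h : p3 T = dm T 0 + 6 * (dm T 8 + 6 * (dm T 16 + 6 * (dm T 24 + 6 * dm T 32))) := rfl
  have e0 : T / 2 ^ 0 % 256 = x0 := by rw [hT]; norm_num; omega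
  have e1 : T / 2 ^ 8 % 256 = x1 := by rw [hT]; norm_num; omega
  have e2 : T / 2 ^ 16 % 256 = x2 := by rw [hT]; norm_num; omega
  have e3 : T / 2 ^ 24 % 256 = x3 := by rw [hT]; norm_num; omega
  have e4 : T / 2 ^ 32 % 256 = x4 := by rw [hT]; norm_num; omega
  rw [h, dm_eq, dm_eq, dm_eq, dm_eq, dm_eq, e0, e1, e2, e3, e4]
  unfold ps
  ring

theorem sum_statnC (L : List ℕ) : (L.map statn).sum =
    dsum L 0 + dsum L 1 * 2 ^ 8 + dsum L 2 * 2 ^ 16 + dsum L 3 * 2 ^ 24 + dsum L 4 * 2 ^ 32 +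
      L.length * 2 ^ 40 := by
  induction L with
  | nil => simp [dsum]
  | cons c L ih =>
    rw [List.map_cons, List.sum_cons, ih]
    unfold statn dsum
    simp only [Finset.sum_range_succ, Finset.sum_range_zero, List.map_cons, List.sum_cons,
      List.length_cons]
    ring

theorem dsum_le (L : List ℕ) (k : ℕ) : dsum L k ≤ 2 * L.length := by
  induction L with
  | nil => simp [dsum]
  | cons c L ih =>
    have h1 : dsum (c :: L) k = dg c k + dsum L k := by simp [dsum]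
    have h2 : dg c k < 3 := by unfold dg; exact Nat.mod_lt _ (by norm_num)
    rw [h1, List.length_cons]
    omega

theorem zmod_mod (a : ℕ) : ((a % 3 : ℕ) : ZMod 3) = (a : ZMod 3) := ZMod.natCast_mod a 3

theorem mod_zero_of {a : ℕ} (h : a % 3 = 0) : (a : ZMod 3) = 0 := by
  rw [← zmod_mod, h]; rfl

theorem digits5 (q : ℕ) (h : q < 2 ^ 40) : q = q % 256 + q / 256 % 256 * 2 ^ 8 +
    q / 65536 % 256 * 2 ^ 16 + q / 16777216 % 256 * 2 ^ 24 + q / 4294967296 % 256 * 2 ^ 32 := by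
  have r2 : q / 65536 = q / 256 / 256 := by rw [Nat.div_div_eq_div_mul]
  have r3 : q / 16777216 = q / 256 / 256 / 256 := by
    rw [Nat.div_div_eq_div_mul, Nat.div_div_eq_div_mul]
  have r4 : q / 4294967296 = q / 256 / 256 / 256 / 256 := by
    rw [Nat.div_div_eq_div_mul, Nat.div_div_eq_div_mul, Nat.div_div_eq_div_mul]
  rw [r2, r3, r4]
  norm_num at h ⊢
  omega

/-- the key computation: position and value of the extended vector -/
theorem key_pos (L : List ℕ) (hlen : L.length ≤ 100) (s1 : ℕ) (hs : s1 ≤ 1) (D o : ℕ)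
    (hD : D = dsum L 0 + dsum L 1 * 2 ^ 8 + dsum L 2 * 2 ^ 16 + dsum L 3 * 2 ^ 24 +
      dsum L 4 * 2 ^ 32) (w : Fin 5 → ZMod 3) (of : Fin 5 → ℕ) (hof : ∀ k, of k ≤ 100)
    (ho : o = ∑ k, of k * 2 ^ (8 * (k : ℕ))) (h3 : 3 * (D / 3) = D)
    (hm : (D / 3) &&& 0xF8F8F8F8F8 = 0) :
    ∃ e q : Fin 5 → ℕ, (∀ k, e k ≤ 4) ∧ (∀ k : Fin 5, dsum L k = 3 * q k) ∧
      p3 ((D / 3) * (1 + s1) + o) + pos w = ps (e 0) (e 1) (e 2) (e 3) (e 4) ∧
      ∀ k, (e k : ZMod 3) = w k + (q k * (1 + s1 : ℕ) + of k : ℕ) := by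
  have hd : ∀ k, dsum L k ≤ 200 := fun k => (dsum_le L k).trans (by omega)
  have d0 := hd 0
  have d1 := hd 1
  have d2 := hd 2
  have d3 := hd 3
  have d4 := hd 4
  set q := D / 3 with hq
  have b0 := small_byte hm 0 (by norm_num)
  have b1 := small_byte hm 1 (by norm_num)
  have b2 := small_byte hm 2 (by norm_num)
  have b3 := small_byte hm 3 (by norm_num)
  have b4 := small_byte hm 4 (by norm_num)
  norm_num at b0 b1 b2 b3 b4
  obtain ⟨q0, hq0⟩ : ∃ q0, q0 = q % 256 := ⟨_, rfl⟩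
  obtain ⟨q1, hq1⟩ : ∃ q1, q1 = q / 256 % 256 := ⟨_, rfl⟩
  obtain ⟨q2, hq2⟩ : ∃ q2, q2 = q / 65536 % 256 := ⟨_, rfl⟩
  obtain ⟨q3, hq3⟩ : ∃ q3, q3 = q / 16777216 % 256 := ⟨_, rfl⟩
  obtain ⟨q4, hq4⟩ : ∃ q4, q4 = q / 4294967296 % 256 := ⟨_, rfl⟩
  rw [← hq0] at b0
  rw [← hq1] at b1
  rw [← hq2] at b2
  rw [← hq3] at b3
  rw [← hq4] at b4
  have hDlt : D < 2 ^ 40 := by rw [hD]; norm_num; omega
  have hqlt : q < 2 ^ 40 := lt_of_le_of_lt (Nat.div_le_self _ _) hDlt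
  have hqs : q = q0 + q1 * 2 ^ 8 + q2 * 2 ^ 16 + q3 * 2 ^ 24 + q4 * 2 ^ 32 := by
    rw [hq0, hq1, hq2, hq3, hq4]
    exact digits5 q hqlt
  have hD2 : 3 * (q0 + q1 * 2 ^ 8 + q2 * 2 ^ 16 + q3 * 2 ^ 24 + q4 * 2 ^ 32) =
      dsum L 0 + dsum L 1 * 2 ^ 8 + dsum L 2 * 2 ^ 16 + dsum L 3 * 2 ^ 24 +
      dsum L 4 * 2 ^ 32 := by rw [← hqs, h3, hD]
  clear hq0 hq1 hq2 hq3 hq4
  norm_num at hD2
  have c0 : dsum L 0 = 3 * q0 := by omega
  have c1 : dsum L 1 = 3 * q1 := by omega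
  have c2 : dsum L 2 = 3 * q2 := by omega
  have c3 : dsum L 3 = 3 * q3 := by omega
  have c4 : dsum L 4 = 3 * q4 := by omega
  have o0 := hof 0
  have o1 := hof 1
  have o2 := hof 2
  have o3 := hof 3
  have o4 := hof 4
  have ho2 : o = of 0 + of 1 * 2 ^ 8 + of 2 * 2 ^ 16 + of 3 * 2 ^ 24 + of 4 * 2 ^ 32 := by
    rw [ho, Fin.sum_univ_five]
    have e3 : ((3 : Fin 5) : ℕ) = 3 := rfl
    have e4 : ((4 : Fin 5) : ℕ) = 4 := rfl
    rw [e3, e4]
    norm_num
  have hx : ∀ a b : ℕ, a < 8 → b ≤ 100 → a * (1 + s1) + b < 256 := by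
    intro a b ha hb
    have : a * (1 + s1) ≤ 7 * 2 := Nat.mul_le_mul (by omega) (by omega)
    omega
  have hp : p3 (q * (1 + s1) + o) = ps ((q0 * (1 + s1) + of 0) % 3) ((q1 * (1 + s1) + of 1) % 3)
      ((q2 * (1 + s1) + of 2) % 3) ((q3 * (1 + s1) + of 3) % 3) ((q4 * (1 + s1) + of 4) % 3) := by
    rw [← p3_eq _ _ _ _ _ (hx q0 _ b0 o0) (hx q1 _ b1 o1) (hx q2 _ b2 o2) (hx q3 _ b3 o3)
      (hx q4 _ b4 o4)]
    congr 1
    rw [hqs, ho2]
    ring
  have hw : ∀ k, (w k).val ≤ 2 := fun k => by have := ZMod.val_lt (w k); omega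
  refine ⟨fun k => (w k).val + ((![q0, q1, q2, q3, q4] k * (1 + s1) + of k) % 3),
    ![q0, q1, q2, q3, q4], ?_, ?_, ?_, ?_⟩
  · intro k
    have h1 := hw k
    have h2 := Nat.mod_lt (![q0, q1, q2, q3, q4] k * (1 + s1) + of k) (show 3 > 0 by norm_num)
    dsimp only
    omega
  · intro k
    fin_cases k
    · exact c0
    · exact c1
    · exact c2
    · exact c3
    · exact c4
  · rw [hp, pos5]
    unfold ps
    simp only [Matrix.cons_val_zero, Matrix.cons_val_one, Matrix.cons_val]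
    ring
  · intro k
    push_cast
    rw [ZMod.natCast_zmod_val]
    congr 1
    rw [zmod_mod]
    push_cast
    rfl

theorem zs_of (L : List ℕ) (hL : ∀ c ∈ L, c ∈ codes45) (t s1 : ℕ) (hs : s1 ≤ 1)
    (ht : L.count t = 1 + s1) (h3 : 3 ≤ L.length) (q : Fin 5 → ℕ)
    (hq : ∀ k : Fin 5, dsum L k = 3 * q k) : Zs L := by
  refine ⟨hL, ?_, ?_⟩
  · have h1 : t ∈ L := by
      rw [← List.count_pos_iff]; omega
    by_contra hcon
    push Not at hcon
    have h2 : L.count t = L.length := List.count_eq_length.2 fun b hb => hcon t h1 b hb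
    omega
  · intro k hk
    rw [show k = ((⟨k, hk⟩ : Fin 5) : ℕ) from rfl, hq]
    exact dvd_mul_right _ _

theorem TT_of (L : List ℕ) (q : Fin 5 → ℕ) (hq : ∀ k : Fin 5, dsum L k = 3 * q k) (s1 : ℕ)
    (o' w : Fin 5 → ZMod 3)
    (hT : (L.map (uu v)).sum = ((1 + s1 : ℕ) : ZMod 3) • (w + o')) (k : Fin 5) :
    TT (uu v) L k = (q k : ZMod 3) + ((1 + s1 : ℕ) : ZMod 3) * (w k + o' k) := by
  unfold TT carry
  rw [hT, Pi.add_apply, hq, Nat.mul_div_cancel_left _ (by norm_num)]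
  rfl

theorem ez : ∀ (s1 : ℕ), s1 ≤ 1 → ∀ Q W O E T : ZMod 3, E = W + (Q * ((1 + s1 : ℕ) : ZMod 3) + O) →
    T = Q + ((1 + s1 : ℕ) : ZMod 3) * (W + O) → E = ((1 + s1 : ℕ) : ZMod 3) * T := by
  intro s1 hs
  interval_cases s1 <;> decide

theorem cst_ok (hv : IsLift D45 v) (L : List ℕ) (hL : ∀ c ∈ L, c ∈ codes45) (t : ℕ) (s1 : ℕ)
    (hs : s1 ≤ 1) (ht : L.count t = 1 + s1) (hlen : L.length ≤ 100) (S o m : ℕ)
    (hS : S = (L.map statn).sum) (o' w : Fin 5 → ZMod 3) (of : Fin 5 → ℕ) (hof : ∀ k, of k ≤ 100)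
    (ho : o = ∑ k, of k * 2 ^ (8 * (k : ℕ))) (ho' : ∀ k, o' k = (of k : ZMod 3))
    (hT : (L.map (uu v)).sum = ((1 + s1 : ℕ) : ZMod 3) • (w + o'))
    (hm : m.testBit (pos w) = true) : (cst s1 S o m).testBit (pos w) = true := by
  have hd : ∀ k, dsum L k ≤ 200 := fun k => (dsum_le L k).trans (by omega)
  have d0 := hd 0
  have d1 := hd 1
  have d2 := hd 2
  have d3 := hd 3
  have d4 := hd 4
  have hS2 := sum_statnC L
  rw [← hS] at hS2
  have hD : S &&& 0xFFFFFFFFFF = dsum L 0 + dsum L 1 * 2 ^ 8 + dsum L 2 * 2 ^ 16 +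
      dsum L 3 * 2 ^ 24 + dsum L 4 * 2 ^ 32 := by
    have h2 : (0xFFFFFFFFFF : ℕ) = 2 ^ 40 - 1 := by norm_num
    rw [h2, Nat.and_two_pow_sub_one_eq_mod, hS2]
    norm_num
    omega
  have hcn : (S >>> 40) &&& 0xFFFF = L.length := by
    have h2 : (0xFFFF : ℕ) = 2 ^ 16 - 1 := by norm_num
    rw [h2, Nat.and_two_pow_sub_one_eq_mod, Nat.shiftRight_eq_div_pow, hS2]
    norm_num
    omega
  have hgoal : cst s1 S o m = cc s1 (S &&& 0xFFFFFFFFFF) ((S >>> 40) &&& 0xFFFF) o m := rfl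
  rw [hgoal, hcn]
  have main : 3 ≤ L.length → 3 * ((S &&& 0xFFFFFFFFFF) / 3) = (S &&& 0xFFFFFFFFFF) →
      ((S &&& 0xFFFFFFFFFF) / 3) &&& 0xF8F8F8F8F8 = 0 →
      ∃ e : Fin 5 → ℕ, (∀ k, e k ≤ 4) ∧ Zs L ∧
        p3 (((S &&& 0xFFFFFFFFFF) / 3) * (1 + s1) + o) + pos w =
          ps (e 0) (e 1) (e 2) (e 3) (e 4) ∧
        ∀ k, (e k : ZMod 3) = ((1 + s1 : ℕ) : ZMod 3) * TT (uu v) L k := by
    intro h3 h4 h5
    obtain ⟨e, q, he, hq, hpos, hval⟩ := key_pos L hlen s1 hs _ o hD w of hof ho h4 h5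
    refine ⟨e, he, zs_of L hL t s1 hs ht h3 q hq, hpos, fun k => ?_⟩
    have h6 := TT_of (v := v) L q hq s1 o' w hT k
    have h7 := hval k
    push_cast at h7
    rw [ho' k] at h6
    refine ez s1 hs (q k) (w k) (of k) _ _ ?_ h6
    rw [h7]
    push_cast
    rfl
  refine cc_ok _ _ _ _ _ _ hm ?_ ?_
  · intro h6 h4 h5
    obtain ⟨e, he, hz6, hpos, hval⟩ := main (by omega) h4 h5
    rw [hpos]
    have hne := TT_ne6 hv L hz6 h6
    have he0 := he 0
    have he1 := he 1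
    have he2 := he 2
    have he3 := he 3
    have he4 := he 4
    interval_cases s1
    · refine gA1 he0 he1 he2 he3 he4 fun x hx => ?_
      by_contra hcon
      rw [Bool.not_eq_false] at hcon
      unfold hz at hcon
      simp only [Bool.and_eq_true, beq_iff_eq] at hcon
      obtain ⟨⟨⟨⟨a0, a1⟩, a2⟩, a3⟩, a4⟩ := hcon
      apply hne x hx
      have hk : ∀ k : Fin 5, (e k + dg x k) % 3 = 0 → (TT (uu v) L + pt 5 x) k = 0 := by
        intro k hk
        have h7 := mod_zero_of hk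
        push_cast at h7
        rw [hval k] at h7
        rw [Pi.add_apply, pt_eq_dg]
        simpa using h7
      funext k
      fin_cases k
      · exact hk 0 a0
      · exact hk 1 a1
      · exact hk 2 a2
      · exact hk 3 a3
      · exact hk 4 a4
    · refine gA2 he0 he1 he2 he3 he4 fun x hx => ?_
      by_contra hcon
      rw [Bool.not_eq_false] at hcon
      unfold hq at hcon
      simp only [Bool.and_eq_true, beq_iff_eq] at hcon
      obtain ⟨⟨⟨⟨a0, a1⟩, a2⟩, a3⟩, a4⟩ := hcon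
      apply hne x hx
      have hk : ∀ k : Fin 5, e k % 3 = dg x k → (TT (uu v) L + pt 5 x) k = 0 := by
        intro k hk
        have h7 : (e k : ZMod 3) = (dg x k : ZMod 3) := by rw [← hk, zmod_mod]
        rw [hval k] at h7
        rw [Pi.add_apply, pt_eq_dg, ← h7]
        generalize TT (uu v) L k = T
        revert T
        decide
      funext k
      fin_cases k
      · exact hk 0 a0
      · exact hk 1 a1
      · exact hk 2 a2
      · exact hk 3 a3
      · exact hk 4 a4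
  · intro h9 h4 h5
    obtain ⟨e, he, hz9, hpos, hval⟩ := main (by omega) h4 h5
    rw [hpos]
    have hne := TT_ne9 hv L hz9 h9
    refine gA9 (he 0) (he 1) (he 2) (he 3) (he 4) ?_
    rintro ⟨a0, a1, a2, a3, a4⟩
    apply hne
    have hk : ∀ k : Fin 5, e k % 3 = 0 → TT (uu v) L k = 0 := by
      intro k hk
      have h7 := mod_zero_of hk
      rw [hval k] at h7
      generalize TT (uu v) L k = T at h7
      clear hm hgoal
      interval_cases s1
      · revert T; decide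
      · revert T; decide
    funext k
    fin_cases k
    · exact hk 0 a0
    · exact hk 1 a1
    · exact hk 2 a2
    · exact hk 3 a3
    · exact hk 4 a4

end Pool.Agent.T2H98.EGZ
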