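import Pool.Agent.T2H98.EGZ.Trans

/-! # Package Z: the 49 representatives cover all values of the root list -/

set_option autoImplicit false

namespace Pool.Agent.T2H98.EGZ

open K

/-- representatives of the root values (codes of T-values of `L0`) -/
def reps : List ℕ :=
  [1, 4, 10, 9, 13, 12, 28, 27, 31, 34, 35, 51, 55, 56, 58, 57, 61, 68, 82, 85, 88, 89, 91, 92, 90,
   94, 93, 98, 109, 110, 108, 112, 111, 115, 116, 127, 130, 129, 133, 136, 140, 138, 143, 141, 145,
   146, 148, 149, 152]

/-- the nontrivial automorphisms that preserve the root parallelogram -/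
def stab1 : GDat := ⟨0x2, 0x100, 0x20000, 0x1010001, 0x100000000, 0x1, 0x2, 0x100, 0x20000,
  0x1010001, 0x100000000⟩
def stab2 : GDat := ⟨0x10001, 0x100, 0x20000, 0x2010202, 0x102010101, 0x10000, 0x10001, 0x100,
  0x20000, 0x2010202, 0x102010101⟩
def stab3 : GDat := ⟨0x20002, 0x100, 0x10000, 0x2010200, 0x102010101, 0x20001, 0x20002, 0x100,
  0x10000, 0x2010200, 0x102010101⟩

theorem gok1 : GOK stab1 := gok_of _ (by decide +kernel) (by decide +kernel)
theorem gok2 : GOK stab2 := gok_of _ (by decide +kernel) (by decide +kernel)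
theorem gok3 : GOK stab3 := gok_of _ (by decide +kernel) (by decide +kernel)

/-- the reversed root list -/
def L0r : List ℕ := [9, 19, 0, 0, 1, 1]

theorem zs_L0 : Zs L0 := ⟨by decide, by decide, by decide⟩
theorem zs_L0r : Zs L0r := ⟨by decide, by decide, by decide⟩

theorem TT_perm (u : ℕ → Fin 5 → ZMod 3) {L L' : List ℕ} (h : L.Perm L') : TT u L = TT u L' := by
  have h1 : ∀ k, dsum L k = dsum L' k := fun k => (h.map _).sum_eq
  have h2 : (L.map u).sum = (L'.map u).sum := (h.map _).sum_eq
  unfold TT carry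
  rw [h2]
  simp only [h1]

theorem excl_perm {L L' : List ℕ} (h : L.Perm L') {x : Fin 5 → ZMod 3} (hx : Excl L x) :
    Excl L' x := by
  intro v hv
  rw [← TT_perm (uu v) h]
  exact hx v hv

theorem three_smul_z (a : Fin 5 → ZMod 3) : a + a + a = 0 := by
  funext k
  have : ∀ z : ZMod 3, z + z + z = 0 := by decide
  exact this (a k)

/-- the two T-values of the root parallelogram add up to a constant -/
theorem TT_L0r (u : ℕ → Fin 5 → ZMod 3) : TT u L0 + TT u L0r = ![2, 0, 0, 0, 0] := by
  have hc : carry L0 + carry L0r = ![2, 0, 0, 0, 0] := by decide +kernel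
  rw [← hc]
  have h : (L0.map u).sum + (L0r.map u).sum = 0 := by
    simp only [L0, L0r, List.map_cons, List.map_nil, List.sum_cons, List.sum_nil]
    have h0 := three_smul_z (u 0)
    have h1 := three_smul_z (u 1)
    have h9 := three_smul_z (u 9)
    have h19 := three_smul_z (u 19)
    calc _ = (u 0 + u 0 + u 0) + (u 1 + u 1 + u 1) + (u 9 + u 9 + u 9) +
          (u 19 + u 19 + u 19) := by abel
      _ = 0 := by rw [h0, h1, h9, h19]; simp
  unfold TT
  calc _ = carry L0 + carry L0r + ((L0.map u).sum + (L0r.map u).sum) := by abel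
    _ = _ := by rw [h, add_zero]

/-- carry constant -/
def cc (k : ℕ) : ℕ := if k = 0 then 2 else 0

/-- coverage check of one value -/
noncomputable def chk (x : ℕ) : Bool :=
  (codes45.any fun d => (List.range 5).all fun k => Nat.beq ((dg x k + dg d k) % 3) 0) ||
  (codes45.any fun d => (List.range 5).all fun k => Nat.beq ((cc k + dg d k) % 3) (dg x k)) ||
  (reps.any fun r => Nat.beq x r || Nat.beq x (c3 (gf stab1 r)) ||
    ((List.range 5).all fun k => Nat.beq ((fl8 (gf stab2 r) k + dg x k) % 3) (cc k)) ||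
    ((List.range 5).all fun k => Nat.beq ((fl8 (gf stab3 r) k + dg x k) % 3) (cc k)))

theorem chk_all : (List.range 243).all chk = true := by decide +kernel

/-- every vector is a point -/
theorem exists_code (T : Fin 5 → ZMod 3) : ∃ x < 243, pt 5 x = T := by
  refine ⟨∑ k : Fin 5, (T k).val * 3 ^ (k : ℕ), ?_, ?_⟩
  · have h0 := (T 0).val_lt
    have h1 := (T 1).val_lt
    have h2 := (T 2).val_lt
    have h3 := (T 3).val_lt
    have h4 := (T 4).val_lt
    simp only [Fin.sum_univ_five]
    norm_num
    omega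
  · funext k
    have h0 := (T 0).val_lt
    have h1 := (T 1).val_lt
    have h2 := (T 2).val_lt
    have h3 := (T 3).val_lt
    have h4 := (T 4).val_lt
    have key : (∑ k : Fin 5, (T k).val * 3 ^ (k : ℕ)) / 3 ^ (k : ℕ) % 3 = (T k).val := by
      simp only [Fin.sum_univ_five]
      rcases fin5 k with rfl | rfl | rfl | rfl | rfl <;> norm_num <;> omega
    simp only [pt]
    rw [← ZMod.natCast_mod, key, ZMod.natCast_zmod_val]

theorem all5 {p : ℕ → Bool} (h : (List.range 5).all p = true) (k : Fin 5) : p k = true := by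
  rw [List.all_eq_true] at h
  exact h k (List.mem_range.2 k.2)

theorem cast_of_mod {a b : ℕ} (h : a % 3 = b) : ((a : ℕ) : ZMod 3) = (b : ℕ) := by
  rw [← h, ZMod.natCast_mod]

theorem cc_vec (k : Fin 5) : ((cc k : ℕ) : ZMod 3) = (![2, 0, 0, 0, 0] : Fin 5 → ZMod 3) k := by
  revert k; decide

theorem no_lift_of_reps (h : ∀ x ∈ reps, Excl L0 (pt 5 x)) : ¬ ∃ v, IsLift D45 v := by
  rintro ⟨v, hv⟩
  obtain ⟨x, hx, hxT⟩ := exists_code (TT (uu v) L0)
  have hr := TT_L0r (uu v)
  have hc : chk x = true := by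
    have := chk_all
    rw [List.all_eq_true] at this
    exact this x (List.mem_range.2 hx)
  unfold chk at hc
  rw [Bool.or_eq_true, Bool.or_eq_true] at hc
  rcases hc with (hc | hc) | hc
  · obtain ⟨d, hd, hk⟩ := List.any_eq_true.1 hc
    refine TT_ne6 hv L0 zs_L0 rfl d hd ?_
    rw [← hxT]
    funext k
    have h1 := nat_beq_eq (all5 hk k)
    rw [Pi.add_apply, pt_dg, pt_dg, Pi.zero_apply, ← Nat.cast_add, cast_of_mod h1, Nat.cast_zero]
  · obtain ⟨d, hd, hk⟩ := List.any_eq_true.1 hc
    refine TT_ne6 hv L0r zs_L0r rfl d hd ?_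
    have e : TT (uu v) L0r = ![2, 0, 0, 0, 0] - pt 5 x := by
      rw [← hr, hxT]; abel
    rw [e]
    funext k
    have h1 := cast_of_mod (nat_beq_eq (all5 hk k))
    rw [Nat.cast_add, cc_vec] at h1
    rw [Pi.add_apply, Pi.sub_apply, pt_dg, pt_dg, ← h1, Pi.zero_apply]
    ring
  · obtain ⟨r, hr', hk⟩ := List.any_eq_true.1 hc
    have hE := h r hr'
    rw [Bool.or_eq_true, Bool.or_eq_true, Bool.or_eq_true] at hk
    have hkey : ∀ {G : GDat}, GOK G → (L0.map (gc G)).Perm L0r →
        ((List.range 5).all fun k => Nat.beq ((fl8 (gf G r) k + dg x k) % 3) (cc k)) = true →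
        False := by
      intro G hG hp hk
      refine excl_perm hp (hG.transfer zs_L0 rfl hE) v hv ?_
      have e : TT (uu v) L0r = ![2, 0, 0, 0, 0] - pt 5 x := by
        rw [← hr, hxT]; abel
      rw [e]
      funext k
      have h1 := cast_of_mod (nat_beq_eq (all5 hk k))
      rw [Nat.cast_add, cc_vec] at h1
      rw [Pi.sub_apply, pt_dg, ← h1]
      simp only [fv]
      ring
    rcases hk with ((hk | hk) | hk) | hk
    · have h1 := nat_beq_eq hk
      subst h1
      exact hE v hv hxT.symm
    · have h1 := nat_beq_eq hk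
      have hp : (L0.map (gc stab1)).Perm L0 := by decide +kernel
      refine excl_perm hp (gok1.transfer zs_L0 rfl hE) v hv ?_
      rw [← hxT, h1, pt_c3]
    · exact hkey gok2 (by decide +kernel) hk
    · exact hkey gok3 (by decide +kernel) hk

end Pool.Agent.T2H98.EGZ
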