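import Mathlib

/-!
# Definitions for the disproof of the EGZ conjecture for `C_9^5`

`IsCap`: caps in `F_3^r`; `IsLift D v`: `v` lifts the points of `D` to `(Z/9)^5` such that no
nontrivial multiset of size 9 supported on `D` has lifted sum zero; `D45`: a 45-cap in `F_3^5`.
-/

set_option autoImplicit false

namespace Pool.Agent.T2H98.EGZ

/-- A cap in `F_3^r`: no three distinct points with sum zero. -/
def IsCap {r : ℕ} (D : Finset (Fin r → ZMod 3)) : Prop :=
  ∀ x ∈ D, ∀ y ∈ D, ∀ z ∈ D, x + y + z = 0 → x = y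

/-- reduction modulo 3 -/
def red9 : ZMod 9 →+* ZMod 3 := ZMod.castHom (by norm_num) (ZMod 3)

/-- `v` lifts the points of `D` to `(Z/9)^5`, and the only zero-sum multisets of size `9` of the
lifted points are the constant ones. -/
structure IsLift (D : Finset (Fin 5 → ZMod 3)) (v : (Fin 5 → ZMod 3) → (Fin 5 → ZMod 9)) :
    Prop where
  red : ∀ a ∈ D, ∀ k, red9 (v a k) = a k
  zs : ∀ α : (Fin 5 → ZMod 3) → ℕ, (∀ a, a ∉ D → α a = 0) → ∑ a, α a = 9 →
    ∑ a, α a • v a = 0 → ∃ a, α a = 9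

/-- The point of `F_3^r` with base 3 digits (least significant first) those of `n`. -/
def pt (r n : ℕ) : Fin r → ZMod 3 := fun k => ((n / 3 ^ (k : ℕ) : ℕ) : ZMod 3)

/-- codes of the points of the 45-cap -/
def codes45 : List ℕ :=
  [0, 1, 3, 4, 9, 12, 19, 22, 27, 34, 38, 43, 49, 57, 61, 63, 75, 80, 81, 82, 84, 85, 97, 98,
   105, 107, 127, 133, 135, 136, 140, 143, 153, 155, 157, 160, 177, 187, 210, 212, 219, 223,
   225, 237, 242]

/-- the standard 45-cap in `F_3^5` -/
def D45 : Finset (Fin 5 → ZMod 3) := (codes45.map (pt 5)).toFinset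

end Pool.Agent.T2H98.EGZ
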