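set_option autoImplicit false
set_option linter.unusedVariables false

/-!
# Kernel engine for the lift search (part C): definitions only

The position of `t : Fin 5 -> {0,1,2}` is the sum of `t k * 6 ^ k`; masks are numbers whose bits are
indexed by positions, packs consist of `3 ^ m` masks of `7776` bits each.
No Mathlib here: these functions are evaluated by the kernel.
-/

namespace Pool.Agent.T2H98.EGZ.K

/-! ## masks and packs -/

noncomputable def e3 (b : Nat) : Nat := Nat.lor b (Nat.shiftLeft b 3888)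
/-- the digits `0, 1, 2` of all positions are copied to `3, 4, 5`; the factor is
`(1 + 2^3) * (1 + 2^18) * (1 + 2^108) * (1 + 2^648)` -/
noncomputable def ext (m : Nat) : Nat := e3 (Nat.mul m 0x240009000000000000000000000240009000000000000000000000000000000000000000000000000000000000000000000000000000000000000000000000000000000000000000000000000000000000240009000000000000000000000240009)
noncomputable def mg (T sa sb : Nat) : Nat :=
  Nat.land T (Nat.land (Nat.shiftRight (ext T) sa) (Nat.shiftRight (ext T) sb))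
noncomputable def tbl : Nat := 0x6130006306140e4000000631a27708afa0e5000000c1a000000632000a28a2170900063c0300e6000000000000000b28000000a4a0000005400000005eeb1c6f2a225e970a00000000063d0000310001dac1f000b4d000000000b24000000000000b29000000000000000a4b70f0000000006cc5410000000000000005ef00db1d00004e00056402c5ea0d8618000000bdc0006ea00000063eb410000000326c70000001dbbd1c20000000517b4e00000000000053b000af8c180000000000001bd0006f0000000b2a00000000000000000000000002a0005f5a4c2067100560006370000490000006cd204542000000b04000b060000000000000000005f0bfb00e1e0b1e000000c0004f00000051d56500012000012c0000d9000619000000534000000bdda450006e56ebbf4000558000bd6afe103b421f90001e2000000126a2d6c8a520000000002001dc000bd21091b0c020000080005105180000de000000c25000000000a7000061253c1d6000a26af9000c19000000a200001220000000000001be00000012e6f15e8000000000000c1eb4c000b2300000000000000070e00002600000000000c00000002bb480005365f6000b400006c6000bd000051600000053a6380000001bc04a0000000000000006ce5f42050556360480006c2000bf6b05000000000bfaa6a00055a00051c000000000000000bd8000a446e4b00bfc7161021f81e1000a2ca510001ff000108c01007050000000c24000a6f51e1d556600000056012100000000012d1280000000dab2200000061a0250000fe000b47535000000000000000bde000a460000000006e60546ec6c1bf5000000a6955960e000000bd71b8aff715104000a501fe1fa0060001b2a6e1d400055f000000127000a2e0000240fdb460000000000000000005126c0000a6860d0001b771400010aa761b10e055e0000000000fc00000000051100060c1b6000a750df000000000000000c26a74000000000002000001000000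
/-- `lk (2 ^ l) = l` for all positions `l` of vectors -/
noncomputable def lk (b : Nat) : Nat := Nat.land (Nat.shiftRight tbl (Nat.mul 12 (Nat.mod b 487))) 4095

/-! ## loop over the set bits of a mask -/

noncomputable def it3 (f nx : Nat → Bool) (M' M : Nat) : Bool :=
  Bool.rec (motive := fun _ => Bool) false (nx M') (f (lk (Nat.sub M M')))
noncomputable def it (f nx : Nat → Bool) (M : Nat) : Bool :=
  Nat.rec (motive := fun _ => Bool) true (fun n _ => it3 f nx (Nat.land M n) M) M
noncomputable def l2 (f nx : Nat → Bool) : Nat → Bool := it f (it f nx)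
noncomputable def l4 (f nx : Nat → Bool) : Nat → Bool := l2 f (l2 f nx)
noncomputable def l8 (f nx : Nat → Bool) : Nat → Bool := l4 f (l4 f nx)
noncomputable def l16 (f nx : Nat → Bool) : Nat → Bool := l8 f (l8 f nx)
noncomputable def l32 (f nx : Nat → Bool) : Nat → Bool := l16 f (l16 f nx)
noncomputable def l64 (f nx : Nat → Bool) : Nat → Bool := l32 f (l32 f nx)
noncomputable def l128 (f nx : Nat → Bool) : Nat → Bool := l64 f (l64 f nx)
noncomputable def fl (_ : Nat) : Bool := false
noncomputable def lp128 (f : Nat → Bool) : Nat → Bool := l128 f fl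
noncomputable def lp64 (f : Nat → Bool) : Nat → Bool := l64 f (lp128 f)
noncomputable def lp32 (f : Nat → Bool) : Nat → Bool := l32 f (lp64 f)
noncomputable def lp16 (f : Nat → Bool) : Nat → Bool := l16 f (lp32 f)
noncomputable def lp8 (f : Nat → Bool) : Nat → Bool := l8 f (lp16 f)
noncomputable def lp4 (f : Nat → Bool) : Nat → Bool := l4 f (lp8 f)
noncomputable def lp2 (f : Nat → Bool) : Nat → Bool := l2 f (lp4 f)
noncomputable def loop (f : Nat → Bool) : Nat → Bool := it f (lp2 f)

/-! ## the main chain `x1, ..., x5` with tests `r1, ..., r7` -/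

/-- test of one `r` after `x4`, `x5` are assigned, then `rest` -/
noncomputable def c4 (T : Nat) (rest : Nat → Nat → Nat → Nat → Bool) (a4 b4 a5 b5 : Nat) : Bool :=
  Nat.rec (motive := fun _ => Bool) true (fun _ _ => rest a4 b4 a5 b5) (mg (mg T a4 b4) a5 b5)
noncomputable def f5 (C : Nat → Nat → Nat → Nat → Bool) (a4 b4 l : Nat) : Bool :=
  C a4 b4 (Nat.add 7776 l) (Nat.sub 18662 l)
noncomputable def f4 (T5 : Nat) (C : Nat → Nat → Nat → Nat → Bool) (l : Nat) : Bool :=
  loop (f5 C (Nat.add 23328 l) (Nat.sub 49766 l)) (mg T5 (Nat.add 7776 l) (Nat.sub 18662 l))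
abbrev TL7 := Nat → Nat → Nat → Nat → Nat → Nat → Nat → Nat → Nat → Nat → Nat → Bool
noncomputable def f3b (TL : TL7) (T4 T5 R1 R2 R3 R4 R5 R6 R7 a b a5 b5 ar br : Nat) : Bool :=
  loop (f4 (mg T5 a5 b5)
    (c4 (mg R1 ar br) (c4 (mg R2 ar br) (c4 (mg R3 ar br) (c4 (mg R4 ar br) (c4 (mg R5 ar br)
      (c4 (mg R6 ar br) (c4 (mg R7 ar br)
        (TL (mg R1 ar br) (mg R2 ar br) (mg R3 ar br) (mg R4 ar br) (mg R5 ar br) (mg R6 ar br)
          (mg R7 ar br))))))))))
    (mg T4 a b)
noncomputable def f3 (TL : Nat → TL7) (T4 T5 R1 R2 R3 R4 R5 R6 R7 l : Nat) : Bool :=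
  f3b (TL l) T4 T5 R1 R2 R3 R4 R5 R6 R7 (Nat.add 7776 l) (Nat.sub 18662 l) (Nat.add 23328 l)
    (Nat.sub 49766 l) (Nat.add 69984 l) (Nat.sub 143078 l)
noncomputable def f2b (TL : Nat → TL7) (T3 T4 T5 R1 R2 R3 R4 R5 R6 R7 a b a4 b4 a5 b5 ar br : Nat) :
    Bool :=
  loop (f3 TL (mg T4 a4 b4) (mg T5 a5 b5) (mg R1 ar br) (mg R2 ar br) (mg R3 ar br) (mg R4 ar br)
    (mg R5 ar br) (mg R6 ar br) (mg R7 ar br)) (mg T3 a b)
noncomputable def f2 (TL : Nat → Nat → TL7) (T3 T4 T5 R1 R2 R3 R4 R5 R6 R7 l : Nat) : Bool :=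
  f2b (TL l) T3 T4 T5 R1 R2 R3 R4 R5 R6 R7 (Nat.add 7776 l) (Nat.sub 18662 l) (Nat.add 23328 l)
    (Nat.sub 49766 l) (Nat.add 69984 l) (Nat.sub 143078 l) (Nat.add 209952 l) (Nat.sub 423014 l)
noncomputable def f1b (TL : Nat → Nat → TL7)
    (T2 T3 T4 T5 R1 R2 R3 R4 R5 R6 R7 a b a3 b3 a4 b4 a5 b5 ar br : Nat) : Bool :=
  loop (f2 TL (mg T3 a3 b3) (mg T4 a4 b4) (mg T5 a5 b5) (mg R1 ar br) (mg R2 ar br) (mg R3 ar br)
    (mg R4 ar br) (mg R5 ar br) (mg R6 ar br) (mg R7 ar br)) (mg T2 a b)
noncomputable def f1 (TL : Nat → Nat → Nat → TL7) (T2 T3 T4 T5 R1 R2 R3 R4 R5 R6 R7 l : Nat) :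
    Bool :=
  f1b (TL l) T2 T3 T4 T5 R1 R2 R3 R4 R5 R6 R7 (Nat.add 7776 l) (Nat.sub 18662 l) (Nat.add 23328 l)
    (Nat.sub 49766 l) (Nat.add 69984 l) (Nat.sub 143078 l) (Nat.add 209952 l) (Nat.sub 423014 l)
    (Nat.add 629856 l) (Nat.sub 1262822 l)

/-! ## constraints in field form

Field form of a vector: `8` bits per coordinate. `stat` of a point: five digits and a `1` (field 5).
-/

noncomputable def dm (S k8 : Nat) : Nat := Nat.mod (Nat.land (Nat.shiftRight S k8) 255) 3
/-- position of a vector in field form -/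
noncomputable def p3 (T : Nat) : Nat :=
  Nat.add (dm T 0) (Nat.mul 6 (Nat.add (dm T 8) (Nat.mul 6 (Nat.add (dm T 16)
    (Nat.mul 6 (Nat.add (dm T 24) (Nat.mul 6 (dm T 32))))))))
/-- extended mask: vectors not in `-D` -/
noncomputable def A1 : Nat := 0xffffffffffdb6ff6dbfffffffffffffffffffdb6ff6dbffffffffffffffffff6db91b6e4b6d4adb52fffffffff6db91b6e4b6d4adb52fc9fff27ffe4fff93f4bf492fd2fc9fff27ffe4fff93f4bf492fd2ffffffffffdb6ff6dbfffffffffffffffffffdb6ff6dbffffffffffffffffff6db91b6e4b6d4adb52fffffffff6db91b6e4b6d4adb52fc9fff27ffe4fff93f4bf492fd2fc9fff27ffe4fff93f4bf492fd2fffffffff93ffe4fffffffffffffffffffff93ffe4fffffffffffffffdbfff6dadff6b7fd9bff66fffffdbfff6dadff6b7fd9bff66ffff6fffdbffdbfff6fffffffffffff6fffdbffdbfff6ffffffffffffffffffff93ffe4fffffffffffffffffffff93ffe4fffffffffffffffdbfff6dadff6b7fd9bff66fffffdbfff6dadff6b7fd9bff66ffff6fffdbffdbfff6fffffffffffff6fffdbffdbfff6ffffffffffffdbb7f6ed6fffdbffffdbdbf6f6fdbb7f6ed6fffdbffffdbdbf6f6fffdbfff6dadff6b7fd9bff66fffffdbfff6dadff6b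7fd9bff66ffdbfdb6ff66ff6dbfdb4bf492fd2dbfdb6ff66ff6dbfdb4bf492fd2fdbb7f6ed6fffdbffffdbdbf6f6fdbb7f6ed6fffdbffffdbdbf6f6fffdbfff6dadff6b7fd9bff66fffffdbfff6dadff6b7fd9bff66ffdbfdb6ff66ff6dbfdb4bf492fd2dbfdb6ff66ff6dbfdb4bf492fd2ffffffffffdb6ff6dbfffffffffffffffffffdb6ff6dbffffffffffffffffff6db91b6e4b6d4adb52fffffffff6db91b6e4b6d4adb52fc9fff27ffe4fff93f4bf492fd2fc9fff27ffe4fff93f4bf492fd2ffffffffffdb6ff6dbfffffffffffffffffffdb6ff6dbffffffffffffffffff6db91b6e4b6d4adb52fffffffff6db91b6e4b6d4adb52fc9fff27ffe4fff93f4bf492fd2fc9fff27ffe4fff93f4bf492fd2fffffffff93ffe4fffffffffffffffffffff93ffe4fffffffffffffffdbfff6dadff6b7fd9bff66fffffdbfff6dadff6b7fd9bff66ffff6fffdbffdbfff6fffffffffffff6fffdbffdbfff6ffffffffffffffffffff93ffe4fffffffffffffffffffff93ffe4fffffffffffffffdbfff6dadff6b7fd9bff66fffffdbfff6dadff6b7fd9bff66ffff6fffdbffdbfff6fffffffffffff6fffdbffdbfff6ffffffffffffdbb7f6ed6fffdbffffdbdbf6f6fdbb7f6ed6fffdbffffdbdbf6f6fffdbfff6dadff6b7fd9bff66fffffdbfff6dadff6b7fd9bff66ffdbfdb6ff66ff6dbfdb4bf492fd2dbfdb6ff66ff6dbfdb4bf492fd2fdbb7f6ed6fffdbffffdbdbf6f6fdbb7f6ed6fffdbffffdbdbf6f6fffdbfff6dadff6b7fd9bff66fffffdbfff6dadff6b7fd9bff66ffdbfdb6ff66ff6dbfdb4bf492fd2dbfdb6ff66ff6dbfdb4bf492fd2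
/-- extended mask: vectors not in `D` -/
noncomputable def A2 : Nat := 0x6f6fdbdbffffdbfff6b76feddbf6f6fdbdbffffdbfff6b76feddbffd2fff4bffffffffffffffffffffd2fff4bfffffffffffffffffffb7ffedfffdbfff6ffffffffffffb7ffedfffdbfff6ffffffffffff6f6fdbdbffffdbfff6b76feddbf6f6fdbdbffffdbfff6b76feddbffd2fff4bffffffffffffffffffffd2fff4bfffffffffffffffffffb7ffedfffdbfff6ffffffffffffb7ffedfffdbfff6ffffffffffffb6d4adb52fffffffff6db91b6e4b6d4adb52fffffffff6db91b6e4b7fb6dfedffffffffffffffffffb7fb6dfedffffffffffffffffff4bffd2fff27ffc9ffffe493f9244bffd2fff27ffc9ffffe493f924b6d4adb52fffffffff6db91b6e4b6d4adb52fffffffff6db91b6e4b7fb6dfedffffffffffffffffffb7fb6dfedffffffffffffffffff4bffd2fff27ffc9ffffe493f9244bffd2fff27ffc9ffffe493f9246f6fdbdbffffdbfff6b76feddbf6f6fdbdbffffdbfff6b76feddbffedfffb7fb7f6edfdbb7fdadff6fedfffb7fb7f6edfdbb7fdadff6fedb7fb6dff6dbfdb6fe493f924fedb7fb6dff6dbfdb6fe493f9246f6fdbdbffffdbfff6b76feddbf6f6fdbdbffffdbfff6b76feddbffedfffb7fb7f6edfdbb7fdadff6fedfffb7fb7f6edfdbb7fdadff6fedb7fb6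dff6dbfdb6fe493f924fedb7fb6dff6dbfdb6fe493f9246f6fdbdbffffdbfff6b76feddbf6f6fdbdbffffdbfff6b76feddbffd2fff4bffffffffffffffffffffd2fff4bfffffffffffffffffffb7ffedfffdbfff6ffffffffffffb7ffedfffdbfff6ffffffffffff6f6fdbdbffffdbfff6b76feddbf6f6fdbdbffffdbfff6b76feddbffd2fff4bffffffffffffffffffffd2fff4bfffffffffffffffffffb7ffedfffdbfff6ffffffffffffb7ffedfffdbfff6ffffffffffffb6d4adb52fffffffff6db91b6e4b6d4adb52fffffffff6db91b6e4b7fb6dfedffffffffffffffffffb7fb6dfedffffffffffffffffff4bffd2fff27ffc9ffffe493f9244bffd2fff27ffc9ffffe493f924b6d4adb52fffffffff6db91b6e4b6d4adb52fffffffff6db91b6e4b7fb6dfedffffffffffffffffffb7fb6dfedffffffffffffffffff4bffd2fff27ffc9ffffe493f9244bffd2fff27ffc9ffffe493f9246f6fdbdbffffdbfff6b76feddbf6f6fdbdbffffdbfff6b76feddbffedfffb7fb7f6edfdbb7fdadff6fedfffb7fb7f6edfdbb7fdadff6fedb7fb6dff6dbfdb6fe493f924fedb7fb6dff6dbfdb6fe493f9246f6fdbdbffffdbfff6b76feddbf6f6fdbdbffffdbfff6b76feddbffedfffb7fb7f6edfdbb7fdadff6fedfffb7fb7f6edfdbb7fdadff6fedb7fb6dff6dbfdb6fe493f924fedb7fb6dff6dbfdb6fe493f924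
/-- extended mask: nonzero vectors -/
noncomputable def A9 : Nat := 0xfffffffffffffffffffffffffffffffffffffffffffffffffffffffffffffffffffffffffffffffffffffffffffffffffffffffffffffffffffffffffffffffffffffffffffffffffffffffffffffffffffffffffffffffffffffffffffffffffffffffffffffffffffffffffffffffffffffffffffffffffffffffffffffffffffffffffffffffffffffffffffffffffffffffffffffffffffffffffffffffffffffffffffffffffffffffffffffffffffffffffffffffffffffffffffffffffffffffffffffffffffffffffffffffffffffffffffffffffffffffffffffffffffffffffffffffffffffffffffffffffffffffffffffffffffffffffffffffffffffffffffffffffffffffffffffffffffffffffffffffffffffffffffffffffffffffffffffffffffffffffffffffffffffffffffffffffffffffffffffffffffffffffffffffffffffffffffffffffffffffffffffffffffffffffffffffffffffffffffffffffffffffffffffffffffffffffffffffffffffffffffffffffffffffffdbfff6fffffffffffffffffffffdbfff6fffffffffffffffffffffffffffffffffffffffffffffffffffffffffffffffffffffffffffffffffffffffffffffffffffffffffffffffffffffff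ffffffffffdbfff6fffffffffffffffffffffdbfff6fffffffffffffffffffffffffffffffffffffffffffffffffffffffffffffffffffffffffffffffffffffffffffffffffffffffffffffffffffffffffffffffffffffffffffffffffffffffffffffffffffffffffffffffffffffffffffffffffffffffffffffffffffffffffffffffffffffffffffffffffffffffffffffffffffffffffffffffffffffffffffffffffffffffffffffffffffffffffffffffffffffffffffffffffffffffffffffffffffffffffffffffffffffffffffffffffffffffffffffffffffffffffffffffffffffffffffffffffffffffffffffffffffffffffffffffffffffffffffffffffffffffffffffffffffffffffffffffffffffffffffffffffffffffffffffffffffffffffffffffffffffffffffffffffffffffffffffffffffffffffffffffffffffffffffffffffffffffffffffffffffffffffffffffffffffffffffffffffffffffffffffffffffffffffffffffffffffffffffffffffffffffffffffffffffffffffffffffffffffffffffffffffffffffffdbfff6fffffffffffffffffffffdbfff6fffffffffffffffffffffffffffffffffffffffffffffffffffffffffffffffffffffffffffffffffffffffffffffffffffffffffffffffffffffffffffffffffdbfff6fffffffffffffffffffffdbfff6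
/-- mask of all positions of vectors -/
noncomputable def W1 : Nat := 0x71c70000071c70000071c70000000000000000000000000000000071c70000071c70000071c70000000000000000000000000000000071c70000071c70000071c70000000000000000000000000000000000000000000000000000000000000000000000000000000000000000000000000000000000000000000000000000000000000000000000000000000000000000000000000000000000000000000000000071c70000071c70000071c70000000000000000000000000000000071c70000071c70000071c70000000000000000000000000000000071c70000071c70000071c70000000000000000000000000000000000000000000000000000000000000000000000000000000000000000000000000000000000000000000000000000000000000000000000000000000000000000000000000000000000000000000000000071c70000071c70000071c70000000000000000000000000000000071c70000071c70000071c70000000000000000000000000000000071c70000071c70000071c7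
noncomputable def As (s1 : Nat) : Nat := Nat.rec (motive := fun _ => Nat) A1 (fun _ _ => A2) s1
noncomputable def cst4 (M T m : Nat) : Nat := Nat.land m (Nat.shiftRight M (p3 T))
noncomputable def cq2 (M s1 D q o m : Nat) : Nat :=
  Bool.rec (motive := fun _ => Nat) m
    (Bool.rec (motive := fun _ => Nat) m (cst4 M (Nat.add (Nat.mul q (Nat.add 1 s1)) o) m)
      (Nat.beq (Nat.land q 0xF8F8F8F8F8) 0)) (Nat.beq (Nat.mul 3 q) D)
noncomputable def cq (M s1 D o m : Nat) : Nat := cq2 M s1 D (Nat.div D 3) o m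
noncomputable def cc (s1 D cn o m : Nat) : Nat :=
  Bool.rec (motive := fun _ => Nat)
    (Bool.rec (motive := fun _ => Nat) m (cq A9 s1 D o m) (Nat.beq cn 9))
    (cq (As s1) s1 D o m) (Nat.beq cn 6)
/-- the constraint given by a multiset with field sum `S`, containing the target `1 + s1` times -/
noncomputable def cst (s1 S o m : Nat) : Nat :=
  cc s1 (Nat.land S 0xFFFFFFFFFF) (Nat.land (Nat.shiftRight S 40) 0xFFFF) o m

/-! ## tables (base packs) -/

/-- sum of the gauge points, with multiplicities `gam` mod 3 -/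
noncomputable def gsum (gs : List Nat) : Nat → Nat :=
  List.rec (motive := fun _ => Nat → Nat) (fun _ => 0)
    (fun hd _ ih gam => Nat.add (Nat.mul (dm gam 0) hd) (ih (Nat.shiftRight gam 8))) gs
noncomputable def leaf (gs : List Nat) (A B gam o m : Nat) : Nat :=
  cst 1 (Nat.add B (gsum gs (Nat.add gam gam))) o (cst 0 (Nat.add A (gsum gs gam)) o m)
noncomputable def leaf3 (gs : List Nat) (a0 st0 y0 A B gam o : Nat) : Nat :=
  leaf gs (Nat.add A (Nat.add st0 st0)) (Nat.add B st0) (Nat.add gam (Nat.add a0 a0))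
      (Nat.add o (Nat.add y0 y0))
    (leaf gs (Nat.add A st0) (Nat.add B (Nat.add st0 st0)) (Nat.add gam a0) (Nat.add o y0)
      (leaf gs A B gam o W1))
noncomputable def bldn (ih : Nat → Nat → Nat → Nat → Nat) (a st s A B gam o : Nat) : Nat :=
  Nat.lor (ih A B gam o)
    (Nat.lor (Nat.shiftLeft (ih (Nat.add A st) (Nat.add B (Nat.add st st)) (Nat.add gam a) o) s)
      (Nat.shiftLeft (ih (Nat.add A (Nat.add st st)) (Nat.add B st) (Nat.add gam (Nat.add a a))
        (Nat.add o 0x101010101)) (Nat.add s s)))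
/-- base pack: `ch` lists the chain variables (gauge coordinates, stat), `s` is the stride of the
first one -/
noncomputable def bld (gs : List Nat) (a0 st0 y0 : Nat) (ch : List (Nat × Nat)) :
    Nat → Nat → Nat → Nat → Nat → Nat :=
  List.rec (motive := fun _ => Nat → Nat → Nat → Nat → Nat → Nat)
    (fun _ A B gam o => leaf3 gs a0 st0 y0 A B gam o)
    (fun hd _ ih s A B gam o => bldn (ih (Nat.div s 3)) hd.1 hd.2 s A B gam o) ch

/-! ## the tail: certified search for the survivors

Environment `E`: `45` blocks of `96` bits; block `p`: stat of the point `p` (48 bits), flag field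
(`1` when unassigned), five fields of the value.
-/

noncomputable def YT : Nat := 0x20002010202000201010200020100000201020200020102010002010200020002000202000200010200020000000201010200020101010002010100000100020200010002010001000200000201000200020100010002010000000100010200010001010001000100020102020202010202010201020200000100000200010000010001000000020102010202010201010201020100020001020202000102010200010200020102000202010200010201020000020001010202000101010200010100000200020200020002010002000200020001000202000100010200010000000200010200020001010002000100020202020202020202010202020200000200000200020000010002000000020202010202020201010202020100020101020202010102010201010200020202000202020200010202020000020101010202010101010201010100020000020202000002010200000200020101000202010100010201010000020000010202000001010200000100010002020201000202010100020200020000000202000000010200000000010002010201000201010100020100020201020202020102010202010200010002000201000200010100020000020201010202020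1010102020101000201000202020100020102010002000202010002020201000102020100000201000102020100010102010001000101020202010102020101010202000201000002020100000102010000000101020102010102010101010201000100010202010001020101000102000101020002010102000101010200000100010102010001010101000101000202000202020200020102020002000100010002010001000101000100000202000102020200010102020001000102020202010202020101020202000202000002020200000102020000000102020102010202010101020201000101010202010101020101010102000102020002010202000101020200000101010102010101010101010101000100000202010000020101000002000101010002010101000101010100000100000102010000010101000001000000020202000002020100000202000100000002010000000101000000000000020102000002010100000201000102010202010201020101020102000000020002000002000100000200000102010102010201010101020101000101000202010100020101010002000102010002010201000101020100000101000102010100010101010001000001020202000102020100010202000101000002010100000101010000000001020102000102010100010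20100000001020200000102010000010200000102000200010200010001020000000001010200000101010000010100010200020201020002010102000200000001000200000100010000010000010200010201020001010102000100000202020200020202010002020200010200000201020000010102000000000202010200020201010002020100000101020200010102010001010200000202000200020200010002020000000101010200010101010001010100000000020200000002010000000200000101000200010100010001010000000000010200000001010000000100020002020202000202010200020200000000000200000000010000000000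
/-- field form of the vector at position `l` -/
noncomputable def yf (l : Nat) : Nat :=
  Nat.land (Nat.shiftRight YT (Nat.mul 40 (Nat.mod l 243))) 0xFFFFFFFFFF
noncomputable def bl (E x : Nat) : Nat :=
  Nat.land (Nat.shiftRight E (Nat.mul 96 (Nat.land x 63))) 0xFFFFFFFFFFFFFFFFFFFFFFFF
noncomputable def asg (E k l : Nat) : Nat :=
  Nat.sub (Nat.add E (Nat.shiftLeft (yf l) (Nat.add (Nat.mul 96 k) 56)))
    (Nat.shiftLeft 1 (Nat.add (Nat.mul 96 k) 48))
noncomputable def ap2 (st s1 So m : Nat) : Nat :=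
  cst s1 (Nat.add (Nat.land So 0xFFFFFFFFFFFFFF) (Nat.mul (Nat.add 1 s1) st))
    (Nat.mul (Nat.add 1 s1) (Nat.shiftRight So 56)) m
noncomputable def ap (E st c m : Nat) : Nat :=
  ap2 st (Nat.land c 1) (Nat.add (bl E (Nat.shiftRight c 1)) (Nat.add (bl E (Nat.shiftRight c 7))
    (Nat.add (bl E (Nat.shiftRight c 13)) (Nat.add (bl E (Nat.shiftRight c 19))
      (bl E (Nat.shiftRight c 25)))))) m
noncomputable def rfs (E st n : Nat) : Nat → Nat → Nat :=
  Nat.rec (motive := fun _ => Nat → Nat → Nat) (fun _ m => m)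
    (fun _ ih c m => ih (Nat.shiftRight c 31) (ap E st c m)) n
noncomputable def nd4 (ih : Nat → Nat → Bool) (key E k l : Nat) : Bool :=
  ih (Nat.add (Nat.mul key 8192) l) (asg E k l)
noncomputable def nd3 (ih : Nat → Nat → Bool) (key E c k m : Nat) : Bool :=
  Bool.rec (motive := fun _ => Bool) false
    (loop (nd4 ih key E k) (rfs E (Nat.land (bl E k) 0xFFFFFFFFFFFF) (Nat.land c 31)
      (Nat.shiftRight c 5) m))
    (Nat.beq (Nat.land (Nat.shiftRight E (Nat.add (Nat.mul 96 k) 48)) 255) 1)
noncomputable def sel (f : Nat → Nat → Bool) (B : List (Nat × Nat)) : Nat → Bool :=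
  List.rec (motive := fun _ => Nat → Bool) (fun _ => false)
    (fun hd _ ih b => Nat.rec (motive := fun _ => Bool) (f hd.1 hd.2) (fun b' _ => ih b') b) B
noncomputable def nd2 (B : List (Nat × Nat)) (ih : Nat → Nat → Bool) (key E c : Nat) : Bool :=
  sel (nd3 ih key E (Nat.shiftRight c 5)) B (Nat.land c 31)
noncomputable def nd (B : List (Nat × Nat)) (O : Nat → Nat) (fuel : Nat) : Nat → Nat → Bool :=
  Nat.rec (motive := fun _ => Nat → Nat → Bool) (fun _ _ => false)
    (fun _ ih key E => nd2 B ih key E (O key)) fuel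
/-- oracle (its values are not trusted): perfect hash table of the keys, offsets into `blob` -/
noncomputable def orc (m1 m2 M dsp tab blob key : Nat) : Nat :=
  Nat.shiftRight blob (Nat.land (Nat.shiftRight tab (Nat.mul 20 (Nat.mod (Nat.add (Nat.mod key m1)
    (Nat.land (Nat.shiftRight dsp (Nat.mul 16 (Nat.mod key m2))) 0xFFFF)) M))) 0xFFFFF)
noncomputable def key5 (l1 l2 l3 l4 l5 : Nat) : Nat :=
  Nat.add l5 (Nat.mul 8192 (Nat.add l4 (Nat.mul 8192 (Nat.add l3 (Nat.mul 8192
    (Nat.add l2 (Nat.mul 8192 l1)))))))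
noncomputable def tail2 (O : Nat → Nat) (B : List (Nat × Nat)) (E0 p1 p2 p3 p4 p5
    l1 l2 l3 l4 l5 : Nat) : Bool :=
  nd B O 30 (key5 l1 l2 l3 l4 l5) (asg (asg (asg (asg (asg E0 p1 l1) p2 l2) p3 l3) p4 l4) p5 l5)
noncomputable def tail (O : Nat → Nat) (outs : List (Nat × Nat)) (E0 p1 p2 p3 p4 p5
    k1 k2 k3 k4 k5 k6 k7 l1 l2 l3 R1 R2 R3 R4 R5 R6 R7 a4 b4 a5 b5 : Nat) : Bool :=
  tail2 O (List.cons (k1, mg (mg R1 a4 b4) a5 b5) (List.cons (k2, mg (mg R2 a4 b4) a5 b5)
    (List.cons (k3, mg (mg R3 a4 b4) a5 b5) (List.cons (k4, mg (mg R4 a4 b4) a5 b5)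
    (List.cons (k5, mg (mg R5 a4 b4) a5 b5) (List.cons (k6, mg (mg R6 a4 b4) a5 b5)
    (List.cons (k7, mg (mg R7 a4 b4) a5 b5) outs)))))))
    E0 p1 p2 p3 p4 p5 l1 l2 l3 (Nat.sub a4 23328) (Nat.sub a5 7776)
/-- stats of the `45` points, `48` bits each -/
noncomputable def ST : Nat := 0x10202020202010202020100010202010000010202000201010202000100010201020102010201020100010200020201010200010200010102020201010102020101010102020002010102020000010102000202010102000102010102000001010102000000010101020201010101020001010100020202010100020200010100010202010100010201010100000101010100000100010100000001010100000000010002020202010002020100010002010000010002000201010002000100010001020101010001010201010001010002010001000201010001000000010000020101010000020001010000010100010000010000010000000101010000000100010000000001010000000000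
noncomputable def stp (p : Nat) : Nat := Nat.land (Nat.shiftRight ST (Nat.mul 48 p)) 0xFFFFFFFFFFFF
/-- environment in which exactly the points `p` with bit `p` of `F` set are assigned the value `0` -/
noncomputable def mkE (F n : Nat) : Nat :=
  Nat.rec (motive := fun _ => Nat) 0
    (fun p ih => Nat.add ih (Nat.shiftLeft (Nat.add (stp p)
      (Nat.mul (Nat.sub 1 (Nat.land (Nat.shiftRight F p) 1)) 0x1000000000000)) (Nat.mul 96 p))) n

/-! ## excluded values of the parallelograms -/

/-- positions excluded by `T ∉ X` (field forms), the target occurring `1 + s1` times -/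
noncomputable def fbm (s1 q o : Nat) (X : List Nat) : Nat :=
  List.rec (motive := fun _ => Nat) 0
    (fun x _ ih => Nat.lor (Nat.shiftLeft 1 (p3 (Nat.add (Nat.mul (Nat.add 1 s1) x)
      (Nat.add (Nat.mul (Nat.sub 2 s1) q) (Nat.add o o))))) ih) X
/-- data of one excluded list: offset of the segment, `s1`, carry, offset vector, excluded values -/
structure PiR where
  off : Nat
  s1 : Nat
  q : Nat
  o : Nat
  X : List Nat
noncomputable def fbs (R : List PiR) : Nat :=
  List.rec (motive := fun _ => Nat) 0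
    (fun r _ ih => Nat.lor (Nat.shiftLeft (fbm r.s1 r.q r.o r.X) r.off) ih) R
noncomputable def rmv (B F : Nat) : Nat := Nat.xor B (Nat.land B F)

/-! ## expansion of compressed tables (not trusted) -/

noncomputable def spd (A M p s : Nat) : Nat :=
  Nat.lor (Nat.land A M) (Nat.lor (Nat.shiftLeft (Nat.land (Nat.shiftRight A p) M) s)
    (Nat.shiftLeft (Nat.land (Nat.shiftRight A (Nat.add p p)) M) (Nat.add s s)))
noncomputable def bq0_4 : Nat := 1
noncomputable def mq0_4 : Nat := Nat.mul bq0_4 (Nat.sub (Nat.pow 2 81) 1)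
noncomputable def bq0_3 : Nat := Nat.lor bq0_4 (Nat.lor (Nat.shiftLeft bq0_4 1296) (Nat.shiftLeft bq0_4 2592))
noncomputable def mq0_3 : Nat := Nat.mul bq0_3 (Nat.sub (Nat.pow 2 27) 1)
noncomputable def bq0_2 : Nat := Nat.lor bq0_3 (Nat.lor (Nat.shiftLeft bq0_3 216) (Nat.shiftLeft bq0_3 432))
noncomputable def mq0_2 : Nat := Nat.mul bq0_2 (Nat.sub (Nat.pow 2 9) 1)
noncomputable def bq0_1 : Nat := Nat.lor bq0_2 (Nat.lor (Nat.shiftLeft bq0_2 36) (Nat.shiftLeft bq0_2 72))
noncomputable def mq0_1 : Nat := Nat.mul bq0_1 (Nat.sub (Nat.pow 2 3) 1)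
noncomputable def spr0 (A : Nat) : Nat := (spd (spd (spd (spd A mq0_4 81 1296) mq0_3 27 216) mq0_2 9 36) mq0_1 3 6)
noncomputable def bq1_5 : Nat := 1
noncomputable def mq1_5 : Nat := Nat.mul bq1_5 (Nat.sub (Nat.pow 2 243) 1)
noncomputable def bq1_4 : Nat := Nat.lor bq1_5 (Nat.lor (Nat.shiftLeft bq1_5 7776) (Nat.shiftLeft bq1_5 15552))
noncomputable def mq1_4 : Nat := Nat.mul bq1_4 (Nat.sub (Nat.pow 2 81) 1)
noncomputable def bq1_3 : Nat := Nat.lor bq1_4 (Nat.lor (Nat.shiftLeft bq1_4 1296) (Nat.shiftLeft bq1_4 2592))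
noncomputable def mq1_3 : Nat := Nat.mul bq1_3 (Nat.sub (Nat.pow 2 27) 1)
noncomputable def bq1_2 : Nat := Nat.lor bq1_3 (Nat.lor (Nat.shiftLeft bq1_3 216) (Nat.shiftLeft bq1_3 432))
noncomputable def mq1_2 : Nat := Nat.mul bq1_2 (Nat.sub (Nat.pow 2 9) 1)
noncomputable def bq1_1 : Nat := Nat.lor bq1_2 (Nat.lor (Nat.shiftLeft bq1_2 36) (Nat.shiftLeft bq1_2 72))
noncomputable def mq1_1 : Nat := Nat.mul bq1_1 (Nat.sub (Nat.pow 2 3) 1)
noncomputable def spr1 (A : Nat) : Nat := (spd (spd (spd (spd (spd A mq1_5 243 7776) mq1_4 81 1296) mq1_3 27 216) mq1_2 9 36) mq1_1 3 6)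
noncomputable def bq2_6 : Nat := 1
noncomputable def mq2_6 : Nat := Nat.mul bq2_6 (Nat.sub (Nat.pow 2 729) 1)
noncomputable def bq2_5 : Nat := Nat.lor bq2_6 (Nat.lor (Nat.shiftLeft bq2_6 23328) (Nat.shiftLeft bq2_6 46656))
noncomputable def mq2_5 : Nat := Nat.mul bq2_5 (Nat.sub (Nat.pow 2 243) 1)
noncomputable def bq2_4 : Nat := Nat.lor bq2_5 (Nat.lor (Nat.shiftLeft bq2_5 7776) (Nat.shiftLeft bq2_5 15552))
noncomputable def mq2_4 : Nat := Nat.mul bq2_4 (Nat.sub (Nat.pow 2 81) 1)
noncomputable def bq2_3 : Nat := Nat.lor bq2_4 (Nat.lor (Nat.shiftLeft bq2_4 1296) (Nat.shiftLeft bq2_4 2592))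
noncomputable def mq2_3 : Nat := Nat.mul bq2_3 (Nat.sub (Nat.pow 2 27) 1)
noncomputable def bq2_2 : Nat := Nat.lor bq2_3 (Nat.lor (Nat.shiftLeft bq2_3 216) (Nat.shiftLeft bq2_3 432))
noncomputable def mq2_2 : Nat := Nat.mul bq2_2 (Nat.sub (Nat.pow 2 9) 1)
noncomputable def bq2_1 : Nat := Nat.lor bq2_2 (Nat.lor (Nat.shiftLeft bq2_2 36) (Nat.shiftLeft bq2_2 72))
noncomputable def mq2_1 : Nat := Nat.mul bq2_1 (Nat.sub (Nat.pow 2 3) 1)
noncomputable def spr2 (A : Nat) : Nat := (spd (spd (spd (spd (spd (spd A mq2_6 729 23328) mq2_5 243 7776) mq2_4 81 1296) mq2_3 27 216) mq2_2 9 36) mq2_1 3 6)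
noncomputable def bq3_7 : Nat := 1
noncomputable def mq3_7 : Nat := Nat.mul bq3_7 (Nat.sub (Nat.pow 2 2187) 1)
noncomputable def bq3_6 : Nat := Nat.lor bq3_7 (Nat.lor (Nat.shiftLeft bq3_7 69984) (Nat.shiftLeft bq3_7 139968))
noncomputable def mq3_6 : Nat := Nat.mul bq3_6 (Nat.sub (Nat.pow 2 729) 1)
noncomputable def bq3_5 : Nat := Nat.lor bq3_6 (Nat.lor (Nat.shiftLeft bq3_6 23328) (Nat.shiftLeft bq3_6 46656))
noncomputable def mq3_5 : Nat := Nat.mul bq3_5 (Nat.sub (Nat.pow 2 243) 1)
noncomputable def bq3_4 : Nat := Nat.lor bq3_5 (Nat.lor (Nat.shiftLeft bq3_5 7776) (Nat.shiftLeft bq3_5 15552))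
noncomputable def mq3_4 : Nat := Nat.mul bq3_4 (Nat.sub (Nat.pow 2 81) 1)
noncomputable def bq3_3 : Nat := Nat.lor bq3_4 (Nat.lor (Nat.shiftLeft bq3_4 1296) (Nat.shiftLeft bq3_4 2592))
noncomputable def mq3_3 : Nat := Nat.mul bq3_3 (Nat.sub (Nat.pow 2 27) 1)
noncomputable def bq3_2 : Nat := Nat.lor bq3_3 (Nat.lor (Nat.shiftLeft bq3_3 216) (Nat.shiftLeft bq3_3 432))
noncomputable def mq3_2 : Nat := Nat.mul bq3_2 (Nat.sub (Nat.pow 2 9) 1)
noncomputable def bq3_1 : Nat := Nat.lor bq3_2 (Nat.lor (Nat.shiftLeft bq3_2 36) (Nat.shiftLeft bq3_2 72))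
noncomputable def mq3_1 : Nat := Nat.mul bq3_1 (Nat.sub (Nat.pow 2 3) 1)
noncomputable def spr3 (A : Nat) : Nat := (spd (spd (spd (spd (spd (spd (spd A mq3_7 2187 69984) mq3_6 729 23328) mq3_5 243 7776) mq3_4 81 1296) mq3_3 27 216) mq3_2 9 36) mq3_1 3 6)
noncomputable def bq4_8 : Nat := 1
noncomputable def mq4_8 : Nat := Nat.mul bq4_8 (Nat.sub (Nat.pow 2 6561) 1)
noncomputable def bq4_7 : Nat := Nat.lor bq4_8 (Nat.lor (Nat.shiftLeft bq4_8 209952) (Nat.shiftLeft bq4_8 419904))
noncomputable def mq4_7 : Nat := Nat.mul bq4_7 (Nat.sub (Nat.pow 2 2187) 1)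
noncomputable def bq4_6 : Nat := Nat.lor bq4_7 (Nat.lor (Nat.shiftLeft bq4_7 69984) (Nat.shiftLeft bq4_7 139968))
noncomputable def mq4_6 : Nat := Nat.mul bq4_6 (Nat.sub (Nat.pow 2 729) 1)
noncomputable def bq4_5 : Nat := Nat.lor bq4_6 (Nat.lor (Nat.shiftLeft bq4_6 23328) (Nat.shiftLeft bq4_6 46656))
noncomputable def mq4_5 : Nat := Nat.mul bq4_5 (Nat.sub (Nat.pow 2 243) 1)
noncomputable def bq4_4 : Nat := Nat.lor bq4_5 (Nat.lor (Nat.shiftLeft bq4_5 7776) (Nat.shiftLeft bq4_5 15552))
noncomputable def mq4_4 : Nat := Nat.mul bq4_4 (Nat.sub (Nat.pow 2 81) 1)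
noncomputable def bq4_3 : Nat := Nat.lor bq4_4 (Nat.lor (Nat.shiftLeft bq4_4 1296) (Nat.shiftLeft bq4_4 2592))
noncomputable def mq4_3 : Nat := Nat.mul bq4_3 (Nat.sub (Nat.pow 2 27) 1)
noncomputable def bq4_2 : Nat := Nat.lor bq4_3 (Nat.lor (Nat.shiftLeft bq4_3 216) (Nat.shiftLeft bq4_3 432))
noncomputable def mq4_2 : Nat := Nat.mul bq4_2 (Nat.sub (Nat.pow 2 9) 1)
noncomputable def bq4_1 : Nat := Nat.lor bq4_2 (Nat.lor (Nat.shiftLeft bq4_2 36) (Nat.shiftLeft bq4_2 72))
noncomputable def mq4_1 : Nat := Nat.mul bq4_1 (Nat.sub (Nat.pow 2 3) 1)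
noncomputable def spr4 (A : Nat) : Nat := (spd (spd (spd (spd (spd (spd (spd (spd A mq4_8 6561 209952) mq4_7 2187 69984) mq4_6 729 23328) mq4_5 243 7776) mq4_4 81 1296) mq4_3 27 216) mq4_2 9 36) mq4_1 3 6)
noncomputable def bq5_9 : Nat := 1
noncomputable def mq5_9 : Nat := Nat.mul bq5_9 (Nat.sub (Nat.pow 2 19683) 1)
noncomputable def bq5_8 : Nat := Nat.lor bq5_9 (Nat.lor (Nat.shiftLeft bq5_9 629856) (Nat.shiftLeft bq5_9 1259712))
noncomputable def mq5_8 : Nat := Nat.mul bq5_8 (Nat.sub (Nat.pow 2 6561) 1)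
noncomputable def bq5_7 : Nat := Nat.lor bq5_8 (Nat.lor (Nat.shiftLeft bq5_8 209952) (Nat.shiftLeft bq5_8 419904))
noncomputable def mq5_7 : Nat := Nat.mul bq5_7 (Nat.sub (Nat.pow 2 2187) 1)
noncomputable def bq5_6 : Nat := Nat.lor bq5_7 (Nat.lor (Nat.shiftLeft bq5_7 69984) (Nat.shiftLeft bq5_7 139968))
noncomputable def mq5_6 : Nat := Nat.mul bq5_6 (Nat.sub (Nat.pow 2 729) 1)
noncomputable def bq5_5 : Nat := Nat.lor bq5_6 (Nat.lor (Nat.shiftLeft bq5_6 23328) (Nat.shiftLeft bq5_6 46656))
noncomputable def mq5_5 : Nat := Nat.mul bq5_5 (Nat.sub (Nat.pow 2 243) 1)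
noncomputable def bq5_4 : Nat := Nat.lor bq5_5 (Nat.lor (Nat.shiftLeft bq5_5 7776) (Nat.shiftLeft bq5_5 15552))
noncomputable def mq5_4 : Nat := Nat.mul bq5_4 (Nat.sub (Nat.pow 2 81) 1)
noncomputable def bq5_3 : Nat := Nat.lor bq5_4 (Nat.lor (Nat.shiftLeft bq5_4 1296) (Nat.shiftLeft bq5_4 2592))
noncomputable def mq5_3 : Nat := Nat.mul bq5_3 (Nat.sub (Nat.pow 2 27) 1)
noncomputable def bq5_2 : Nat := Nat.lor bq5_3 (Nat.lor (Nat.shiftLeft bq5_3 216) (Nat.shiftLeft bq5_3 432))
noncomputable def mq5_2 : Nat := Nat.mul bq5_2 (Nat.sub (Nat.pow 2 9) 1)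
noncomputable def bq5_1 : Nat := Nat.lor bq5_2 (Nat.lor (Nat.shiftLeft bq5_2 36) (Nat.shiftLeft bq5_2 72))
noncomputable def mq5_1 : Nat := Nat.mul bq5_1 (Nat.sub (Nat.pow 2 3) 1)
noncomputable def spr5 (A : Nat) : Nat := (spd (spd (spd (spd (spd (spd (spd (spd (spd A mq5_9 19683 629856) mq5_8 6561 209952) mq5_7 2187 69984) mq5_6 729 23328) mq5_5 243 7776) mq5_4 81 1296) mq5_3 27 216) mq5_2 9 36) mq5_1 3 6)

end Pool.Agent.T2H98.EGZ.K
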