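import Pool.Agent.T2H98.EGZ.Sem

/-! # Package E, part: soundness of the loop over the set bits -/

set_option autoImplicit false

namespace Pool.Agent.T2H98.EGZ

open K

theorem lk_pow : ∀ a < 3, ∀ b < 3, ∀ c < 3, ∀ d < 3, ∀ e < 3,
    lk (2 ^ (a + 6 * b + 36 * c + 216 * d + 1296 * e)) =
      a + 6 * b + 36 * c + 216 * d + 1296 * e := by
  decide +kernel

theorem pos_eq (y : Fin 5 → ZMod 3) :
    pos y = (y 0).val + 6 * (y 1).val + 36 * (y 2).val + 216 * (y 3).val + 1296 * (y 4).val := by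
  unfold pos
  rw [Fin.sum_univ_five]
  simp only [Fin.val_zero, Fin.val_one, Fin.val_two]
  have h3 : ((3 : Fin 5) : ℕ) = 3 := rfl
  have h4 : ((4 : Fin 5) : ℕ) = 4 := rfl
  rw [h3, h4]
  ring

theorem lk_pos (y : Fin 5 → ZMod 3) : lk (2 ^ pos y) = pos y := by
  rw [pos_eq]
  exact lk_pow _ (ZMod.val_lt _) _ (ZMod.val_lt _) _ (ZMod.val_lt _) _ (ZMod.val_lt _) _
    (ZMod.val_lt _)

/-- removing the lowest set bit -/
theorem low_bit (n : ℕ) : ∃ k, (n + 1) - ((n + 1) &&& n) = 2 ^ k ∧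
    ∀ j, j ≠ k → ((n + 1) &&& n).testBit j = (n + 1).testBit j := by
  obtain ⟨k, m, ⟨q, hq⟩, hm⟩ := Nat.exists_eq_two_pow_mul_odd (n := n + 1) (by omega)
  have hp : 0 < 2 ^ k := by positivity
  have e1 : n + 1 = 2 ^ (k + 1) * q + 2 ^ k := by rw [hm, hq]; ring
  have e2 : n = 2 ^ (k + 1) * q + (2 ^ k - 1) := by omega
  have hlt1 : 2 ^ k < 2 ^ (k + 1) := Nat.pow_lt_pow_right (by norm_num) (by omega)
  have hlt2 : 2 ^ k - 1 < 2 ^ (k + 1) := by omega
  have hand : (n + 1) &&& n = 2 ^ (k + 1) * q := by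
    apply Nat.eq_of_testBit_eq
    intro i
    rw [Nat.testBit_and]
    conv_lhs => rw [e1]
    conv_lhs => rhs; rw [e2]
    rw [Nat.testBit_two_pow_mul_add _ hlt1, Nat.testBit_two_pow_mul_add _ hlt2,
      Nat.testBit_two_pow_mul]
    by_cases hi : i < k + 1
    · rw [if_pos hi, if_pos hi]
      have h0 : decide (i ≥ k + 1) = false := by simp; omega
      rw [h0]
      by_cases hik : i = k
      · subst hik
        have : (2 ^ i - 1).testBit i = false := Nat.testBit_lt_two_pow (by omega)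
        rw [this]; simp
      · have : (2 ^ k).testBit i = false := by
          rw [Nat.testBit_two_pow]; simp; omega
        rw [this]; simp
    · rw [if_neg hi, if_neg hi]
      have h0 : decide (i ≥ k + 1) = true := by simp; omega
      rw [h0]; simp
  refine ⟨k, ?_, ?_⟩
  · rw [hand]; omega
  · intro j hj
    rw [hand]
    conv_rhs => rw [e1]
    rw [Nat.testBit_two_pow_mul_add _ hlt1, Nat.testBit_two_pow_mul]
    by_cases hi : j < k + 1
    · rw [if_pos hi]
      have h0 : decide (j ≥ k + 1) = false := by simp; omega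
      rw [h0, Nat.testBit_two_pow]; simp; omega
    · rw [if_neg hi]
      have h0 : decide (j ≥ k + 1) = true := by simp; omega
      rw [h0]; simp

/-- property of a loop body -/
def LP (f nx : ℕ → Bool) : Prop :=
  ∀ M, nx M = true → ∀ y : Fin 5 → ZMod 3, M.testBit (pos y) = true → f (pos y) = true

theorem LP_it {f nx : ℕ → Bool} (h : LP f nx) : LP f (it f nx) := by
  intro M hM y hy
  cases M with
  | zero => simp at hy
  | succ n =>
    have hM' : it3 f nx (Nat.land (n + 1) n) (n + 1) = true := hM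
    obtain ⟨k, hk, hj⟩ := low_bit n
    have hM2 : it3 f nx ((n + 1) &&& n) (n + 1) = true := hM'
    unfold it3 at hM2
    have hsub : Nat.sub (n + 1) ((n + 1) &&& n) = 2 ^ k := hk
    rw [hsub] at hM2
    cases hf : f (lk (2 ^ k)) with
    | false => rw [hf] at hM2; exact absurd hM2 (by simp)
    | true =>
      rw [hf] at hM2
      have hM3 : nx ((n + 1) &&& n) = true := hM2
      by_cases hyk : pos y = k
      · rw [← hyk, lk_pos] at hf
        exact hf
      · exact h _ hM3 y (by rw [hj _ hyk]; exact hy)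

theorem LP_fl (f : ℕ → Bool) : LP f fl := by
  intro M hM
  exact absurd hM (by simp [fl])

theorem LP_l2 {f nx : ℕ → Bool} (h : LP f nx) : LP f (l2 f nx) := LP_it (LP_it h)
theorem LP_l4 {f nx : ℕ → Bool} (h : LP f nx) : LP f (l4 f nx) := LP_l2 (LP_l2 h)
theorem LP_l8 {f nx : ℕ → Bool} (h : LP f nx) : LP f (l8 f nx) := LP_l4 (LP_l4 h)
theorem LP_l16 {f nx : ℕ → Bool} (h : LP f nx) : LP f (l16 f nx) := LP_l8 (LP_l8 h)
theorem LP_l32 {f nx : ℕ → Bool} (h : LP f nx) : LP f (l32 f nx) := LP_l16 (LP_l16 h)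
theorem LP_l64 {f nx : ℕ → Bool} (h : LP f nx) : LP f (l64 f nx) := LP_l32 (LP_l32 h)
theorem LP_l128 {f nx : ℕ → Bool} (h : LP f nx) : LP f (l128 f nx) := LP_l64 (LP_l64 h)

theorem LP_loop (f : ℕ → Bool) : LP f (loop f) :=
  LP_it (LP_l2 (LP_l4 (LP_l8 (LP_l16 (LP_l32 (LP_l64 (LP_l128 (LP_fl f))))))))

theorem loop_ok {f : ℕ → Bool} {M : ℕ} (h : loop f M = true) {y : Fin 5 → ZMod 3}
    (hy : M.testBit (pos y) = true) : f (pos y) = true :=
  LP_loop f M h y hy

end Pool.Agent.T2H98.EGZ
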