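import Pool.Agent.T2H98.EGZ.Sem
import Pool.Agent.T2H98.EGZ.EngLoop

/-! # Package E, part: soundness of the merging of packs -/

set_option autoImplicit false

namespace Pool.Agent.T2H98.EGZ

open K

namespace Mg

theorem add_or : ∀ a b : ℕ, a &&& b = 0 → a + b = a ||| b := by
  intro a
  induction a using Nat.strong_induction_on with
  | _ a ih =>
    intro b h
    rcases Nat.eq_zero_or_pos a with rfl | ha
    · simp
    · have h2 : a / 2 &&& b / 2 = 0 := by rw [← Nat.and_div_two, h]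
      have h3 := ih (a / 2) (Nat.div_lt_self ha (by norm_num)) (b / 2) h2
      have h4 : (a ||| b) / 2 = a / 2 ||| b / 2 := Nat.or_div_two
      have h5 : ¬ (a % 2 = 1 ∧ b % 2 = 1) := by
        rw [← Nat.and_mod_two_eq_one, h]; simp
      have h6 : (a ||| b) % 2 = 1 ↔ a % 2 = 1 ∨ b % 2 = 1 := Nat.or_mod_two_eq_one
      rw [← h3] at h4
      have h7 : (a ||| b) = 2 * ((a ||| b) / 2) + (a ||| b) % 2 := by omega
      rcases Nat.mod_two_eq_zero_or_one (a ||| b) with h8 | h8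
      · have h9 : ¬ (a % 2 = 1 ∨ b % 2 = 1) := by rw [← h6, h8]; simp
        omega
      · have h9 := h6.1 h8
        omega

/-- one doubling step -/
theorem step {s E : ℕ} {P Q : ℕ → Prop} (hE : ∀ i, E.testBit i = true → P i)
    (hd : ∀ i, P i → ¬ P (i + s)) (h1 : ∀ i, P i → Q i) (h2 : ∀ i, P i → Q (i + s)) :
    E * (1 + 2 ^ s) = E ||| (E <<< s) ∧
    (∀ i, (E ||| (E <<< s)).testBit i = true → Q i) ∧
    (∀ i, E.testBit i = true → (E ||| (E <<< s)).testBit i = true ∧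
      (E ||| (E <<< s)).testBit (i + s) = true) := by
  refine ⟨?_, ?_, ?_⟩
  · rw [mul_add, mul_one, ← Nat.shiftLeft_eq]
    apply add_or
    apply Nat.eq_of_testBit_eq
    intro i
    rw [Nat.testBit_and, Nat.testBit_shiftLeft, Nat.zero_testBit]
    by_contra hcon
    rw [Bool.not_eq_false, Bool.and_eq_true, Bool.and_eq_true, decide_eq_true_eq] at hcon
    obtain ⟨a, b, c⟩ := hcon
    have h3 := hE _ a
    have h4 := hE _ c
    apply hd _ h4
    rwa [Nat.sub_add_cancel b]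
  · intro i hi
    rw [Nat.testBit_or, Nat.testBit_shiftLeft, Bool.or_eq_true, Bool.and_eq_true,
      decide_eq_true_eq] at hi
    rcases hi with hi | ⟨a, b⟩
    · exact h1 _ (hE _ hi)
    · have := h2 _ (hE _ b)
      rwa [Nat.sub_add_cancel a] at this
  · intro i hi
    rw [Nat.testBit_or, Nat.testBit_or, Nat.testBit_shiftLeft, Nat.testBit_shiftLeft]
    simp [hi]

/-- positions with bounded digits -/
def RR (N b0 b1 b2 b3 b4 i : ℕ) : Prop :=
  ∃ c x0 x1 x2 x3 x4 : ℕ, i = 7776 * c + x0 + 6 * x1 + 36 * x2 + 216 * x3 + 1296 * x4 ∧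
    c < N ∧ x0 ≤ b0 ∧ x1 ≤ b1 ∧ x2 ≤ b2 ∧ x3 ≤ b3 ∧ x4 ≤ b4

theorem ext_ok {T N : ℕ} (hT : ∀ i, T.testBit i = true → RR N 2 2 2 2 2 i) :
    (∀ i, (ext T).testBit i = true → RR N 5 5 5 5 5 i) ∧
    (∀ i a0 a1 a2 a3 a4, T.testBit i = true → a0 ≤ 1 → a1 ≤ 1 → a2 ≤ 1 → a3 ≤ 1 → a4 ≤ 1 →
      (ext T).testBit (i + 3 * a0 + 18 * a1 + 108 * a2 + 648 * a3 + 3888 * a4) = true) := by
  obtain ⟨e0, s0, m0⟩ := step (s := 3) (Q := RR N 5 2 2 2 2) hT
    (by
      rintro i ⟨c, x0, x1, x2, x3, x4, h, -, h0, -⟩ ⟨c', y0, y1, y2, y3, y4, h', -, h0', -⟩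
      omega)
    (by
      rintro i ⟨c, x0, x1, x2, x3, x4, h, hc, h0, h1, h2, h3, h4⟩
      exact ⟨c, x0, x1, x2, x3, x4, h, hc, by omega, h1, h2, h3, h4⟩)
    (by
      rintro i ⟨c, x0, x1, x2, x3, x4, h, hc, h0, h1, h2, h3, h4⟩
      exact ⟨c, x0 + 3, x1, x2, x3, x4, by omega, hc, by omega, h1, h2, h3, h4⟩)
  obtain ⟨e1, s1, m1⟩ := step (s := 18) (Q := RR N 5 5 2 2 2) s0
    (by
      rintro i ⟨c, x0, x1, x2, x3, x4, h, -, h0, h1, -⟩
        ⟨c', y0, y1, y2, y3, y4, h', -, h0', h1', -⟩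
      have a1 : i / 6 % 6 = x1 := by omega
      have a2 : (i + 18) / 6 % 6 = y1 := by omega
      omega)
    (by
      rintro i ⟨c, x0, x1, x2, x3, x4, h, hc, h0, h1, h2, h3, h4⟩
      exact ⟨c, x0, x1, x2, x3, x4, h, hc, h0, by omega, h2, h3, h4⟩)
    (by
      rintro i ⟨c, x0, x1, x2, x3, x4, h, hc, h0, h1, h2, h3, h4⟩
      exact ⟨c, x0, x1 + 3, x2, x3, x4, by omega, hc, h0, by omega, h2, h3, h4⟩)
  obtain ⟨e2, s2, m2⟩ := step (s := 108) (Q := RR N 5 5 5 2 2) s1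
    (by
      rintro i ⟨c, x0, x1, x2, x3, x4, h, -, h0, h1, h2, -⟩
        ⟨c', y0, y1, y2, y3, y4, h', -, h0', h1', h2', -⟩
      have a1 : i / 36 % 6 = x2 := by omega
      have a2 : (i + 108) / 36 % 6 = y2 := by omega
      omega)
    (by
      rintro i ⟨c, x0, x1, x2, x3, x4, h, hc, h0, h1, h2, h3, h4⟩
      exact ⟨c, x0, x1, x2, x3, x4, h, hc, h0, h1, by omega, h3, h4⟩)
    (by
      rintro i ⟨c, x0, x1, x2, x3, x4, h, hc, h0, h1, h2, h3, h4⟩
      exact ⟨c, x0, x1, x2 + 3, x3, x4, by omega, hc, h0, h1, by omega, h3, h4⟩)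
  obtain ⟨e3', s3, m3⟩ := step (s := 648) (Q := RR N 5 5 5 5 2) s2
    (by
      rintro i ⟨c, x0, x1, x2, x3, x4, h, -, h0, h1, h2, h3, -⟩
        ⟨c', y0, y1, y2, y3, y4, h', -, h0', h1', h2', h3', -⟩
      have a1 : i / 216 % 6 = x3 := by omega
      have a2 : (i + 648) / 216 % 6 = y3 := by omega
      omega)
    (by
      rintro i ⟨c, x0, x1, x2, x3, x4, h, hc, h0, h1, h2, h3, h4⟩
      exact ⟨c, x0, x1, x2, x3, x4, h, hc, h0, h1, h2, by omega, h4⟩)
    (by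
      rintro i ⟨c, x0, x1, x2, x3, x4, h, hc, h0, h1, h2, h3, h4⟩
      exact ⟨c, x0, x1, x2, x3 + 3, x4, by omega, hc, h0, h1, h2, by omega, h4⟩)
  obtain ⟨-, s4, m4⟩ := step (s := 3888) (Q := RR N 5 5 5 5 5) s3
    (by
      rintro i ⟨c, x0, x1, x2, x3, x4, h, -, h0, h1, h2, h3, h4⟩
        ⟨c', y0, y1, y2, y3, y4, h', -, h0', h1', h2', h3', h4'⟩
      have a1 : i / 1296 % 6 = x4 := by omega
      have a2 : (i + 3888) / 1296 % 6 = y4 := by omega
      omega)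
    (by
      rintro i ⟨c, x0, x1, x2, x3, x4, h, hc, h0, h1, h2, h3, h4⟩
      exact ⟨c, x0, x1, x2, x3, x4, h, hc, h0, h1, h2, h3, by omega⟩)
    (by
      rintro i ⟨c, x0, x1, x2, x3, x4, h, hc, h0, h1, h2, h3, h4⟩
      exact ⟨c, x0, x1, x2, x3, x4 + 3, by omega, hc, h0, h1, h2, h3, by omega⟩)
  rw [← e0] at e1 s1 m1 m0
  rw [← e0, ← e1] at e2 s2 m2
  rw [← e1] at m1
  rw [← e0, ← e1, ← e2] at e3' s3 m3
  rw [← e2] at m2
  rw [← e3'] at m3
  rw [← e0, ← e1, ← e2, ← e3'] at s4 m4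
  have hX : ext T = T * (1 + 2 ^ 3) * (1 + 2 ^ 18) * (1 + 2 ^ 108) * (1 + 2 ^ 648) |||
      (T * (1 + 2 ^ 3) * (1 + 2 ^ 18) * (1 + 2 ^ 108) * (1 + 2 ^ 648)) <<< 3888 := by
    have h1 : ext T = e3 (T * ((1 + 2 ^ 3) * (1 + 2 ^ 18) * (1 + 2 ^ 108) * (1 + 2 ^ 648))) := by
      unfold ext
      refine congrArg e3 ?_
      refine congrArg (fun z => Nat.mul T z) ?_
      decide +kernel
    rw [h1]
    have h2 : ∀ b, e3 b = b ||| (b <<< 3888) := fun b => rfl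
    rw [h2]
    simp only [mul_assoc]
  rw [hX]
  refine ⟨s4, ?_⟩
  intro i a0 a1 a2 a3 a4 hi h0 h1 h2 h3 h4
  have k0 : (T * (1 + 2 ^ 3)).testBit (i + 3 * a0) = true := by
    interval_cases a0
    · exact (m0 _ hi).1
    · exact (m0 _ hi).2
  have k1 : (T * (1 + 2 ^ 3) * (1 + 2 ^ 18)).testBit (i + 3 * a0 + 18 * a1) = true := by
    interval_cases a1
    · exact (m1 _ k0).1
    · exact (m1 _ k0).2
  have k2 : (T * (1 + 2 ^ 3) * (1 + 2 ^ 18) * (1 + 2 ^ 108)).testBit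
      (i + 3 * a0 + 18 * a1 + 108 * a2) = true := by
    interval_cases a2
    · exact (m2 _ k1).1
    · exact (m2 _ k1).2
  have k3 : (T * (1 + 2 ^ 3) * (1 + 2 ^ 18) * (1 + 2 ^ 108) * (1 + 2 ^ 648)).testBit
      (i + 3 * a0 + 18 * a1 + 108 * a2 + 648 * a3) = true := by
    interval_cases a3
    · exact (m3 _ k2).1
    · exact (m3 _ k2).2
  interval_cases a4
  · exact (m4 _ k3).1
  · exact (m4 _ k3).2

theorem val_add3 : ∀ u v : ZMod 3, ∃ a : ℕ, a ≤ 1 ∧ u.val + v.val = (u + v).val + 3 * a := by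
  intro u v
  have : ∀ u v : ZMod 3, (u.val + v.val = (u + v).val + 3 * 0) ∨
      (u.val + v.val = (u + v).val + 3 * 1) := by decide
  rcases this u v with h | h
  · exact ⟨0, by norm_num, h⟩
  · exact ⟨1, le_rfl, h⟩

theorem val_add3' : ∀ u v : ZMod 3, ∃ a : ℕ, a ≤ 1 ∧
    u.val + (2 - v.val) = (u + 2 * v + 2).val + 3 * a := by
  intro u v
  have : ∀ u v : ZMod 3, (u.val + (2 - v.val) = (u + 2 * v + 2).val + 3 * 0) ∨
      (u.val + (2 - v.val) = (u + 2 * v + 2).val + 3 * 1) := by decide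
  rcases this u v with h | h
  · exact ⟨0, by norm_num, h⟩
  · exact ⟨1, le_rfl, h⟩

theorem val_le (u : ZMod 3) : u.val ≤ 2 := by
  have := ZMod.val_lt u
  omega

theorem base {T N P off : ℕ} {y w : Fin 5 → ZMod 3}
    (hT : ∀ i, T.testBit i = true → RR N 2 2 2 2 2 i)
    (h0 : T.testBit (off + pos w) = true) (h1 : T.testBit (off + P + pos (w + y)) = true)
    (h2 : T.testBit (off + 2 * P + pos (w + (2 : ZMod 3) • y + 2)) = true) :
    (mg T (P + pos y) (2 * P + 3110 - pos y)).testBit (off + pos w) = true := by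
  have hm : mg T (P + pos y) (2 * P + 3110 - pos y) =
      T &&& ((ext T >>> (P + pos y)) &&& (ext T >>> (2 * P + 3110 - pos y))) := rfl
  rw [hm, Nat.testBit_and, Nat.testBit_and, Nat.testBit_shiftRight, Nat.testBit_shiftRight, h0,
    Bool.true_and, Bool.and_eq_true]
  obtain ⟨-, hE⟩ := ext_ok hT
  constructor
  · obtain ⟨a0, b0, c0⟩ := val_add3 (w 0) (y 0)
    obtain ⟨a1, b1, c1⟩ := val_add3 (w 1) (y 1)
    obtain ⟨a2, b2, c2⟩ := val_add3 (w 2) (y 2)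
    obtain ⟨a3, b3, c3⟩ := val_add3 (w 3) (y 3)
    obtain ⟨a4, b4, c4⟩ := val_add3 (w 4) (y 4)
    have := hE _ a0 a1 a2 a3 a4 h1 b0 b1 b2 b3 b4
    rw [pos_eq] at this
    simp only [Pi.add_apply] at this
    rw [pos_eq, pos_eq]
    convert this using 2
    omega
  · obtain ⟨a0, b0, c0⟩ := val_add3' (w 0) (y 0)
    obtain ⟨a1, b1, c1⟩ := val_add3' (w 1) (y 1)
    obtain ⟨a2, b2, c2⟩ := val_add3' (w 2) (y 2)
    obtain ⟨a3, b3, c3⟩ := val_add3' (w 3) (y 3)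
    obtain ⟨a4, b4, c4⟩ := val_add3' (w 4) (y 4)
    have := hE _ a0 a1 a2 a3 a4 h2 b0 b1 b2 b3 b4
    rw [pos_eq] at this
    simp only [Pi.add_apply, Pi.smul_apply, smul_eq_mul, Pi.ofNat_apply] at this
    rw [pos_eq, pos_eq]
    have l0 := val_le (y 0)
    have l1 := val_le (y 1)
    have l2 := val_le (y 2)
    have l3 := val_le (y 3)
    have l4 := val_le (y 4)
    convert this using 2
    omega

theorem main {T N P : ℕ} {y : Fin 5 → ZMod 3}
    (hT : ∀ i, T.testBit i = true → RR N 2 2 2 2 2 i) :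
    ∀ (ys : List (Fin 5 → ZMod 3)) (w : Fin 5 → ZMod 3) (off : ℕ),
    POK T ys w off → POK T ys (w + y) (off + P) →
    POK T ys (w + (2 : ZMod 3) • y + 2) (off + 2 * P) →
    POK (mg T (P + pos y) (2 * P + 3110 - pos y)) ys w off := by
  intro ys
  induction ys with
  | nil =>
    intro w off h0 h1 h2
    exact base hT h0 h1 h2
  | cons z zs ih =>
    intro w off h0 h1 h2
    obtain ⟨a0, a1, a2⟩ := h0
    obtain ⟨b0, b1, b2⟩ := h1
    obtain ⟨c0, c1, c2⟩ := h2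
    refine ⟨ih _ _ a0 b0 c0, ih _ _ a1 ?_ ?_, ih _ _ a2 ?_ ?_⟩
    · rw [add_right_comm w z y, add_right_comm off _ P]
      exact b1
    · rw [show w + z + (2 : ZMod 3) • y + 2 = w + (2 : ZMod 3) • y + 2 + z by abel,
        add_right_comm off _ (2 * P)]
      exact c1
    · rw [show w + (2 : ZMod 3) • z + 2 + y = w + y + (2 : ZMod 3) • z + 2 by abel,
        add_right_comm off _ P]
      exact b2
    · rw [show w + (2 : ZMod 3) • z + 2 + (2 : ZMod 3) • y + 2 =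
        w + (2 : ZMod 3) • y + 2 + (2 : ZMod 3) • z + 2 by abel,
        add_right_comm off _ (2 * P)]
      exact c2

end Mg

open Mg in
/-- merging: the first pending variable gets its value -/
theorem mg_ok {T : ℕ} {y : Fin 5 → ZMod 3} {ys : List (Fin 5 → ZMod 3)} {w : Fin 5 → ZMod 3}
    (h : POK T (y :: ys) w 0) (hw : Wf T (ys.length + 1)) :
    POK (mg T (7776 * 3 ^ ys.length + pos y) (2 * (7776 * 3 ^ ys.length) + 3110 - pos y)) ys w 0 ∧
    Wf (mg T (7776 * 3 ^ ys.length + pos y) (2 * (7776 * 3 ^ ys.length) + 3110 - pos y))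
      ys.length := by
  have hT : ∀ i, T.testBit i = true → RR (3 ^ (ys.length + 1)) 2 2 2 2 2 i := by
    intro i hi
    obtain ⟨c, hc, w', e⟩ := hw i hi
    rw [pos_eq] at e
    exact ⟨c, _, _, _, _, _, by rw [e]; ring, hc, val_le (w' 0), val_le (w' 1), val_le (w' 2),
      val_le (w' 3), val_le (w' 4)⟩
  refine ⟨main hT ys w 0 h.1 h.2.1 h.2.2, ?_⟩
  intro i hi
  have hm : mg T (7776 * 3 ^ ys.length + pos y) (2 * (7776 * 3 ^ ys.length) + 3110 - pos y) =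
      T &&& ((ext T >>> (7776 * 3 ^ ys.length + pos y)) &&&
        (ext T >>> (2 * (7776 * 3 ^ ys.length) + 3110 - pos y))) := rfl
  rw [hm, Nat.testBit_and, Nat.testBit_and, Nat.testBit_shiftRight, Nat.testBit_shiftRight,
    Bool.and_eq_true, Bool.and_eq_true] at hi
  obtain ⟨h1, -, h3⟩ := hi
  obtain ⟨c, hc, w', e⟩ := hw i h1
  refine ⟨c, ?_, w', e⟩
  obtain ⟨c', x0, x1, x2, x3, x4, h4, h5, h6, h7, h8, h9, h10⟩ := (ext_ok hT).1 _ h3
  have hy : pos y ≤ 3110 := by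
    rw [pos_eq]
    have l0 := val_le (y 0)
    have l1 := val_le (y 1)
    have l2 := val_le (y 2)
    have l3 := val_le (y 3)
    have l4 := val_le (y 4)
    omega
  rw [pow_succ] at h5
  generalize 3 ^ ys.length = q at *
  omega

end Pool.Agent.T2H98.EGZ
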