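import Pool.Agent.T2H98.EGZ.Sem
import Pool.Agent.T2H98.EGZ.EngLoop
import Pool.Agent.T2H98.EGZ.EngMg

/-! # Package E: soundness of the main chain -/

set_option autoImplicit false

namespace Pool.Agent.T2H98.EGZ

open K

/-- a pack with its well-formedness -/
def PW (T : ℕ) (ys : List (Fin 5 → ZMod 3)) (w : Fin 5 → ZMod 3) : Prop :=
  POK T ys w 0 ∧ Wf T ys.length

theorem PW_mg0 {T : ℕ} {y : Fin 5 → ZMod 3} {w : Fin 5 → ZMod 3} (h : PW T [y] w) :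
    PW (mg T (Nat.add 7776 (pos y)) (Nat.sub 18662 (pos y))) [] w := by
  have := mg_ok h.1 h.2
  simpa [PW] using this

theorem PW_mg1 {T : ℕ} {y y2 : Fin 5 → ZMod 3} {w : Fin 5 → ZMod 3} (h : PW T [y, y2] w) :
    PW (mg T (Nat.add 23328 (pos y)) (Nat.sub 49766 (pos y))) [y2] w := by
  have := mg_ok h.1 h.2
  simpa [PW] using this

theorem PW_mg2 {T : ℕ} {y y2 y3 : Fin 5 → ZMod 3} {w : Fin 5 → ZMod 3}
    (h : PW T [y, y2, y3] w) :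
    PW (mg T (Nat.add 69984 (pos y)) (Nat.sub 143078 (pos y))) [y2, y3] w := by
  have := mg_ok h.1 h.2
  simpa [PW] using this

theorem PW_mg3 {T : ℕ} {y y2 y3 y4 : Fin 5 → ZMod 3} {w : Fin 5 → ZMod 3}
    (h : PW T [y, y2, y3, y4] w) :
    PW (mg T (Nat.add 209952 (pos y)) (Nat.sub 423014 (pos y))) [y2, y3, y4] w := by
  have := mg_ok h.1 h.2
  simpa [PW] using this

theorem PW_mg4 {T : ℕ} {y y2 y3 y4 y5 : Fin 5 → ZMod 3} {w : Fin 5 → ZMod 3}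
    (h : PW T [y, y2, y3, y4, y5] w) :
    PW (mg T (Nat.add 629856 (pos y)) (Nat.sub 1262822 (pos y))) [y2, y3, y4, y5] w := by
  have := mg_ok h.1 h.2
  simpa [PW] using this

theorem PW_bit {T : ℕ} {w : Fin 5 → ZMod 3} (h : PW T [] w) : T.testBit (pos w) = true := by
  have := h.1
  simpa [POK] using this

/-- one test -/
theorem c4_ok {T : ℕ} {rest : Nat → Nat → Nat → Nat → Bool} {y4 y5 w : Fin 5 → ZMod 3}
    (hT : PW T [y4, y5] w)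
    (h : c4 T rest (Nat.add 23328 (pos y4)) (Nat.sub 49766 (pos y4)) (Nat.add 7776 (pos y5))
      (Nat.sub 18662 (pos y5)) = true) :
    rest (Nat.add 23328 (pos y4)) (Nat.sub 49766 (pos y4)) (Nat.add 7776 (pos y5))
      (Nat.sub 18662 (pos y5)) = true := by
  have h1 := PW_bit (PW_mg0 (PW_mg1 hT))
  unfold c4 at h
  cases hm : mg (mg T (Nat.add 23328 (pos y4)) (Nat.sub 49766 (pos y4)))
      (Nat.add 7776 (pos y5)) (Nat.sub 18662 (pos y5)) with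
  | zero =>
    rw [hm] at h1
    simp at h1
  | succ n =>
    rw [hm] at h
    exact h

theorem f4_ok {T5 : ℕ} {C : Nat → Nat → Nat → Nat → Bool} {y4 y5 : Fin 5 → ZMod 3}
    (h5 : PW T5 [y4] y5) (h : f4 T5 C (pos y4) = true) :
    C (Nat.add 23328 (pos y4)) (Nat.sub 49766 (pos y4)) (Nat.add 7776 (pos y5))
      (Nat.sub 18662 (pos y5)) = true := by
  unfold f4 at h
  have := loop_ok h (PW_bit (PW_mg0 h5))
  exact this

theorem chain_ok (TL : ℕ → ℕ → ℕ → TL7) {y1 y2 y3 y4 y5 z1 z2 z3 z4 z5 z6 z7 : Fin 5 → ZMod 3}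
    {M T2 T3 T4 T5 R1 R2 R3 R4 R5 R6 R7 : ℕ} (hM : M.testBit (pos y1) = true)
    (h2 : POK T2 [y1] y2 0 ∧ Wf T2 1) (h3 : POK T3 [y1, y2] y3 0 ∧ Wf T3 2)
    (h4 : POK T4 [y1, y2, y3] y4 0 ∧ Wf T4 3) (h5 : POK T5 [y1, y2, y3, y4] y5 0 ∧ Wf T5 4)
    (g1 : POK R1 [y1, y2, y3, y4, y5] z1 0 ∧ Wf R1 5)
    (g2 : POK R2 [y1, y2, y3, y4, y5] z2 0 ∧ Wf R2 5)
    (g3 : POK R3 [y1, y2, y3, y4, y5] z3 0 ∧ Wf R3 5)
    (g4 : POK R4 [y1, y2, y3, y4, y5] z4 0 ∧ Wf R4 5)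
    (g5 : POK R5 [y1, y2, y3, y4, y5] z5 0 ∧ Wf R5 5)
    (g6 : POK R6 [y1, y2, y3, y4, y5] z6 0 ∧ Wf R6 5)
    (g7 : POK R7 [y1, y2, y3, y4, y5] z7 0 ∧ Wf R7 5)
    (h : loop (f1 TL T2 T3 T4 T5 R1 R2 R3 R4 R5 R6 R7) M = true) :
    ∃ S1 S2 S3 S4 S5 S6 S7 : ℕ,
      (POK S1 [y4, y5] z1 0 ∧ Wf S1 2) ∧ (POK S2 [y4, y5] z2 0 ∧ Wf S2 2) ∧
      (POK S3 [y4, y5] z3 0 ∧ Wf S3 2) ∧ (POK S4 [y4, y5] z4 0 ∧ Wf S4 2) ∧
      (POK S5 [y4, y5] z5 0 ∧ Wf S5 2) ∧ (POK S6 [y4, y5] z6 0 ∧ Wf S6 2) ∧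
      (POK S7 [y4, y5] z7 0 ∧ Wf S7 2) ∧
      TL (pos y1) (pos y2) (pos y3) S1 S2 S3 S4 S5 S6 S7 (23328 + pos y4) (49766 - pos y4)
        (7776 + pos y5) (18662 - pos y5) = true := by
  have h2' : PW T2 [y1] y2 := h2
  have h3' : PW T3 [y1, y2] y3 := h3
  have h4' : PW T4 [y1, y2, y3] y4 := h4
  have h5' : PW T5 [y1, y2, y3, y4] y5 := h5
  have g1' : PW R1 [y1, y2, y3, y4, y5] z1 := g1
  have g2' : PW R2 [y1, y2, y3, y4, y5] z2 := g2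
  have g3' : PW R3 [y1, y2, y3, y4, y5] z3 := g3
  have g4' : PW R4 [y1, y2, y3, y4, y5] z4 := g4
  have g5' : PW R5 [y1, y2, y3, y4, y5] z5 := g5
  have g6' : PW R6 [y1, y2, y3, y4, y5] z6 := g6
  have g7' : PW R7 [y1, y2, y3, y4, y5] z7 := g7
  -- level 1
  have k1 := loop_ok h hM
  unfold f1 f1b at k1
  have k2 := loop_ok k1 (PW_bit (PW_mg0 h2'))
  have h3a := PW_mg1 h3'
  have h4a := PW_mg2 h4'
  have h5a := PW_mg3 h5'
  have a1 := PW_mg4 g1'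
  have a2 := PW_mg4 g2'
  have a3 := PW_mg4 g3'
  have a4 := PW_mg4 g4'
  have a5 := PW_mg4 g5'
  have a6 := PW_mg4 g6'
  have a7 := PW_mg4 g7'
  -- level 2
  unfold f2 f2b at k2
  have k3 := loop_ok k2 (PW_bit (PW_mg0 h3a))
  have h4b := PW_mg1 h4a
  have h5b := PW_mg2 h5a
  have b1 := PW_mg3 a1
  have b2 := PW_mg3 a2
  have b3 := PW_mg3 a3
  have b4 := PW_mg3 a4
  have b5 := PW_mg3 a5
  have b6 := PW_mg3 a6
  have b7 := PW_mg3 a7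
  -- level 3
  unfold f3 f3b at k3
  have k4 := loop_ok k3 (PW_bit (PW_mg0 h4b))
  have h5c := PW_mg1 h5b
  have c1 := PW_mg2 b1
  have c2 := PW_mg2 b2
  have c3 := PW_mg2 b3
  have c4' := PW_mg2 b4
  have c5 := PW_mg2 b5
  have c6 := PW_mg2 b6
  have c7 := PW_mg2 b7
  have k5 := f4_ok h5c k4
  have k6 := c4_ok c1 k5
  have k7 := c4_ok c2 k6
  have k8 := c4_ok c3 k7
  have k9 := c4_ok c4' k8
  have k10 := c4_ok c5 k9
  have k11 := c4_ok c6 k10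
  have k12 := c4_ok c7 k11
  exact ⟨_, _, _, _, _, _, _, c1, c2, c3, c4', c5, c6, c7, k12⟩

end Pool.Agent.T2H98.EGZ
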