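import Pool.Agent.T2H98.EGZ.ExclMain

set_option autoImplicit false

namespace Pool.Agent.T2H98.EGZ.Excl

open Finset

/-- ten isometries of the quadratic form -/
def gm (o : Option (ZMod 3 × ZMod 3)) (x : Fin 4 → ZMod 3) : Fin 4 → ZMod 3 :=
  match o with
  | none => x
  | some (v, w) => ![x 0 + v * x 2, x 1 + w * x 2,
      x 3 + v * x 0 + w * x 1 - (v * v + w * w) * x 2, x 2]

theorem gm_add (o : Option (ZMod 3 × ZMod 3)) (x y : Fin 4 → ZMod 3) :
    gm o (x + y) = gm o x + gm o y := by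
  rcases o with _ | ⟨v, w⟩
  · rfl
  · funext i
    fin_cases i
    · change x 0 + y 0 + v * (x 2 + y 2) = (x 0 + v * x 2) + (y 0 + v * y 2)
      ring
    · change x 1 + y 1 + w * (x 2 + y 2) = (x 1 + w * x 2) + (y 1 + w * y 2)
      ring
    · change x 3 + y 3 + v * (x 0 + y 0) + w * (x 1 + y 1) - (v * v + w * w) * (x 2 + y 2) =
        (x 3 + v * x 0 + w * x 1 - (v * v + w * w) * x 2) +
        (y 3 + v * y 0 + w * y 1 - (v * v + w * w) * y 2)
      ring
    · rfl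

theorem gm_zero (o : Option (ZMod 3 × ZMod 3)) : gm o 0 = 0 := by
  have h := gm_add o 0 0
  rw [add_zero] at h
  exact left_eq_add.1 h

theorem gm_eq_zero (o : Option (ZMod 3 × ZMod 3)) {x : Fin 4 → ZMod 3} (h : gm o x = 0) :
    x = 0 := by
  rcases o with _ | ⟨v, w⟩
  · exact h
  · have e0 : x 0 + v * x 2 = 0 := congrFun h 0
    have e1 : x 1 + w * x 2 = 0 := congrFun h 1
    have e2 : x 3 + v * x 0 + w * x 1 - (v * v + w * w) * x 2 = 0 := congrFun h 2
    have e3 : x 2 = 0 := congrFun h 3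
    rw [e3, mul_zero, add_zero] at e0 e1
    rw [e3, e0, e1, mul_zero, mul_zero, mul_zero, add_zero, add_zero, sub_zero] at e2
    funext i
    fin_cases i
    · exact e0
    · exact e1
    · exact e3
    · exact e2

theorem gm_neg (o : Option (ZMod 3 × ZMod 3)) (x : Fin 4 → ZMod 3) : gm o (-x) = -gm o x := by
  rw [eq_neg_iff_add_eq_zero, ← gm_add, neg_add_cancel, gm_zero]

theorem gm_inj (o : Option (ZMod 3 × ZMod 3)) : Function.Injective (gm o) := by
  intro x y h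
  have h1 : gm o (x + -y) = 0 := by rw [gm_add, gm_neg, h, add_neg_cancel]
  have h2 := gm_eq_zero o h1
  rw [← sub_eq_add_neg, sub_eq_zero] at h2
  exact h2

theorem mem_K20 {x : Fin 4 → ZMod 3} :
    x ∈ K20 ↔ x 0 * x 0 + x 1 * x 1 + x 2 * x 3 = 0 ∧ x ≠ 0 := by
  unfold K20
  rw [Finset.mem_filter]
  exact ⟨fun h => h.2, fun h => ⟨Finset.mem_univ _, h⟩⟩

theorem gm_q (o : Option (ZMod 3 × ZMod 3)) (x : Fin 4 → ZMod 3) :
    gm o x 0 * gm o x 0 + gm o x 1 * gm o x 1 + gm o x 2 * gm o x 3 =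
      x 0 * x 0 + x 1 * x 1 + x 2 * x 3 := by
  rcases o with _ | ⟨v, w⟩
  · rfl
  · change (x 0 + v * x 2) * (x 0 + v * x 2) + (x 1 + w * x 2) * (x 1 + w * x 2) +
      (x 3 + v * x 0 + w * x 1 - (v * v + w * w) * x 2) * x 2 = _
    have h3 : (3 : ZMod 3) = 0 := by decide
    linear_combination (v * x 0 * x 2 + w * x 1 * x 2) * h3

theorem gm_K20 (o : Option (ZMod 3 × ZMod 3)) (x : Fin 4 → ZMod 3) :
    gm o x ∈ K20 ↔ x ∈ K20 := by
  rw [mem_K20, mem_K20, gm_q]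
  refine and_congr_right fun _ => not_congr ⟨fun h => gm_eq_zero o h, fun h => ?_⟩
  rw [h, gm_zero]

/-- the data for the full 20-cap -/
structure Cfg20 (R L : Finset (Fin 4 → ZMod 3)) : Prop where
  capR : IsCap R
  capL : IsCap L
  h : ∀ y ∈ R, ∀ z ∈ L, -(y + z) ∉ K20

variable {R L : Finset (Fin 4 → ZMod 3)}

theorem Cfg20.cfg (c : Cfg20 R L) : Cfg R L := by
  refine ⟨c.capR, c.capL, fun x hx y hy z hz h => c.h y hy z hz ?_⟩
  have : -(y + z) = x := by
    rw [eq_comm, eq_neg_iff_add_eq_zero, ← h]; abel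
  rw [this]
  exact (Finset.erase_subset _ _) hx

theorem cap_gm {S : Finset (Fin 4 → ZMod 3)} (o : Option (ZMod 3 × ZMod 3)) (hS : IsCap S) :
    IsCap (S.image (gm o)) := by
  intro x' hx' y' hy' z' hz' hs
  obtain ⟨x, hx, rfl⟩ := Finset.mem_image.1 hx'
  obtain ⟨y, hy, rfl⟩ := Finset.mem_image.1 hy'
  obtain ⟨z, hz, rfl⟩ := Finset.mem_image.1 hz'
  rw [← gm_add, ← gm_add] at hs
  rw [hS x hx y hy z hz (gm_eq_zero o hs)]

theorem Cfg20.map (c : Cfg20 R L) (o : Option (ZMod 3 × ZMod 3)) :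
    Cfg20 (R.image (gm o)) (L.image (gm o)) := by
  refine ⟨cap_gm o c.capR, cap_gm o c.capL, ?_⟩
  intro y' hy' z' hz'
  obtain ⟨y, hy, rfl⟩ := Finset.mem_image.1 hy'
  obtain ⟨z, hz, rfl⟩ := Finset.mem_image.1 hz'
  rw [← gm_add, ← gm_neg, gm_K20]
  exact c.h y hy z hz

/-- number of the ten functionals vanishing at `w` -/
def NN (w : Fin 4 → ZMod 3) : ℕ := (univ.filter fun o => gm o w 2 = 0).card

theorem NN_spec : ∀ a b c d : ZMod 3,
    (¬ (-a * -a + -b * -b + -c * -d = 0 ∧ ¬ (a = 0 ∧ b = 0 ∧ c = 0 ∧ d = 0)) →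
      4 ≤ NN ![a, b, c, d]) ∧ (¬ (a = 0 ∧ b = 0 ∧ c = 0 ∧ d = 0) → NN ![a, b, c, d] ≤ 4) ∧
      NN ![a, b, c, d] ≤ 10 := by
  decide +kernel

theorem vec4 (w : Fin 4 → ZMod 3) : w = ![w 0, w 1, w 2, w 3] := by
  funext i
  fin_cases i <;> rfl

theorem NN_ge {w : Fin 4 → ZMod 3} (h : -w ∉ K20) : 4 ≤ NN w := by
  have h1 := (NN_spec (w 0) (w 1) (w 2) (w 3)).1
  rw [← vec4] at h1
  apply h1
  rintro ⟨h2, h3⟩
  apply h
  rw [mem_K20]
  refine ⟨h2, fun h4 => h3 ?_⟩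
  have h5 : w = 0 := neg_eq_zero.1 h4
  rw [h5]
  exact ⟨rfl, rfl, rfl, rfl⟩

theorem NN_le {w : Fin 4 → ZMod 3} (h : w ≠ 0) : NN w ≤ 4 := by
  have h1 := (NN_spec (w 0) (w 1) (w 2) (w 3)).2.1
  rw [← vec4] at h1
  apply h1
  rintro ⟨h2, h3, h4, h5⟩
  apply h
  rw [vec4 w, h2, h3, h4, h5]
  funext i
  fin_cases i <;> rfl

theorem NN_le10 (w : Fin 4 → ZMod 3) : NN w ≤ 10 := by
  have h1 := (NN_spec (w 0) (w 1) (w 2) (w 3)).2.2
  rwa [← vec4] at h1

theorem n2_image (o : Option (ZMod 3 × ZMod 3)) (S : Finset (Fin 4 → ZMod 3)) (j : ZMod 3) :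
    n2 (S.image (gm o)) j = (S.filter fun x => gm o x 2 = j).card := by
  unfold n2
  rw [Finset.filter_image, Finset.card_image_of_injective _ (gm_inj o)]

/-- pairs whose levels add up to zero -/
theorem pair_sum (S T : Finset (Fin 4 → ZMod 3)) (f : (Fin 4 → ZMod 3) → ZMod 3) :
    ∑ y ∈ S, ∑ z ∈ T, (if f y + f z = 0 then 1 else 0) =
      (S.filter fun x => f x = 0).card * (T.filter fun x => f x = 0).card +
      (S.filter fun x => f x = 1).card * (T.filter fun x => f x = 2).card +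
      (S.filter fun x => f x = 2).card * (T.filter fun x => f x = 1).card := by
  have h1 : ∀ y ∈ S, ∑ z ∈ T, (if f y + f z = 0 then 1 else 0) =
      (if f y = 0 then (T.filter fun x => f x = 0).card else 0) +
      (if f y = 1 then (T.filter fun x => f x = 2).card else 0) +
      (if f y = 2 then (T.filter fun x => f x = 1).card else 0) := by
    intro y _
    rw [← Finset.card_filter]
    have h2 : ∀ a : ZMod 3, a = 0 ∨ a = 1 ∨ a = 2 := by decide
    have e0 : ∀ b : ZMod 3, (0 + b = 0) ↔ b = 0 := by decide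
    have e1 : ∀ b : ZMod 3, (1 + b = 0) ↔ b = 2 := by decide
    have e2 : ∀ b : ZMod 3, (2 + b = 0) ↔ b = 1 := by decide
    have d1 : (1 : ZMod 3) ≠ 0 := by decide
    have d2 : (2 : ZMod 3) ≠ 0 := by decide
    have d3 : (1 : ZMod 3) ≠ 2 := by decide
    rcases h2 (f y) with h | h | h
    · rw [h]
      simp only [e0, if_true, if_neg d1.symm, if_neg d2.symm, add_zero]
    · rw [h]
      simp only [e1, if_true, if_neg d1, if_neg d3, add_zero, zero_add]
    · rw [h]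
      simp only [e2, if_true, if_neg d2, if_neg d3.symm, zero_add]
  rw [Finset.sum_congr rfl h1, Finset.sum_add_distrib, Finset.sum_add_distrib]
  simp only [← Finset.sum_filter, Finset.sum_const, smul_eq_mul]

theorem pair_diff (S : Finset (Fin 4 → ZMod 3)) (f : (Fin 4 → ZMod 3) → ZMod 3) :
    ∑ y ∈ S, ∑ z ∈ S, (if f y - f z = 0 then 1 else 0) =
      (S.filter fun x => f x = 0).card * (S.filter fun x => f x = 0).card +
      (S.filter fun x => f x = 1).card * (S.filter fun x => f x = 1).card +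
      (S.filter fun x => f x = 2).card * (S.filter fun x => f x = 2).card := by
  have h1 : ∀ y ∈ S, ∑ z ∈ S, (if f y - f z = 0 then 1 else 0) =
      (if f y = 0 then (S.filter fun x => f x = 0).card else 0) +
      (if f y = 1 then (S.filter fun x => f x = 1).card else 0) +
      (if f y = 2 then (S.filter fun x => f x = 2).card else 0) := by
    intro y _
    rw [← Finset.card_filter]
    have h2 : ∀ a : ZMod 3, a = 0 ∨ a = 1 ∨ a = 2 := by decide
    have e0 : ∀ b : ZMod 3, (0 - b = 0) ↔ b = 0 := by decide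
    have e1 : ∀ b : ZMod 3, (1 - b = 0) ↔ b = 1 := by decide
    have e2 : ∀ b : ZMod 3, (2 - b = 0) ↔ b = 2 := by decide
    have d1 : (1 : ZMod 3) ≠ 0 := by decide
    have d2 : (2 : ZMod 3) ≠ 0 := by decide
    have d3 : (1 : ZMod 3) ≠ 2 := by decide
    rcases h2 (f y) with h | h | h
    · rw [h]
      simp only [e0, if_true, if_neg d1.symm, if_neg d2.symm, add_zero]
    · rw [h]
      simp only [e1, if_true, if_neg d1, if_neg d3, add_zero, zero_add]
    · rw [h]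
      simp only [e2, if_true, if_neg d2, if_neg d3.symm, zero_add]
  rw [Finset.sum_congr rfl h1, Finset.sum_add_distrib, Finset.sum_add_distrib]
  simp only [← Finset.sum_filter, Finset.sum_const, smul_eq_mul]

/-- the pair count in the direction `o` -/
def EE (R L : Finset (Fin 4 → ZMod 3)) (o : Option (ZMod 3 × ZMod 3)) : ℕ :=
  n2 (R.image (gm o)) 0 * n2 (L.image (gm o)) 0 + n2 (R.image (gm o)) 1 * n2 (L.image (gm o)) 2 +
  n2 (R.image (gm o)) 2 * n2 (L.image (gm o)) 1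

/-- the sum of squares in the direction `o` -/
def CC (R : Finset (Fin 4 → ZMod 3)) (o : Option (ZMod 3 × ZMod 3)) : ℕ :=
  n2 (R.image (gm o)) 0 * n2 (R.image (gm o)) 0 + n2 (R.image (gm o)) 1 * n2 (R.image (gm o)) 1 +
  n2 (R.image (gm o)) 2 * n2 (R.image (gm o)) 2

theorem sum_EE (R L : Finset (Fin 4 → ZMod 3)) :
    ∑ o, EE R L o = ∑ y ∈ R, ∑ z ∈ L, NN (y + z) := by
  have h1 : ∀ o, EE R L o = ∑ y ∈ R, ∑ z ∈ L, (if gm o (y + z) 2 = 0 then 1 else 0) := by
    intro o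
    unfold EE
    simp only [n2_image]
    rw [← pair_sum R L fun x => gm o x 2]
    simp only [gm_add, Pi.add_apply]
  rw [Finset.sum_congr rfl fun o _ => h1 o, Finset.sum_comm]
  refine Finset.sum_congr rfl fun y _ => ?_
  rw [Finset.sum_comm]
  refine Finset.sum_congr rfl fun z _ => ?_
  unfold NN
  rw [Finset.card_filter]

theorem sum_CC (R : Finset (Fin 4 → ZMod 3)) :
    ∑ o, CC R o = ∑ y ∈ R, ∑ z ∈ R, NN (y - z) := by
  have h1 : ∀ o, CC R o = ∑ y ∈ R, ∑ z ∈ R, (if gm o (y - z) 2 = 0 then 1 else 0) := by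
    intro o
    unfold CC
    simp only [n2_image]
    rw [← pair_diff R fun x => gm o x 2]
    simp only [sub_eq_add_neg, gm_add, gm_neg, Pi.add_apply, Pi.neg_apply]
  rw [Finset.sum_congr rfl fun o _ => h1 o, Finset.sum_comm]
  refine Finset.sum_congr rfl fun y _ => ?_
  rw [Finset.sum_comm]
  refine Finset.sum_congr rfl fun z _ => ?_
  unfold NN
  rw [Finset.card_filter]

theorem EE_lower (c : Cfg20 R L) : R.card * (L.card * 4) ≤ ∑ o, EE R L o := by
  rw [sum_EE]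
  refine le_trans ?_ (Finset.card_nsmul_le_sum R _ (L.card * 4) fun y hy => ?_)
  · rw [smul_eq_mul]
  · refine le_trans ?_ (Finset.card_nsmul_le_sum L _ 4 fun z hz => NN_ge (c.h y hy z hz))
    rw [smul_eq_mul]

theorem CC_upper (R : Finset (Fin 4 → ZMod 3)) : ∑ o, CC R o ≤ R.card * (R.card * 4 + 6) := by
  rw [sum_CC]
  refine le_trans (Finset.sum_le_card_nsmul R _ (R.card * 4 + 6) fun y hy => ?_) ?_
  · have h1 : ∀ z ∈ R, NN (y - z) ≤ 4 + if z = y then 6 else 0 := by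
      intro z _
      split_ifs with h
      · exact NN_le10 _
      · exact NN_le (sub_ne_zero.2 (Ne.symm h))
    refine le_trans (Finset.sum_le_sum h1) ?_
    rw [Finset.sum_add_distrib, Finset.sum_const, smul_eq_mul, Finset.sum_ite_eq' R y fun _ => 6,
      if_pos hy]
  · rw [smul_eq_mul]

/-- the numerical inequality in one direction -/
def SE (T n B r0 r1 l0 l1 : ℕ) : Prop :=
  l0 ≤ U r1 (T - r0 - r1) → l1 ≤ U r0 r1 → n - l0 - l1 ≤ U r0 (T - r0 - r1) →
    2 * (r0 * l0 + r1 * (n - l0 - l1) + (T - r0 - r1) * l1) ≤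
      B + (r0 * r0 + r1 * r1 + (T - r0 - r1) * (T - r0 - r1))

instance (T n B r0 r1 l0 l1 : ℕ) : Decidable (SE T n B r0 r1 l0 l1) := by
  unfold SE; infer_instance

theorem fin5 : ∀ r0 < 6, ∀ r1 < 6, ∀ l0 < 10, ∀ l1 < 10, r0 + r1 ≤ 5 → SE 5 20 65 r0 r1 l0 l1 := by
  decide +kernel

theorem fin6 : ∀ r0 < 7, ∀ r1 < 7, ∀ l0 < 10, ∀ l1 < 10, r0 + r1 ≤ 6 → SE 6 19 72 r0 r1 l0 l1 := by
  decide +kernel

theorem fin7' : ∀ r0 < 8, ∀ r1 < 8, ∀ l0 < 10, ∀ l1 < 10, r0 + r1 ≤ 7 →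
    SE 7 18 73 r0 r1 l0 l1 := by
  decide +kernel

theorem one_dir (c : Cfg20 R L) {T n B : ℕ} (hT : R.card = T) (hn : L.card = n)
    (hfin : ∀ r0 < T + 1, ∀ r1 < T + 1, ∀ l0 < 10, ∀ l1 < 10, r0 + r1 ≤ T → SE T n B r0 r1 l0 l1)
    (o : Option (ZMod 3 × ZMod 3)) : 2 * EE R L o ≤ B + CC R o := by
  have c' := c.map o
  obtain ⟨i0, i1, i2⟩ := c'.cfg.ineq
  have sR := n2_sum (R.image (gm o))
  have sL := n2_sum (L.image (gm o))
  rw [Finset.card_image_of_injective _ (gm_inj o), hT] at sR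
  rw [Finset.card_image_of_injective _ (gm_inj o), hn] at sL
  have m0 := n2_le c'.capL 0
  have m1 := n2_le c'.capL 1
  have h := hfin (n2 (R.image (gm o)) 0) (by omega) (n2 (R.image (gm o)) 1) (by omega)
    (n2 (L.image (gm o)) 0) (by omega) (n2 (L.image (gm o)) 1) (by omega) (by omega)
  have eR : T - n2 (R.image (gm o)) 0 - n2 (R.image (gm o)) 1 = n2 (R.image (gm o)) 2 := by omega
  have eL : n - n2 (L.image (gm o)) 0 - n2 (L.image (gm o)) 1 = n2 (L.image (gm o)) 2 := by omega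
  unfold SE at h
  rw [eR, eL] at h
  exact h i0 i1 i2

theorem no20 (c : Cfg20 R L) {T n B : ℕ} (hT : R.card = T) (hn : L.card = n)
    (hfin : ∀ r0 < T + 1, ∀ r1 < T + 1, ∀ l0 < 10, ∀ l1 < 10, r0 + r1 ≤ T → SE T n B r0 r1 l0 l1)
    (hnum : 10 * B + T * (T * 4 + 6) < 2 * (T * (n * 4))) : False := by
  have h1 := EE_lower c
  have h2 := CC_upper R
  have h3 : ∑ o, 2 * EE R L o ≤ ∑ o, (B + CC R o) :=
    Finset.sum_le_sum fun o _ => one_dir c hT hn hfin o
  rw [← Finset.mul_sum, Finset.sum_add_distrib, Finset.sum_const, smul_eq_mul] at h3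
  have h4 : (Finset.univ : Finset (Option (ZMod 3 × ZMod 3))).card = 10 := by decide
  rw [h4] at h3
  rw [hT, hn] at h1
  rw [hT] at h2
  omega

/-- **Exclusion for the 20-cap.** -/
theorem excl20 (c : Cfg20 R L) : ¬ (5 ≤ R.card ∧ 20 ≤ L.card) ∧ ¬ (6 ≤ R.card ∧ 19 ≤ L.card) ∧
    ¬ (7 ≤ R.card ∧ 18 ≤ L.card) := by
  have key : ∀ {T n B : ℕ}, (∀ r0 < T + 1, ∀ r1 < T + 1, ∀ l0 < 10, ∀ l1 < 10, r0 + r1 ≤ T →
      SE T n B r0 r1 l0 l1) → (10 * B + T * (T * 4 + 6) < 2 * (T * (n * 4))) →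
      ¬ (T ≤ R.card ∧ n ≤ L.card) := by
    rintro T n B hfin hnum ⟨h1, h2⟩
    obtain ⟨R', hR', hc⟩ := Finset.exists_subset_card_eq h1
    obtain ⟨L', hL', hc'⟩ := Finset.exists_subset_card_eq h2
    exact no20 ⟨c.capR.subset hR', c.capL.subset hL',
      fun y hy z hz => c.h y (hR' hy) z (hL' hz)⟩ hc hc' hfin hnum
  exact ⟨key fin5 (by norm_num), key fin6 (by norm_num), key fin7' (by norm_num)⟩

end Pool.Agent.T2H98.EGZ.Excl
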