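import Pool.Agent.T2H98.EGZ.ExclCheck

set_option autoImplicit false

namespace Pool.Agent.T2H98.EGZ.Excl

open Finset

/-- the set of the points of the solid (codes `< 27`) in a mask -/
def bits (M : ℕ) : Finset ℕ := (range 27).filter fun i => M.testBit i = true

theorem mem_bits {M i : ℕ} : i ∈ bits M ↔ i < 27 ∧ M.testBit i = true := by
  simp [bits]

theorem pc9_spec : ∀ x < 512, pc9 x = ∑ i ∈ range 9, (x.testBit i).toNat := by
  decide +kernel

theorem pc_eq (M : ℕ) : pc M = (bits M).card := by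
  have h1 : ∀ k, pc9 (Nat.land (Nat.shiftRight M k) 511) =
      ∑ i ∈ range 9, (M.testBit (k + i)).toNat := by
    intro k
    have h2 : Nat.land (Nat.shiftRight M k) 511 = (M >>> k) % 2 ^ 9 := by
      have := Nat.and_two_pow_sub_one_eq_mod (M >>> k) 9
      exact this
    have h3 : (M >>> k) % 2 ^ 9 < 512 := Nat.mod_lt _ (by norm_num)
    rw [h2, pc9_spec _ h3]
    refine Finset.sum_congr rfl fun i hi => ?_
    rw [Finset.mem_range] at hi
    rw [Nat.testBit_mod_two_pow, Nat.testBit_shiftRight]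
    simp [hi]
  have h0 : Nat.land M 511 = Nat.land (Nat.shiftRight M 0) 511 := rfl
  have hb : (bits M).card = ∑ i ∈ range 27, (M.testBit i).toNat := by
    unfold bits
    rw [Finset.card_filter]
    refine Finset.sum_congr rfl fun i _ => ?_
    cases M.testBit i <;> rfl
  have e : pc M = pc9 (Nat.land M 511) +
      (pc9 (Nat.land (Nat.shiftRight M 9) 511) + pc9 (Nat.land (Nat.shiftRight M 18) 511)) := rfl
  rw [e, h0, h1, h1, h1, hb]
  rw [show (27 : ℕ) = 9 + (9 + 9) from rfl, Finset.sum_range_add, Finset.sum_range_add]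
  simp [← add_assoc]

theorem card_le_pc {M : ℕ} {C : Finset ℕ} (h : C ⊆ bits M) : C.card ≤ pc M := by
  rw [pc_eq]; exact Finset.card_le_card h

theorem big_of {t M : ℕ} {C : Finset ℕ} (h : C ⊆ bits M) (ht : t ≤ C.card) : big t M = true := by
  cases t with
  | zero => rfl
  | succ t =>
    show Nat.ble (t + 1) (pc M) = true
    exact Nat.ble_eq_true_of_le (ht.trans (card_le_pc h))

theorem beq_land {M x : ℕ} (h : Nat.beq (Nat.land M (2 ^ x)) 0 = false) : M.testBit x = true := by
  have h1 : M &&& 2 ^ x ≠ 0 := by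
    intro h2
    have h3 : Nat.land M (2 ^ x) = 0 := h2
    rw [h3] at h
    exact absurd h (by decide)
  rw [Nat.and_two_pow] at h1
  cases hx : M.testBit x
  · rw [hx] at h1; simp at h1
  · rfl

theorem bits_xor {M x : ℕ} (hx : x ∈ bits M) : bits (Nat.xor M (2 ^ x)) = (bits M).erase x := by
  have hx' := mem_bits.1 hx
  ext i
  rw [Finset.mem_erase, mem_bits, mem_bits]
  have h : (Nat.xor M (2 ^ x)).testBit i = (M.testBit i ^^ (decide (x = i))) := by
    have := Nat.testBit_xor M (2 ^ x) i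
    rw [Nat.testBit_two_pow] at this
    exact this
  rw [h]
  by_cases hi : x = i
  · subst hi; simp [hx'.2]
  · simp [hi, Ne.symm hi]

/-- `ls` lists lines (as powers of two) none of which is contained in `C` -/
def LF (ls : List (ℕ × ℕ × ℕ)) (C : Finset ℕ) : Prop :=
  ∀ t ∈ ls, ∃ x y z, t = (2 ^ x, 2 ^ y, 2 ^ z) ∧ x < 27 ∧ y < 27 ∧ z < 27 ∧
    ¬ (x ∈ C ∧ y ∈ C ∧ z ∈ C)

theorem nocap_sound (C : Finset ℕ) : ∀ (ls : List (ℕ × ℕ × ℕ)) (b M : ℕ),
    nocap ls b M = true → LF ls C → C ⊆ bits M → C.card + b < (bits M).card := by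
  intro ls
  induction ls with
  | nil => intro b M h; exact absurd h (by simp [nocap])
  | cons t ls ih =>
    intro b M h hL hC
    obtain ⟨x, y, z, rfl, hx, hy, hz, hn⟩ := hL _ List.mem_cons_self
    have hL' : LF ls C := fun t ht => hL t (List.mem_cons_of_mem _ ht)
    rw [nocap.eq_def] at h
    simp only at h
    cases h1 : Nat.beq (Nat.land M (2 ^ x)) 0
    swap
    · rw [h1, cond_true] at h; exact ih _ _ h hL' hC
    cases h2 : Nat.beq (Nat.land M (2 ^ y)) 0
    swap
    · rw [h1, h2, cond_false, cond_true] at h; exact ih _ _ h hL' hC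
    cases h3 : Nat.beq (Nat.land M (2 ^ z)) 0
    swap
    · rw [h1, h2, h3, cond_false, cond_false, cond_true] at h; exact ih _ _ h hL' hC
    rw [h1, h2, h3, cond_false, cond_false, cond_false] at h
    have hx' : x ∈ bits M := mem_bits.2 ⟨hx, beq_land h1⟩
    have hy' : y ∈ bits M := mem_bits.2 ⟨hy, beq_land h2⟩
    have hz' : z ∈ bits M := mem_bits.2 ⟨hz, beq_land h3⟩
    have hex : ∃ w ∈ bits M, w ∉ C ∧ (∀ b', b = b' + 1 → nocap ls b' (Nat.xor M (2 ^ w)) = true) := by
      have key : ∀ b', b = b' + 1 → nocap ls b' (Nat.xor M (2 ^ x)) = true ∧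
          nocap ls b' (Nat.xor M (2 ^ y)) = true ∧ nocap ls b' (Nat.xor M (2 ^ z)) = true := by
        intro b' hb
        subst hb
        simp only [Bool.and_eq_true] at h
        exact ⟨h.1.1, h.1.2, h.2⟩
      by_cases c1 : x ∈ C
      · by_cases c2 : y ∈ C
        · have c3 : z ∉ C := fun c3 => hn ⟨c1, c2, c3⟩
          exact ⟨z, hz', c3, fun b' hb => (key b' hb).2.2⟩
        · exact ⟨y, hy', c2, fun b' hb => (key b' hb).2.1⟩
      · exact ⟨x, hx', c1, fun b' hb => (key b' hb).1⟩
    obtain ⟨w, hw, hwC, hk⟩ := hex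
    have hCe : C ⊆ (bits M).erase w := fun i hi =>
      Finset.mem_erase.2 ⟨fun h => hwC (h ▸ hi), hC hi⟩
    have hc := Finset.card_le_card hCe
    have hc2 := Finset.card_erase_add_one hw
    cases b with
    | zero => omega
    | succ b' =>
      have h5 := ih b' _ (hk b' rfl) hL' (by rw [bits_xor hw]; exact hCe)
      rw [bits_xor hw] at h5
      omega

theorem nc_sound {C : Finset ℕ} (hL : LF lns C) {m M : ℕ} (h : nc m M = true)
    (hC : C ⊆ bits M) : C.card < m := by
  unfold nc at h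
  have h1 := card_le_pc hC
  cases h2 : Nat.ble m (pc M)
  · have h3 : ¬ m ≤ pc M := fun h3 => by
      rw [Nat.ble_eq_true_of_le h3] at h2; exact absurd h2 (by decide)
    omega
  · rw [h2, cond_true] at h
    have h3 := nocap_sound C _ _ _ h hL hC
    rw [← pc_eq] at h3
    have h4 : Nat.sub (pc M) m = pc M - m := rfl
    have h5 : m ≤ pc M := Nat.le_of_ble_eq_true h2
    rw [h4] at h3
    omega

/-- the points allowed by the table `T` opposite to `p` -/
def al (T p : ℕ) : Finset ℕ := bits (T >>> (27 * p))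

theorem sub_land {M T p : ℕ} {L : Finset ℕ} (h1 : L ⊆ bits M) (h2 : L ⊆ al T p) :
    L ⊆ bits (Nat.land M (Nat.shiftRight T (Nat.mul 27 p))) := by
  intro i hi
  have a := mem_bits.1 (h1 hi)
  have b := mem_bits.1 (h2 hi)
  refine mem_bits.2 ⟨a.1, ?_⟩
  have := Nat.testBit_and M (T >>> (27 * p)) i
  rw [a.2, b.2] at this
  exact this

theorem stage_sound {T0 T1 T2 t0 t1 t2 off : ℕ} {k : ℕ → ℕ → ℕ → ℕ → Bool}
    {R L0 L1 L2 : Finset ℕ} (h0 : t0 ≤ L0.card) (h1 : t1 ≤ L1.card) (h2 : t2 ≤ L2.card)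
    (a0 : ∀ p ∈ R, L0 ⊆ al T0 p) (a1 : ∀ p ∈ R, L1 ⊆ al T1 p) (a2 : ∀ p ∈ R, L2 ⊆ al T2 p) :
    ∀ (n r A M0 M1 M2 : ℕ), stage T0 T1 T2 t0 t1 t2 off k n r A M0 M1 M2 = true →
      ∀ S ⊆ R, (∀ p ∈ S, off ≤ p ∧ p < n + off) → r ≤ S.card → (∀ i, A.testBit i = true → i ∈ R) →
      L0 ⊆ bits M0 → L1 ⊆ bits M1 → L2 ⊆ bits M2 →
      ∃ A' M0' M1' M2', (∀ i, A'.testBit i = true → i ∈ R) ∧
        L0 ⊆ bits M0' ∧ L1 ⊆ bits M1' ∧ L2 ⊆ bits M2' ∧ k A' M0' M1' M2' = true := by
  intro n
  induction n with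
  | zero =>
    intro r A M0 M1 M2 h S hS hr hc hA s0 s1 s2
    cases r with
    | zero =>
      rw [stage] at h
      exact ⟨A, M0, M1, M2, hA, s0, s1, s2, h⟩
    | succ r =>
      obtain ⟨p, hp⟩ := Finset.card_pos.1 (show 0 < S.card by omega)
      have := hr p hp
      omega
  | succ n ih =>
    intro r A M0 M1 M2 h S hS hr hc hA s0 s1 s2
    cases r with
    | zero =>
      rw [stage] at h
      exact ⟨A, M0, M1, M2, hA, s0, s1, s2, h⟩
    | succ r =>
      rw [stage, Bool.and_eq_true] at h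
      by_cases hp : n + off ∈ S
      · have hpR := hS hp
        have b1 := sub_land s1 (a1 _ hpR)
        have b2 := sub_land s2 (a2 _ hpR)
        have b0 := sub_land s0 (a0 _ hpR)
        have hh := h.2
        have g1 : Nat.add n off = n + off := rfl
        rw [g1] at hh
        rw [big_of b1 h1, big_of b2 h2, big_of b0 h0, cond_true, cond_true, cond_true] at hh
        refine ih r _ _ _ _ hh (S.erase (n + off)) ((Finset.erase_subset _ _).trans hS) ?_ ?_ ?_
          b0 b1 b2
        · intro p hp'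
          rw [Finset.mem_erase] at hp'
          have := hr p hp'.2
          omega
        · have := Finset.card_erase_add_one hp
          omega
        · intro i hi
          have h4 : (Nat.lor A (Nat.shiftLeft 1 (n + off))).testBit i =
              (A.testBit i || decide (n + off = i)) := by
            have h5 := Nat.testBit_or A (2 ^ (n + off)) i
            rw [Nat.testBit_two_pow] at h5
            have h6 : Nat.shiftLeft 1 (n + off) = 2 ^ (n + off) := Nat.one_shiftLeft _
            rw [h6]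
            exact h5
          rw [h4, Bool.or_eq_true, decide_eq_true_eq] at hi
          rcases hi with hi | hi
          · exact hA i hi
          · exact hi ▸ hpR
      · refine ih (r + 1) _ _ _ _ h.1 S hS ?_ hc hA s0 s1 s2
        intro p hp'
        have := hr p hp'
        have : p ≠ n + off := fun h => hp (h ▸ hp')
        omega

end Pool.Agent.T2H98.EGZ.Excl
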