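import Pool.Agent.T2H98.EGZ.ExclCheck

/-!
# Package B3: the kernel checks
-/

set_option autoImplicit false

namespace Pool.Agent.T2H98.EGZ.Excl

theorem c13 : chkA tab1 2 7 = true := by decide +kernel
theorem c23 : chkA tab2 2 7 = true := by decide +kernel
theorem c14 : chkA tab1 3 6 = true := by decide +kernel
theorem c24 : chkA tab2 3 6 = true := by decide +kernel
theorem c15 : chkA tab1 4 5 = true := by decide +kernel
theorem c25 : chkA tab2 4 5 = true := by decide +kernel
theorem cB11 : chkB 0 1 9 = true := by decide +kernel
theorem cB22 : chkB 1 2 8 = true := by decide +kernel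
theorem c332 : chk332 = true := by decide +kernel
theorem c322 : chk322 = true := by decide +kernel

end Pool.Agent.T2H98.EGZ.Excl
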