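import Pool.Agent.T2H98.EGZ.Bounds
import Pool.Agent.T2H98.EGZ.ExclSound
import Pool.Agent.T2H98.EGZ.ExclTab

set_option autoImplicit false

namespace Pool.Agent.T2H98.EGZ.Excl

open Finset

/-- the standard 20-cap of `F_3^4`: singular vectors of an elliptic quadratic form -/
def K20 : Finset (Fin 4 → ZMod 3) :=
  Finset.univ.filter fun x => x 0 * x 0 + x 1 * x 1 + x 2 * x 3 = 0 ∧ x ≠ 0

/-- the standard 19-cap -/
def K19 : Finset (Fin 4 → ZMod 3) := K20.erase ![0, 0, 0, 2]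

/-- code of the solid coordinates `x 0, x 1, x 3` -/
def cd (x : Fin 4 → ZMod 3) : ℕ := (x 0).val + 3 * (x 1).val + 9 * (x 3).val

theorem cd_lt (x : Fin 4 → ZMod 3) : cd x < 27 := by
  have h0 := (x 0).val_lt
  have h1 := (x 1).val_lt
  have h3 := (x 3).val_lt
  unfold cd
  omega

theorem cd_mod (x : Fin 4 → ZMod 3) : cd x % 3 = (x 0).val := by
  have h0 := (x 0).val_lt
  have h1 := (x 1).val_lt
  have h3 := (x 3).val_lt
  unfold cd
  omega

theorem cd_div3 (x : Fin 4 → ZMod 3) : cd x / 3 % 3 = (x 1).val := by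
  have h0 := (x 0).val_lt
  have h1 := (x 1).val_lt
  have h3 := (x 3).val_lt
  unfold cd
  omega

theorem cd_div9 (x : Fin 4 → ZMod 3) : cd x / 9 = (x 3).val := by
  have h0 := (x 0).val_lt
  have h1 := (x 1).val_lt
  have h3 := (x 3).val_lt
  unfold cd
  omega

theorem cd_inj {x y : Fin 4 → ZMod 3} (h : cd x = cd y) (h2 : x 2 = y 2) : x = y := by
  have a0 := (x 0).val_lt
  have a1 := (x 1).val_lt
  have a3 := (x 3).val_lt
  have b0 := (y 0).val_lt
  have b1 := (y 1).val_lt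
  have b3 := (y 3).val_lt
  unfold cd at h
  have e0 : (x 0).val = (y 0).val := by omega
  have e1 : (x 1).val = (y 1).val := by omega
  have e3 : (x 3).val = (y 3).val := by omega
  funext i
  fin_cases i
  · exact ZMod.val_injective 3 e0
  · exact ZMod.val_injective 3 e1
  · exact h2
  · exact ZMod.val_injective 3 e3

/-- codes of the points of `S` at level `x 2 = j` -/
def lv (S : Finset (Fin 4 → ZMod 3)) (j : ZMod 3) : Finset ℕ :=
  (S.filter fun x => x 2 = j).image cd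

/-- number of points of `S` at level `x 2 = j` -/
def n2 (S : Finset (Fin 4 → ZMod 3)) (j : ZMod 3) : ℕ := (S.filter fun x => x 2 = j).card

theorem card_lv (S : Finset (Fin 4 → ZMod 3)) (j : ZMod 3) : (lv S j).card = n2 S j := by
  refine Finset.card_image_of_injOn ?_
  intro x hx y hy hxy
  rw [Finset.mem_coe, Finset.mem_filter] at hx hy
  exact cd_inj hxy (hx.2.trans hy.2.symm)

theorem mem_lv {S : Finset (Fin 4 → ZMod 3)} {j : ZMod 3} {p : ℕ} :
    p ∈ lv S j ↔ ∃ x ∈ S, x 2 = j ∧ cd x = p := by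
  unfold lv
  rw [Finset.mem_image]
  constructor
  · rintro ⟨x, hx, h⟩
    rw [Finset.mem_filter] at hx
    exact ⟨x, hx.1, hx.2, h⟩
  · rintro ⟨x, hx, h1, h2⟩
    exact ⟨x, Finset.mem_filter.2 ⟨hx, h1⟩, h2⟩

theorem lns_spec : ∀ t ∈ lns, t = (2 ^ Nat.log2 t.1, 2 ^ Nat.log2 t.2.1, 2 ^ Nat.log2 t.2.2) ∧
    Nat.log2 t.1 < 27 ∧ Nat.log2 t.2.1 < 27 ∧ Nat.log2 t.2.2 < 27 ∧
    Nat.log2 t.1 ≠ Nat.log2 t.2.1 ∧
    (Nat.log2 t.1 % 3 + Nat.log2 t.2.1 % 3 + Nat.log2 t.2.2 % 3) % 3 = 0 ∧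
    (Nat.log2 t.1 / 3 % 3 + Nat.log2 t.2.1 / 3 % 3 + Nat.log2 t.2.2 / 3 % 3) % 3 = 0 ∧
    (Nat.log2 t.1 / 9 + Nat.log2 t.2.1 / 9 + Nat.log2 t.2.2 / 9) % 3 = 0 := by
  decide +kernel

theorem add3 (a b c : ZMod 3) (h : (a.val + b.val + c.val) % 3 = 0) : a + b + c = 0 := by
  revert a b c
  decide

theorem LF_lv {S : Finset (Fin 4 → ZMod 3)} (hS : IsCap S) (j : ZMod 3) : LF lns (lv S j) := by
  intro t ht
  obtain ⟨h1, h2, h3, h4, h5, h6, h7, h8⟩ := lns_spec t ht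
  refine ⟨_, _, _, h1, h2, h3, h4, ?_⟩
  rintro ⟨m1, m2, m3⟩
  obtain ⟨x, hx, x2, ex⟩ := mem_lv.1 m1
  obtain ⟨y, hy, y2, ey⟩ := mem_lv.1 m2
  obtain ⟨z, hz, z2, ez⟩ := mem_lv.1 m3
  rw [← ex, ← ey] at h5
  rw [← ex, ← ey, ← ez] at h6 h7 h8
  have hs : x + y + z = 0 := by
    rw [cd_mod, cd_mod, cd_mod] at h6
    rw [cd_div3, cd_div3, cd_div3] at h7
    rw [cd_div9, cd_div9, cd_div9] at h8
    have s0 : x 0 + y 0 + z 0 = 0 := add3 _ _ _ h6
    have s1 : x 1 + y 1 + z 1 = 0 := add3 _ _ _ h7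
    have s3 : x 3 + y 3 + z 3 = 0 := add3 _ _ _ h8
    have s2 : x 2 + y 2 + z 2 = 0 := by
      rw [x2, y2, z2]
      have : ∀ a : ZMod 3, a + a + a = 0 := by decide
      exact this j
    funext i
    fin_cases i
    · exact s0
    · exact s1
    · exact s2
    · exact s3
  exact h5 (by rw [hS x hx y hy z hz hs])

/-- the tables -/
def tb (i : ZMod 3) : ℕ := if i = 0 then tab0 else if i = 1 then tab1 else tab2

theorem tb_spec : ∀ i a b c d e f : Fin 3,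
    Nat.testBit (if i = 0 then tab0 else if i = 1 then tab1 else tab2)
      (27 * (a.val + 3 * b.val + 9 * c.val) + (d.val + 3 * e.val + 9 * f.val)) = true ∨
    ((a + d) * (a + d) + (b + e) * (b + e) - i * (c + f) = 0 ∧
      ¬ (a + d = 0 ∧ b + e = 0 ∧ i = 0 ∧ c + f = 0) ∧
      ¬ (a + d = 0 ∧ b + e = 0 ∧ i = 0 ∧ c + f = 1)) := by
  decide +kernel

theorem al_of {R L : Finset (Fin 4 → ZMod 3)}
    (h : ∀ x ∈ K19, ∀ y ∈ R, ∀ z ∈ L, x + y + z ≠ 0) {i j k : ZMod 3} (hi : i + j + k = 0)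
    {p : ℕ} (hp : p ∈ lv R j) : lv L k ⊆ al (tb i) p := by
  intro c hc
  obtain ⟨y, hy, y2, rfl⟩ := mem_lv.1 hp
  obtain ⟨z, hz, z2, rfl⟩ := mem_lv.1 hc
  refine mem_bits.2 ⟨cd_lt z, ?_⟩
  rw [Nat.testBit_shiftRight]
  rcases tb_spec i (y 0) (y 1) (y 3) (z 0) (z 1) (z 3) with h1 | h1
  · exact h1
  · exfalso
    obtain ⟨q1, q2, q3⟩ := h1
    change (y 0 + z 0) * (y 0 + z 0) + (y 1 + z 1) * (y 1 + z 1) - i * (y 3 + z 3) = 0 at q1
    change ¬ (y 0 + z 0 = 0 ∧ y 1 + z 1 = 0 ∧ i = 0 ∧ y 3 + z 3 = 0) at q2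
    change ¬ (y 0 + z 0 = 0 ∧ y 1 + z 1 = 0 ∧ i = 0 ∧ y 3 + z 3 = 1) at q3
    have hi2 : i = -(y 2 + z 2) := by
      rw [y2, z2]; linear_combination hi
    refine h (-(y + z)) ?_ y hy z hz (by abel)
    unfold K19 K20
    rw [Finset.mem_erase, Finset.mem_filter]
    refine ⟨?_, Finset.mem_univ _, ?_, ?_⟩
    · intro hh
      apply q3
      have e0 := congrFun hh 0
      have e1 := congrFun hh 1
      have e2 := congrFun hh 2
      have e3 := congrFun hh 3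
      simp only [Pi.neg_apply, Pi.add_apply] at e0 e1 e2 e3
      change -(y 0 + z 0) = 0 at e0
      change -(y 1 + z 1) = 0 at e1
      change -(y 2 + z 2) = 0 at e2
      change -(y 3 + z 3) = 2 at e3
      refine ⟨neg_eq_zero.1 e0, neg_eq_zero.1 e1, hi2.trans e2, ?_⟩
      have h4 : y 3 + z 3 = -2 := by rw [← e3, neg_neg]
      rw [h4]; decide
    · simp only [Pi.neg_apply, Pi.add_apply]
      rw [hi2] at q1
      linear_combination q1
    · intro hh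
      apply q2
      have e0 := congrFun hh 0
      have e1 := congrFun hh 1
      have e2 := congrFun hh 2
      have e3 := congrFun hh 3
      simp only [Pi.neg_apply, Pi.add_apply, Pi.zero_apply] at e0 e1 e2 e3
      exact ⟨neg_eq_zero.1 e0, neg_eq_zero.1 e1, hi2.trans e2, neg_eq_zero.1 e3⟩

end Pool.Agent.T2H98.EGZ.Excl
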