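import Pool.Agent.T2H98.EGZ.ExclBridge

set_option autoImplicit false

namespace Pool.Agent.T2H98.EGZ.Excl

open Finset

/-- the data: caps `R`, `L` with no solution of `x + y + z = 0`, `x ∈ K19`, `y ∈ R`, `z ∈ L` -/
structure Cfg (R L : Finset (Fin 4 → ZMod 3)) : Prop where
  capR : IsCap R
  capL : IsCap L
  h : ∀ x ∈ K19, ∀ y ∈ R, ∀ z ∈ L, x + y + z ≠ 0

variable {R L : Finset (Fin 4 → ZMod 3)}

theorem Cfg.symm (c : Cfg R L) : Cfg L R :=
  ⟨c.capL, c.capR, fun x hx y hy z hz h => c.h x hx z hz y hy (by rw [← h]; abel)⟩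

theorem card_erase_zero (j : ZMod 3) (n : ℕ) (h : n + 1 ≤ n2 R j) :
    n ≤ ((lv R j).erase 0).card := by
  have h1 := card_lv R j
  have h2 := Finset.pred_card_le_card_erase (s := lv R j) (a := 0)
  omega

theorem erase_range {j : ZMod 3} : ∀ p ∈ (lv R j).erase 0, 1 ≤ p ∧ p < 26 + 1 := by
  intro p hp
  rw [Finset.mem_erase] at hp
  obtain ⟨x, _, _, rfl⟩ := mem_lv.1 hp.2
  have := cd_lt x
  omega

theorem lv_range {j : ZMod 3} : ∀ p ∈ lv R j, 0 ≤ p ∧ p < 27 + 0 := by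
  intro p hp
  obtain ⟨x, _, _, rfl⟩ := mem_lv.1 hp
  have := cd_lt x
  omega

theorem zero_mem_lv (h0 : (0 : Fin 4 → ZMod 3) ∈ R) : 0 ∈ lv R 0 :=
  mem_lv.2 ⟨0, h0, rfl, by simp [cd]⟩

theorem bit_one {i : ℕ} (h : (1 : ℕ).testBit i = true) : i = 0 := by
  have h1 : (1 : ℕ) = 2 ^ 0 := rfl
  rw [h1, Nat.testBit_two_pow, decide_eq_true_eq] at h
  exact h.symm

theorem sub_full {T : ℕ} {C : Finset ℕ} (h : C ⊆ al T 0) : C ⊆ bits (Nat.land full T) := by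
  intro i hi
  have h1 := mem_bits.1 (h hi)
  refine mem_bits.2 ⟨h1.1, ?_⟩
  have h2 := Nat.testBit_and full T i
  have h3 : full = 2 ^ 27 - 1 := by decide
  rw [h3, Nat.testBit_two_pow_sub_one, decide_eq_true h1.1] at h2
  have h4 : T.testBit i = true := by simpa using h1.2
  rw [h4] at h2
  have h5 : Nat.land full T = (2 ^ 27 - 1) &&& T := by rw [h3]; rfl
  rw [h5]
  exact h2

theorem LF.mono {ls : List (ℕ × ℕ × ℕ)} {C D : Finset ℕ} (h : LF ls C) (hD : D ⊆ C) :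
    LF ls D := by
  intro t ht
  obtain ⟨x, y, z, h1, h2, h3, h4, h5⟩ := h t ht
  exact ⟨x, y, z, h1, h2, h3, h4, fun h6 => h5 ⟨hD h6.1, hD h6.2.1, hD h6.2.2⟩⟩

/-- single table, normalised -/
theorem coreA (c : Cfg R L) (h0 : (0 : Fin 4 → ZMod 3) ∈ R) {i k : ZMod 3} (hik : i + k = 0)
    {a m : ℕ} (hchk : chkA (tb i) a m = true) (ha : a + 1 ≤ n2 R 0) : n2 L k < m := by
  by_contra hm
  push Not at hm
  rw [← card_lv] at hm
  have hal : ∀ p ∈ lv R 0, lv L k ⊆ al (tb i) p := fun p hp =>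
    al_of c.h (by rw [add_zero]; exact hik) hp
  obtain ⟨A', M0, M1, M2, hA, -, -, s2, hk⟩ := stage_sound (R := lv R 0) (L0 := ∅) (L1 := ∅)
    (L2 := lv L k) (Nat.zero_le _) (Nat.zero_le _) hm (by simp) (by simp) hal
    26 a 1 0 0 _ hchk ((lv R 0).erase 0) (Finset.erase_subset _ _) erase_range
    (card_erase_zero 0 a ha)
    (fun i hi => by rw [bit_one hi]; exact zero_mem_lv h0) (by simp) (by simp)
    (sub_full (hal 0 (zero_mem_lv h0)))
  rw [Bool.or_eq_true] at hk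
  rcases hk with hk | hk
  · have hsub : bits A' ⊆ lv R 0 := fun i hi => hA i (mem_bits.1 hi).2
    have := nocap_sound (bits A') lns 0 A' hk ((LF_lv c.capR 0).mono hsub) (Finset.Subset.refl _)
    omega
  · have := nc_sound (LF_lv c.capL k) hk s2
    omega

/-- two tables, normalised -/
theorem coreB (c : Cfg R L) (h0 : (0 : Fin 4 → ZMod 3) ∈ R)
    {a b m : ℕ} (hchk : chkB a b m = true) (ha : a + 1 ≤ n2 R 0) (hb : b ≤ n2 R 2) :
    n2 L 2 < m := by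
  by_contra hm
  push Not at hm
  rw [← card_lv] at hm hb
  have hal1 : ∀ p ∈ lv R 0, lv L 2 ⊆ al tab1 p := fun p hp =>
    al_of c.h (i := 1) (by decide) hp
  have hal2 : ∀ p ∈ lv R 2, lv L 2 ⊆ al tab2 p := fun p hp =>
    al_of c.h (i := 2) (by decide) hp
  obtain ⟨A', M0, M1, M2, -, -, -, s2, hk⟩ := stage_sound (R := lv R 0) (L0 := ∅) (L1 := ∅)
    (L2 := lv L 2) (Nat.zero_le _) (Nat.zero_le _) hm (by simp) (by simp) hal1
    26 a 1 0 0 _ hchk ((lv R 0).erase 0) (Finset.erase_subset _ _) erase_range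
    (card_erase_zero 0 a ha)
    (fun i hi => by rw [bit_one hi]; exact zero_mem_lv h0) (by simp) (by simp)
    (sub_full (hal1 0 (zero_mem_lv h0)))
  obtain ⟨A'', M0', M1', M2', -, -, -, s2', hk'⟩ := stage_sound (R := lv R 2) (L0 := ∅) (L1 := ∅)
    (L2 := lv L 2) (Nat.zero_le _) (Nat.zero_le _) hm (by simp) (by simp) hal2
    27 b 0 0 0 _ hk (lv R 2) (Finset.Subset.refl _) lv_range hb
    (fun i hi => by simp at hi) (by simp) (by simp) s2
  have := nc_sound (LF_lv c.capL 2) hk' s2'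
  omega

theorem core332 (c : Cfg R L) (h0 : (0 : Fin 4 → ZMod 3) ∈ R) (r0 : 3 ≤ n2 R 0) (r1 : 3 ≤ n2 R 1)
    (l0 : 6 ≤ n2 L 0) (l1 : 6 ≤ n2 L 1) (l2 : 6 ≤ n2 L 2) : False := by
  rw [← card_lv] at l0 l1 l2 r1
  have a00 : ∀ p ∈ lv R 0, lv L 0 ⊆ al tab0 p := fun p hp => al_of c.h (i := 0) (by decide) hp
  have a01 : ∀ p ∈ lv R 0, lv L 1 ⊆ al tab2 p := fun p hp => al_of c.h (i := 2) (by decide) hp
  have a02 : ∀ p ∈ lv R 0, lv L 2 ⊆ al tab1 p := fun p hp => al_of c.h (i := 1) (by decide) hp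
  have a10 : ∀ p ∈ lv R 1, lv L 0 ⊆ al tab2 p := fun p hp => al_of c.h (i := 2) (by decide) hp
  have a11 : ∀ p ∈ lv R 1, lv L 1 ⊆ al tab1 p := fun p hp => al_of c.h (i := 1) (by decide) hp
  have a12 : ∀ p ∈ lv R 1, lv L 2 ⊆ al tab0 p := fun p hp => al_of c.h (i := 0) (by decide) hp
  have z := zero_mem_lv h0
  obtain ⟨A', M0, M1, M2, -, s0, s1, s2, hk⟩ := stage_sound (R := lv R 0)
    l0 l1 l2 a00 a01 a02
    26 2 1 _ _ _ c332 ((lv R 0).erase 0) (Finset.erase_subset _ _) erase_range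
    (card_erase_zero 0 2 r0) (fun i hi => by rw [bit_one hi]; exact z)
    (sub_full (a00 0 z)) (sub_full (a01 0 z)) (sub_full (a02 0 z))
  obtain ⟨A'', M0', M1', M2', -, s0', s1', s2', hk'⟩ := stage_sound (R := lv R 1)
    l0 l1 l2 a10 a11 a12
    27 3 0 _ _ _ hk (lv R 1) (Finset.Subset.refl _) lv_range r1
    (fun i hi => by simp at hi) s0 s1 s2
  have := nc_sound (LF_lv c.capL 1) hk' s1'
  omega

theorem core322 (c : Cfg R L) (h0 : (0 : Fin 4 → ZMod 3) ∈ R) (r0 : 3 ≤ n2 R 0) (r1 : 2 ≤ n2 R 1)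
    (r2 : 2 ≤ n2 R 2) (l0 : 7 ≤ n2 L 0) (l1 : 6 ≤ n2 L 1) (l2 : 6 ≤ n2 L 2) : False := by
  rw [← card_lv] at l0 l1 l2 r1 r2
  have a00 : ∀ p ∈ lv R 0, lv L 0 ⊆ al tab0 p := fun p hp => al_of c.h (i := 0) (by decide) hp
  have a01 : ∀ p ∈ lv R 0, lv L 1 ⊆ al tab2 p := fun p hp => al_of c.h (i := 2) (by decide) hp
  have a02 : ∀ p ∈ lv R 0, lv L 2 ⊆ al tab1 p := fun p hp => al_of c.h (i := 1) (by decide) hp
  have a10 : ∀ p ∈ lv R 1, lv L 0 ⊆ al tab2 p := fun p hp => al_of c.h (i := 2) (by decide) hp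
  have a11 : ∀ p ∈ lv R 1, lv L 1 ⊆ al tab1 p := fun p hp => al_of c.h (i := 1) (by decide) hp
  have a12 : ∀ p ∈ lv R 1, lv L 2 ⊆ al tab0 p := fun p hp => al_of c.h (i := 0) (by decide) hp
  have a20 : ∀ p ∈ lv R 2, lv L 0 ⊆ al tab1 p := fun p hp => al_of c.h (i := 1) (by decide) hp
  have a21 : ∀ p ∈ lv R 2, lv L 1 ⊆ al tab0 p := fun p hp => al_of c.h (i := 0) (by decide) hp
  have a22 : ∀ p ∈ lv R 2, lv L 2 ⊆ al tab2 p := fun p hp => al_of c.h (i := 2) (by decide) hp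
  have z := zero_mem_lv h0
  obtain ⟨A', M0, M1, M2, -, s0, s1, s2, hk⟩ := stage_sound (R := lv R 0)
    l0 l1 l2 a00 a01 a02
    26 2 1 _ _ _ c322 ((lv R 0).erase 0) (Finset.erase_subset _ _) erase_range
    (card_erase_zero 0 2 r0) (fun i hi => by rw [bit_one hi]; exact z)
    (sub_full (a00 0 z)) (sub_full (a01 0 z)) (sub_full (a02 0 z))
  obtain ⟨A'', M0', M1', M2', -, s0', s1', s2', hk'⟩ := stage_sound (R := lv R 1)
    l0 l1 l2 a10 a11 a12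
    27 2 0 _ _ _ hk (lv R 1) (Finset.Subset.refl _) lv_range r1
    (fun i hi => by simp at hi) s0 s1 s2
  rw [Bool.or_eq_true] at hk'
  rcases hk' with hk' | hk'
  · have := nc_sound (LF_lv c.capL 1) hk' s1'
    omega
  obtain ⟨A3, N0, N1, N2, -, t0, t1, t2, hk3⟩ := stage_sound (R := lv R 2)
    l0 l1 l2 a20 a21 a22
    27 2 0 _ _ _ hk' (lv R 2) (Finset.Subset.refl _) lv_range r2
    (fun i hi => by simp at hi) s0' s1' s2'
  have := nc_sound (LF_lv c.capL 0) hk3 t0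
  omega

end Pool.Agent.T2H98.EGZ.Excl
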