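import Pool.Agent.T2H98.EGZ.ExclCore

set_option autoImplicit false

namespace Pool.Agent.T2H98.EGZ.Excl

open Finset

variable {R L : Finset (Fin 4 → ZMod 3)}

/-- translation by `-z` -/
def tr (z : Fin 4 → ZMod 3) (S : Finset (Fin 4 → ZMod 3)) : Finset (Fin 4 → ZMod 3) :=
  S.image fun x => x - z

theorem cap_tr {S : Finset (Fin 4 → ZMod 3)} (z : Fin 4 → ZMod 3) (hS : IsCap S) :
    IsCap (tr z S) := by
  intro x' hx' y' hy' w' hw' hs
  obtain ⟨x, hx, rfl⟩ := Finset.mem_image.1 hx'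
  obtain ⟨y, hy, rfl⟩ := Finset.mem_image.1 hy'
  obtain ⟨w, hw, rfl⟩ := Finset.mem_image.1 hw'
  have h1 : x + y + w = 0 := by
    have := three_smul_zero z
    calc x + y + w = (x - z + (y - z) + (w - z)) + (z + z + z) := by abel
      _ = 0 := by rw [hs, this, add_zero]
  rw [hS x hx y hy w hw h1]

theorem n2_tr (z : Fin 4 → ZMod 3) (S : Finset (Fin 4 → ZMod 3)) (j : ZMod 3) :
    n2 (tr z S) j = n2 S (j + z 2) := by
  unfold n2 tr
  rw [Finset.filter_image, Finset.card_image_of_injective _ (sub_left_injective)]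
  congr 1
  ext x
  simp only [Finset.mem_filter, Pi.sub_apply]
  rw [sub_eq_iff_eq_add]

theorem Cfg.translate (c : Cfg R L) (z : Fin 4 → ZMod 3) : Cfg (tr z R) (tr (-z) L) := by
  refine ⟨cap_tr z c.capR, cap_tr _ c.capL, ?_⟩
  intro x hx y' hy' w' hw' hs
  obtain ⟨y, hy, rfl⟩ := Finset.mem_image.1 hy'
  obtain ⟨w, hw, rfl⟩ := Finset.mem_image.1 hw'
  exact c.h x hx y hy w hw (by rw [← hs]; abel)

theorem exists_of_n2 {S : Finset (Fin 4 → ZMod 3)} {j : ZMod 3} {n : ℕ} (h : n + 1 ≤ n2 S j) :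
    ∃ z ∈ S, z 2 = j := by
  obtain ⟨z, hz⟩ := Finset.card_pos.1 (show 0 < (S.filter fun x => x 2 = j).card by
    unfold n2 at h; omega)
  rw [Finset.mem_filter] at hz
  exact ⟨z, hz.1, hz.2⟩

/-- **Normalisation**: a point of `R` at level `j` is moved to `0`. -/
theorem Cfg.norm (c : Cfg R L) {j : ZMod 3} {n : ℕ} (h : n + 1 ≤ n2 R j) :
    ∃ R' L', Cfg R' L' ∧ (0 : Fin 4 → ZMod 3) ∈ R' ∧ (∀ a, n2 R' a = n2 R (a + j)) ∧
      ∀ b, n2 L' b = n2 L (b - j) := by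
  obtain ⟨z, hz, rfl⟩ := exists_of_n2 h
  refine ⟨_, _, c.translate z, Finset.mem_image.2 ⟨z, hz, sub_self z⟩, fun a => n2_tr z R a,
    fun b => ?_⟩
  rw [n2_tr, Pi.neg_apply, ← sub_eq_add_neg]

theorem genA (c : Cfg R L) {i j k : ZMod 3} (hi : i + j + k = 0) {a m : ℕ}
    (hchk : chkA (tb i) a m = true) (ha : a + 1 ≤ n2 R j) : n2 L k < m := by
  obtain ⟨R', L', c', h0, hR, hL⟩ := c.norm ha
  have := coreA c' h0 (i := i) (k := k + j) (by rw [← hi]; ring) hchk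
    (by rw [hR, zero_add]; exact ha)
  rw [hL, add_sub_cancel_right] at this
  exact this

/-- the bound `M(a)` -/
def Mf : ℕ → ℕ
  | 0 => 9
  | 1 => 9
  | 2 => 9
  | 3 => 6
  | 4 => 5
  | 5 => 4
  | 6 => 3
  | _ => 2

theorem n2_le {S : Finset (Fin 4 → ZMod 3)} (hS : IsCap S) (j : ZMod 3) : n2 S j ≤ 9 := by
  have h1 := nn_le hS card_le_three_dim (ξ := Pi.single 2 1) (by
    intro h
    have := congrFun h 2
    simp at this) j
  have h2 : nn S (Pi.single 2 1) j = n2 S j := by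
    unfold nn n2
    congr 1
    ext x
    simp
  rw [h2] at h1
  exact h1

theorem boundA (c : Cfg R L) {i j k : ZMod 3} (hi : i + j + k = 0) (h0 : i ≠ 0) :
    n2 L k ≤ Mf (n2 R j) := by
  have e0 : ∀ i : ZMod 3, i ≠ 0 → i = 1 ∨ i = 2 := by decide
  have e := e0 i h0
  have h3 : ∀ {R L : Finset (Fin 4 → ZMod 3)} {j k : ZMod 3}, Cfg R L → i + j + k = 0 →
      3 ≤ n2 R j → n2 L k < 7 := by
    intro R L j k c hi h
    rcases e with rfl | rfl
    · exact genA c hi c13 h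
    · exact genA c hi c23 h
  have h4 : ∀ {R L : Finset (Fin 4 → ZMod 3)} {j k : ZMod 3}, Cfg R L → i + j + k = 0 →
      4 ≤ n2 R j → n2 L k < 6 := by
    intro R L j k c hi h
    rcases e with rfl | rfl
    · exact genA c hi c14 h
    · exact genA c hi c24 h
  have h5 : ∀ {R L : Finset (Fin 4 → ZMod 3)} {j k : ZMod 3}, Cfg R L → i + j + k = 0 →
      5 ≤ n2 R j → n2 L k < 5 := by
    intro R L j k c hi h
    rcases e with rfl | rfl
    · exact genA c hi c15 h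
    · exact genA c hi c25 h
  have hi' : i + k + j = 0 := by rw [← hi]; ring
  have a3 := h3 c hi
  have a4 := h4 c hi
  have a5 := h5 c hi
  have b3 := h3 c.symm hi'
  have b4 := h4 c.symm hi'
  have a9 := n2_le c.capL k
  generalize n2 R j = r at *
  generalize n2 L k = l at *
  rcases r with _ | _ | _ | _ | _ | _ | _ | r <;> simp only [Mf] <;> omega

theorem boundB (c : Cfg R L) {a b m : ℕ} (hchk : chkB a b m = true) (k : ZMod 3)
    (ha : a + 1 ≤ n2 R (-1 - k)) (hb : b ≤ n2 R (1 - k)) : n2 L k < m := by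
  obtain ⟨R', L', c', h0, hR, hL⟩ := c.norm ha
  have e1 : (2 : ZMod 3) + (-1 - k) = 1 - k := by ring
  have e2 : (2 : ZMod 3) - (-1 - k) = k := by
    have : (3 : ZMod 3) = 0 := by decide
    linear_combination this
  have := coreB c' h0 hchk (by rw [hR, zero_add]; exact ha) (by rw [hR, e1]; exact hb)
  rw [hL, e2] at this
  exact this

theorem gen332 (c : Cfg R L) (j : ZMod 3) (r0 : 3 ≤ n2 R j) (r1 : 3 ≤ n2 R (1 + j))
    (l : ∀ k, 6 ≤ n2 L k) : False := by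
  obtain ⟨R', L', c', h0, hR, hL⟩ := c.norm r0
  exact core332 c' h0 (by rw [hR, zero_add]; exact r0) (by rw [hR]; exact r1)
    (by rw [hL]; exact l _) (by rw [hL]; exact l _) (by rw [hL]; exact l _)

theorem gen322 (c : Cfg R L) (j : ZMod 3) (r0 : 3 ≤ n2 R j) (r1 : 2 ≤ n2 R (1 + j))
    (r2 : 2 ≤ n2 R (2 + j)) (l0 : 7 ≤ n2 L (-j)) (l : ∀ k, 6 ≤ n2 L k) : False := by
  obtain ⟨R', L', c', h0, hR, hL⟩ := c.norm r0
  exact core322 c' h0 (by rw [hR, zero_add]; exact r0) (by rw [hR]; exact r1)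
    (by rw [hR]; exact r2)
    (by rw [hL, zero_sub]; exact l0) (by rw [hL]; exact l _) (by rw [hL]; exact l _)

/-- the bound for a section of `L` opposite to sections of `R` of sizes `a`, `b` -/
def U (a b : ℕ) : ℕ :=
  min (min (Mf a) (Mf b)) (if 2 ≤ a ∧ 2 ≤ b then 7 else if 1 ≤ a ∧ 1 ≤ b then 8 else 9)

theorem le_U {l a b : ℕ} (h1 : l ≤ Mf a) (h2 : l ≤ Mf b) (h3 : 2 ≤ a → 2 ≤ b → l ≤ 7)
    (h4 : 1 ≤ a → 1 ≤ b → l ≤ 8) (h5 : l ≤ 9) : l ≤ U a b := by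
  unfold U
  refine le_min (le_min h1 h2) ?_
  split_ifs with c1 c2
  · exact h3 c1.1 c1.2
  · exact h4 c2.1 c2.2
  · exact h5

/-- all the inequalities between the section sizes in the standard direction -/
theorem Cfg.ineq (c : Cfg R L) : n2 L 0 ≤ U (n2 R 1) (n2 R 2) ∧ n2 L 1 ≤ U (n2 R 0) (n2 R 1) ∧
    n2 L 2 ≤ U (n2 R 0) (n2 R 2) := by
  refine ⟨le_U ?_ ?_ ?_ ?_ (n2_le c.capL 0), le_U ?_ ?_ ?_ ?_ (n2_le c.capL 1),
    le_U ?_ ?_ ?_ ?_ (n2_le c.capL 2)⟩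
  · exact boundA c (i := 2) (by decide) (by decide)
  · exact boundA c (i := 1) (by decide) (by decide)
  · exact fun h1 h2 => Nat.le_of_lt_succ (boundB c cB22 0 h2 h1)
  · exact fun h1 h2 => Nat.le_of_lt_succ (boundB c cB11 0 h2 h1)
  · exact boundA c (i := 2) (by decide) (by decide)
  · exact boundA c (i := 1) (by decide) (by decide)
  · exact fun h1 h2 => Nat.le_of_lt_succ (boundB c cB22 1 h2 h1)
  · exact fun h1 h2 => Nat.le_of_lt_succ (boundB c cB11 1 h2 h1)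
  · exact boundA c (i := 1) (by decide) (by decide)
  · exact boundA c (i := 2) (by decide) (by decide)
  · exact fun h1 h2 => Nat.le_of_lt_succ (boundB c cB22 2 h1 h2)
  · exact fun h1 h2 => Nat.le_of_lt_succ (boundB c cB11 2 h1 h2)

theorem n2_sum (S : Finset (Fin 4 → ZMod 3)) : n2 S 0 + n2 S 1 + n2 S 2 = S.card := by
  have h := Finset.card_eq_sum_card_fiberwise (f := fun x : Fin 4 → ZMod 3 => x 2) (s := S)
    (t := Finset.univ) (fun _ _ => Finset.mem_coe.2 (Finset.mem_univ _))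
  rw [h, sum3]
  rfl

/-- exceptional distributions for `7 + 19` points -/
def S7 (r0 r1 r2 : ℕ) : Prop := U r1 r2 + U r0 r1 + U r0 r2 ≤ 18 ∨
    (r0 = 3 ∧ r1 = 2 ∧ r2 = 2 ∧ U r1 r2 = 7 ∧ U r0 r1 = 6 ∧ U r0 r2 = 6) ∨
    (r0 = 2 ∧ r1 = 3 ∧ r2 = 2 ∧ U r1 r2 = 6 ∧ U r0 r1 = 6 ∧ U r0 r2 = 7) ∨
    (r0 = 2 ∧ r1 = 2 ∧ r2 = 3 ∧ U r1 r2 = 6 ∧ U r0 r1 = 7 ∧ U r0 r2 = 6)

instance (r0 r1 r2 : ℕ) : Decidable (S7 r0 r1 r2) := by unfold S7; infer_instance

/-- exceptional distributions for `8 + 18` points -/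
def S8 (r0 r1 r2 : ℕ) : Prop := U r1 r2 + U r0 r1 + U r0 r2 ≤ 17 ∨
    ((r0 = 3 ∧ r1 = 3 ∧ r2 = 2 ∨ r0 = 2 ∧ r1 = 3 ∧ r2 = 3 ∨ r0 = 3 ∧ r1 = 2 ∧ r2 = 3) ∧
      U r1 r2 = 6 ∧ U r0 r1 = 6 ∧ U r0 r2 = 6)

instance (r0 r1 r2 : ℕ) : Decidable (S8 r0 r1 r2) := by unfold S8; infer_instance

theorem fin7 : ∀ r0 < 8, ∀ r1 < 8, ∀ r2 < 8, r0 + r1 + r2 = 7 → S7 r0 r1 r2 := by
  decide +kernel

theorem fin8 : ∀ r0 < 9, ∀ r1 < 9, ∀ r2 < 9, r0 + r1 + r2 = 8 → S8 r0 r1 r2 := by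
  decide +kernel

theorem all3 {P : ZMod 3 → Prop} (h0 : P 0) (h1 : P 1) (h2 : P 2) (k : ZMod 3) : P k := by
  have : ∀ k : ZMod 3, k = 0 ∨ k = 1 ∨ k = 2 := by decide
  rcases this k with rfl | rfl | rfl
  · exact h0
  · exact h1
  · exact h2

theorem key7 (c : Cfg R L) (h7 : R.card = 7) (h19 : 19 ≤ L.card) : False := by
  obtain ⟨i0, i1, i2⟩ := c.ineq
  have sR := n2_sum R
  have sL := n2_sum L
  rcases fin7 (n2 R 0) (by omega) (n2 R 1) (by omega) (n2 R 2) (by omega) (by omega) with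
    h | ⟨r0, r1, r2, u0, u1, u2⟩ | ⟨r0, r1, r2, u0, u1, u2⟩ | ⟨r0, r1, r2, u0, u1, u2⟩
  · omega
  · exact gen322 c 0 (by omega) (le_of_le_of_eq (b := n2 R 1) (by omega) rfl)
      (le_of_le_of_eq (b := n2 R 2) (by omega) rfl) (le_of_le_of_eq (b := n2 L 0) (by omega) rfl)
      (all3 (by omega) (by omega) (by omega))
  · exact gen322 c 1 (by omega) (le_of_le_of_eq (b := n2 R 2) (by omega) rfl)
      (le_of_le_of_eq (b := n2 R 0) (by omega) rfl) (le_of_le_of_eq (b := n2 L 2) (by omega) rfl)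
      (all3 (by omega) (by omega) (by omega))
  · exact gen322 c 2 (by omega) (le_of_le_of_eq (b := n2 R 0) (by omega) rfl)
      (le_of_le_of_eq (b := n2 R 1) (by omega) rfl) (le_of_le_of_eq (b := n2 L 1) (by omega) rfl)
      (all3 (by omega) (by omega) (by omega))

theorem key8 (c : Cfg R L) (h8 : R.card = 8) (h18 : 18 ≤ L.card) : False := by
  obtain ⟨i0, i1, i2⟩ := c.ineq
  have sR := n2_sum R
  have sL := n2_sum L
  rcases fin8 (n2 R 0) (by omega) (n2 R 1) (by omega) (n2 R 2) (by omega) (by omega) with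
    h | ⟨h, u0, u1, u2⟩
  · omega
  · have hl : ∀ k, 6 ≤ n2 L k := all3 (by omega) (by omega) (by omega)
    rcases h with ⟨r0, r1, r2⟩ | ⟨r0, r1, r2⟩ | ⟨r0, r1, r2⟩
    · exact gen332 c 0 (by omega) (le_of_le_of_eq (b := n2 R 1) (by omega) rfl) hl
    · exact gen332 c 1 (by omega) (le_of_le_of_eq (b := n2 R 2) (by omega) rfl) hl
    · exact gen332 c 2 (by omega) (le_of_le_of_eq (b := n2 R 0) (by omega) rfl) hl

/-- **Exclusion for the 19-cap.** -/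
theorem excl19 (c : Cfg R L) : ¬ (7 ≤ R.card ∧ 19 ≤ L.card) ∧ ¬ (8 ≤ R.card ∧ 18 ≤ L.card) := by
  constructor
  · rintro ⟨h1, h2⟩
    obtain ⟨R', hR', hc⟩ := Finset.exists_subset_card_eq h1
    exact key7 ⟨c.capR.subset hR', c.capL, fun x hx y hy => c.h x hx y (hR' hy)⟩ hc h2
  · rintro ⟨h1, h2⟩
    obtain ⟨R', hR', hc⟩ := Finset.exists_subset_card_eq h1
    exact key8 ⟨c.capR.subset hR', c.capL, fun x hx y hy => c.h x hx y (hR' hy)⟩ hc h2

end Pool.Agent.T2H98.EGZ.Excl
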