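import Pool.Agent.T2H98.EGZ.Defs

/-!
# Package B1: identities for caps in `F_3^r`, maximal sizes in dimensions 2, 3, 4, classes of 45-caps
-/

set_option autoImplicit false

namespace Pool.Agent.T2H98.EGZ

open Finset

variable {r : ℕ}

/-- number of points of `D` on the hyperplane `ξ x = j` -/
def nn (D : Finset (Fin r → ZMod 3)) (ξ : Fin r → ZMod 3) (j : ZMod 3) : ℕ :=
  (D.filter fun x => dotProduct ξ x = j).card

theorem sum_dot (D : Finset (Fin r → ZMod 3)) (ξ : Fin r → ZMod 3) (f : ZMod 3 → ℕ) :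
    ∑ x ∈ D, f (dotProduct ξ x) = ∑ j, nn D ξ j * f j := by
  classical
  rw [← Finset.sum_fiberwise_of_maps_to (s := D) (t := Finset.univ)
    (g := fun x => dotProduct ξ x) (fun x _ => Finset.mem_univ _)]
  refine Finset.sum_congr rfl fun j _ => ?_
  rw [nn, Finset.card_eq_sum_ones, Finset.sum_mul]
  refine Finset.sum_congr rfl fun x hx => ?_
  rw [(Finset.mem_filter.1 hx).2, one_mul]

theorem sum3 (f : ZMod 3 → ℕ) : ∑ j, f j = f 0 + f 1 + f 2 := Fin.sum_univ_three f

theorem nn_sum (D : Finset (Fin r → ZMod 3)) (ξ : Fin r → ZMod 3) :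
    nn D ξ 0 + nn D ξ 1 + nn D ξ 2 = D.card := by
  have h := sum_dot D ξ (fun _ => 1)
  rw [sum3] at h
  simpa using h.symm

theorem exists_dot {v : Fin r → ZMod 3} (hv : v ≠ 0) : ∃ η : Fin r → ZMod 3, dotProduct η v = 1 := by
  obtain ⟨i, hi⟩ := Function.ne_iff.1 hv
  refine ⟨Pi.single i (v i)⁻¹, ?_⟩
  rw [single_dotProduct]
  exact inv_mul_cancel₀ hi

/-- the number of functionals vanishing at `v` -/
def zc (r : ℕ) (v : Fin r → ZMod 3) : ℕ :=
  (Finset.univ.filter fun ξ : Fin r → ZMod 3 => dotProduct ξ v = 0).card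

theorem zc_zero : zc r 0 = 3 ^ r := by
  unfold zc
  rw [Finset.filter_true_of_mem (by intro x _; simp)]
  simp [ZMod.card]

theorem zc_ne {v : Fin r → ZMod 3} (hv : v ≠ 0) : 3 * zc r v = 3 ^ r := by
  classical
  obtain ⟨η, hη⟩ := exists_dot hv
  have h1 : (Finset.univ : Finset (Fin r → ZMod 3)).card =
      ∑ j : ZMod 3, (Finset.univ.filter fun ξ : Fin r → ZMod 3 => dotProduct ξ v = j).card :=
    Finset.card_eq_sum_card_fiberwise (fun x _ => Finset.mem_univ _)
  have h2 : ∀ j : ZMod 3,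
      (Finset.univ.filter fun ξ : Fin r → ZMod 3 => dotProduct ξ v = j).card = zc r v := by
    intro j
    unfold zc
    refine Finset.card_bij' (fun ξ _ => ξ - j • η) (fun ξ _ => ξ + j • η) ?_ ?_ ?_ ?_
    · intro ξ hξ
      simp only [Finset.mem_filter, Finset.mem_univ, true_and] at hξ ⊢
      rw [sub_dotProduct, hξ, smul_dotProduct, hη]
      simp
    · intro ξ hξ
      simp only [Finset.mem_filter, Finset.mem_univ, true_and] at hξ ⊢
      rw [add_dotProduct, hξ, smul_dotProduct, hη]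
      simp
    · intro ξ _; simp
    · intro ξ _; simp
  rw [Finset.sum_congr rfl fun j _ => h2 j] at h1
  simp only [Finset.card_univ, Fintype.card_pi, ZMod.card, Finset.prod_const, Finset.sum_const,
    Fintype.card_fin, smul_eq_mul] at h1
  omega

/-- sum of the squares of the parts -/
def S2 (D : Finset (Fin r → ZMod 3)) (ξ : Fin r → ZMod 3) : ℕ :=
  nn D ξ 0 ^ 2 + nn D ξ 1 ^ 2 + nn D ξ 2 ^ 2

/-- number of triples with sum on the hyperplane -/
def S3 (D : Finset (Fin r → ZMod 3)) (ξ : Fin r → ZMod 3) : ℕ :=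
  nn D ξ 0 ^ 3 + nn D ξ 1 ^ 3 + nn D ξ 2 ^ 3 + 6 * (nn D ξ 0 * nn D ξ 1 * nn D ξ 2)

theorem S2_eq (D : Finset (Fin r → ZMod 3)) (ξ : Fin r → ZMod 3) :
    S2 D ξ = ∑ x ∈ D, ∑ y ∈ D, if dotProduct ξ (x - y) = 0 then 1 else 0 := by
  have h1 : ∀ x ∈ D, (∑ y ∈ D, if dotProduct ξ (x - y) = 0 then 1 else 0) =
      nn D ξ (dotProduct ξ x) := by
    intro x _
    rw [nn, Finset.card_filter]
    refine Finset.sum_congr rfl fun y _ => ?_
    refine if_congr ?_ rfl rfl
    rw [dotProduct_sub, sub_eq_zero, eq_comm]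
  rw [Finset.sum_congr rfl h1, sum_dot D ξ (fun j => nn D ξ j), sum3]
  unfold S2
  ring

theorem S3_eq (D : Finset (Fin r → ZMod 3)) (ξ : Fin r → ZMod 3) :
    S3 D ξ = ∑ x ∈ D, ∑ y ∈ D, ∑ z ∈ D, if dotProduct ξ (x + y + z) = 0 then 1 else 0 := by
  have h1 : ∀ x ∈ D, (∑ y ∈ D, ∑ z ∈ D, if dotProduct ξ (x + y + z) = 0 then 1 else 0) =
      ∑ j, nn D ξ j * nn D ξ (-(dotProduct ξ x) - j) := by
    intro x _
    rw [← sum_dot D ξ (fun j => nn D ξ (-(dotProduct ξ x) - j))]
    refine Finset.sum_congr rfl fun y _ => ?_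
    rw [nn, Finset.card_filter]
    refine Finset.sum_congr rfl fun z _ => ?_
    rw [dotProduct_add, dotProduct_add]
    have : dotProduct ξ x + dotProduct ξ y + dotProduct ξ z = 0 ↔
        dotProduct ξ z = -dotProduct ξ x - dotProduct ξ y := by
      constructor
      · intro h; linear_combination h
      · intro h; linear_combination h
    simp only [this]
  rw [Finset.sum_congr rfl h1,
    sum_dot D ξ (fun i => ∑ j, nn D ξ j * nn D ξ (-i - j)), sum3]
  simp only [sum3]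
  have e00 : (-(0 : ZMod 3) - 0) = 0 := by decide
  have e01 : (-(0 : ZMod 3) - 1) = 2 := by decide
  have e02 : (-(0 : ZMod 3) - 2) = 1 := by decide
  have e10 : (-(1 : ZMod 3) - 0) = 2 := by decide
  have e11 : (-(1 : ZMod 3) - 1) = 1 := by decide
  have e12 : (-(1 : ZMod 3) - 2) = 0 := by decide
  have e20 : (-(2 : ZMod 3) - 0) = 1 := by decide
  have e21 : (-(2 : ZMod 3) - 1) = 0 := by decide
  have e22 : (-(2 : ZMod 3) - 2) = 2 := by decide
  rw [e00, e01, e02, e10, e11, e12, e20, e21, e22]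
  unfold S3
  ring

/-- the second moment identity -/
theorem sumS2 (D : Finset (Fin r → ZMod 3)) :
    3 * ∑ ξ, S2 D ξ = 3 ^ r * (D.card ^ 2 + 2 * D.card) := by
  classical
  have h1 : ∑ ξ, S2 D ξ = ∑ x ∈ D, ∑ y ∈ D, zc r (x - y) := by
    rw [Finset.sum_congr rfl fun ξ _ => S2_eq D ξ, Finset.sum_comm]
    refine Finset.sum_congr rfl fun x _ => ?_
    rw [Finset.sum_comm]
    refine Finset.sum_congr rfl fun y _ => ?_
    rw [zc, Finset.card_filter]
  have h2 : ∀ x ∈ D, 3 * ∑ y ∈ D, zc r (x - y) = 3 ^ r * (D.card + 2) := by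
    intro x hx
    rw [Finset.mul_sum, ← Finset.add_sum_erase _ _ hx, sub_self, zc_zero]
    have : ∀ y ∈ D.erase x, 3 * zc r (x - y) = 3 ^ r := by
      intro y hy
      exact zc_ne (sub_ne_zero.2 (Finset.ne_of_mem_erase hy).symm)
    rw [Finset.sum_congr rfl this, Finset.sum_const, Finset.card_erase_of_mem hx, smul_eq_mul]
    have : 1 ≤ D.card := Finset.card_pos.2 ⟨x, hx⟩
    obtain ⟨c, hc⟩ : ∃ c, D.card = c + 1 := ⟨D.card - 1, by omega⟩
    rw [hc]
    simp
    ring
  rw [h1, Finset.mul_sum, Finset.sum_congr rfl h2, Finset.sum_const, smul_eq_mul]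
  ring

/-- the third moment identity, for caps -/
theorem sumS3 {D : Finset (Fin r → ZMod 3)} (hD : IsCap D) :
    3 * ∑ ξ, S3 D ξ = 3 ^ r * (D.card ^ 3 + 2 * D.card) := by
  classical
  have h1 : ∑ ξ, S3 D ξ = ∑ x ∈ D, ∑ y ∈ D, ∑ z ∈ D, zc r (x + y + z) := by
    rw [Finset.sum_congr rfl fun ξ _ => S3_eq D ξ, Finset.sum_comm]
    refine Finset.sum_congr rfl fun x _ => ?_
    rw [Finset.sum_comm]
    refine Finset.sum_congr rfl fun y _ => ?_
    rw [Finset.sum_comm]
    refine Finset.sum_congr rfl fun z _ => ?_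
    rw [zc, Finset.card_filter]
  have h3 : ∀ v : Fin r → ZMod 3, 3 * zc r v = 3 ^ r + if v = 0 then 2 * 3 ^ r else 0 := by
    intro v
    by_cases hv : v = 0
    · rw [if_pos hv, hv, zc_zero]; ring
    · rw [if_neg hv, zc_ne hv, add_zero]
  have hx3 : ∀ x : Fin r → ZMod 3, x + x + x = 0 := by
    intro x
    funext i
    have : ∀ a : ZMod 3, a + a + a = 0 := by decide
    exact this (x i)
  have h4 : ∀ x ∈ D, (∑ y ∈ D, ∑ z ∈ D, if x + y + z = 0 then 2 * 3 ^ r else 0) = 2 * 3 ^ r := by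
    intro x hx
    rw [Finset.sum_eq_single x, Finset.sum_eq_single x, if_pos (hx3 x)]
    · intro z hz hzx
      rw [if_neg]
      intro h
      apply hzx
      have h5 : z = -(x + x) := by rw [← add_eq_zero_iff_eq_neg']; rw [h]
      have h6 : x = -(x + x) := by rw [← add_eq_zero_iff_eq_neg']; rw [hx3 x]
      rw [h5, ← h6]
    · intro h; exact absurd hx h
    · intro y hy hyx
      refine Finset.sum_eq_zero fun z hz => ?_
      rw [if_neg]
      intro h
      exact hyx (hD x hx y hy z hz h).symm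
    · intro h; exact absurd hx h
  rw [h1, Finset.mul_sum]
  have h5 : ∀ x ∈ D, 3 * ∑ y ∈ D, ∑ z ∈ D, zc r (x + y + z) =
      3 ^ r * (D.card ^ 2 + 2) := by
    intro x hx
    rw [Finset.mul_sum]
    have : ∀ y ∈ D, 3 * ∑ z ∈ D, zc r (x + y + z) =
        (∑ z ∈ D, 3 ^ r) + ∑ z ∈ D, if x + y + z = 0 then 2 * 3 ^ r else 0 := by
      intro y _
      rw [Finset.mul_sum, ← Finset.sum_add_distrib]
      exact Finset.sum_congr rfl fun z _ => h3 _
    rw [Finset.sum_congr rfl this, Finset.sum_add_distrib, h4 x hx]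
    simp only [Finset.sum_const, smul_eq_mul]
    ring
  rw [Finset.sum_congr rfl h5, Finset.sum_const, smul_eq_mul]
  ring

end Pool.Agent.T2H98.EGZ
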