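import Pool.Agent.T2H98.EGZ.Defs

/-!
# T-values of lifts (definitions for part C)

For a lift `v` of `D45` and a list `L` of codes of points of `D45` (repetitions allowed) whose points
sum to `0` in `F_3^5`, the sum of the lifted points is `3 * T` with `T = TT (uu v) L`.
-/

set_option autoImplicit false

namespace Pool.Agent.T2H98.EGZ

/-- `k`-th base 3 digit of a code -/
def dg (c k : ℕ) : ℕ := c / 3 ^ k % 3

/-- sum of the `k`-th digits of a list of codes -/
def dsum (L : List ℕ) (k : ℕ) : ℕ := (L.map fun c => dg c k).sum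

/-- carry of a list of codes -/
def carry (L : List ℕ) : Fin 5 → ZMod 3 := fun k => ((dsum L k / 3 : ℕ) : ZMod 3)

/-- second 3-adic digit of the lifted point of code `c` -/
def uu (v : (Fin 5 → ZMod 3) → (Fin 5 → ZMod 9)) (c : ℕ) : Fin 5 → ZMod 3 :=
  fun k => (((v (pt 5 c) k).val / 3 : ℕ) : ZMod 3)

/-- T-value of a list of codes -/
def TT (u : ℕ → Fin 5 → ZMod 3) (L : List ℕ) : Fin 5 → ZMod 3 := carry L + (L.map u).sum

/-- `L` is a list of codes of points of the cap whose points sum to `0`, not all equal -/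
structure Zs (L : List ℕ) : Prop where
  mem : ∀ c ∈ L, c ∈ codes45
  ne : ∃ a ∈ L, ∃ b ∈ L, a ≠ b
  dvd : ∀ k < 5, 3 ∣ dsum L k

/-- the value `x` is excluded for the T-value of `L` -/
def Excl (L : List ℕ) (x : Fin 5 → ZMod 3) : Prop := ∀ v, IsLift D45 v → TT (uu v) L ≠ x

end Pool.Agent.T2H98.EGZ
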