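import Pool.Agent.T2H98.EGZ.LiftDefs

/-!
# Facts on the T-values of lifts of the 45-cap (part C, package C1)
-/

set_option autoImplicit false

namespace Pool.Agent.T2H98.EGZ

variable {v : (Fin 5 → ZMod 3) → (Fin 5 → ZMod 9)}

/-! ## scalars -/

/-- the additive map `z ↦ 3 z` -/
def tau (z : ZMod 3) : ZMod 9 := 3 * (z.val : ZMod 9)

/-- the lift of a residue mod 3 to a residue mod 9 -/
def hat (z : ZMod 3) : ZMod 9 := (z.val : ZMod 9)

theorem tau_zero : tau 0 = 0 := by decide

theorem tau_add : ∀ a b : ZMod 3, tau (a + b) = tau a + tau b := by decide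

theorem tau_inj : ∀ a b : ZMod 3, tau a = tau b → a = b := by decide

theorem red9_tau : ∀ a : ZMod 3, red9 (tau a) = 0 := by decide

theorem red9_hat : ∀ a : ZMod 3, red9 (hat a) = a := by decide

theorem hat_mul_tau : ∀ a b : ZMod 3, hat a * tau b = tau (a * b) := by decide

theorem three_mul_tau : ∀ a : ZMod 3, 3 * tau a = 0 := by decide

theorem eq_tau : ∀ w : ZMod 9, red9 w = 0 → w = tau ((w.val / 3 : ℕ) : ZMod 3) := by decide

theorem six_hat : ∀ a : ZMod 3, 6 * hat a = tau (2 * a) := by decide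

theorem split9 : ∀ w : ZMod 9,
    w = hat (red9 w) + tau ((w.val / 3 : ℕ) : ZMod 3) := by decide

theorem digit_add : ∀ (w : ZMod 9) (z : ZMod 3),
    (((w + tau z).val / 3 : ℕ) : ZMod 3) = ((w.val / 3 : ℕ) : ZMod 3) + z := by decide

theorem nine_eq : (9 : ZMod 9) = 0 := by decide

/-- `tau` as an additive homomorphism -/
def tauHom : ZMod 3 →+ ZMod 9 where
  toFun := tau
  map_zero' := tau_zero
  map_add' := tau_add

theorem tauHom_apply (z : ZMod 3) : tauHom z = tau z := rfl

theorem tau_natCast (n : ℕ) : tau (n : ZMod 3) = 3 * (n : ZMod 9) := by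
  induction n with
  | zero => simp [tau_zero]
  | succ n ih =>
    push_cast
    rw [tau_add, ih]
    have : tau 1 = 3 := by decide
    rw [this]; ring

theorem tau_sum {ι : Type} (s : Finset ι) (f : ι → ZMod 3) :
    tau (∑ i ∈ s, f i) = ∑ i ∈ s, tau (f i) := by
  exact map_sum tauHom f s

theorem tau_list_sum (L : List (ZMod 3)) : tau L.sum = (L.map tau).sum := by
  exact map_list_sum tauHom L


/-! ## points and codes -/

theorem codes45_lt {c : ℕ} (hc : c ∈ codes45) : c < 243 := by
  revert c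
  decide

theorem pt_eq_dg (c : ℕ) (k : Fin 5) : pt 5 c k = (dg c k : ZMod 3) := by
  unfold pt dg
  rw [ZMod.natCast_mod]

theorem hat_dg (c k : ℕ) : hat ((dg c k : ℕ) : ZMod 3) = ((dg c k : ℕ) : ZMod 9) := by
  unfold hat
  rw [ZMod.val_natCast, Nat.mod_eq_of_lt]
  unfold dg
  exact Nat.mod_lt _ (by norm_num)

theorem pt_inj {c d : ℕ} (hc : c ∈ codes45) (hd : d ∈ codes45) (h : pt 5 c = pt 5 d) : c = d := by
  have key : ∀ k : Fin 5, dg c k = dg d k := by
    intro k
    have h1 := congrFun h k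
    rw [pt_eq_dg, pt_eq_dg, ZMod.natCast_eq_natCast_iff'] at h1
    unfold dg at *
    omega
  have hc' := codes45_lt hc
  have hd' := codes45_lt hd
  have k0 := key 0
  have k1 := key 1
  have k2 := key 2
  have k3 := key 3
  have k4 := key 4
  simp only [dg, Fin.val_zero, Fin.val_one, Fin.val_two] at k0 k1 k2 k3 k4
  have e3 : ((3 : Fin 5) : ℕ) = 3 := rfl
  have e4 : ((4 : Fin 5) : ℕ) = 4 := rfl
  rw [e3] at k3
  rw [e4] at k4
  omega

theorem mem_D45_iff {a : Fin 5 → ZMod 3} : a ∈ D45 ↔ ∃ c ∈ codes45, pt 5 c = a := by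
  unfold D45
  rw [List.mem_toFinset, List.mem_map]

theorem pt_mem_D45 {c : ℕ} (hc : c ∈ codes45) : pt 5 c ∈ D45 := mem_D45_iff.2 ⟨c, hc, rfl⟩

/-- the sum of the points of a list of codes -/
theorem sum_pt (L : List ℕ) (k : Fin 5) :
    (L.map (pt 5)).sum k = ((dsum L k : ℕ) : ZMod 3) := by
  induction L with
  | nil => simp [dsum]
  | cons c L ih =>
    have : dsum (c :: L) k = dg c k + dsum L k := by simp [dsum]
    rw [this]
    simp only [List.map_cons, List.sum_cons, Pi.add_apply, ih, pt_eq_dg]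
    push_cast
    rfl

theorem dvd_dsum_iff (L : List ℕ) (k : Fin 5) :
    3 ∣ dsum L k ↔ (L.map (pt 5)).sum k = 0 := by
  rw [sum_pt, ZMod.natCast_eq_zero_iff]

theorem Zs.sum_pt_zero {L : List ℕ} (hL : Zs L) : (L.map (pt 5)).sum = 0 := by
  funext k
  exact (dvd_dsum_iff L k).1 (hL.dvd k k.2)

/-! ## lifted points -/

theorem lift_pt (hred : ∀ a ∈ D45, ∀ k, red9 (v a k) = a k) {c : ℕ} (hc : c ∈ codes45)
    (k : Fin 5) : v (pt 5 c) k = ((dg c k : ℕ) : ZMod 9) + tau (uu v c k) := by
  have h1 := split9 (v (pt 5 c) k)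
  rw [hred _ (pt_mem_D45 hc) k, pt_eq_dg, hat_dg] at h1
  exact h1

/-- the sum of the lifted points is `3 * T` -/
theorem sum_lift (hred : ∀ a ∈ D45, ∀ k, red9 (v a k) = a k) (L : List ℕ)
    (hmem : ∀ c ∈ L, c ∈ codes45) (hdvd : ∀ k < 5, 3 ∣ dsum L k) (k : Fin 5) :
    (L.map (fun c => v (pt 5 c))).sum k = tau (TT (uu v) L k) := by
  have aux : ∀ L : List ℕ, (∀ c ∈ L, c ∈ codes45) →
      (L.map (fun c => v (pt 5 c))).sum k =
        ((dsum L k : ℕ) : ZMod 9) + tau ((L.map (uu v)).sum k) := by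
    intro L
    induction L with
    | nil => intro _; simp [dsum, tau_zero]
    | cons c L ih =>
      intro hm
      have : dsum (c :: L) k = dg c k + dsum L k := by simp [dsum]
      rw [this]
      simp only [List.map_cons, List.sum_cons, Pi.add_apply]
      rw [ih (fun d hd => hm d (List.mem_cons_of_mem _ hd)),
        lift_pt hred (hm c List.mem_cons_self) k, tau_add]
      push_cast
      ring
  rw [aux L hmem]
  unfold TT carry
  rw [Pi.add_apply, tau_add, tau_natCast]
  obtain ⟨m, hm⟩ := hdvd k k.2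
  rw [hm, Nat.mul_div_cancel_left _ (by norm_num)]
  push_cast
  rfl

theorem zs_list {D : Finset (Fin 5 → ZMod 3)} (hv : IsLift D v) (M : List (Fin 5 → ZMod 3))
    (hM : ∀ a ∈ M, a ∈ D) (hlen : M.length = 9) (hsum : (M.map v).sum = 0) :
    ∃ a, ∀ b ∈ M, a = b := by
  classical
  obtain ⟨a, ha⟩ := hv.zs (fun a => M.count a) (fun a ha => List.count_eq_zero.2
    (fun h => ha (hM a h))) (by
      have := Multiset.sum_count_eq_card (s := (Finset.univ : Finset (Fin 5 → ZMod 3)))
        (m := (M : Multiset (Fin 5 → ZMod 3))) (fun a _ => Finset.mem_univ a)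
      simpa [hlen] using this) (by
      rw [← hsum, Finset.sum_list_map_count]
      symm
      apply Finset.sum_subset (Finset.subset_univ _)
      intro x _ hx
      rw [List.mem_toFinset] at hx
      rw [List.count_eq_zero.2 hx, zero_smul])
  refine ⟨a, ?_⟩
  have h2 : M.count a = M.length := by rw [ha, hlen]
  exact List.count_eq_length.1 h2

/-- constraints of size 6 -/
theorem TT_ne6 (hv : IsLift D45 v) (L : List ℕ) (hL : Zs L) (h6 : L.length = 6) (d : ℕ)
    (hd : d ∈ codes45) : TT (uu v) L + pt 5 d ≠ 0 := by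
  intro h0
  have hs : ((L.map (pt 5) ++ [pt 5 d, pt 5 d, pt 5 d]).map v).sum = 0 := by
    funext k
    have h1 := sum_lift hv.red L hL.mem hL.dvd k
    have h2 := lift_pt hv.red hd k
    have h3 := congrFun h0 k
    simp only [Pi.add_apply, Pi.zero_apply] at h3
    rw [List.map_append, List.sum_append, List.map_map]
    have e1 : (v ∘ pt 5) = fun c => v (pt 5 c) := rfl
    rw [e1, Pi.add_apply, h1]
    simp only [List.map_cons, List.map_nil, List.sum_cons, List.sum_nil, Pi.add_apply,
      Pi.zero_apply, add_zero]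
    have e2 : v (pt 5 d) k + (v (pt 5 d) k + v (pt 5 d) k) = tau (pt 5 d k) := by
      rw [h2, pt_eq_dg, tau_natCast]
      have := three_mul_tau (uu v d k)
      linear_combination this
    rw [e2, ← tau_add, h3, tau_zero]
  obtain ⟨a, ha⟩ := zs_list hv _ (by
    intro a ha
    rw [List.mem_append] at ha
    rcases ha with ha | ha
    · obtain ⟨c, hc, rfl⟩ := List.mem_map.1 ha
      exact pt_mem_D45 (hL.mem c hc)
    · simp only [List.mem_cons, List.not_mem_nil, or_false, or_self] at ha
      rw [ha]; exact pt_mem_D45 hd) (by simp [h6]) hs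
  obtain ⟨c, hc, c', hc', hne⟩ := hL.ne
  apply hne
  apply pt_inj (hL.mem c hc) (hL.mem c' hc')
  rw [← ha (pt 5 c) (List.mem_append_left _ (List.mem_map_of_mem hc)),
    ← ha (pt 5 c') (List.mem_append_left _ (List.mem_map_of_mem hc'))]

/-- constraints of size 9 -/
theorem TT_ne9 (hv : IsLift D45 v) (L : List ℕ) (hL : Zs L) (h9 : L.length = 9) :
    TT (uu v) L ≠ 0 := by
  intro h0
  have hs : ((L.map (pt 5)).map v).sum = 0 := by
    funext k
    have h1 := sum_lift hv.red L hL.mem hL.dvd k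
    rw [List.map_map]
    have e1 : (v ∘ pt 5) = fun c => v (pt 5 c) := rfl
    rw [e1, h1, h0, Pi.zero_apply, tau_zero, Pi.zero_apply]
  obtain ⟨a, ha⟩ := zs_list hv _ (by
    intro a ha
    obtain ⟨c, hc, rfl⟩ := List.mem_map.1 ha
    exact pt_mem_D45 (hL.mem c hc)) (by simp [h9]) hs
  obtain ⟨c, hc, c', hc', hne⟩ := hL.ne
  apply hne
  apply pt_inj (hL.mem c hc) (hL.mem c' hc')
  rw [← ha (pt 5 c) (List.mem_map_of_mem hc), ← ha (pt 5 c') (List.mem_map_of_mem hc')]

/-! ## changing the lift -/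

/-- changing the second digits by an affine map -/
def gau (B : Matrix (Fin 5) (Fin 5) (ZMod 3)) (c : Fin 5 → ZMod 3)
    (v : (Fin 5 → ZMod 3) → (Fin 5 → ZMod 9)) : (Fin 5 → ZMod 3) → (Fin 5 → ZMod 9) :=
  fun x k => v x k + tau ((B.mulVec x + c) k)

theorem smul_tau (n : ℕ) (z : ZMod 3) : n • tau z = tau (n • z) := by
  have := map_nsmul tauHom n z
  exact this.symm

theorem sum_smul_apply {n : ℕ} {R : Type} [AddCommMonoid R] (α : (Fin 5 → ZMod 3) → ℕ)
    (f : (Fin 5 → ZMod 3) → (Fin n → R)) (k : Fin n) :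
    (∑ a, α a • f a) k = ∑ a, α a • f a k := by
  rw [Finset.sum_apply]
  rfl

theorem mulVec_sum_smul {R : Type} [CommRing R] (B : Matrix (Fin 5) (Fin 5) R)
    (α : (Fin 5 → ZMod 3) → ℕ) (f : (Fin 5 → ZMod 3) → (Fin 5 → R)) :
    B.mulVec (∑ a, α a • f a) = ∑ a, α a • B.mulVec (f a) := by
  have h := map_sum (Matrix.mulVecLin B) (fun a => α a • f a) Finset.univ
  simp only [map_nsmul, Matrix.mulVecLin_apply] at h
  exact h

theorem isLift_gau (hv : IsLift D45 v) (B : Matrix (Fin 5) (Fin 5) (ZMod 3))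
    (c : Fin 5 → ZMod 3) : IsLift D45 (gau B c v) := by
  constructor
  · intro a ha k
    unfold gau
    rw [map_add, red9_tau, add_zero]
    exact hv.red a ha k
  · intro α hα hs h0
    apply hv.zs α hα hs
    have hred : ∑ a, α a • a = (0 : Fin 5 → ZMod 3) := by
      funext k
      have h1 := congrArg red9 (congrFun h0 k)
      rw [sum_smul_apply, map_sum] at h1
      simp only [Pi.zero_apply, map_zero] at h1
      rw [sum_smul_apply α (fun a => a), Pi.zero_apply, ← h1]
      apply Finset.sum_congr rfl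
      intro a _
      by_cases ha : a ∈ D45
      · rw [map_nsmul]
        unfold gau
        rw [map_add, red9_tau, add_zero, hv.red a ha k]
      · rw [hα a ha, zero_smul, zero_smul, map_zero]
    funext k
    have h1 := congrFun h0 k
    rw [sum_smul_apply] at h1 ⊢
    have h2 : ∑ a, α a • gau B c v a k =
        ∑ a, α a • v a k + tau ((∑ a, α a • (B.mulVec a + c)) k) := by
      rw [sum_smul_apply α (fun a => B.mulVec a + c), tau_sum, ← Finset.sum_add_distrib]
      apply Finset.sum_congr rfl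
      intro a _
      unfold gau
      rw [smul_add, smul_tau]
    have h3 : ∑ a, α a • (B.mulVec a + c) = 0 := by
      have e1 : ∑ a, α a • (B.mulVec a + c) =
          B.mulVec (∑ a, α a • a) + (∑ a, α a) • c := by
        rw [mulVec_sum_smul, Finset.sum_smul, ← Finset.sum_add_distrib]
        apply Finset.sum_congr rfl
        intro a _
        rw [smul_add]
      rw [e1, hred, hs, Matrix.mulVec_zero, zero_add]
      funext j
      have : ∀ z : ZMod 3, 9 • z = 0 := by decide
      exact this (c j)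
    rw [h2, h3, Pi.zero_apply, tau_zero, add_zero] at h1
    exact h1

theorem uu_gau (B : Matrix (Fin 5) (Fin 5) (ZMod 3)) (c : Fin 5 → ZMod 3) (n : ℕ) :
    uu (gau B c v) n = uu v n + (B.mulVec (pt 5 n) + c) := by
  funext k
  unfold uu gau
  rw [digit_add]
  rfl

/-- gauge fixing: the second digits can be made `0` at the six points `b 0, ..., b 5` of an affine
basis, without changing the T-values -/
theorem gauge (hv : IsLift D45 v) (b : Fin 6 → ℕ) (hb : ∀ i, b i ∈ codes45)
    (N : Matrix (Fin 5) (Fin 5) (ZMod 3))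
    (hN : N * Matrix.of (fun k j => pt 5 (b (Fin.succ j)) k - pt 5 (b 0) k) = 1) :
    ∃ v', IsLift D45 v' ∧ (∀ i, uu v' (b i) = 0) ∧
      ∀ L : List ℕ, Zs L → L.length % 3 = 0 → TT (uu v') L = TT (uu v) L := by
  set M : Matrix (Fin 5) (Fin 5) (ZMod 3) :=
    Matrix.of (fun k j => pt 5 (b (Fin.succ j)) k - pt 5 (b 0) k) with hM
  set U : Matrix (Fin 5) (Fin 5) (ZMod 3) :=
    Matrix.of (fun k j => uu v (b (Fin.succ j)) k - uu v (b 0) k) with hU
  set B : Matrix (Fin 5) (Fin 5) (ZMod 3) := -(U * N) with hB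
  set c : Fin 5 → ZMod 3 := -(uu v (b 0)) - B.mulVec (pt 5 (b 0)) with hc
  have hBM : B * M = -U := by
    rw [hB, Matrix.neg_mul, Matrix.mul_assoc, hN, Matrix.mul_one]
  refine ⟨gau B c v, isLift_gau hv B c, ?_, ?_⟩
  · intro i
    rw [uu_gau]
    refine Fin.cases ?_ ?_ i
    · rw [hc]; abel
    · intro j
      have h1 : B.mulVec (pt 5 (b (Fin.succ j)) - pt 5 (b 0)) =
          -(uu v (b (Fin.succ j)) - uu v (b 0)) := by
        funext k
        have h2 := congrFun (congrFun hBM k) j
        rw [Matrix.mul_apply] at h2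
        have h3 : B.mulVec (pt 5 (b (Fin.succ j)) - pt 5 (b 0)) k =
            ∑ l, B k l * M l j := rfl
        rw [h3, h2]
        rfl
      rw [Matrix.mulVec_sub, neg_sub] at h1
      rw [hc]
      have h4 : B.mulVec (pt 5 (b (Fin.succ j))) =
          B.mulVec (pt 5 (b 0)) + (uu v (b 0) - uu v (b (Fin.succ j))) := by
        rw [← h1]; abel
      rw [h4]; abel
  · intro L hL h3
    unfold TT
    congr 1
    have e : ∀ L : List ℕ, (L.map (uu (gau B c v))).sum =
        (L.map (uu v)).sum + (B.mulVec ((L.map (pt 5)).sum) + L.length • c) := by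
      intro L
      induction L with
      | nil => simp
      | cons n L ih =>
        simp only [List.map_cons, List.sum_cons, List.length_cons]
        rw [ih, uu_gau, Matrix.mulVec_add, succ_nsmul]
        abel
    rw [e, hL.sum_pt_zero, Matrix.mulVec_zero, zero_add]
    obtain ⟨m, hm⟩ := Nat.dvd_of_mod_eq_zero h3
    rw [hm, mul_nsmul']
    have : ∀ z : ZMod 3, 3 • z = 0 := by decide
    have h5 : 3 • c = 0 := by
      funext j
      exact this (c j)
    rw [← mul_nsmul', mul_comm, mul_nsmul', h5, nsmul_zero, add_zero]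

/-! ## transfer by an affine automorphism of the cap -/

/-- entrywise lift of a matrix -/
def mhat (A : Matrix (Fin 5) (Fin 5) (ZMod 3)) : Matrix (Fin 5) (Fin 5) (ZMod 9) :=
  Matrix.of fun i j => hat (A i j)

/-- entrywise lift of a vector -/
def vhat (t : Fin 5 → ZMod 3) : Fin 5 → ZMod 9 := fun i => hat (t i)

/-- the conjugated lift -/
def conjLift (A A' : Matrix (Fin 5) (Fin 5) (ZMod 3)) (t : Fin 5 → ZMod 3)
    (v : (Fin 5 → ZMod 3) → (Fin 5 → ZMod 9)) : (Fin 5 → ZMod 3) → (Fin 5 → ZMod 9) :=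
  fun y => (mhat A').mulVec (v (A.mulVec y + t) - vhat t)

theorem red9_mhat_mulVec (A : Matrix (Fin 5) (Fin 5) (ZMod 3)) (w : Fin 5 → ZMod 9) (k : Fin 5) :
    red9 ((mhat A).mulVec w k) = A.mulVec (fun j => red9 (w j)) k := by
  have h1 : (mhat A).mulVec w k = ∑ j, hat (A k j) * w j := rfl
  have h2 : A.mulVec (fun j => red9 (w j)) k = ∑ j, A k j * red9 (w j) := rfl
  rw [h1, h2, map_sum]
  apply Finset.sum_congr rfl
  intro j _
  rw [map_mul, red9_hat]

theorem mhat_mulVec_tau (A : Matrix (Fin 5) (Fin 5) (ZMod 3)) (z : Fin 5 → ZMod 3) :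
    (mhat A).mulVec (fun j => tau (z j)) = fun k => tau (A.mulVec z k) := by
  funext k
  have h1 : (mhat A).mulVec (fun j => tau (z j)) k = ∑ j, hat (A k j) * tau (z j) := rfl
  have h2 : A.mulVec z k = ∑ j, A k j * z j := rfl
  rw [h1, h2, tau_sum]
  apply Finset.sum_congr rfl
  intro j _
  rw [hat_mul_tau]

theorem mhat_inj (A A' : Matrix (Fin 5) (Fin 5) (ZMod 3)) (h1 : A * A' = 1)
    (W : Fin 5 → ZMod 9) (hW : (mhat A').mulVec W = 0) : W = 0 := by
  have inj : ∀ z : Fin 5 → ZMod 3, A'.mulVec z = 0 → z = 0 := by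
    intro z hz
    have : A.mulVec (A'.mulVec z) = z := by
      rw [Matrix.mulVec_mulVec, h1, Matrix.one_mulVec]
    rw [← this, hz, Matrix.mulVec_zero]
  have hr : (fun j => red9 (W j)) = (0 : Fin 5 → ZMod 3) := by
    apply inj
    funext k
    rw [← red9_mhat_mulVec, hW, Pi.zero_apply, map_zero, Pi.zero_apply]
  have hW2 : W = fun j => tau (((W j).val / 3 : ℕ) : ZMod 3) := by
    funext j
    exact eq_tau _ (congrFun hr j)
  have hz : (fun j => (((W j).val / 3 : ℕ) : ZMod 3)) = (0 : Fin 5 → ZMod 3) := by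
    apply inj
    rw [hW2, mhat_mulVec_tau] at hW
    funext k
    apply tau_inj
    rw [Pi.zero_apply, tau_zero]
    exact congrFun hW k
  rw [hW2]
  funext j
  have := congrFun hz j
  simp only [Pi.zero_apply] at this
  rw [this, tau_zero, Pi.zero_apply]

theorem sum_conj (A A' : Matrix (Fin 5) (Fin 5) (ZMod 3)) (t : Fin 5 → ZMod 3)
    (α : (Fin 5 → ZMod 3) → ℕ) :
    ∑ a, α a • conjLift A A' t v a =
      (mhat A').mulVec (∑ a, α a • v (A.mulVec a + t) - (∑ a, α a) • vhat t) := by
  rw [Matrix.mulVec_sub, mulVec_sum_smul (mhat A') α (fun a => v (A.mulVec a + t)),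
    Finset.sum_smul]
  have h := mulVec_sum_smul (mhat A') α (fun _ => vhat t)
  rw [h, ← Finset.sum_sub_distrib]
  apply Finset.sum_congr rfl
  intro a _
  unfold conjLift
  rw [Matrix.mulVec_sub, smul_sub]

theorem nine_smul (w : Fin 5 → ZMod 9) : 9 • w = 0 := by
  have : ∀ z : ZMod 9, 9 • z = 0 := by decide
  funext j
  exact this (w j)

theorem isLift_conj (hv : IsLift D45 v) (A A' : Matrix (Fin 5) (Fin 5) (ZMod 3))
    (t : Fin 5 → ZMod 3) (h1 : A * A' = 1) (h2 : A' * A = 1)
    (hD : ∀ a ∈ D45, A.mulVec a + t ∈ D45) : IsLift D45 (conjLift A A' t v) := by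
  have hAA : ∀ x, A.mulVec (A'.mulVec x) = x := by
    intro x
    rw [Matrix.mulVec_mulVec, h1, Matrix.one_mulVec]
  have hAA' : ∀ x, A'.mulVec (A.mulVec x) = x := by
    intro x
    rw [Matrix.mulVec_mulVec, h2, Matrix.one_mulVec]
  constructor
  · intro a ha k
    unfold conjLift
    rw [red9_mhat_mulVec]
    have e : (fun j => red9 ((v (A.mulVec a + t) - vhat t) j)) = A.mulVec a := by
      funext j
      rw [Pi.sub_apply, map_sub, hv.red _ (hD a ha) j]
      unfold vhat
      rw [red9_hat, Pi.add_apply, add_sub_cancel_right]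
    rw [e, hAA']
  · intro α hα hs h0
    rw [sum_conj, hs, nine_smul, sub_zero] at h0
    have h3 := mhat_inj A A' h1 _ h0
    let e : (Fin 5 → ZMod 3) ≃ (Fin 5 → ZMod 3) :=
      { toFun := fun y => A'.mulVec (y - t)
        invFun := fun a => A.mulVec a + t
        left_inv := by intro y; simp only [hAA, sub_add_cancel]
        right_inv := by intro a; simp only [add_sub_cancel_right, hAA'] }
    obtain ⟨y, hy⟩ := hv.zs (fun y => α (e y)) (by
      intro y hy
      apply hα
      intro hmem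
      apply hy
      have := hD _ hmem
      have e2 : A.mulVec (e y) + t = y := e.left_inv y
      rwa [e2] at this) (by
      rw [← hs]
      exact Equiv.sum_comp e α) (by
      rw [← h3]
      have e3 : ∀ y, v y = v (A.mulVec (e y) + t) := by
        intro y
        have e2 : A.mulVec (e y) + t = y := e.left_inv y
        rw [e2]
      rw [← Equiv.sum_comp e (fun a => α a • v (A.mulVec a + t))]
      apply Finset.sum_congr rfl
      intro y _
      rw [← e3])
    exact ⟨e y, hy⟩

/-- transfer of excluded values by an affine automorphism `x ↦ A x + t` of the cap -/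
theorem Excl.transfer {L : List ℕ} (hL : Zs L) (h6 : L.length = 6) {x : Fin 5 → ZMod 3}
    (h : Excl L x) (A A' : Matrix (Fin 5) (Fin 5) (ZMod 3)) (t : Fin 5 → ZMod 3)
    (h1 : A * A' = 1) (h2 : A' * A = 1) (g : ℕ → ℕ)
    (hg : ∀ c ∈ codes45, g c ∈ codes45 ∧ pt 5 (g c) = A.mulVec (pt 5 c) + t) :
    Excl (L.map g) (A.mulVec x + (2 : ZMod 3) • t) := by
  intro v hv hT
  have hAA' : ∀ x, A'.mulVec (A.mulVec x) = x := by
    intro x
    rw [Matrix.mulVec_mulVec, h2, Matrix.one_mulVec]
  have hD : ∀ a ∈ D45, A.mulVec a + t ∈ D45 := by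
    intro a ha
    obtain ⟨c, hc, rfl⟩ := mem_D45_iff.1 ha
    rw [← (hg c hc).2]
    exact pt_mem_D45 (hg c hc).1
  have hv' := isLift_conj hv A A' t h1 h2 hD
  apply h _ hv'
  -- the image list
  have hmem : ∀ c ∈ L.map g, c ∈ codes45 := by
    intro c hc
    obtain ⟨d, hd, rfl⟩ := List.mem_map.1 hc
    exact (hg d (hL.mem d hd)).1
  have hsum : ∀ L : List ℕ, (∀ c ∈ L, c ∈ codes45) →
      ((L.map g).map (pt 5)).sum = A.mulVec ((L.map (pt 5)).sum) + L.length • t := by
    intro L
    induction L with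
    | nil => intro _; simp
    | cons c L ih =>
      intro hm
      simp only [List.map_cons, List.sum_cons, List.length_cons]
      rw [ih (fun d hd => hm d (List.mem_cons_of_mem _ hd)), (hg c (hm c List.mem_cons_self)).2,
        Matrix.mulVec_add, succ_nsmul]
      abel
  have hdvd : ∀ k < 5, 3 ∣ dsum (L.map g) k := by
    intro k hk
    have h4 := (dvd_dsum_iff (L.map g) ⟨k, hk⟩).2
    apply h4
    rw [hsum L hL.mem, hL.sum_pt_zero, Matrix.mulVec_zero, zero_add, h6]
    have : ∀ z : ZMod 3, 6 • z = 0 := by decide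
    exact this (t ⟨k, hk⟩)
  funext k
  apply tau_inj
  rw [← sum_lift hv'.red L hL.mem hL.dvd k]
  have e1 : ∀ L : List ℕ, (∀ c ∈ L, c ∈ codes45) →
      (L.map (fun c => conjLift A A' t v (pt 5 c))).sum =
        (mhat A').mulVec (((L.map g).map (fun c => v (pt 5 c))).sum - L.length • vhat t) := by
    intro L
    induction L with
    | nil => intro _; simp
    | cons c L ih =>
      intro hm
      simp only [List.map_cons, List.sum_cons, List.length_cons]
      rw [ih (fun d hd => hm d (List.mem_cons_of_mem _ hd)), (hg c (hm c List.mem_cons_self)).2]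
      unfold conjLift
      rw [← Matrix.mulVec_add, succ_nsmul]
      congr 1
      abel
  rw [e1 L hL.mem, h6]
  have e2 : ((L.map g).map (fun c => v (pt 5 c))).sum - 6 • vhat t =
      fun j => tau (A.mulVec x j) := by
    funext j
    have h5 := sum_lift hv.red (L.map g) hmem hdvd j
    rw [Pi.sub_apply, h5, hT]
    have h7 : (6 • vhat t) j = tau (2 * t j) := by
      have : ∀ a : ZMod 3, 6 • hat a = tau (2 * a) := by decide
      exact this (t j)
    rw [h7, Pi.add_apply, Pi.smul_apply, smul_eq_mul, tau_add, add_sub_cancel_right]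
  rw [e2, mhat_mulVec_tau, hAA']

end Pool.Agent.T2H98.EGZ
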