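import Pool.Agent.T2H98.EGZ.Cls

/-! # One class of root values: the main theorem -/

set_option autoImplicit false

namespace Pool.Agent.T2H98.EGZ

open K

/-- the decidable part of the hypotheses on one table -/
noncomputable def tabchk (Gs : List GDat) (g4 g5 : ℕ) (cl : List (ℕ × ℕ)) (t : ℕ) (D : List PRD) :
    Bool :=
  (0 :: 1 :: 4 :: g4 :: g5 :: 6 :: t :: cl.map Prod.snd).all (fun p => decide (p < 45)) &&
  decide (0 :: 1 :: 4 :: g4 :: g5 :: 6 :: t :: cl.map Prod.snd).Nodup &&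
  D.all (rok Gs [cd 0, cd 1, cd 4, cd g4, cd g5] (cd 6) (cd t) ((cl.map Prod.snd).map cd))

theorem W1_bit (w : Fin 5 → ZMod 3) : W1.testBit (pos w) = true := by
  have key : ∀ a < 3, ∀ b < 3, ∀ c < 3, ∀ d < 3, ∀ e < 3,
      W1.testBit (a + 6 * b + 36 * c + 216 * d + 1296 * e) = true := by decide +kernel
  have h := key (w 0).val (ZMod.val_lt _) (w 1).val (ZMod.val_lt _) (w 2).val (ZMod.val_lt _)
    (w 3).val (ZMod.val_lt _) (w 4).val (ZMod.val_lt _)
  have e : pos w = (w 0).val + 6 * (w 1).val + 36 * (w 2).val + 216 * (w 3).val +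
      1296 * (w 4).val := by
    simp only [pos, Fin.sum_univ_five]
    norm_num
    ring
  rw [e]; exact h

theorem mem_outl (l : List ℕ) (pr : ℕ × ℕ) (h : pr ∈ outl l) : pr.1 ∈ l ∧ pr.2 = W1 := by
  induction l with
  | nil => exact absurd h (by intro h; cases h)
  | cons a l ih =>
    have h' : pr ∈ (a, W1) :: outl l := h
    rcases List.mem_cons.1 h' with rfl | h'
    · exact ⟨List.mem_cons_self, rfl⟩
    · exact ⟨List.mem_cons_of_mem _ (ih h').1, (ih h').2⟩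

theorem orl_bit (l : List ℕ) (i : ℕ) (h : (orl l).testBit i = true) : ∃ M ∈ l, M.testBit i = true := by
  induction l with
  | nil =>
    have h' : (0 : ℕ).testBit i = true := h
    simp at h'
  | cons a l ih =>
    have h' : (a ||| orl l).testBit i = true := h
    rw [Nat.testBit_lor, Bool.or_eq_true] at h'
    rcases h' with h' | h'
    · exact ⟨a, List.mem_cons_self, h'⟩
    · obtain ⟨M, hM, hb⟩ := ih h'
      exact ⟨M, List.mem_cons_of_mem _ hM, hb⟩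

theorem class_main (Gs : List GDat) (hGs : ∀ G ∈ Gs, GOK G) (done : List ℕ)
    (hdone : ∀ x ∈ done, Excl L0 (pt 5 x)) (t0 y0 : ℕ)
    (hy0 : pt 5 y0 = (2 : ZMod 3) • (pt 5 t0 - carry L0)) (Y0 l0 : ℕ) (hY0 : Y0 = yfn (pt 5 y0))
    (hl0 : l0 = pos (pt 5 y0)) (g4 g5 g6 : ℕ) (nn : Fin 5 → ℕ)
    (hg : g4 < 45 ∧ g5 < 45 ∧ g6 < 45)
    (hN : gmat nn * Matrix.of (fun k j => pt 5 (![cd 0, cd 1, cd 4, cd g4, cd g5, cd g6]
      (Fin.succ j)) k - pt 5 (![cd 0, cd 1, cd 4, cd g4, cd g5, cd g6] 0) k) = 1)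
    (a0 c1 c2 c3 c4 c5 e1 e2 e3 e4 e5 e6 e7 : ℕ)
    (p1 p2 p3 p4 p5 k1 k2 k3 k4 k5 k6 k7 : ℕ)
    (Q1 Q2 Q3 Q4 Q5 R1 R2 R3 R4 R5 R6 R7 : ℕ)
    (D1 D2 D3 D4 D5 E1 E2 E3 E4 E5 E6 E7 : List PRD)
    (hd1 : tabchk Gs g4 g5 [] p1 D1 = true)
    (hd2 : tabchk Gs g4 g5 [(c1, p1)] p2 D2 = true)
    (hd3 : tabchk Gs g4 g5 [(c1, p1), (c2, p2)] p3 D3 = true)
    (hd4 : tabchk Gs g4 g5 [(c1, p1), (c2, p2), (c3, p3)] p4 D4 = true)
    (hd5 : tabchk Gs g4 g5 [(c1, p1), (c2, p2), (c3, p3), (c4, p4)] p5 D5 = true)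
    (he1 : tabchk Gs g4 g5 [(c1, p1), (c2, p2), (c3, p3), (c4, p4), (c5, p5)] k1 E1 = true)
    (he2 : tabchk Gs g4 g5 [(c1, p1), (c2, p2), (c3, p3), (c4, p4), (c5, p5)] k2 E2 = true)
    (he3 : tabchk Gs g4 g5 [(c1, p1), (c2, p2), (c3, p3), (c4, p4), (c5, p5)] k3 E3 = true)
    (he4 : tabchk Gs g4 g5 [(c1, p1), (c2, p2), (c3, p3), (c4, p4), (c5, p5)] k4 E4 = true)
    (he5 : tabchk Gs g4 g5 [(c1, p1), (c2, p2), (c3, p3), (c4, p4), (c5, p5)] k5 E5 = true)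
    (he6 : tabchk Gs g4 g5 [(c1, p1), (c2, p2), (c3, p3), (c4, p4), (c5, p5)] k6 E6 = true)
    (he7 : tabchk Gs g4 g5 [(c1, p1), (c2, p2), (c3, p3), (c4, p4), (c5, p5)] k7 E7 = true)
    (ht1 : tck Gs Q1 g4 g5 a0 Y0 [] 2592 p1 c1 done D1 = true)
    (ht2 : tck Gs Q2 g4 g5 a0 Y0 [(c1, p1)] 7776 p2 c2 done D2 = true)
    (ht3 : tck Gs Q3 g4 g5 a0 Y0 [(c1, p1), (c2, p2)] 23328 p3 c3 done D3 = true)
    (ht4 : tck Gs Q4 g4 g5 a0 Y0 [(c1, p1), (c2, p2), (c3, p3)] 69984 p4 c4 done D4 = true)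
    (ht5 : tck Gs Q5 g4 g5 a0 Y0 [(c1, p1), (c2, p2), (c3, p3), (c4, p4)] 209952 p5 c5 done D5
      = true)
    (hu1 : tck Gs R1 g4 g5 a0 Y0 [(c1, p1), (c2, p2), (c3, p3), (c4, p4), (c5, p5)] 629856 k1 e1
      done E1 = true)
    (hu2 : tck Gs R2 g4 g5 a0 Y0 [(c1, p1), (c2, p2), (c3, p3), (c4, p4), (c5, p5)] 629856 k2 e2
      done E2 = true)
    (hu3 : tck Gs R3 g4 g5 a0 Y0 [(c1, p1), (c2, p2), (c3, p3), (c4, p4), (c5, p5)] 629856 k3 e3
      done E3 = true)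
    (hu4 : tck Gs R4 g4 g5 a0 Y0 [(c1, p1), (c2, p2), (c3, p3), (c4, p4), (c5, p5)] 629856 k4 e4
      done E4 = true)
    (hu5 : tck Gs R5 g4 g5 a0 Y0 [(c1, p1), (c2, p2), (c3, p3), (c4, p4), (c5, p5)] 629856 k5 e5
      done E5 = true)
    (hu6 : tck Gs R6 g4 g5 a0 Y0 [(c1, p1), (c2, p2), (c3, p3), (c4, p4), (c5, p5)] 629856 k6 e6
      done E6 = true)
    (hu7 : tck Gs R7 g4 g5 a0 Y0 [(c1, p1), (c2, p2), (c3, p3), (c4, p4), (c5, p5)] 629856 k7 e7
      done E7 = true)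
    (outs : List ℕ) (houts : ∀ p ∈ outs, p < 45) (F : ℕ)
    (hF : ∀ p < 45, F.testBit p = true → p ∈ [0, 1, 4, g4, g5, g6])
    (hF6 : F.testBit 6 = false)
    (hFp : F.testBit p1 = false ∧ F.testBit p2 = false ∧ F.testBit p3 = false ∧
      F.testBit p4 = false ∧ F.testBit p5 = false)
    (CK : List ((ℕ → ℕ) × ℕ))
    (hCK : ∀ r ∈ CK, loop (f1 (tail r.1 (outl outs) (mkE0 F l0) p1 p2 p3 p4 p5 k1 k2 k3 k4 k5 k6 k7)
      Q2 Q3 Q4 Q5 R1 R2 R3 R4 R5 R6 R7) r.2 = true)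
    (hcov : cov Q1 (CK.map Prod.snd) = true) : Excl L0 (pt 5 t0) := by
  intro v hv hT
  obtain ⟨hg4, hg5, hg6⟩ := hg
  obtain ⟨v', hv', hz, hTT⟩ := gauge hv ![cd 0, cd 1, cd 4, cd g4, cd g5, cd g6] (by
    intro i
    fin_cases i
    · exact cls_cd_mem 0 (by norm_num)
    · exact cls_cd_mem 1 (by norm_num)
    · exact cls_cd_mem 4 (by norm_num)
    · exact cls_cd_mem g4 hg4
    · exact cls_cd_mem g5 hg5
    · exact cls_cd_mem g6 hg6) (gmat nn) hN
  have z0 : uu v' (cd 0) = 0 := hz 0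
  have z1 : uu v' (cd 1) = 0 := hz 1
  have z4 : uu v' (cd 4) = 0 := hz 2
  have zg4 : uu v' (cd g4) = 0 := hz 3
  have zg5 : uu v' (cd g5) = 0 := hz 4
  have zg6 : uu v' (cd g6) = 0 := hz 5
  rw [← hTT L0 zsL0 (by decide)] at hT
  have hroot : uu v' (cd 6) = pt 5 y0 := by
    have c0 : cd 0 = 0 := by decide
    have c1' : cd 1 = 1 := by decide
    have c4' : cd 4 = 9 := by decide
    have c6' : cd 6 = 19 := by decide
    rw [c0] at z0
    rw [c1'] at z1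
    rw [c4'] at z4
    have h1 : TT (uu v') L0 = carry L0 + (2 : ZMod 3) • uu v' 19 := by
      simp only [TT, L0, List.map_cons, List.map_nil, List.sum_cons, List.sum_nil, z0, z1, z4]
      rw [two_smul]
      simp
    rw [c6', hy0, ← hT, h1, add_sub_cancel_left, smul_smul]
    have : (2 : ZMod 3) * 2 = 1 := by decide
    rw [this, one_smul]
  have hzz : ∀ g ∈ [0, 1, 4, g4, g5], uu v' (cd g) = 0 := by
    intro g hg'
    simp only [List.mem_cons, List.not_mem_nil, or_false] at hg'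
    rcases hg' with rfl | rfl | rfl | rfl | rfl <;> assumption
  have hY : Y0 = yfn (uu v' (cd 6)) := by rw [hY0, hroot]
  have tab : ∀ (Q : ℕ) (cl : List (ℕ × ℕ)) (s t gam : ℕ) (D : List PRD),
      cl.length ≤ 5 → s = 7776 * 3 ^ cl.length / 3 → tabchk Gs g4 g5 cl t D = true →
      tck Gs Q g4 g5 a0 Y0 cl s t gam done D = true →
      POK Q ((cl.map Prod.snd).map fun p => uu v' (cd p)) (uu v' (cd t)) 0 ∧ Wf Q cl.length := by
    intro Q cl s t gam D hl hs hc ht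
    simp only [tabchk, Bool.and_eq_true, decide_eq_true_eq, List.all_eq_true] at hc
    obtain ⟨⟨h1, h2⟩, h3⟩ := hc
    exact table_ok hv' Gs hGs done hdone Q g4 g5 a0 Y0 cl s t gam D h1 h2 hl hs hzz hY
      (List.all_eq_true.2 h3) ht
  have q1 := tab Q1 [] 2592 p1 c1 D1 (by simp) (by norm_num) hd1 ht1
  have q2 := tab Q2 _ 7776 p2 c2 D2 (by simp) (by norm_num) hd2 ht2
  have q3 := tab Q3 _ 23328 p3 c3 D3 (by simp) (by norm_num) hd3 ht3
  have q4 := tab Q4 _ 69984 p4 c4 D4 (by simp) (by norm_num) hd4 ht4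
  have q5 := tab Q5 _ 209952 p5 c5 D5 (by simp) (by norm_num) hd5 ht5
  have r1 := tab R1 _ 629856 k1 e1 E1 (by simp) (by norm_num) he1 hu1
  have r2 := tab R2 _ 629856 k2 e2 E2 (by simp) (by norm_num) he2 hu2
  have r3 := tab R3 _ 629856 k3 e3 E3 (by simp) (by norm_num) he3 hu3
  have r4 := tab R4 _ 629856 k4 e4 E4 (by simp) (by norm_num) he4 hu4
  have r5 := tab R5 _ 629856 k5 e5 E5 (by simp) (by norm_num) he5 hu5
  have r6 := tab R6 _ 629856 k6 e6 E6 (by simp) (by norm_num) he6 hu6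
  have r7 := tab R7 _ 629856 k7 e7 E7 (by simp) (by norm_num) he7 hu7
  -- the chunk containing the value of `x1`
  have hb1 : Q1.testBit (pos (uu v' (cd p1))) = true := by
    have := q1.1
    simpa [POK] using this
  have hcov' : (Q1 &&& orl (CK.map Prod.snd)) = Q1 := nat_beq_eq hcov
  rw [← hcov', Nat.testBit_land, Bool.and_eq_true] at hb1
  obtain ⟨M, hM, hMb⟩ := orl_bit _ _ hb1.2
  obtain ⟨r, hr, rfl⟩ := List.mem_map.1 hM
  have hrun := hCK r hr
  obtain ⟨S1, S2, S3, S4, S5, S6, S7, w1, w2, w3, w4, w5, w6, w7, hTL⟩ :=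
    chain_ok (tail r.1 (outl outs) (mkE0 F l0) p1 p2 p3 p4 p5 k1 k2 k3 k4 k5 k6 k7) hMb q2 q3 q4 q5
      r1 r2 r3 r4 r5 r6 r7 hrun
  -- indices
  simp only [tabchk, Bool.and_eq_true, decide_eq_true_eq, List.all_eq_true] at he1 he2 he3 he4 he5
  simp only [tabchk, Bool.and_eq_true, decide_eq_true_eq, List.all_eq_true] at he6 he7
  have b1 : p1 < 45 := he1.1.1 p1 (by simp)
  have b2 : p2 < 45 := he1.1.1 p2 (by simp)
  have b3 : p3 < 45 := he1.1.1 p3 (by simp)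
  have b4 : p4 < 45 := he1.1.1 p4 (by simp)
  have b5 : p5 < 45 := he1.1.1 p5 (by simp)
  have hnd := he1.1.2
  simp only [List.map_cons, List.map_nil, List.nodup_cons, List.mem_cons, List.not_mem_nil,
    or_false, not_or] at hnd
  obtain ⟨-, -, -, -, -, ⟨-, n61, n62, n63, n64, n65⟩, -, hnd5⟩ := hnd
  have hE : EnvOK (uu v') (insert 6 ((Finset.range 45).filter fun p => F.testBit p = true))
      (mkE0 F l0) := by
    have h1 := mkE_ok (uu v') F (by
      intro p hp hFp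
      have := hF p hp hFp
      simp only [List.mem_cons, List.not_mem_nil, or_false] at this
      rcases this with rfl | rfl | rfl | rfl | rfl | rfl <;> assumption)
    have h2 := asg_ok (uu v') _ _ h1 6 (by norm_num) (by
      intro h
      rw [Finset.mem_filter, hF6] at h
      exact absurd h.2 (by simp))
    rw [hroot, ← hl0] at h2
    exact h2
  obtain ⟨hf1, hf2, hf3, hf4, hf5⟩ := hFp
  have hnotF : ∀ p, F.testBit p = false → p ≠ 6 →
      p ∉ insert 6 ((Finset.range 45).filter fun p => F.testBit p = true) := by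
    intro p hp hp6 hmem
    rcases Finset.mem_insert.1 hmem with h | h
    · exact hp6 h
    · rw [Finset.mem_filter, hp] at h
      exact absurd h.2 (by simp)
  have hfalse := tail_ok hv' _ _ hE r.1 (outl outs) (by
      intro pr hpr
      obtain ⟨h1, h2⟩ := mem_outl _ _ hpr
      refine ⟨houts _ h1, ?_⟩
      rw [h2]
      exact W1_bit _) p1 p2 p3 p4 p5 (by
      simp only [List.nodup_cons, List.mem_cons, List.not_mem_nil, or_false, not_or]
      exact hnd5) (by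
      intro p hp
      simp only [List.mem_cons, List.not_mem_nil, or_false] at hp
      rcases hp with rfl | rfl | rfl | rfl | rfl
      · exact ⟨b1, hnotF _ hf1 (Ne.symm n61)⟩
      · exact ⟨b2, hnotF _ hf2 (Ne.symm n62)⟩
      · exact ⟨b3, hnotF _ hf3 (Ne.symm n63)⟩
      · exact ⟨b4, hnotF _ hf4 (Ne.symm n64)⟩
      · exact ⟨b5, hnotF _ hf5 (Ne.symm n65)⟩) k1 k2 k3 k4 k5 k6 k7 (by
      intro k hk
      simp only [List.mem_cons, List.not_mem_nil, or_false] at hk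
      rcases hk with rfl | rfl | rfl | rfl | rfl | rfl | rfl
      · exact he1.1.1 _ (by simp)
      · exact he2.1.1 _ (by simp)
      · exact he3.1.1 _ (by simp)
      · exact he4.1.1 _ (by simp)
      · exact he5.1.1 _ (by simp)
      · exact he6.1.1 _ (by simp)
      · exact he7.1.1 _ (by simp)) w1 w2 w3 w4 w5 w6 w7
  rw [hTL] at hfalse
  exact absurd hfalse (by simp)

end Pool.Agent.T2H98.EGZ
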