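import Pool.Agent.T2H98.EGZ.Sem

/-! # Package F: removing excluded values of parallelograms from the base packs -/

set_option autoImplicit false

namespace Pool.Agent.T2H98.EGZ

open K

/-- index of a coefficient pattern (first coefficient most significant) -/
def pidx : List ℕ → ℕ
  | [] => 0
  | a :: c => a * 3 ^ c.length + pidx c

/-- the vector whose position is tested in the segment of the pattern `c` -/
def pw : List ℕ → List (Fin 5 → ZMod 3) → (Fin 5 → ZMod 3) → (Fin 5 → ZMod 3)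
  | a :: c, y :: ys, w => pw c ys (w + (a : ZMod 3) • y + if a = 2 then 2 else 0)
  | _, _, w => w

theorem pidx_lt : ∀ (c : List ℕ), (∀ a ∈ c, a ≤ 2) → pidx c < 3 ^ c.length
  | [], _ => by simp [pidx]
  | a :: c, h => by
    have h1 := pidx_lt c fun x hx => h x (List.mem_cons_of_mem _ hx)
    have h2 : a ≤ 2 := h a List.mem_cons_self
    have h3 : a * 3 ^ c.length ≤ 2 * 3 ^ c.length := Nat.mul_le_mul_right _ h2
    simp only [pidx, List.length_cons, pow_succ]
    omega

theorem pidx_inj : ∀ (c c' : List ℕ), c.length = c'.length → (∀ a ∈ c, a ≤ 2) →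
    (∀ a ∈ c', a ≤ 2) → pidx c = pidx c' → c = c'
  | [], [], _, _, _, _ => rfl
  | [], _ :: _, h, _, _, _ => by simp at h
  | _ :: _, [], h, _, _, _ => by simp at h
  | a :: c, a' :: c', h, h1, h2, e => by
    simp only [List.length_cons, add_left_inj] at h
    have l1 := pidx_lt c fun x hx => h1 x (List.mem_cons_of_mem _ hx)
    have l2 := pidx_lt c' fun x hx => h2 x (List.mem_cons_of_mem _ hx)
    simp only [pidx, ← h] at e l2
    have hpos : 0 < 3 ^ c.length := by positivity
    have ea : a = a' := by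
      have q1 : (a * 3 ^ c.length + pidx c) / 3 ^ c.length = a := by
        rw [mul_comm, Nat.mul_add_div hpos, Nat.div_eq_of_lt l1, add_zero]
      have q2 : (a' * 3 ^ c.length + pidx c') / 3 ^ c.length = a' := by
        rw [mul_comm, Nat.mul_add_div hpos, Nat.div_eq_of_lt l2, add_zero]
      rw [← q1, e, q2]
    subst ea
    rw [pidx_inj c c' h (fun x hx => h1 x (List.mem_cons_of_mem _ hx))
      (fun x hx => h2 x (List.mem_cons_of_mem _ hx)) (by omega)]

theorem POK_iff (T : ℕ) : ∀ (ys : List (Fin 5 → ZMod 3)) (w : Fin 5 → ZMod 3) (off : ℕ),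
    POK T ys w off ↔ ∀ c : List ℕ, c.length = ys.length → (∀ a ∈ c, a ≤ 2) →
      T.testBit (off + 7776 * pidx c + pos (pw c ys w)) = true
  | [], w, off => by
    constructor
    · intro h c hc _
      have : c = [] := List.length_eq_zero_iff.mp (by simpa using hc)
      subst this
      simpa [pidx, pw, POK] using h
    · intro h
      simpa [pidx, pw, POK] using h [] rfl (by simp)
  | y :: ys, w, off => by
    rw [POK, POK_iff T ys, POK_iff T ys, POK_iff T ys]
    constructor
    · rintro ⟨h0, h1, h2⟩ c hc hb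
      match c, hc, hb with
      | a :: c, hc, hb =>
        have hcl : c.length = ys.length := by simpa using hc
        have hb' : ∀ x ∈ c, x ≤ 2 := fun x hx => hb x (List.mem_cons_of_mem _ hx)
        have ha : a ≤ 2 := hb a List.mem_cons_self
        have ha' : a = 0 ∨ a = 1 ∨ a = 2 := by omega
        rcases ha' with rfl | rfl | rfl
        · have := h0 c hcl hb'
          simpa [pidx, pw] using this
        · have := h1 c hcl hb'
          simp only [pidx, pw, hcl, one_mul, Nat.cast_one, one_smul]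
          rw [show off + 7776 * (3 ^ ys.length + pidx c) = off + 7776 * 3 ^ ys.length +
            7776 * pidx c by ring]
          simpa using this
        · have := h2 c hcl hb'
          simp only [pidx, pw, hcl, Nat.cast_ofNat]
          rw [show off + 7776 * (2 * 3 ^ ys.length + pidx c) = off + 2 * (7776 * 3 ^ ys.length) +
            7776 * pidx c by ring]
          simpa using this
    · intro h
      refine ⟨fun c hcl hb => ?_, fun c hcl hb => ?_, fun c hcl hb => ?_⟩
      · have := h (0 :: c) (by simp [hcl]) (by simpa using hb)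
        simpa [pidx, pw] using this
      · have := h (1 :: c) (by simp [hcl]) (by simpa using hb)
        simp only [pidx, pw, hcl, one_mul, Nat.cast_one, one_smul] at this
        rw [show off + 7776 * (3 ^ ys.length + pidx c) = off + 7776 * 3 ^ ys.length +
            7776 * pidx c by ring] at this
        simpa using this
      · have := h (2 :: c) (by simp [hcl]) (by simpa using hb)
        simp only [pidx, pw, hcl, Nat.cast_ofNat] at this
        rw [show off + 7776 * (2 * 3 ^ ys.length + pidx c) = off + 2 * (7776 * 3 ^ ys.length) +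
            7776 * pidx c by ring] at this
        simpa using this

theorem pos_lt (w : Fin 5 → ZMod 3) : pos w < 7776 := by
  have h := fun k => ZMod.val_lt (w k)
  have h0 := h 0
  have h1 := h 1
  have h2 := h 2
  have h3 := h 3
  have h4 := h 4
  simp only [pos, Fin.sum_univ_five]
  norm_num
  omega

theorem dm_lt (S k : ℕ) : dm S k < 3 := Nat.mod_lt _ (by norm_num)

theorem pi_p3_eq (S : ℕ) : p3 S = dm S 0 + 6 * (dm S 8 + 6 * (dm S 16 + 6 * (dm S 24 + 6 * dm S 32))) :=
  rfl

theorem p3_lt (S : ℕ) : p3 S < 7776 := by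
  have h0 := dm_lt S 0
  have h1 := dm_lt S 8
  have h2 := dm_lt S 16
  have h3 := dm_lt S 24
  have h4 := dm_lt S 32
  rw [pi_p3_eq]
  omega

theorem fbm_cons (s1 q o x : ℕ) (X : List ℕ) : fbm s1 q o (x :: X) =
    (1 <<< (p3 ((1 + s1) * x + ((2 - s1) * q + (o + o))))) ||| fbm s1 q o X := rfl

theorem fbm_bit (s1 q o : ℕ) (X : List ℕ) (i : ℕ) (h : (fbm s1 q o X).testBit i = true) :
    ∃ x ∈ X, i = p3 ((1 + s1) * x + ((2 - s1) * q + (o + o))) := by
  induction X with
  | nil =>
    have : fbm s1 q o [] = 0 := rfl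
    rw [this] at h
    simp at h
  | cons x X ih =>
    rw [fbm_cons, Nat.testBit_or, Bool.or_eq_true] at h
    rcases h with h | h
    · refine ⟨x, List.mem_cons_self, ?_⟩
      rw [Nat.shiftLeft_eq, one_mul, Nat.testBit_two_pow] at h
      simpa using (of_decide_eq_true h).symm
    · obtain ⟨y, hy, e⟩ := ih h
      exact ⟨y, List.mem_cons_of_mem _ hy, e⟩

theorem fbs_cons (r : PiR) (R : List PiR) : fbs (r :: R) =
    ((fbm r.s1 r.q r.o r.X) <<< r.off) ||| fbs R := rfl

theorem fbs_bit (R : List PiR) (i : ℕ) (h : (fbs R).testBit i = true) :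
    ∃ r ∈ R, r.off ≤ i ∧ (fbm r.s1 r.q r.o r.X).testBit (i - r.off) = true := by
  induction R with
  | nil =>
    have : fbs [] = 0 := rfl
    rw [this] at h
    simp at h
  | cons r R ih =>
    rw [fbs_cons, Nat.testBit_or, Bool.or_eq_true] at h
    rcases h with h | h
    · refine ⟨r, List.mem_cons_self, ?_⟩
      rw [Nat.testBit_shiftLeft] at h
      simpa using h
    · obtain ⟨y, hy, e⟩ := ih h
      exact ⟨y, List.mem_cons_of_mem _ hy, e⟩

theorem rmv_bit (B F i : ℕ) : (rmv B F).testBit i = (B.testBit i && !F.testBit i) := by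
  have : rmv B F = B ^^^ (B &&& F) := rfl
  rw [this, Nat.testBit_xor, Nat.testBit_and]
  cases B.testBit i <;> cases F.testBit i <;> rfl

theorem fbs_ok (ys : List (Fin 5 → ZMod 3)) (w : Fin 5 → ZMod 3) (B : ℕ) (hB : POK B ys w 0)
    (hW : Wf B ys.length) (R : List PiR)
    (hR : ∀ r ∈ R, ∃ c : List ℕ, c.length = ys.length ∧ (∀ a ∈ c, a ≤ 2) ∧
      r.off = 7776 * pidx c ∧ (fbm r.s1 r.q r.o r.X).testBit (pos (pw c ys w)) = false) :
    POK (rmv B (fbs R)) ys w 0 ∧ Wf (rmv B (fbs R)) ys.length := by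
  refine ⟨?_, fun i hi => ?_⟩
  · rw [POK_iff] at hB ⊢
    intro c hcl hb
    rw [rmv_bit, hB c hcl hb, Bool.true_and, Bool.not_eq_true']
    by_contra hne
    rw [Bool.not_eq_false] at hne
    obtain ⟨r, hr, hle, hbit⟩ := fbs_bit R _ hne
    obtain ⟨c', hcl', hb', ho, hf⟩ := hR r hr
    obtain ⟨x, -, hx⟩ := fbm_bit _ _ _ _ _ hbit
    have h1 := p3_lt ((1 + r.s1) * x + ((2 - r.s1) * r.q + (r.o + r.o)))
    rw [← hx] at h1
    have h2 := pos_lt (pw c ys w)
    have he : pidx c = pidx c' := by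
      rw [ho] at h1 hle
      omega
    have hcc : c = c' := pidx_inj c c' (hcl.trans hcl'.symm) hb hb' he
    subst hcc
    rw [ho, show 0 + 7776 * pidx c + pos (pw c ys w) - 7776 * pidx c = pos (pw c ys w) by omega,
      hf] at hbit
    exact Bool.false_ne_true hbit
  · rw [rmv_bit, Bool.and_eq_true] at hi
    exact hW i hi.1

theorem dm_sum (f : Fin 5 → ℕ) (hf : ∀ k, f k < 256) (j : Fin 5) :
    dm (∑ k, f k * 2 ^ (8 * (k : ℕ))) (8 * (j : ℕ)) = f j % 3 := by
  have h0 := hf 0
  have h1 := hf 1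
  have h2 := hf 2
  have h3 := hf 3
  have h4 := hf 4
  have e : dm (∑ k, f k * 2 ^ (8 * (k : ℕ))) (8 * (j : ℕ)) =
      ((∑ k, f k * 2 ^ (8 * (k : ℕ))) / 2 ^ (8 * (j : ℕ)) % 256) % 3 := by
    have : dm (∑ k, f k * 2 ^ (8 * (k : ℕ))) (8 * (j : ℕ)) =
      (((∑ k, f k * 2 ^ (8 * (k : ℕ))) >>> (8 * (j : ℕ))) &&& 255) % 3 := rfl
    rw [this, Nat.shiftRight_eq_div_pow, show 255 = 2 ^ 8 - 1 by norm_num,
      Nat.and_two_pow_sub_one_eq_mod]
  have e2 : (∑ k, f k * 2 ^ (8 * (k : ℕ))) = f 0 + f 1 * 256 + f 2 * 65536 + f 3 * 16777216 +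
      f 4 * 4294967296 := by
    rw [Fin.sum_univ_five]
    norm_num
  rw [e, e2]
  congr 1
  clear e e2
  match j with
  | 0 => show (_ / 2 ^ (8 * 0)) % 256 = f 0; norm_num; omega
  | 1 => show (_ / 2 ^ (8 * 1)) % 256 = f 1; norm_num; omega
  | 2 => show (_ / 2 ^ (8 * 2)) % 256 = f 2; norm_num; omega
  | 3 => show (_ / 2 ^ (8 * 3)) % 256 = f 3; norm_num; omega
  | 4 => show (_ / 2 ^ (8 * 4)) % 256 = f 4; norm_num; omega

theorem p3_sum (f : Fin 5 → ℕ) (hf : ∀ k, f k < 256) :
    p3 (∑ k, f k * 2 ^ (8 * (k : ℕ))) = f 0 % 3 + 6 * (f 1 % 3) + 36 * (f 2 % 3) +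
      216 * (f 3 % 3) + 1296 * (f 4 % 3) := by
  have h0 := dm_sum f hf 0
  have h1 := dm_sum f hf 1
  have h2 := dm_sum f hf 2
  have h3 := dm_sum f hf 3
  have h4 := dm_sum f hf 4
  norm_num at h0 h1 h2 h3 h4
  rw [pi_p3_eq, h0, h1, h2, h3, h4]
  ring

theorem eq_of_pos (f : Fin 5 → ℕ) (hf : ∀ k, f k < 256) (w : Fin 5 → ZMod 3)
    (h : pos w = p3 (∑ k, f k * 2 ^ (8 * (k : ℕ)))) : w = fun k => (f k : ZMod 3) := by
  rw [p3_sum f hf] at h
  have hw := fun k => ZMod.val_lt (w k)
  have h0 := hw 0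
  have h1 := hw 1
  have h2 := hw 2
  have h3 := hw 3
  have h4 := hw 4
  simp only [pos, Fin.sum_univ_five] at h
  norm_num at h
  have key : ∀ k, (w k).val = f k % 3 := by
    intro k
    fin_cases k <;> simp only [Fin.zero_eta, Fin.mk_one, Fin.reduceFinMk] <;> omega
  funext k
  have : ((w k).val : ZMod 3) = w k := ZMod.natCast_zmod_val _
  rw [← this, key k, ZMod.natCast_mod]

/-- `fbm` contains only positions of excluded vectors -/
theorem fbm_ok (s1 q o : ℕ) (X : List ℕ) (hs : s1 ≤ 1) (qf of : Fin 5 → ℕ) (hqf : ∀ k, qf k ≤ 20)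
    (hof : ∀ k, of k ≤ 20) (hq : q = ∑ k, qf k * 2 ^ (8 * (k : ℕ)))
    (ho : o = ∑ k, of k * 2 ^ (8 * (k : ℕ))) (T w : Fin 5 → ZMod 3)
    (hT : T = (fun k => (qf k : ZMod 3)) +
      ((1 + s1 : ℕ) : ZMod 3) • (w + fun k => (of k : ZMod 3)))
    (hX : ∀ x ∈ X, ∃ xf : Fin 5 → ℕ, (∀ k, xf k ≤ 30) ∧ x = ∑ k, xf k * 2 ^ (8 * (k : ℕ)) ∧
      T ≠ fun k => (xf k : ZMod 3)) :
    (fbm s1 q o X).testBit (pos w) = false := by
  by_contra hne
  rw [Bool.not_eq_false] at hne
  obtain ⟨x, hx, e⟩ := fbm_bit _ _ _ _ _ hne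
  obtain ⟨xf, hxf, rfl, hxv⟩ := hX x hx
  apply hxv
  have hS : (1 + s1) * (∑ k, xf k * 2 ^ (8 * (k : ℕ))) + ((2 - s1) * q + (o + o)) =
      ∑ k, ((1 + s1) * xf k + ((2 - s1) * qf k + (of k + of k))) * 2 ^ (8 * (k : ℕ)) := by
    rw [hq, ho, Finset.mul_sum, Finset.mul_sum, ← Finset.sum_add_distrib,
      ← Finset.sum_add_distrib, ← Finset.sum_add_distrib]
    refine Finset.sum_congr rfl fun k _ => ?_
    ring
  rw [hS] at e
  have hw := eq_of_pos _ (fun k => by
    have h1 := hxf k
    have h2 := hqf k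
    have h3 := hof k
    have h4 : (1 + s1) * xf k ≤ 2 * 30 := Nat.mul_le_mul (by omega) h1
    have h5 : (2 - s1) * qf k ≤ 2 * 20 := Nat.mul_le_mul (by omega) h2
    omega) w e
  have h3 : (3 : ZMod 3) = 0 := by decide
  funext k
  rw [hT, hw]
  have hs' : s1 = 0 ∨ s1 = 1 := by omega
  rcases hs' with rfl | rfl
  · simp only [Pi.add_apply, Pi.smul_apply, smul_eq_mul]
    push_cast
    linear_combination ((qf k : ZMod 3) + of k) * h3
  · simp only [Pi.add_apply, Pi.smul_apply, smul_eq_mul]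
    push_cast
    norm_num
    linear_combination ((xf k : ZMod 3) + (qf k : ZMod 3) + 2 * of k) * h3

/-- sums over lists by multiplicities -/
theorem sum_by_counts (u : ℕ → Fin 5 → ZMod 3) (L M : List ℕ) (hM : M.Nodup)
    (h : ∀ p ∈ L, u p = 0 ∨ p ∈ M) :
    (L.map u).sum = (M.map fun p => (L.count p : ZMod 3) • u p).sum := by
  rw [Finset.sum_list_map_count, ← List.sum_toFinset _ hM]
  have e1 : ∑ p ∈ L.toFinset, L.count p • u p =
      ∑ p ∈ L.toFinset ∪ M.toFinset, (L.count p : ZMod 3) • u p := by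
    refine (Finset.sum_congr rfl fun p _ => (Nat.cast_smul_eq_nsmul (ZMod 3) _ _).symm).trans
      (Finset.sum_subset Finset.subset_union_left fun p _ hp => ?_)
    rw [List.mem_toFinset] at hp
    rw [List.count_eq_zero_of_not_mem hp]
    simp
  have e2 : ∑ p ∈ M.toFinset, (L.count p : ZMod 3) • u p =
      ∑ p ∈ L.toFinset ∪ M.toFinset, (L.count p : ZMod 3) • u p := by
    refine Finset.sum_subset Finset.subset_union_right fun p hp hp' => ?_
    rw [List.mem_toFinset] at hp'
    rw [Finset.mem_union, List.mem_toFinset, List.mem_toFinset] at hp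
    rcases hp with hp | hp
    · rcases h p hp with h0 | h0
      · rw [h0, smul_zero]
      · exact absurd h0 hp'
    · exact absurd hp hp'
  rw [e1, e2]

theorem pw_eq (u : ℕ → Fin 5 → ZMod 3) (s : ℕ) (g : ℕ → ZMod 3) :
    ∀ (ch c : List ℕ) (w : Fin 5 → ZMod 3), c.length = ch.length →
      (∀ i < ch.length, g (ch.getD i 0) = (s : ZMod 3) * (c.getD i 0 : ℕ)) →
      (s : ZMod 3) • w + (ch.map fun p => g p • u p).sum =
        (s : ZMod 3) • (pw c (ch.map u) w + ((c.count 2 : ℕ) : Fin 5 → ZMod 3))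
  | [], [], w, _, _ => by simp [pw]
  | [], _ :: _, _, h, _ => by simp at h
  | _ :: _, [], _, h, _ => by simp at h
  | p :: ch, a :: c, w, h, hc => by
    have h3 : (3 : Fin 5 → ZMod 3) = 0 := by
      funext k
      show (3 : ZMod 3) = 0
      decide
    have hl : c.length = ch.length := by simpa using h
    have h0 : g p = (s : ZMod 3) * (a : ℕ) := by simpa using hc 0 (by simp)
    have ih := pw_eq u s g ch c (w + (a : ZMod 3) • u p + if a = 2 then 2 else 0) hl fun i hi => by
      simpa using hc (i + 1) (by simpa using hi)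
    rw [List.map_cons, List.map_cons, List.sum_cons, pw, h0, List.count_cons]
    by_cases ha : a = 2
    · subst ha
      simp only [if_true, beq_self_eq_true] at ih ⊢
      push_cast at ih ⊢
      have : (s : ZMod 3) • (w + (2 : ZMod 3) • u p + 2) = (s : ZMod 3) • w +
          ((s : ZMod 3) * 2) • u p + (s : ZMod 3) • (2 : Fin 5 → ZMod 3) := by
        rw [smul_add, smul_add, smul_smul]
      rw [this] at ih
      have h21 : (s : ZMod 3) • (2 : Fin 5 → ZMod 3) + (s : ZMod 3) • (1 : Fin 5 → ZMod 3) = 0 := by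
        rw [← smul_add, show (2 : Fin 5 → ZMod 3) + 1 = 3 by norm_num, h3, smul_zero]
      have hr : ∀ A B : Fin 5 → ZMod 3, (s : ZMod 3) • (A + (B + 1)) =
          (s : ZMod 3) • (A + B) + (s : ZMod 3) • (1 : Fin 5 → ZMod 3) := fun A B => by
        rw [← smul_add, add_assoc]
      rw [hr, ← ih]
      calc _ = (s : ZMod 3) • w + ((s : ZMod 3) * 2) • u p + (List.map (fun p => g p • u p) ch).sum
            + ((s : ZMod 3) • (2 : Fin 5 → ZMod 3) + (s : ZMod 3) • (1 : Fin 5 → ZMod 3)) := by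
              rw [h21]; abel
        _ = _ := by abel
    · simp only [if_neg ha, add_zero] at ih ⊢
      have hb : (a == 2) = false := by simpa using ha
      simp only [hb, Bool.false_eq_true, if_false, add_zero] at ih ⊢
      rw [← ih, smul_add, smul_smul]
      abel

/-- the sum over a list in terms of multiplicities: `t` target, `d` root, `ch` chain, `gs` gauge -/
theorem sum_of_counts (u : ℕ → Fin 5 → ZMod 3) (L gs ch : List ℕ) (d t : ℕ) (c : List ℕ) (c0 s : ℕ)
    (hgs : ∀ g ∈ gs, u g = 0) (hL : ∀ p ∈ L, p ∈ gs ∨ p ∈ d :: t :: ch)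
    (hnd : (d :: t :: ch).Nodup) (hcl : c.length = ch.length) (ht : L.count t % 3 = s % 3)
    (hd : L.count d % 3 = s * c0 % 3)
    (hc : ∀ i < ch.length, L.count (ch.getD i 0) % 3 = s * c.getD i 0 % 3) :
    (L.map u).sum = (s : ZMod 3) • (pw c (ch.map u) (u t) +
      (((c0 : ZMod 3) • u d) + ((c.count 2 : ℕ) : Fin 5 → ZMod 3))) := by
  rw [sum_by_counts u L (d :: t :: ch) hnd fun p hp => by
    rcases hL p hp with h | h
    · exact Or.inl (hgs p h)
    · exact Or.inr h]
  have cast3 : ∀ a b : ℕ, a % 3 = b % 3 → (a : ZMod 3) = (b : ZMod 3) := fun a b h => by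
    rw [ZMod.natCast_eq_natCast_iff']
    exact h
  have e1 := cast3 _ _ ht
  have e2 := cast3 _ _ hd
  rw [List.map_cons, List.map_cons, List.sum_cons, List.sum_cons, e1, e2]
  have key := pw_eq u s (fun p => (L.count p : ZMod 3)) ch c (u t) hcl fun i hi => by
    have := cast3 _ _ (hc i hi)
    rw [this]
    push_cast
    rfl
  rw [key, Nat.cast_mul, mul_smul, smul_add, smul_add, smul_add]
  abel

end Pool.Agent.T2H98.EGZ
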