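import Pool.Agent.T2H98.EGZ.Defs

/-!
# Package A: the reduction

If the conjectured formula holds, then a maximum cap `D` in `F_3^5` has a lift to `(Z/9)^5`.
-/

set_option autoImplicit false

namespace Pool.Agent.T2H98.EGZ

open Finset

/-! ## Exponents -/

lemma exp_pi (n : ℕ) : AddMonoid.exponent (Fin 5 → ZMod n) = n := by
  rw [AddMonoid.exponent_pi]
  simp only [ZMod.exponent]
  have : (Finset.univ : Finset (Fin 5)) = {0, 1, 2, 3, 4} := by decide
  rw [this]
  simp [Finset.lcm_insert, lcm_same]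

/-! ## Double caps -/

lemma three_nsmul_zero (a : Fin 5 → ZMod 3) : (3 : ℕ) • a = 0 := by
  funext k
  simp only [Pi.smul_apply, Pi.zero_apply]
  generalize a k = x
  revert x
  decide

lemma eq_of_triple (x y : Fin 5 → ZMod 3) (h : x + y + x = 0) : x = y := by
  funext k
  have := congrFun h k
  simp only [Pi.add_apply, Pi.zero_apply] at this
  revert this
  generalize x k = a
  generalize y k = b
  revert a b
  decide

lemma not_cap_iff {D : Finset (Fin 5 → ZMod 3)} (h : ¬ IsCap D) :
    ∃ x ∈ D, ∃ y ∈ D, ∃ z ∈ D, x + y + z = 0 ∧ x ≠ y ∧ y ≠ z ∧ x ≠ z := by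
  unfold IsCap at h
  push Not at h
  obtain ⟨x, hx, y, hy, z, hz, h0, hne⟩ := h
  refine ⟨x, hx, y, hy, z, hz, h0, hne, ?_, ?_⟩
  · rintro rfl
    apply hne
    have : y + x + y = 0 := by rw [← h0]; abel
    exact (eq_of_triple _ _ this).symm
  · rintro rfl
    exact hne (eq_of_triple _ _ h0)

lemma sum_three {ι M : Type*} [DecidableEq ι] [AddCommMonoid M] (f : ι → M) {a b c : ι}
    (hab : a ≠ b) (hbc : b ≠ c) (hac : a ≠ c) :
    ∑ i ∈ ({a, b, c} : Finset ι), f i = f a + f b + f c := by
  rw [Finset.sum_insert (by simp [hab, hac]), Finset.sum_pair hbc, add_assoc]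

lemma double {ι : Type*} [DecidableEq ι] {M : ℕ}
    (hM : ∀ D : Finset (Fin 5 → ZMod 3), IsCap D → D.card ≤ M)
    (g : ι → (Fin 5 → ZMod 3)) (S : Finset ι)
    (hS : ∀ T ⊆ S, T.card = 3 → ∑ i ∈ T, g i ≠ 0) :
    S.card ≤ 2 * M ∧ (S.card = 2 * M → IsCap (S.image g) ∧ (S.image g).card = M ∧
      ∀ a ∈ S.image g, (S.filter (fun i => g i = a)).card = 2) := by
  have hf : ∀ a, (S.filter (fun i => g i = a)).card ≤ 2 := by
    intro a
    by_contra hcon
    have h3 : 3 ≤ (S.filter (fun i => g i = a)).card := by omega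
    obtain ⟨T, hT, hTc⟩ := Finset.exists_subset_card_eq h3
    apply hS T (hT.trans (Finset.filter_subset _ _)) hTc
    have : ∑ i ∈ T, g i = ∑ i ∈ T, a := Finset.sum_congr rfl (fun i hi => by
      exact (Finset.mem_filter.1 (hT hi)).2)
    rw [this, Finset.sum_const, hTc, three_nsmul_zero]
  have hcap : IsCap (S.image g) := by
    by_contra hcon
    obtain ⟨x, hx, y, hy, z, hz, h0, hxy, hyz, hxz⟩ := not_cap_iff hcon
    rw [Finset.mem_image] at hx hy hz
    obtain ⟨i, hi, rfl⟩ := hx
    obtain ⟨j, hj, rfl⟩ := hy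
    obtain ⟨k, hk, rfl⟩ := hz
    have hij : i ≠ j := fun e => hxy (by rw [e])
    have hjk : j ≠ k := fun e => hyz (by rw [e])
    have hik : i ≠ k := fun e => hxz (by rw [e])
    apply hS {i, j, k}
    · intro t ht
      simp only [Finset.mem_insert, Finset.mem_singleton] at ht
      rcases ht with rfl | rfl | rfl <;> assumption
    · exact Finset.card_eq_three.2 ⟨i, j, k, hij, hik, hjk, rfl⟩
    · rw [sum_three g hij hjk hik]
      exact h0
  have hsum : S.card = ∑ a ∈ S.image g, (S.filter (fun i => g i = a)).card :=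
    Finset.card_eq_sum_card_image g S
  have hle : S.card ≤ 2 * (S.image g).card := by
    rw [hsum]
    calc _ ≤ ∑ a ∈ S.image g, 2 := Finset.sum_le_sum (fun a _ => hf a)
      _ = 2 * (S.image g).card := by rw [Finset.sum_const, smul_eq_mul, mul_comm]
  have hMi := hM _ hcap
  refine ⟨by omega, fun hc => ⟨hcap, by omega, ?_⟩⟩
  have heq : (S.image g).card = M := by omega
  intro a ha
  by_contra hne
  have hlt : (S.filter (fun i => g i = a)).card < 2 := lt_of_le_of_ne (hf a) hne
  have : ∑ a ∈ S.image g, (S.filter (fun i => g i = a)).card < ∑ a ∈ S.image g, 2 :=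
    Finset.sum_lt_sum (fun a _ => hf a) ⟨a, ha, hlt⟩
  rw [Finset.sum_const, smul_eq_mul, ← hsum] at this
  omega

/-! ## Triples -/

variable {ι : Type} [Fintype ι] [DecidableEq ι]

/-- reduction mod 3 of the sequence `f` -/
def bar (f : ι → (Fin 5 → ZMod 9)) (i : ι) : Fin 5 → ZMod 3 := fun k => red9 (f i k)

/-- the third of the sum of a triple -/
def wOf (f : ι → (Fin 5 → ZMod 9)) (T : Finset ι) : Fin 5 → ZMod 3 :=
  fun k => (((∑ i ∈ T, f i k).val / 3 : ℕ) : ZMod 3)

lemma dec1 : ∀ x y z : ZMod 9, red9 x = 0 → red9 y = 0 → red9 z = 0 →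
    ((x.val / 3 : ℕ) : ZMod 3) + ((y.val / 3 : ℕ) : ZMod 3) + ((z.val / 3 : ℕ) : ZMod 3) = 0 →
    x + y + z = 0 := by
  decide +kernel

lemma dec2 : ∀ x y : ZMod 9, red9 x = 0 → red9 y = 0 →
    ((x.val / 3 : ℕ) : ZMod 3) = ((y.val / 3 : ℕ) : ZMod 3) → x = y := by
  decide +kernel

lemma dec3 : ∀ x : ZMod 9, (((x + x + x).val / 3 : ℕ) : ZMod 3) = red9 x := by
  decide +kernel

omit [Fintype ι] [DecidableEq ι] in
lemma red9_sum (f : ι → (Fin 5 → ZMod 9)) (T : Finset ι) (h : ∑ i ∈ T, bar f i = 0) (k : Fin 5) :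
    red9 (∑ i ∈ T, f i k) = 0 := by
  rw [map_sum]
  have := congrFun h k
  rw [Finset.sum_apply] at this
  exact this

lemma wOf_three (f : ι → (Fin 5 → ZMod 9)) (hf : ∀ I : Finset ι, I.card = 9 → ∑ i ∈ I, f i ≠ 0)
    (T₁ T₂ T₃ : Finset ι) (c₁ : T₁.card = 3) (c₂ : T₂.card = 3) (c₃ : T₃.card = 3)
    (z₁ : ∑ i ∈ T₁, bar f i = 0) (z₂ : ∑ i ∈ T₂, bar f i = 0) (z₃ : ∑ i ∈ T₃, bar f i = 0)
    (d₁₂ : Disjoint T₁ T₂) (d₂₃ : Disjoint T₂ T₃) (d₁₃ : Disjoint T₁ T₃) :
    wOf f T₁ + wOf f T₂ + wOf f T₃ ≠ 0 := by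
  intro h
  have dd : Disjoint (T₁ ∪ T₂) T₃ := Finset.disjoint_union_left.2 ⟨d₁₃, d₂₃⟩
  apply hf (T₁ ∪ T₂ ∪ T₃)
  · rw [Finset.card_union_of_disjoint dd, Finset.card_union_of_disjoint d₁₂, c₁, c₂, c₃]
  · rw [Finset.sum_union dd, Finset.sum_union d₁₂]
    funext k
    simp only [Pi.add_apply, Finset.sum_apply, Pi.zero_apply]
    exact dec1 _ _ _ (red9_sum f _ z₁ k) (red9_sum f _ z₂ k) (red9_sum f _ z₃ k)
      (congrFun h k)

/-- a family of disjoint triples with zero sum mod 3 -/
structure Fam (f : ι → (Fin 5 → ZMod 9)) (k : ℕ) (T : Fin k → Finset ι) : Prop where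
  card : ∀ j, (T j).card = 3
  zs : ∀ j, ∑ i ∈ T j, bar f i = 0
  disj : ∀ i j, i ≠ j → Disjoint (T i) (T j)

/-- the remaining indices -/
def rest {k : ℕ} (T : Fin k → Finset ι) : Finset ι := univ.filter (fun i => ∀ j, i ∉ T j)

lemma mem_rest {k : ℕ} (T : Fin k → Finset ι) (i : ι) : i ∈ rest T ↔ ∀ j, i ∉ T j := by
  simp [rest]

lemma card_rest {f : ι → (Fin 5 → ZMod 9)} {k : ℕ} {T : Fin k → Finset ι} (hT : Fam f k T) :
    (rest T).card + 3 * k = Fintype.card ι := by
  have h1 : (univ.biUnion T).card = 3 * k := by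
    rw [Finset.card_biUnion (fun i _ j _ hij => hT.disj i j hij)]
    simp [hT.card, mul_comm]
  have h2 : rest T = (univ.biUnion T)ᶜ := by
    ext i
    simp [mem_rest]
  rw [h2, ← h1, Finset.card_compl_add_card]

lemma fam_w {f : ι → (Fin 5 → ZMod 9)} (hf : ∀ I : Finset ι, I.card = 9 → ∑ i ∈ I, f i ≠ 0)
    {k : ℕ} {T : Fin k → Finset ι} (hT : Fam f k T) :
    ∀ S ⊆ (univ : Finset (Fin k)), S.card = 3 → ∑ j ∈ S, wOf f (T j) ≠ 0 := by
  intro S _ hS
  obtain ⟨a, b, c, hab, hac, hbc, rfl⟩ := Finset.card_eq_three.1 hS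
  rw [sum_three _ hab hbc hac]
  exact wOf_three f hf _ _ _ (hT.card a) (hT.card b) (hT.card c) (hT.zs a) (hT.zs b) (hT.zs c)
    (hT.disj a b hab) (hT.disj b c hbc) (hT.disj a c hac)

lemma fam_le {M : ℕ} (hM : ∀ D : Finset (Fin 5 → ZMod 3), IsCap D → D.card ≤ M)
    {f : ι → (Fin 5 → ZMod 9)} (hf : ∀ I : Finset ι, I.card = 9 → ∑ i ∈ I, f i ≠ 0)
    {k : ℕ} {T : Fin k → Finset ι} (hT : Fam f k T) : k ≤ 2 * M := by
  have := (double hM (fun j => wOf f (T j)) univ (fam_w hf hT)).1
  simpa using this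

lemma fam_cons {f : ι → (Fin 5 → ZMod 9)} {k : ℕ} {T : Fin k → Finset ι} (hT : Fam f k T)
    {T' : Finset ι} (h1 : T' ⊆ rest T) (h2 : T'.card = 3) (h3 : ∑ i ∈ T', bar f i = 0) :
    Fam f (k + 1) (Fin.cons T' T) := by
  have hd : ∀ j, Disjoint T' (T j) := by
    intro j
    rw [Finset.disjoint_left]
    intro i hi hj
    exact (mem_rest T i).1 (h1 hi) j hj
  refine ⟨?_, ?_, ?_⟩
  · intro j
    refine Fin.cases ?_ (fun j => ?_) j
    · simpa using h2
    · simpa using hT.card j
  · intro j
    refine Fin.cases ?_ (fun j => ?_) j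
    · simpa using h3
    · simpa using hT.zs j
  · intro i j
    refine Fin.cases ?_ (fun i => ?_) i
    · refine Fin.cases ?_ (fun j => ?_) j
      · intro h; exact absurd rfl h
      · intro _; simpa using hd j
    · refine Fin.cases ?_ (fun j => ?_) j
      · intro _; simpa using (hd i).symm
      · intro h; simpa using hT.disj i j (fun e => h (by rw [e]))

lemma fam_exists {M : ℕ} (hM : ∀ D : Finset (Fin 5 → ZMod 3), IsCap D → D.card ≤ M)
    {f : ι → (Fin 5 → ZMod 9)} (hc : Fintype.card ι = 8 * M) :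
    ∀ k, k ≤ 2 * M → ∃ T : Fin k → Finset ι, Fam f k T := by
  intro k
  induction k with
  | zero => intro _; exact ⟨fun j => ∅, ⟨fun j => j.elim0, fun j => j.elim0, fun j => j.elim0⟩⟩
  | succ k ih =>
    intro hk
    obtain ⟨T, hT⟩ := ih (by omega)
    have hcr := card_rest hT
    by_contra hcon
    have := (double hM (bar f) (rest T) (fun T' hT' h3 h0 =>
      hcon ⟨_, fam_cons hT hT' h3 h0⟩)).1
    omega

lemma fam_rest {M : ℕ} (hM : ∀ D : Finset (Fin 5 → ZMod 3), IsCap D → D.card ≤ M)
    {f : ι → (Fin 5 → ZMod 9)} (hf : ∀ I : Finset ι, I.card = 9 → ∑ i ∈ I, f i ≠ 0)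
    (hc : Fintype.card ι = 8 * M) {T : Fin (2 * M) → Finset ι} (hT : Fam f (2 * M) T) :
    IsCap ((rest T).image (bar f)) ∧ ((rest T).image (bar f)).card = M ∧
      ∀ a ∈ (rest T).image (bar f), ((rest T).filter (fun i => bar f i = a)).card = 2 := by
  have h := double hM (bar f) (rest T) (fun T' hT' h3 h0 => by
    have := fam_le hM hf (fam_cons hT hT' h3 h0)
    omega)
  apply h.2
  have := card_rest hT
  omega

/-- multiplicity of the value `a` on `S` -/
def cnt (g : ι → (Fin 5 → ZMod 3)) (S : Finset ι) (a : Fin 5 → ZMod 3) : ℕ :=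
  (S.filter (fun i => g i = a)).card

lemma fam_even {M : ℕ} (hM : ∀ D : Finset (Fin 5 → ZMod 3), IsCap D → D.card ≤ M)
    {f : ι → (Fin 5 → ZMod 9)} (hf : ∀ I : Finset ι, I.card = 9 → ∑ i ∈ I, f i ≠ 0)
    (hc : Fintype.card ι = 8 * M) {T : Fin (2 * M) → Finset ι} (hT : Fam f (2 * M) T)
    (a : Fin 5 → ZMod 3) : (a ∈ (rest T).image (bar f) ∧ cnt (bar f) (rest T) a = 2) ∨
      (a ∉ (rest T).image (bar f) ∧ cnt (bar f) (rest T) a = 0) := by
  by_cases ha : a ∈ (rest T).image (bar f)
  · exact Or.inl ⟨ha, (fam_rest hM hf hc hT).2.2 a ha⟩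
  · right
    refine ⟨ha, ?_⟩
    unfold cnt
    rw [Finset.card_eq_zero, Finset.filter_eq_empty_iff]
    intro i hi he
    exact ha (Finset.mem_image.2 ⟨i, hi, he⟩)

lemma fam_update {f : ι → (Fin 5 → ZMod 9)} {k : ℕ} {T : Fin k → Finset ι} (hT : Fam f k T)
    (j : Fin k) {T' : Finset ι} (h1 : T' ⊆ rest T ∪ T j) (h2 : T'.card = 3)
    (h3 : ∑ i ∈ T', bar f i = 0) : Fam f k (Function.update T j T') := by
  have hd : ∀ i, i ≠ j → Disjoint T' (T i) := by
    intro i hij
    rw [Finset.disjoint_left]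
    intro x hx hx'
    rcases Finset.mem_union.1 (h1 hx) with h | h
    · exact (mem_rest T x).1 h i hx'
    · exact (Finset.disjoint_left.1 (hT.disj i j hij) hx' h)
  refine ⟨?_, ?_, ?_⟩
  · intro i
    by_cases hij : i = j
    · subst hij; simpa using h2
    · rw [Function.update_of_ne hij]; exact hT.card i
  · intro i
    by_cases hij : i = j
    · subst hij; simpa using h3
    · rw [Function.update_of_ne hij]; exact hT.zs i
  · intro a b hab
    by_cases haj : a = j
    · subst haj
      rw [Function.update_self, Function.update_of_ne (Ne.symm hab)]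
      exact hd b (Ne.symm hab)
    · by_cases hbj : b = j
      · subst hbj
        rw [Function.update_self, Function.update_of_ne hab]
        exact (hd a hab).symm
      · rw [Function.update_of_ne haj, Function.update_of_ne hbj]
        exact hT.disj a b hab

lemma rest_update {f : ι → (Fin 5 → ZMod 9)} {k : ℕ} {T : Fin k → Finset ι} (hT : Fam f k T)
    (j : Fin k) {T' : Finset ι} (h1 : T' ⊆ rest T ∪ T j) :
    rest (Function.update T j T') ∪ T' = rest T ∪ T j := by
  ext x
  simp only [Finset.mem_union, mem_rest]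
  constructor
  · rintro (h | h)
    · by_cases hx : x ∈ T j
      · exact Or.inr hx
      · left
        intro i
        by_cases hij : i = j
        · rw [hij]; exact hx
        · have := h i
          rwa [Function.update_of_ne hij] at this
    · have := h1 h
      simpa [mem_rest] using this
  · intro h
    by_cases hx : x ∈ T'
    · exact Or.inr hx
    · left
      intro i
      by_cases hij : i = j
      · subst hij; rwa [Function.update_self]
      · rw [Function.update_of_ne hij]
        rcases h with h | h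
        · exact h i
        · intro hxi
          exact Finset.disjoint_left.1 (hT.disj i j hij) hxi h

lemma cnt_update {f : ι → (Fin 5 → ZMod 9)} {k : ℕ} {T : Fin k → Finset ι} (hT : Fam f k T)
    (j : Fin k) {T' : Finset ι} (h1 : T' ⊆ rest T ∪ T j) (g : ι → (Fin 5 → ZMod 3))
    (a : Fin 5 → ZMod 3) :
    cnt g (rest (Function.update T j T')) a + cnt g T' a = cnt g (rest T) a + cnt g (T j) a := by
  have key : ∀ A B : Finset ι, Disjoint A B → cnt g A a + cnt g B a = cnt g (A ∪ B) a := by
    intro A B hAB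
    unfold cnt
    rw [Finset.filter_union, Finset.card_union_of_disjoint]
    exact Finset.disjoint_filter_filter hAB
  rw [key, key, rest_update hT j h1]
  · rw [Finset.disjoint_left]
    intro x hx
    exact (mem_rest T x).1 hx j
  · rw [Finset.disjoint_left]
    intro x hx
    have := (mem_rest _ x).1 hx j
    rwa [Function.update_self] at this

/-! ## All triples are constant -/

omit [Fintype ι] [DecidableEq ι] in
lemma cnt_pos {g : ι → (Fin 5 → ZMod 3)} {S : Finset ι} {i : ι} (hi : i ∈ S) :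
    1 ≤ cnt g S (g i) := by
  unfold cnt
  exact Finset.card_pos.2 ⟨i, Finset.mem_filter.2 ⟨hi, rfl⟩⟩

omit [Fintype ι] in
lemma cnt_three {g : ι → (Fin 5 → ZMod 3)} {x y z : ι} (hxy : x ≠ y) (hyz : y ≠ z)
    (hxz : x ≠ z) (a : Fin 5 → ZMod 3) :
    cnt g {x, y, z} a = (if g x = a then 1 else 0) + (if g y = a then 1 else 0) +
      (if g z = a then 1 else 0) := by
  unfold cnt
  rw [Finset.card_filter, sum_three _ hxy hyz hxz]

/-- the parity of the number of elements of a triple over a point -/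
lemma fam_parity {M : ℕ} (hM : ∀ D : Finset (Fin 5 → ZMod 3), IsCap D → D.card ≤ M)
    {f : ι → (Fin 5 → ZMod 9)} (hf : ∀ I : Finset ι, I.card = 9 → ∑ i ∈ I, f i ≠ 0)
    (hc : Fintype.card ι = 8 * M) {T : Fin (2 * M) → Finset ι} (hT : Fam f (2 * M) T)
    (j : Fin (2 * M)) {T' : Finset ι} (h1 : T' ⊆ rest T ∪ T j) (h2 : T'.card = 3)
    (h3 : ∑ i ∈ T', bar f i = 0) (a : Fin 5 → ZMod 3) :
    (cnt (bar f) T' a) % 2 = (cnt (bar f) (T j) a) % 2 := by
  have e := cnt_update hT j h1 (bar f) a
  have p := fam_even hM hf hc hT a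
  have q := fam_even hM hf hc (fam_update hT j h1 h2 h3) a
  omega

lemma fam_const {M : ℕ} (hM : ∀ D : Finset (Fin 5 → ZMod 3), IsCap D → D.card ≤ M)
    {f : ι → (Fin 5 → ZMod 9)} (hf : ∀ I : Finset ι, I.card = 9 → ∑ i ∈ I, f i ≠ 0)
    (hc : Fintype.card ι = 8 * M) {T : Fin (2 * M) → Finset ι} (hT : Fam f (2 * M) T)
    (j : Fin (2 * M)) : ∃ d ∈ (rest T).image (bar f), ∀ i ∈ T j, bar f i = d := by
  obtain ⟨hcap, hcard, htwo⟩ := fam_rest hM hf hc hT
  by_cases hex : ∃ i ∈ T j, bar f i ∈ (rest T).image (bar f)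
  · obtain ⟨i, hi, hd⟩ := hex
    refine ⟨bar f i, hd, ?_⟩
    obtain ⟨p, q, hpq, he⟩ := Finset.card_eq_two.1 (htwo _ hd)
    have hp : p ∈ (rest T).filter (fun t => bar f t = bar f i) := by rw [he]; simp
    have hq : q ∈ (rest T).filter (fun t => bar f t = bar f i) := by rw [he]; simp
    rw [Finset.mem_filter] at hp hq
    have hip : i ≠ p := by
      rintro rfl
      exact (mem_rest T _).1 hp.1 j hi
    have hiq : i ≠ q := by
      rintro rfl
      exact (mem_rest T _).1 hq.1 j hi
    have hpar := fun a => fam_parity hM hf hc hT j (T' := {i, p, q}) (by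
      intro t ht
      simp only [Finset.mem_insert, Finset.mem_singleton] at ht
      rcases ht with rfl | rfl | rfl
      · exact Finset.mem_union_right _ hi
      · exact Finset.mem_union_left _ hp.1
      · exact Finset.mem_union_left _ hq.1)
      (Finset.card_eq_three.2 ⟨i, p, q, hip, hiq, hpq, rfl⟩)
      (by
        rw [sum_three _ hip hpq hiq, hp.2, hq.2]
        have := three_nsmul_zero (bar f i)
        rw [← this]
        abel) a
    obtain ⟨x, y, z, hxy, hxz, hyz, hT3⟩ := Finset.card_eq_three.1 (hT.card j)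
    have hz := hT.zs j
    rw [hT3, sum_three _ hxy hyz hxz] at hz
    rw [hT3] at hpar hi ⊢
    have hpar' : ∀ a, a ≠ bar f i → ((if bar f x = a then 1 else 0) +
        (if bar f y = a then 1 else 0) + (if bar f z = a then 1 else 0)) % 2 = 0 := by
      intro a ha
      have := hpar a
      rw [cnt_three hip hpq hiq, cnt_three hxy hyz hxz, if_neg (Ne.symm ha), hp.2, hq.2,
        if_neg (Ne.symm ha)] at this
      omega
    have hall : ∀ u v w : Fin 5 → ZMod 3, u + v + w = 0 →
        (∀ a, a ≠ u → ((if u = a then 1 else 0) + (if v = a then 1 else 0) +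
          (if w = a then 1 else 0)) % 2 = 0) → v = u ∧ w = u := by
      intro u v w h0 hh
      by_cases hv : v = u
      · subst hv
        refine ⟨rfl, ?_⟩
        have : v + w + v = 0 := by rw [← h0]; abel
        exact (eq_of_triple _ _ this).symm
      · exfalso
        have h1 := hh v hv
        rw [if_neg (Ne.symm hv), if_pos rfl] at h1
        by_cases hwv : w = v
        · subst hwv
          apply hv
          have : w + u + w = 0 := by rw [← h0]; abel
          exact eq_of_triple _ _ this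
        · rw [if_neg hwv] at h1
          omega
    simp only [Finset.mem_insert, Finset.mem_singleton] at hi
    rcases hi with rfl | rfl | rfl
    · obtain ⟨e1, e2⟩ := hall _ _ _ hz (fun a ha => by
        have := hpar' a ha; exact this)
      intro t ht
      simp only [Finset.mem_insert, Finset.mem_singleton] at ht
      rcases ht with rfl | rfl | rfl
      · rfl
      · exact e1
      · exact e2
    · obtain ⟨e1, e2⟩ := hall (bar f i) (bar f x) (bar f z) (by rw [← hz]; abel) (fun a ha => by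
        have := hpar' a ha; omega)
      intro t ht
      simp only [Finset.mem_insert, Finset.mem_singleton] at ht
      rcases ht with rfl | rfl | rfl
      · exact e1
      · rfl
      · exact e2
    · obtain ⟨e1, e2⟩ := hall (bar f i) (bar f x) (bar f y) (by rw [← hz]; abel) (fun a ha => by
        have := hpar' a ha; omega)
      intro t ht
      simp only [Finset.mem_insert, Finset.mem_singleton] at ht
      rcases ht with rfl | rfl | rfl
      · exact e1
      · exact e2
      · rfl
  · exfalso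
    push Not at hex
    obtain ⟨i, hi⟩ : (T j).Nonempty := by
      rw [← Finset.card_pos, hT.card j]; norm_num
    have hx := hex i hi
    have hncap : ¬ IsCap (insert (bar f i) ((rest T).image (bar f))) := by
      intro hcon
      have := hM _ hcon
      rw [Finset.card_insert_of_notMem hx, hcard] at this
      omega
    -- a secant through `bar f i`
    have hsec : ∃ a ∈ (rest T).image (bar f), ∃ b ∈ (rest T).image (bar f),
        bar f i + a + b = 0 ∧ a ≠ b := by
      obtain ⟨u, hu, v, hv, w, hw, h0, huv, hvw, huw⟩ := not_cap_iff hncap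
      rw [Finset.mem_insert] at hu hv hw
      rcases hu with hu | hu
      · refine ⟨v, hv.resolve_left (fun e => huv (by rw [hu, e])), w,
          hw.resolve_left (fun e => huw (by rw [hu, e])), ?_, hvw⟩
        rw [← hu]; exact h0
      · rcases hv with hv | hv
        · refine ⟨u, hu, w, hw.resolve_left (fun e => hvw (by rw [hv, e])), ?_, huw⟩
          rw [← hv, ← h0]; abel
        · rcases hw with hw | hw
          · refine ⟨u, hu, v, hv, ?_, huv⟩
            rw [← hw, ← h0]; abel
          · exact absurd (hcap u hu v hv w hw h0) huv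
    obtain ⟨a, ha, b, hb, h0, hab⟩ := hsec
    obtain ⟨p, hp, hpa⟩ := Finset.mem_image.1 ha
    obtain ⟨q, hq, hqb⟩ := Finset.mem_image.1 hb
    have hip : i ≠ p := by
      rintro rfl
      exact (mem_rest T _).1 hp j hi
    have hiq : i ≠ q := by
      rintro rfl
      exact (mem_rest T _).1 hq j hi
    have hpq : p ≠ q := by
      rintro rfl
      exact hab (hpa.symm.trans hqb)
    have hpar := fam_parity hM hf hc hT j (T' := {i, p, q}) (by
      intro t ht
      simp only [Finset.mem_insert, Finset.mem_singleton] at ht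
      rcases ht with rfl | rfl | rfl
      · exact Finset.mem_union_right _ hi
      · exact Finset.mem_union_left _ hp
      · exact Finset.mem_union_left _ hq)
      (Finset.card_eq_three.2 ⟨i, p, q, hip, hiq, hpq, rfl⟩)
      (by rw [sum_three _ hip hpq hiq, hpa, hqb]; exact h0) a
    have e1 : bar f i ≠ a := fun e => hx (by rw [e]; exact ha)
    have e2 : bar f q ≠ a := by rw [hqb]; exact hab.symm
    rw [cnt_three hip hpq hiq, if_pos hpa, if_neg e1, if_neg e2] at hpar
    have hz : cnt (bar f) (T j) a = 0 := by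
      unfold cnt
      rw [Finset.card_eq_zero, Finset.filter_eq_empty_iff]
      intro t ht he
      exact hex t ht (by rw [he]; exact ha)
    rw [hz] at hpar
    omega

/-! ## All terms over a point of `D` are equal -/

lemma fam_w_double {M : ℕ} (hM : ∀ D : Finset (Fin 5 → ZMod 3), IsCap D → D.card ≤ M)
    {f : ι → (Fin 5 → ZMod 9)} (hf : ∀ I : Finset ι, I.card = 9 → ∑ i ∈ I, f i ≠ 0)
    {T : Fin (2 * M) → Finset ι} (hT : Fam f (2 * M) T) :
    (univ.image (fun j => wOf f (T j))).card = M ∧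
      ∀ a ∈ univ.image (fun j => wOf f (T j)),
        (univ.filter (fun j => wOf f (T j) = a)).card = 2 :=
  ((double hM (fun j => wOf f (T j)) univ (fam_w hf hT)).2 (by simp)).2

lemma fam_w_even {M : ℕ} (hM : ∀ D : Finset (Fin 5 → ZMod 3), IsCap D → D.card ≤ M)
    {f : ι → (Fin 5 → ZMod 9)} (hf : ∀ I : Finset ι, I.card = 9 → ∑ i ∈ I, f i ≠ 0)
    {T : Fin (2 * M) → Finset ι} (hT : Fam f (2 * M) T) (a : Fin 5 → ZMod 3) :
    (univ.filter (fun j => wOf f (T j) = a)).card % 2 = 0 := by
  by_cases ha : a ∈ univ.image (fun j => wOf f (T j))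
  · rw [(fam_w_double hM hf hT).2 a ha]
  · have : (univ.filter (fun j => wOf f (T j) = a)).card = 0 := by
      rw [Finset.card_eq_zero, Finset.filter_eq_empty_iff]
      intro i hi he
      exact ha (Finset.mem_image.2 ⟨i, hi, he⟩)
    rw [this]

lemma fam_same {M : ℕ} (hM : ∀ D : Finset (Fin 5 → ZMod 3), IsCap D → D.card ≤ M)
    {f : ι → (Fin 5 → ZMod 9)} (hf : ∀ I : Finset ι, I.card = 9 → ∑ i ∈ I, f i ≠ 0)
    {T : Fin (2 * M) → Finset ι} (hT : Fam f (2 * M) T)
    (j : Fin (2 * M)) {i p : ι} (hi : i ∈ T j) (hp : p ∈ rest T) (he : bar f p = bar f i) :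
    f p = f i := by
  have hpj : p ∉ T j := (mem_rest T p).1 hp j
  have hpe : p ∉ (T j).erase i := fun h => hpj (Finset.mem_of_mem_erase h)
  have hsum : ∀ {A : Type} [AddCommMonoid A] (g : ι → A),
      ∑ t ∈ insert p ((T j).erase i), g t = g p + ∑ t ∈ (T j).erase i, g t := by
    intro A _ g
    exact Finset.sum_insert hpe
  have h1 : insert p ((T j).erase i) ⊆ rest T ∪ T j := by
    intro t ht
    rcases Finset.mem_insert.1 ht with rfl | ht
    · exact Finset.mem_union_left _ hp
    · exact Finset.mem_union_right _ (Finset.mem_of_mem_erase ht)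
  have h2 : (insert p ((T j).erase i)).card = 3 := by
    rw [Finset.card_insert_of_notMem hpe, Finset.card_erase_of_mem hi, hT.card j]
  have h3 : ∑ t ∈ insert p ((T j).erase i), bar f t = 0 := by
    rw [hsum, he, Finset.add_sum_erase _ _ hi, hT.zs j]
  have hT2 := fam_update hT j h1 h2 h3
  have hw : wOf f (insert p ((T j).erase i)) = wOf f (T j) := by
    by_contra hne
    have e1 := fam_w_even hM hf hT (wOf f (T j))
    have e2 := fam_w_even hM hf hT2 (wOf f (T j))
    have hfe : univ.filter (fun l => wOf f (Function.update T j (insert p ((T j).erase i)) l)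
        = wOf f (T j)) = (univ.filter (fun l => wOf f (T l) = wOf f (T j))).erase j := by
      ext l
      simp only [Finset.mem_filter, Finset.mem_univ, true_and, Finset.mem_erase]
      by_cases hl : l = j
      · subst hl
        rw [Function.update_self]
        simp [hne]
      · rw [Function.update_of_ne hl]
        simp [hl]
    rw [hfe, Finset.card_erase_of_mem (by simp)] at e2
    have hpos : 0 < (univ.filter (fun l => wOf f (T l) = wOf f (T j))).card :=
      Finset.card_pos.2 ⟨j, by simp⟩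
    omega
  have hs : ∀ k, ∑ t ∈ insert p ((T j).erase i), f t k = ∑ t ∈ T j, f t k := by
    intro k
    exact dec2 _ _ (red9_sum f _ h3 k) (red9_sum f _ (hT.zs j) k) (congrFun hw k)
  funext k
  have := hs k
  rw [hsum, ← Finset.add_sum_erase (T j) (fun t => f t k) hi] at this
  exact add_right_cancel this

lemma fam_wOf {M : ℕ} (hM : ∀ D : Finset (Fin 5 → ZMod 3), IsCap D → D.card ≤ M)
    {f : ι → (Fin 5 → ZMod 9)} (hf : ∀ I : Finset ι, I.card = 9 → ∑ i ∈ I, f i ≠ 0)
    (hc : Fintype.card ι = 8 * M) {T : Fin (2 * M) → Finset ι} (hT : Fam f (2 * M) T)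
    (j : Fin (2 * M)) : wOf f (T j) ∈ (rest T).image (bar f) ∧
      ∀ i ∈ T j, bar f i = wOf f (T j) := by
  obtain ⟨d, hd, hconst⟩ := fam_const hM hf hc hT j
  obtain ⟨p, hp, hpd⟩ := Finset.mem_image.1 hd
  have hw : wOf f (T j) = d := by
    funext k
    unfold wOf
    have hs : ∑ i ∈ T j, f i k = f p k + f p k + f p k := by
      have : ∑ i ∈ T j, f i k = ∑ i ∈ T j, f p k := by
        apply Finset.sum_congr rfl
        intro i hi
        rw [fam_same hM hf hT j hi hp (by rw [hpd, hconst i hi])]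
      rw [this, Finset.sum_const, hT.card j]
      simp only [succ_nsmul, zero_nsmul, zero_add]
    rw [hs, dec3, ← hpd]
    rfl
  rw [hw]
  exact ⟨hd, hconst⟩

/-- the structure of an extremal sequence -/
lemma structure_thm {M : ℕ} (hM : ∀ D : Finset (Fin 5 → ZMod 3), IsCap D → D.card ≤ M)
    {f : ι → (Fin 5 → ZMod 9)} (hf : ∀ I : Finset ι, I.card = 9 → ∑ i ∈ I, f i ≠ 0)
    (hc : Fintype.card ι = 8 * M) :
    ∃ D : Finset (Fin 5 → ZMod 3), IsCap D ∧ D.card = M ∧
      ∀ a ∈ D, 8 ≤ (univ.filter (fun i => bar f i = a)).card ∧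
        ∀ i i', bar f i = a → bar f i' = a → f i = f i' := by
  obtain ⟨T, hT⟩ := fam_exists hM hc (f := f) (2 * M) le_rfl
  obtain ⟨hcap, hcard, htwo⟩ := fam_rest hM hf hc hT
  refine ⟨(rest T).image (bar f), hcap, hcard, ?_⟩
  obtain ⟨hwc, hw2⟩ := fam_w_double hM hf hT
  have himg : univ.image (fun j => wOf f (T j)) = (rest T).image (bar f) := by
    apply Finset.eq_of_subset_of_card_le
    · intro a ha
      obtain ⟨j, _, rfl⟩ := Finset.mem_image.1 ha
      exact (fam_wOf hM hf hc hT j).1
    · rw [hwc, hcard]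
  intro a ha
  have ha' := ha
  rw [← himg] at ha'
  obtain ⟨j, l, hjl, hjle⟩ := Finset.card_eq_two.1 (hw2 a ha')
  have hj : wOf f (T j) = a := by
    have : j ∈ univ.filter (fun j => wOf f (T j) = a) := by rw [hjle]; simp
    exact (Finset.mem_filter.1 this).2
  have hl : wOf f (T l) = a := by
    have : l ∈ univ.filter (fun j => wOf f (T j) = a) := by rw [hjle]; simp
    exact (Finset.mem_filter.1 this).2
  constructor
  · have hsub : (rest T).filter (fun i => bar f i = a) ∪ (T j ∪ T l) ⊆
        univ.filter (fun i => bar f i = a) := by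
      intro i hi
      rw [Finset.mem_filter]
      refine ⟨Finset.mem_univ _, ?_⟩
      rcases Finset.mem_union.1 hi with h | h
      · exact (Finset.mem_filter.1 h).2
      · rcases Finset.mem_union.1 h with h | h
        · rw [(fam_wOf hM hf hc hT j).2 i h, hj]
        · rw [(fam_wOf hM hf hc hT l).2 i h, hl]
    refine le_trans ?_ (Finset.card_le_card hsub)
    rw [Finset.card_union_of_disjoint, Finset.card_union_of_disjoint (hT.disj j l hjl),
      hT.card, hT.card, htwo a ha]
    rw [Finset.disjoint_left]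
    intro i hi hi'
    have hr := (mem_rest T i).1 (Finset.mem_filter.1 hi).1
    rcases Finset.mem_union.1 hi' with h | h
    · exact hr j h
    · exact hr l h
  · -- constancy
    obtain ⟨i0, hi0⟩ : (T j).Nonempty := by
      rw [← Finset.card_pos, hT.card j]; norm_num
    have hb0 : bar f i0 = a := by rw [(fam_wOf hM hf hc hT j).2 i0 hi0, hj]
    have hrest : ∀ p ∈ rest T, bar f p = a → f p = f i0 := fun p hp hpa =>
      fam_same hM hf hT j hi0 hp (by rw [hpa, hb0])
    obtain ⟨p, hp, hpa⟩ := Finset.mem_image.1 ha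
    have hall : ∀ i, bar f i = a → f i = f i0 := by
      intro i hia
      by_cases hir : i ∈ rest T
      · exact hrest i hir hia
      · rw [mem_rest] at hir
        push Not at hir
        obtain ⟨m, hm⟩ := hir
        rw [← hrest p hp hpa]
        exact (fam_same hM hf hT m hm hp (by rw [hpa, hia])).symm
    intro i i' hi hi'
    rw [hall i hi, hall i' hi']

/-- from an extremal sequence to a lift -/
lemma lift_of_seq {M : ℕ} (hM : ∀ D : Finset (Fin 5 → ZMod 3), IsCap D → D.card ≤ M)
    {f : ι → (Fin 5 → ZMod 9)} (hf : ∀ I : Finset ι, I.card = 9 → ∑ i ∈ I, f i ≠ 0)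
    (hc : Fintype.card ι = 8 * M) :
    ∃ D : Finset (Fin 5 → ZMod 3), IsCap D ∧ D.card = M ∧ ∃ v, IsLift D v := by
  classical
  obtain ⟨D, hcap, hcard, hD⟩ := structure_thm hM hf hc
  refine ⟨D, hcap, hcard, fun a => if h : ∃ i, bar f i = a then f h.choose else 0, ?_⟩
  set v : (Fin 5 → ZMod 3) → (Fin 5 → ZMod 9) :=
    fun a => if h : ∃ i, bar f i = a then f h.choose else 0 with hv
  have hex : ∀ a ∈ D, ∃ i, bar f i = a := by
    intro a ha
    have h8 := (hD a ha).1
    obtain ⟨i, hi⟩ : (univ.filter (fun i => bar f i = a)).Nonempty := by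
      rw [← Finset.card_pos]; omega
    exact ⟨i, (Finset.mem_filter.1 hi).2⟩
  have hva : ∀ a ∈ D, ∀ i, bar f i = a → f i = v a := by
    intro a ha i hi
    have h := hex a ha
    rw [hv]
    simp only
    rw [dif_pos h]
    exact (hD a ha).2 i _ hi h.choose_spec
  refine ⟨?_, ?_⟩
  · intro a ha k
    obtain ⟨i, hi⟩ := hex a ha
    rw [← hva a ha i hi, ← hi]
    rfl
  · intro α hsupp hsum hzero
    by_contra hcon
    push Not at hcon
    have hle : ∀ a, α a ≤ (univ.filter (fun i => bar f i = a)).card := by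
      intro a
      by_cases ha : a ∈ D
      · have h9 : α a ≤ 9 := by
          rw [← hsum]
          exact Finset.single_le_sum (f := α) (fun _ _ => Nat.zero_le _) (Finset.mem_univ a)
        have := hcon a
        have := (hD a ha).1
        omega
      · rw [hsupp a ha]
        exact Nat.zero_le _
    choose I hI hIc using fun a => Finset.exists_subset_card_eq (hle a)
    have hdisj : ∀ a ∈ (univ : Finset (Fin 5 → ZMod 3)), ∀ b ∈ (univ : Finset (Fin 5 → ZMod 3)),
        a ≠ b → Disjoint (I a) (I b) := by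
      intro a _ b _ hab
      rw [Finset.disjoint_left]
      intro i hi hi'
      exact hab ((Finset.mem_filter.1 (hI a hi)).2.symm.trans (Finset.mem_filter.1 (hI b hi')).2)
    apply hf (univ.biUnion I)
    · rw [Finset.card_biUnion hdisj, ← hsum]
      exact Finset.sum_congr rfl (fun a _ => hIc a)
    · rw [Finset.sum_biUnion hdisj, ← hzero]
      apply Finset.sum_congr rfl
      intro a _
      by_cases ha : a ∈ D
      · have : ∑ i ∈ I a, f i = ∑ i ∈ I a, v a := by
          apply Finset.sum_congr rfl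
          intro i hi
          exact hva a ha i (Finset.mem_filter.1 (hI a hi)).2
        rw [this, Finset.sum_const, hIc]
      · have h0 : I a = ∅ := by
          rw [← Finset.card_eq_zero, hIc, hsupp a ha]
        rw [h0, hsupp a ha]
        simp

/-! ## The reduction -/

lemma max_cap_exists : ∃ D : Finset (Fin 5 → ZMod 3), IsCap D ∧
    ∀ D' : Finset (Fin 5 → ZMod 3), IsCap D' → D'.card ≤ D.card := by
  classical
  obtain ⟨D, hD, hmax⟩ := Finset.exists_max_image
    ((univ : Finset (Finset (Fin 5 → ZMod 3))).filter (fun D => IsCap D)) Finset.card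
    ⟨∅, Finset.mem_filter.2 ⟨Finset.mem_univ _, fun x hx => absurd hx (Finset.notMem_empty x)⟩⟩
  exact ⟨D, (Finset.mem_filter.1 hD).2, fun D' hD' =>
    hmax D' (Finset.mem_filter.2 ⟨Finset.mem_univ _, hD'⟩)⟩

lemma sInf_g {D₀ : Finset (Fin 5 → ZMod 3)} (h₀ : IsCap D₀)
    (hM : ∀ D : Finset (Fin 5 → ZMod 3), IsCap D → D.card ≤ D₀.card) :
    sInf {l : ℕ | ∀ S : Finset (Fin 5 → ZMod 3), l ≤ S.card →
      ∃ T ⊆ S, T.card = AddMonoid.exponent (Fin 5 → ZMod 3) ∧ ∑ x ∈ T, x = 0} =
      D₀.card + 1 := by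
  rw [exp_pi 3]
  apply le_antisymm
  · apply Nat.sInf_le
    intro S hS
    have hn : ¬ IsCap S := fun h => by have := hM S h; omega
    obtain ⟨x, hx, y, hy, z, hz, h0, hxy, hyz, hxz⟩ := not_cap_iff hn
    refine ⟨{x, y, z}, ?_, Finset.card_eq_three.2 ⟨x, y, z, hxy, hxz, hyz, rfl⟩, ?_⟩
    · intro t ht
      simp only [Finset.mem_insert, Finset.mem_singleton] at ht
      rcases ht with rfl | rfl | rfl <;> assumption
    · rw [sum_three _ hxy hyz hxz]; exact h0
  · rw [Nat.succ_le_iff]
    by_contra hcon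
    push Not at hcon
    have hne : {l : ℕ | ∀ S : Finset (Fin 5 → ZMod 3), l ≤ S.card →
      ∃ T ⊆ S, T.card = 3 ∧ ∑ x ∈ T, x = 0}.Nonempty := by
      refine ⟨D₀.card + 1, ?_⟩
      intro S hS
      have hn : ¬ IsCap S := fun h => by have := hM S h; omega
      obtain ⟨x, hx, y, hy, z, hz, h0, hxy, hyz, hxz⟩ := not_cap_iff hn
      refine ⟨{x, y, z}, ?_, Finset.card_eq_three.2 ⟨x, y, z, hxy, hxz, hyz, rfl⟩, ?_⟩
      · intro t ht
        simp only [Finset.mem_insert, Finset.mem_singleton] at ht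
        rcases ht with rfl | rfl | rfl <;> assumption
      · rw [sum_three _ hxy hyz hxz]; exact h0
    have hmem := Nat.sInf_mem hne
    obtain ⟨T, hT, hTc, hTs⟩ := hmem D₀ hcon
    obtain ⟨x, y, z, hxy, hxz, hyz, rfl⟩ := Finset.card_eq_three.1 hTc
    rw [sum_three _ hxy hyz hxz] at hTs
    exact hxy (h₀ x (hT (by simp)) y (hT (by simp)) z (hT (by simp)) hTs)

/-- **Package A**: if the conjectured formula holds then some maximum cap in `F_3^5` has a lift
to `(Z/9)^5`. -/
theorem reduction (h : ∀ n : ℕ, Odd n → 3 ≤ n → ∀ r : ℕ,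
      sInf {l : ℕ | ∀ f : Fin l → (Fin r → ZMod n), ∃ I : Finset (Fin l),
          I.card = AddMonoid.exponent (Fin r → ZMod n) ∧ ∑ i ∈ I, f i = 0}
        = (sInf {l : ℕ | ∀ S : Finset (Fin r → ZMod 3), l ≤ S.card →
              ∃ T ⊆ S, T.card = AddMonoid.exponent (Fin r → ZMod 3) ∧ ∑ x ∈ T, x = 0} - 1)
            * (n - 1) + 1) :
    ∃ D : Finset (Fin 5 → ZMod 3), IsCap D ∧
      (∀ D' : Finset (Fin 5 → ZMod 3), IsCap D' → D'.card ≤ D.card) ∧ ∃ v, IsLift D v := by
  obtain ⟨D₀, h₀, hM⟩ := max_cap_exists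
  have h9 := h 9 (by decide) (by norm_num) 5
  rw [sInf_g h₀ hM] at h9
  have hlt : 8 * D₀.card < sInf {l : ℕ | ∀ f : Fin l → (Fin 5 → ZMod 9), ∃ I : Finset (Fin l),
          I.card = AddMonoid.exponent (Fin 5 → ZMod 9) ∧ ∑ i ∈ I, f i = 0} := by
    rw [h9]; omega
  have hnot := Nat.notMem_of_lt_sInf hlt
  rw [exp_pi 9] at hnot
  simp only [Set.mem_ofPred_eq, not_forall, not_exists, not_and] at hnot
  obtain ⟨f, hf⟩ := hnot
  obtain ⟨D, hcap, hcard, hlift⟩ := lift_of_seq hM (f := f) hf (by simp)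
  exact ⟨D, hcap, fun D' hD' => by rw [hcard]; exact hM D' hD', hlift⟩

end Pool.Agent.T2H98.EGZ
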