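import Pool.Agent.T2H98.EGZ.Bounds

/-!
# Package B2: codes of points and a verified depth first search for caps
-/

set_option autoImplicit false

namespace Pool.Agent.T2H98.EGZ

open Finset

/-! ### codes -/

/-- code of `-(a+b)` in `F_3^r` -/
def thr : ℕ → ℕ → ℕ → ℕ
  | 0, _, _ => 0
  | r + 1, a, b => (6 - a % 3 - b % 3) % 3 + 3 * thr r (a / 3) (b / 3)

/-- the code of a point -/
def code : (r : ℕ) → (Fin r → ZMod 3) → ℕ
  | 0, _ => 0
  | r + 1, x => (x 0).val + 3 * code r (fun k => x k.succ)

theorem pt_zero (r n : ℕ) : pt (r + 1) n 0 = ((n : ℕ) : ZMod 3) := by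
  simp [pt]

theorem pt_succ (r n : ℕ) (k : Fin r) : pt (r + 1) n k.succ = pt r (n / 3) k := by
  simp only [pt, Fin.val_succ]
  rw [pow_succ', Nat.div_div_eq_div_mul]

theorem code_lt (r : ℕ) (x : Fin r → ZMod 3) : code r x < 3 ^ r := by
  induction r with
  | zero => simp [code]
  | succ r ih =>
    have h1 := ih (fun k => x k.succ)
    have h2 : (x 0).val < 3 := ZMod.val_lt _
    simp only [code]
    rw [pow_succ]
    omega

theorem pt_code (r : ℕ) (x : Fin r → ZMod 3) : pt r (code r x) = x := by
  induction r with
  | zero => funext k; exact k.elim0
  | succ r ih =>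
    have h2 : (x 0).val < 3 := ZMod.val_lt _
    funext k
    refine Fin.cases ?_ (fun i => ?_) k
    · rw [pt_zero]
      simp only [code]
      rw [Nat.cast_add, Nat.cast_mul]
      have : ((3 : ℕ) : ZMod 3) = 0 := by decide
      rw [this, zero_mul, add_zero, ZMod.natCast_val, ZMod.cast_id]
    · rw [pt_succ]
      simp only [code]
      have h3 : ((x 0).val + 3 * code r fun k => x k.succ) / 3 = code r fun k => x k.succ := by
        omega
      rw [h3]
      exact congrFun (ih (fun k => x k.succ)) i

theorem code_injective (r : ℕ) : Function.Injective (code r) := by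
  intro x y h
  rw [← pt_code r x, ← pt_code r y, h]

theorem code_pt (r n : ℕ) (h : n < 3 ^ r) : code r (pt r n) = n := by
  induction r generalizing n with
  | zero => simp at h; simp [code, h]
  | succ r ih =>
    simp only [code, pt_zero, pt_succ]
    have h1 : n / 3 < 3 ^ r := by
      rw [pow_succ] at h
      omega
    have h2 := ih (n / 3) h1
    have h3 : code r (fun k => pt r (n / 3) k) = n / 3 := h2
    rw [h3, ZMod.val_natCast]
    omega

theorem pt_thr (r a b : ℕ) : pt r (thr r a b) = -(pt r a + pt r b) := by
  induction r generalizing a b with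
  | zero => funext k; exact k.elim0
  | succ r ih =>
    funext k
    refine Fin.cases ?_ (fun i => ?_) k
    · simp only [pt_zero, thr, Pi.neg_apply, Pi.add_apply]
      rw [← Nat.cast_add, Nat.cast_add, Nat.cast_mul]
      have h3 : ((3 : ℕ) : ZMod 3) = 0 := by decide
      rw [h3, zero_mul, add_zero, eq_neg_iff_add_eq_zero, ← Nat.cast_add,
        ZMod.natCast_eq_zero_iff]
      omega
    · simp only [pt_succ, thr, Pi.neg_apply, Pi.add_apply]
      have h3 : ((6 - a % 3 - b % 3) % 3 + 3 * thr r (a / 3) (b / 3)) / 3 =
          thr r (a / 3) (b / 3) := by omega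
      rw [h3, ih]
      rfl

theorem thr_lt (r a b : ℕ) : thr r a b < 3 ^ r := by
  induction r generalizing a b with
  | zero => simp [thr]
  | succ r ih =>
    have := ih (a / 3) (b / 3)
    simp only [thr]
    rw [pow_succ]
    omega

theorem code_third (r : ℕ) (x y : Fin r → ZMod 3) :
    thr r (code r x) (code r y) = code r (-(x + y)) := by
  rw [← code_pt r (thr r (code r x) (code r y)) (thr_lt _ _ _), pt_thr, pt_code, pt_code]

/-- table of `thr 3` -/
def tab3 : ℕ := 150284565616056763424795829705389756120251294006712634846115618033434350366027011625804797925767743525857091357550117053530807438228182543595331057665543666992978261233185756360808658228667194250683078014022553323338965623567872818370490658670637729796339420589904614080483031792287466011382029193134820904130723559090780210590735837578530134830151446832098083693935819792378068315219212393196646776840963018407869016989297472929219519962518228599846451766284308508773668620039913519221816709663884159537274227289273817357320550526958471401535543944266824532352409190872190530718151643274753432484913454339853488252574394268903122173990901243772210754349162345037285333370458508444394969402348539644334191951505111956980413181496210644656095070087626897703824268664482009624069007744063319957743183576251125596711856050993935868646997683662293243282239401672182611864858110407964312324147192494921648244043677080123448615273851580966251792771734764002160312867627998824753275932706610797002372287009071681916409479712883366034715985325703414262430314847756274864081793451161363173692345587589121088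

/-- fast version of `thr 3` -/
def tt (a b : ℕ) : ℕ := Nat.land (Nat.shiftRight tab3 (Nat.mul 5 (Nat.add (Nat.mul 27 a) b))) 31

theorem tt_eq {a b : ℕ} (ha : a < 27) (hb : b < 27) : tt a b = thr 3 a b := by
  have h : ∀ a < 27, ∀ b < 27, tt a b = thr 3 a b := by decide +kernel
  exact h a ha b hb

/-! ### the search -/

/-- mask of the points `T p c`, `c ∈ C` -/
def forb (T : ℕ → ℕ → ℕ) (p : ℕ) : List ℕ → ℕ
  | [] => 0
  | c :: C => Nat.lor (Nat.shiftLeft 1 (T p c)) (forb T p C)

/-- `l` has at least `n` elements -/
def long : ℕ → List ℕ → Bool
  | 0, _ => true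
  | _ + 1, [] => false
  | n + 1, _ :: l => long n l

/-- bit `x` of `m` is zero -/
def bit0 (m x : ℕ) : Bool := Nat.beq (Nat.land (Nat.shiftRight m x) 1) 0

/-- the elements of the list whose bit in `m` is zero -/
def flt (m : ℕ) : List ℕ → List ℕ
  | [] => []
  | x :: l => match bit0 m x with
    | true => x :: flt m l
    | false => flt m l

/-- depth first search over all caps with `t` points in the third list argument, besides the chosen
points -/
def dfs (T : ℕ → ℕ → ℕ) (leaf : List ℕ → Bool) : ℕ → List ℕ → List ℕ → ℕ → Bool
  | _, _, C, 0 => leaf C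
  | 0, _, _, _ + 1 => true
  | _ + 1, [], _, _ + 1 => true
  | n + 1, p :: rest, C, t + 1 =>
    match long t rest with
    | false => true
    | true => (dfs T leaf n (flt (forb T p C) rest) (p :: C) t).and (dfs T leaf n rest C (t + 1))

theorem long_iff (n : ℕ) (l : List ℕ) : long n l = true ↔ n ≤ l.length := by
  induction n generalizing l with
  | zero => simp [long]
  | succ n ih =>
    cases l with
    | nil => simp [long]
    | cons a l => simp [long, ih]

theorem bit0_iff (m x : ℕ) : bit0 m x = !m.testBit x := by
  have h : ∀ k, Nat.beq k 0 = !(k != 0) := by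
    intro k; cases k <;> rfl
  have h1 : Nat.land (Nat.shiftRight m x) 1 = 1 &&& (m >>> x) := Nat.and_comm _ _
  rw [bit0, h, h1, Nat.testBit]

theorem flt_eq (m : ℕ) (l : List ℕ) : flt m l = l.filter (fun x => !m.testBit x) := by
  induction l with
  | nil => rfl
  | cons a l ih =>
    rw [flt, List.filter_cons, bit0_iff, ih]
    cases m.testBit a <;> rfl

theorem testBit_forb (T : ℕ → ℕ → ℕ) (p : ℕ) (C : List ℕ) (x : ℕ) :
    (forb T p C).testBit x = true ↔ ∃ c ∈ C, T p c = x := by
  induction C with
  | nil => simp [forb]
  | cons c C ih =>
    have h1 : forb T p (c :: C) = (1 <<< T p c) ||| forb T p C := rfl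
    rw [h1, Nat.testBit_or, Bool.or_eq_true, ih, Nat.one_shiftLeft, Nat.testBit_two_pow,
      decide_eq_true_eq]
    simp

theorem dfs_sound (T : ℕ → ℕ → ℕ) (leaf : List ℕ → Bool) (K : Finset ℕ)
    (hK : ∀ a ∈ K, ∀ b ∈ K, T a b ∈ K → a = b) :
    ∀ (n : ℕ) (rest C : List ℕ) (t : ℕ), dfs T leaf n rest C t = true → rest.length ≤ n →
      rest.Nodup → C.Nodup → (∀ c ∈ C, c ∈ K) → (∀ x ∈ K, x ∉ C → x ∈ rest) →
      (∀ x ∈ rest, x ∉ C) → K.card = C.length + t →
      ∃ L, leaf L = true ∧ L.Nodup ∧ L.toFinset = K := by
  classical
  have fin : ∀ (rest C : List ℕ), C.Nodup → (∀ c ∈ C, c ∈ K) → K.card = C.length →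
      C.toFinset = K := by
    intro rest C hC hCK hcard
    refine Finset.eq_of_subset_of_card_le ?_ ?_
    · intro x hx; exact hCK x (List.mem_toFinset.1 hx)
    · rw [List.toFinset_card_of_nodup hC, hcard]
  have bound : ∀ (rest C : List ℕ), (∀ x ∈ K, x ∉ C → x ∈ rest) →
      K.card ≤ C.length + rest.length := by
    intro rest C h
    have h1 : K ⊆ (C ++ rest).toFinset := by
      intro x hx
      rw [List.mem_toFinset, List.mem_append]
      by_cases hxC : x ∈ C
      · exact Or.inl hxC
      · exact Or.inr (h x hx hxC)
    have h2 := Finset.card_le_card h1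
    have h3 := List.toFinset_card_le (C ++ rest)
    rw [List.length_append] at h3
    omega
  intro n
  induction n with
  | zero =>
    intro rest C t hd hlen hnd hC hCK hrest hdisj hcard
    cases t with
    | zero => 
      have hd' : leaf C = true := by simpa [dfs] using hd
      exact ⟨C, hd', hC, fin rest C hC hCK hcard⟩
    | succ t =>
      exfalso
      have := bound rest C hrest
      omega
  | succ n ih =>
    intro rest C t hd hlen hnd hC hCK hrest hdisj hcard
    cases t with
    | zero =>
      have hd' : leaf C = true := by simpa [dfs] using hd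
      exact ⟨C, hd', hC, fin rest C hC hCK hcard⟩
    | succ t =>
      cases rest with
      | nil =>
        exfalso
        have := bound [] C hrest
        simp at this
        omega
      | cons p rest =>
        rw [List.nodup_cons] at hnd
        have hlen' : rest.length ≤ n := by simpa using hlen
        cases hl : long t rest with
        | false =>
          exfalso
          have h1 := bound (p :: rest) C hrest
          have h2 : ¬ t ≤ rest.length := by
            rw [← long_iff, hl]; simp
          rw [List.length_cons] at h1
          omega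
        | true =>
          have hd1 : (dfs T leaf n (flt (forb T p C) rest) (p :: C) t).and
              (dfs T leaf n rest C (t + 1)) = true := by
            simpa only [dfs, hl] using hd
          obtain ⟨hd2, hd3⟩ : dfs T leaf n (flt (forb T p C) rest) (p :: C) t = true ∧
              dfs T leaf n rest C (t + 1) = true := by
            simpa using hd1
          by_cases hp : p ∈ K
          · rw [flt_eq] at hd2
            refine ih _ _ _ hd2 ?_ ?_ ?_ ?_ ?_ ?_ ?_
            · exact le_trans (List.length_filter_le _ _) hlen'
            · exact hnd.2.filter _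
            · rw [List.nodup_cons]
              exact ⟨hdisj p (by simp), hC⟩
            · intro c hc
              rcases List.mem_cons.1 hc with rfl | hc
              · exact hp
              · exact hCK c hc
            · intro x hx hxC
              rw [List.mem_cons, not_or] at hxC
              rw [List.mem_filter]
              refine ⟨?_, ?_⟩
              · rcases List.mem_cons.1 (hrest x hx hxC.2) with h | h
                · exact absurd h hxC.1
                · exact h
              · rw [Bool.not_eq_true', ← Bool.not_eq_true, testBit_forb]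
                rintro ⟨c, hc, rfl⟩
                have : p = c := hK p hp c (hCK c hc) hx
                rw [this] at hdisj
                exact hdisj c (by simp) hc
            · intro x hx
              rw [List.mem_filter] at hx
              rw [List.mem_cons, not_or]
              refine ⟨?_, hdisj x (List.mem_cons_of_mem _ hx.1)⟩
              rintro rfl
              exact hnd.1 hx.1
            · rw [List.length_cons, hcard]; ring
          · refine ih _ _ _ hd3 hlen' hnd.2 hC hCK ?_ ?_ hcard
            · intro x hx hxC
              rcases List.mem_cons.1 (hrest x hx hxC) with h | h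
              · rw [h] at hx; exact absurd hx hp
              · exact h
            · intro x hx
              exact hdisj x (List.mem_cons_of_mem _ hx)

/-! ### masks -/

/-- the mask of a list of codes -/
def mask : List ℕ → ℕ
  | [] => 0
  | c :: C => Nat.lor (Nat.shiftLeft 1 c) (mask C)

theorem testBit_mask (C : List ℕ) (x : ℕ) : (mask C).testBit x = true ↔ x ∈ C := by
  induction C with
  | nil => simp [mask]
  | cons c C ih =>
    have h1 : mask (c :: C) = (1 <<< c) ||| mask C := rfl
    rw [h1, Nat.testBit_or, Bool.or_eq_true, ih, Nat.one_shiftLeft, Nat.testBit_two_pow,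
      decide_eq_true_eq, List.mem_cons, eq_comm]

theorem toFinset_eq_of_mask {L L' : List ℕ} (h : mask L = mask L') :
    L.toFinset = L'.toFinset := by
  ext x
  rw [List.mem_toFinset, List.mem_toFinset, ← testBit_mask, ← testBit_mask, h]

/-! ### caps of points and caps of codes -/

variable {r : ℕ}

/-- the codes of the points of a set -/
def codes (K : Finset (Fin r → ZMod 3)) : Finset ℕ := K.image (code r)

theorem codes_lt {K : Finset (Fin r → ZMod 3)} {a : ℕ} (h : a ∈ codes K) : a < 3 ^ r := by
  obtain ⟨x, _, rfl⟩ := Finset.mem_image.1 h
  exact code_lt _ _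

theorem mem_codes {K : Finset (Fin r → ZMod 3)} {x : Fin r → ZMod 3} :
    code r x ∈ codes K ↔ x ∈ K := by
  constructor
  · intro h
    obtain ⟨y, hy, hxy⟩ := Finset.mem_image.1 h
    rwa [← code_injective r hxy]
  · intro h
    exact Finset.mem_image_of_mem _ h

theorem mem_codes' {K : Finset (Fin r → ZMod 3)} {a : ℕ} (h : a < 3 ^ r) :
    a ∈ codes K ↔ pt r a ∈ K := by
  rw [← mem_codes, code_pt r a h]

theorem codes_card (K : Finset (Fin r → ZMod 3)) : (codes K).card = K.card :=
  Finset.card_image_of_injective _ (code_injective r)

theorem codes_cap {K : Finset (Fin r → ZMod 3)} (hK : IsCap K) :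
    ∀ a ∈ codes K, ∀ b ∈ codes K, thr r a b ∈ codes K → a = b := by
  intro a ha b hb h
  obtain ⟨x, hx, rfl⟩ := Finset.mem_image.1 ha
  obtain ⟨y, hy, rfl⟩ := Finset.mem_image.1 hb
  rw [code_third, mem_codes] at h
  rw [hK x hx y hy _ h (by abel)]

theorem codes_cap3 {K : Finset (Fin 3 → ZMod 3)} (hK : IsCap K) :
    ∀ a ∈ codes K, ∀ b ∈ codes K, tt a b ∈ codes K → a = b := by
  intro a ha b hb h
  rw [tt_eq (codes_lt ha) (codes_lt hb)] at h
  exact codes_cap hK a ha b hb h

/-- the set of points with codes in the list -/
def ofL (r : ℕ) (L : List ℕ) : Finset (Fin r → ZMod 3) := (L.map (pt r)).toFinset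

theorem eq_ofL {K : Finset (Fin r → ZMod 3)} {L : List ℕ} (h : L.toFinset = codes K) :
    K = ofL r L := by
  classical
  ext x
  unfold ofL
  rw [List.mem_toFinset, List.mem_map, ← mem_codes, ← h]
  constructor
  · intro hx
    exact ⟨_, List.mem_toFinset.1 hx, pt_code r x⟩
  · rintro ⟨a, ha, rfl⟩
    have h1 : a ∈ codes K := by rw [← h]; exact List.mem_toFinset.2 ha
    rw [code_pt r a (codes_lt h1)]
    exact List.mem_toFinset.2 ha

end Pool.Agent.T2H98.EGZ
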