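import Pool.Agent.T2H98.EGZ.LiftFacts
import Pool.Agent.T2H98.EGZ.Eng

/-!
# Semantics of the kernel engine (definitions)
-/

set_option autoImplicit false

namespace Pool.Agent.T2H98.EGZ

/-- position of a vector -/
def pos (w : Fin 5 → ZMod 3) : ℕ := ∑ k, (w k).val * 6 ^ (k : ℕ)

/-- The pack `T` is compatible with the values `ys` of the pending variables and the value `w` of
the target: for all coefficients `c` in `{0,1,2}`, the segment of `c` (first variable most
significant) contains the position of `w + ∑ c i • ys i + 2 * #{i | c i = 2}`. -/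
def POK (T : ℕ) : List (Fin 5 → ZMod 3) → (Fin 5 → ZMod 3) → ℕ → Prop
  | [], w, off => T.testBit (off + pos w) = true
  | y :: ys, w, off => POK T ys w off ∧ POK T ys (w + y) (off + 7776 * 3 ^ ys.length) ∧
      POK T ys (w + (2 : ZMod 3) • y + 2) (off + 2 * (7776 * 3 ^ ys.length))

/-- all bits of the pack `T` (with `m` pending variables) are at positions of vectors -/
def Wf (T m : ℕ) : Prop :=
  ∀ i, T.testBit i = true → ∃ c < 3 ^ m, ∃ w : Fin 5 → ZMod 3, i = 7776 * c + pos w

/-- stat of the point of code `c`: its five digits (8 bits each) and a 1 -/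
def statn (c : ℕ) : ℕ := (∑ k ∈ Finset.range 5, dg c k * 2 ^ (8 * k)) + 2 ^ 40

/-- field form of a vector -/
def yfn (w : Fin 5 → ZMod 3) : ℕ := ∑ k, (w k).val * 2 ^ (8 * (k : ℕ))

/-- code of the `p`-th point of the cap -/
def cd (p : ℕ) : ℕ := codes45.getD p 0

/-- `E` encodes the values `u` of the points with index in `F` (the others are unassigned) -/
def EnvOK (u : ℕ → Fin 5 → ZMod 3) (F : Finset ℕ) (E : ℕ) : Prop :=
  ∃ b : ℕ → ℕ, E = ∑ p ∈ Finset.range 45, b p * 2 ^ (96 * p) ∧
    ∀ p < 45, b p = statn (cd p) + if p ∈ F then yfn (u (cd p)) * 2 ^ 56 else 2 ^ 48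

end Pool.Agent.T2H98.EGZ
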