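import Pool.Agent.T2H98.EGZ.Constr

/-! # Package T: lemmas on the environment -/

set_option autoImplicit false

namespace Pool.Agent.T2H98.EGZ

open K

/-! ## sums of blocks -/

/-- the number with blocks `b p` of 96 bits -/
def blk (b : ℕ → ℕ) (n : ℕ) : ℕ := ∑ p ∈ Finset.range n, b p * 2 ^ (96 * p)

lemma blk_succ (b : ℕ → ℕ) (n : ℕ) : blk b (n + 1) = blk b n + b n * 2 ^ (96 * n) := by
  rw [blk, Finset.sum_range_succ, blk]

lemma blk_lt {b : ℕ → ℕ} {n : ℕ} (hb : ∀ p < n, b p < 2 ^ 96) : blk b n < 2 ^ (96 * n) := by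
  induction n with
  | zero => simp [blk]
  | succ n ih =>
    rw [blk_succ]
    have h1 := ih (fun p hp => hb p (by omega))
    have h2 := hb n (by omega)
    have h3 : 2 ^ (96 * (n + 1)) = 2 ^ 96 * 2 ^ (96 * n) := by rw [← pow_add]; ring_nf
    rw [h3]
    calc blk b n + b n * 2 ^ (96 * n) < 2 ^ (96 * n) + b n * 2 ^ (96 * n) := by omega
      _ = (b n + 1) * 2 ^ (96 * n) := by ring
      _ ≤ 2 ^ 96 * 2 ^ (96 * n) := Nat.mul_le_mul_right _ h2

lemma blk_div {b : ℕ → ℕ} {n : ℕ} (hb : ∀ p < n, b p < 2 ^ 96) {k : ℕ} (hk : k < n) :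
    blk b n / 2 ^ (96 * k) % 2 ^ 96 = b k := by
  induction n with
  | zero => omega
  | succ n ih =>
    rw [blk_succ]
    rcases Nat.lt_or_ge k n with h | h
    · have h1 := ih (fun p hp => hb p (by omega)) h
      obtain ⟨d, hd⟩ : ∃ d, n = k + 1 + d := ⟨n - k - 1, by omega⟩
      have h2 : b n * 2 ^ (96 * n) = (b n * 2 ^ (96 * d) * 2 ^ 96) * 2 ^ (96 * k) := by
        have h5 : 96 * n = 96 * d + 96 + 96 * k := by omega
        rw [h5, pow_add, pow_add]
        ring
      rw [h2, Nat.add_mul_div_right _ _ (Nat.two_pow_pos _), Nat.add_mul_mod_self_right, h1]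
    · have hkn : k = n := by omega
      subst hkn
      rw [Nat.add_mul_div_right _ _ (Nat.two_pow_pos _),
        Nat.div_eq_of_lt (blk_lt fun p hp => hb p (by omega)), Nat.zero_add]
      exact Nat.mod_eq_of_lt (hb k (by omega))

lemma bl_eq (E x : ℕ) : bl E x = E / 2 ^ (96 * (x % 64)) % 2 ^ 96 := by
  have h1 : x &&& 63 = x % 64 := Nat.and_two_pow_sub_one_eq_mod x 6
  have h2 : bl E x = (E >>> (96 * (x &&& 63))) &&& (2 ^ 96 - 1) := rfl
  rw [h2, h1, Nat.and_two_pow_sub_one_eq_mod, Nat.shiftRight_eq_div_pow]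

/-! ## stats and values -/

/-- the digits part of the stat -/
def dd (c : ℕ) : ℕ := ∑ k ∈ Finset.range 5, dg c k * 2 ^ (8 * k)

lemma statn_eq (c : ℕ) : statn c = dd c + 2 ^ 40 := rfl

lemma dg_le (c k : ℕ) : dg c k ≤ 2 := by
  have : dg c k < 3 := Nat.mod_lt _ (by norm_num)
  omega

lemma dd_le (c : ℕ) : dd c ≤ 2 ^ 34 := by
  have h0 := dg_le c 0
  have h1 := dg_le c 1
  have h2 := dg_le c 2
  have h3 := dg_le c 3
  have h4 := dg_le c 4
  rw [dd, Finset.sum_range_succ, Finset.sum_range_succ, Finset.sum_range_succ,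
    Finset.sum_range_succ, Finset.sum_range_succ, Finset.sum_range_zero]
  norm_num
  omega

lemma val_le (x : ZMod 3) : x.val ≤ 2 := by
  have := ZMod.val_lt x
  omega

lemma yfn_le (w : Fin 5 → ZMod 3) : yfn w ≤ 2 ^ 34 := by
  have h0 := val_le (w 0)
  have h1 := val_le (w 1)
  have h2 := val_le (w 2)
  have h3 := val_le (w 3)
  have h4 := val_le (w 4)
  rw [yfn, Fin.sum_univ_five]
  have e0 : ((0 : Fin 5) : ℕ) = 0 := rfl
  have e1 : ((1 : Fin 5) : ℕ) = 1 := rfl
  have e2 : ((2 : Fin 5) : ℕ) = 2 := rfl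
  have e3 : ((3 : Fin 5) : ℕ) = 3 := rfl
  have e4 : ((4 : Fin 5) : ℕ) = 4 := rfl
  rw [e0, e1, e2, e3, e4]
  norm_num
  omega

lemma sum_statn (l : List ℕ) : (l.map statn).sum = (l.map dd).sum + l.length * 2 ^ 40 := by
  induction l with
  | nil => rfl
  | cons a l ih =>
    rw [List.map_cons, List.sum_cons, ih, List.map_cons, List.sum_cons, List.length_cons,
      statn_eq]
    ring

lemma sum_dd_le (l : List ℕ) : (l.map dd).sum ≤ l.length * 2 ^ 34 := by
  induction l with
  | nil => simp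
  | cons a l ih =>
    rw [List.map_cons, List.sum_cons, List.length_cons]
    have := dd_le a
    omega

lemma sum_yfn (f : ℕ → Fin 5 → ZMod 3) (l : List ℕ) : (l.map fun q => yfn (f q)).sum =
    ∑ k : Fin 5, (l.map fun q => (f q k).val).sum * 2 ^ (8 * (k : ℕ)) := by
  induction l with
  | nil => simp
  | cons a l ih =>
    rw [List.map_cons, List.sum_cons, ih, yfn, ← Finset.sum_add_distrib]
    refine Finset.sum_congr rfl fun k _ => ?_
    rw [List.map_cons, List.sum_cons]
    ring

/-! ## the environment -/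

/-- the block of the point `p` -/
def bb (u : ℕ → Fin 5 → ZMod 3) (F : Finset ℕ) (p : ℕ) : ℕ :=
  statn (cd p) + if p ∈ F then yfn (u (cd p)) * 2 ^ 56 else 2 ^ 48

lemma env_eq {u : ℕ → Fin 5 → ZMod 3} {F : Finset ℕ} {E : ℕ} (h : EnvOK u F E) :
    E = blk (bb u F) 45 := by
  obtain ⟨b, hE, hb⟩ := h
  rw [hE, blk]
  exact Finset.sum_congr rfl fun p hp => by rw [hb p (Finset.mem_range.1 hp), bb]

lemma env_of {u : ℕ → Fin 5 → ZMod 3} {F : Finset ℕ} {E : ℕ} (h : E = blk (bb u F) 45) :
    EnvOK u F E := ⟨bb u F, h, fun _ _ => rfl⟩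

lemma statn_lt (c : ℕ) : statn c < 2 ^ 41 := by
  rw [statn_eq]
  have := dd_le c
  omega

lemma bb_lt (u : ℕ → Fin 5 → ZMod 3) (F : Finset ℕ) (p : ℕ) : bb u F p < 2 ^ 96 := by
  rw [bb]
  have h1 := statn_lt (cd p)
  have h2 := yfn_le (u (cd p))
  split_ifs <;> omega

lemma bl_lt45 {u : ℕ → Fin 5 → ZMod 3} {F : Finset ℕ} {E : ℕ} (h : EnvOK u F E) {x : ℕ}
    (hx : x % 64 < 45) : bl E x = bb u F (x % 64) := by
  rw [bl_eq, env_eq h]
  exact blk_div (fun p _ => bb_lt u F p) hx

lemma bl_ge45 {u : ℕ → Fin 5 → ZMod 3} {F : Finset ℕ} {E : ℕ} (h : EnvOK u F E) {x : ℕ}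
    (hx : 45 ≤ x % 64) : bl E x = 0 := by
  rw [bl_eq, env_eq h]
  have h1 : blk (bb u F) 45 < 2 ^ (96 * 45) := blk_lt fun p _ => bb_lt u F p
  have h2 : 2 ^ (96 * 45) ≤ 2 ^ (96 * (x % 64)) :=
    Nat.pow_le_pow_right (by norm_num) (by omega)
  rw [Nat.div_eq_of_lt (h1.trans_le h2), Nat.zero_mod]

/-- sum of the blocks of a list of indices -/
lemma sum_bb (u : ℕ → Fin 5 → ZMod 3) (F : Finset ℕ) (qs : List ℕ) :
    (qs.map (bb u F)).sum = ((qs.map cd).map statn).sum +
      (qs.filter fun q => q ∉ F).length * 2 ^ 48 +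
      ((qs.filter fun q => q ∈ F).map fun q => yfn (u (cd q))).sum * 2 ^ 56 := by
  induction qs with
  | nil => simp
  | cons a l ih =>
    rw [List.map_cons, List.sum_cons, ih, List.map_cons, List.map_cons, List.sum_cons, bb]
    by_cases ha : a ∈ F
    · rw [if_pos ha, List.filter_cons_of_neg (by simpa using ha),
        List.filter_cons_of_pos (by simpa using ha), List.map_cons, List.sum_cons]
      ring
    · rw [if_neg ha, List.filter_cons_of_pos (by simpa using ha),
        List.filter_cons_of_neg (by simpa using ha), List.length_cons]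
      ring

lemma sum_bl {u : ℕ → Fin 5 → ZMod 3} {F : Finset ℕ} {E : ℕ} (h : EnvOK u F E) (js : List ℕ) :
    (js.map (bl E)).sum = (((js.map (· % 64)).filter (· < 45)).map (bb u F)).sum := by
  induction js with
  | nil => simp
  | cons a l ih =>
    rw [List.map_cons, List.sum_cons, ih, List.map_cons]
    by_cases ha : a % 64 < 45
    · rw [List.filter_cons_of_pos (by simpa using ha), List.map_cons, List.sum_cons,
        bl_lt45 h ha]
    · rw [List.filter_cons_of_neg (by simpa using ha), bl_ge45 h (by omega), Nat.zero_add]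

lemma cd_mem {p : ℕ} (hp : p < 45) : cd p ∈ codes45 := by
  have h : ∀ p < 45, cd p ∈ codes45 := by decide +kernel
  exact h p hp

lemma cd_inj {p q : ℕ} (hp : p < 45) (hq : q < 45) (h : cd p = cd q) : p = q := by
  have h1 : ∀ p < 45, ∀ q < 45, cd p = cd q → p = q := by decide +kernel
  exact h1 p hp q hq h

/-! ## one constraint -/

variable {v : (Fin 5 → ZMod 3) → (Fin 5 → ZMod 9)}

lemma beq_false {a b : ℕ} (h : a ≠ b) : Nat.beq a b = false := by
  cases h' : Nat.beq a b
  · rfl
  · exact absurd (Nat.eq_of_beq_eq_true h') h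

lemma cst_skip (s1 S o m : ℕ) (h6 : S / 2 ^ 40 % 65536 ≠ 6) (h9 : S / 2 ^ 40 % 65536 ≠ 9) :
    cst s1 S o m = m := by
  have e1 : Nat.land (Nat.shiftRight S 40) 0xFFFF = S / 2 ^ 40 % 65536 := by
    have h1 : Nat.land (Nat.shiftRight S 40) 0xFFFF = (S >>> 40) &&& (2 ^ 16 - 1) := rfl
    rw [h1, Nat.and_two_pow_sub_one_eq_mod, Nat.shiftRight_eq_div_pow]
  have b6 : Nat.beq (S / 2 ^ 40 % 65536) 6 = false := beq_false h6
  have b9 : Nat.beq (S / 2 ^ 40 % 65536) 9 = false := beq_false h9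
  rw [cst, e1, cc, b6, b9]

lemma ap_ok (hv : IsLift D45 v) {F : Finset ℕ} {E : ℕ} (hE : EnvOK (uu v) F E) {k : ℕ}
    (hk : k < 45) (hkF : k ∉ F) (c m : ℕ) (hm : m.testBit (pos (uu v (cd k))) = true) :
    (ap E (statn (cd k)) c m).testBit (pos (uu v (cd k))) = true := by
  set js : List ℕ := [c >>> 1, c >>> 7, c >>> 13, c >>> 19, c >>> 25] with hjs
  set qs : List ℕ := (js.map (· % 64)).filter (· < 45) with hqs
  have hlen : qs.length ≤ 5 := by
    rw [hqs]
    refine (List.length_filter_le _ _).trans ?_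
    rw [List.length_map, hjs]
    simp
  have h45 : ∀ q ∈ qs, q < 45 := by
    intro q hq
    rw [hqs, List.mem_filter] at hq
    simpa using hq.2
  set s1 : ℕ := Nat.land c 1 with hs1
  have hs1' : s1 = c % 2 := Nat.and_one_is_mod c
  have hs : s1 ≤ 1 := by rw [hs1']; omega
  have e1 : ap E (statn (cd k)) c m = ap2 (statn (cd k)) s1 (js.map (bl E)).sum m := by
    rw [hjs]
    simp only [List.map_cons, List.map_nil, List.sum_cons, List.sum_nil, Nat.add_zero]
    rfl
  rw [e1, sum_bl hE js, ← hqs, sum_bb]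
  set nf : ℕ := (qs.filter fun q => q ∉ F).length with hnf
  set Y : ℕ := ((qs.filter fun q => q ∈ F).map fun q => yfn (uu v (cd q))).sum with hY
  have hnf5 : nf ≤ 5 := (List.length_filter_le _ _).trans hlen
  have hD := sum_dd_le (qs.map cd)
  have hS0 := sum_statn (qs.map cd)
  rw [List.length_map] at hD hS0
  set L0 : ℕ := ((qs.map cd).map statn).sum with hL0
  set D0 : ℕ := ((qs.map cd).map dd).sum with hD0
  have e2 : Nat.land (L0 + nf * 2 ^ 48 + Y * 2 ^ 56) 0xFFFFFFFFFFFFFF = L0 + nf * 2 ^ 48 := by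
    have h1 : Nat.land (L0 + nf * 2 ^ 48 + Y * 2 ^ 56) 0xFFFFFFFFFFFFFF =
      (L0 + nf * 2 ^ 48 + Y * 2 ^ 56) &&& (2 ^ 56 - 1) := rfl
    rw [h1, Nat.and_two_pow_sub_one_eq_mod, Nat.add_mul_mod_self_right]
    apply Nat.mod_eq_of_lt
    omega
  have e3 : Nat.shiftRight (L0 + nf * 2 ^ 48 + Y * 2 ^ 56) 56 = Y := by
    have h1 : Nat.shiftRight (L0 + nf * 2 ^ 48 + Y * 2 ^ 56) 56 =
      (L0 + nf * 2 ^ 48 + Y * 2 ^ 56) >>> 56 := rfl
    rw [h1, Nat.shiftRight_eq_div_pow, Nat.add_mul_div_right _ _ (Nat.two_pow_pos _),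
      Nat.div_eq_of_lt (by omega), Nat.zero_add]
  have e4 : ap2 (statn (cd k)) s1 (L0 + nf * 2 ^ 48 + Y * 2 ^ 56) m =
      cst s1 (L0 + nf * 2 ^ 48 + (1 + s1) * statn (cd k)) ((1 + s1) * Y) m := by
    rw [ap2, e2, e3]
    rfl
  rw [e4]
  rcases Nat.eq_zero_or_pos nf with h0 | h0
  · -- all points are assigned
    have hall : ∀ q ∈ qs, q ∈ F := by
      intro q hq
      by_contra hqF
      have : q ∈ qs.filter fun q => q ∉ F := by
        rw [List.mem_filter]
        exact ⟨hq, by simpa using hqF⟩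
      rw [List.length_eq_zero_iff.1 (hnf.symm.trans h0)] at this
      simp at this
    have hfil : (qs.filter fun q => q ∈ F) = qs := by
      rw [List.filter_eq_self]
      intro q hq
      simpa using hall q hq
    rw [hfil] at hY
    rw [h0, Nat.zero_mul, Nat.add_zero]
    refine cst_ok hv (qs.map cd ++ List.replicate (1 + s1) (cd k)) ?_ (cd k) s1 hs ?_ ?_ _ _ _ ?_
      (fun i => (((1 + s1) * (qs.map fun q => (uu v (cd q) i).val).sum : ℕ) : ZMod 3))
      (uu v (cd k)) (fun i => (1 + s1) * (qs.map fun q => (uu v (cd q) i).val).sum) ?_ ?_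
      (fun i => rfl) ?_ hm
    · intro x hx
      rw [List.mem_append, List.mem_map] at hx
      rcases hx with ⟨q, hq, rfl⟩ | hx
      · exact cd_mem (h45 q hq)
      · rw [List.mem_replicate] at hx
        rw [hx.2]
        exact cd_mem hk
    · rw [List.count_append, List.count_replicate_self, List.count_eq_zero.2, Nat.zero_add]
      intro hx
      obtain ⟨q, hq, hqk⟩ := List.mem_map.1 hx
      rw [cd_inj (h45 q hq) hk hqk] at hq
      exact hkF (hall k hq)
    · rw [List.length_append, List.length_map, List.length_replicate]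
      omega
    · rw [List.map_append, List.sum_append, List.map_replicate, List.sum_replicate, smul_eq_mul]
    · intro i
      have h1 : (qs.map fun q => (uu v (cd q) i).val).sum ≤ qs.length * 2 := by
        have := List.sum_le_card_nsmul (qs.map fun q => (uu v (cd q) i).val) 2 (by
          intro x hx
          obtain ⟨q, -, rfl⟩ := List.mem_map.1 hx
          exact val_le _)
        rwa [List.length_map, smul_eq_mul] at this
      calc (1 + s1) * (qs.map fun q => (uu v (cd q) i).val).sum ≤ 2 * (5 * 2) :=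
            Nat.mul_le_mul (by omega) (h1.trans (Nat.mul_le_mul_right _ hlen))
        _ ≤ 100 := by norm_num
    · rw [hY, sum_yfn (fun q => uu v (cd q)), Finset.mul_sum]
      exact Finset.sum_congr rfl fun i _ => by ring
    · rw [List.map_append, List.sum_append, List.map_map, List.map_replicate, List.sum_replicate,
        smul_add]
      have h2 : ∀ i, (qs.map (uu v ∘ cd)).sum i =
          (((qs.map fun q => (uu v (cd q) i).val).sum : ℕ) : ZMod 3) := by
        intro i
        clear_value qs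
        clear hqs hL0 hD0 hS0 hD e2 e3 e4 hnf hY hlen h45 hall hfil hnf5 h0 Y L0 D0 nf
        induction qs with
        | nil => simp
        | cons a l ih =>
          rw [List.map_cons, List.sum_cons, Pi.add_apply, ih, List.map_cons, List.sum_cons,
            Nat.cast_add, ZMod.natCast_val, ZMod.cast_id', id]
          rfl
      funext i
      rw [Pi.add_apply, Pi.add_apply, h2 i, Pi.smul_apply, Pi.smul_apply, Pi.smul_apply]
      rcases (by omega : s1 = 0 ∨ s1 = 1) with h | h
      · rw [h]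
        simp
        ring
      · rw [h]
        generalize (qs.map fun q => (uu v (cd q) i).val).sum = z
        have h3 : (3 : ZMod 3) = 0 := rfl
        push_cast
        rw [smul_eq_mul, smul_eq_mul, nsmul_eq_mul]
        push_cast
        linear_combination (-(z : ZMod 3)) * h3
  · rw [cst_skip]
    · exact hm
    · have h1 := statn_eq (cd k)
      have h2 := dd_le (cd k)
      have h3 : (1 + s1) * statn (cd k) = (1 + s1) * dd (cd k) + (1 + s1) * 2 ^ 40 := by
        rw [h1]; ring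
      have h4 : (1 + s1) * dd (cd k) ≤ 2 * 2 ^ 34 := Nat.mul_le_mul (by omega) h2
      omega
    · have h1 := statn_eq (cd k)
      have h2 := dd_le (cd k)
      have h3 : (1 + s1) * statn (cd k) = (1 + s1) * dd (cd k) + (1 + s1) * 2 ^ 40 := by
        rw [h1]; ring
      have h4 : (1 + s1) * dd (cd k) ≤ 2 * 2 ^ 34 := Nat.mul_le_mul (by omega) h2
      omega

end Pool.Agent.T2H98.EGZ
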