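import Pool.Agent.T2H98.EGZ.Constr
import Pool.Agent.T2H98.EGZ.EngSound
import Pool.Agent.T2H98.EGZ.TailAux

/-! # Package T: soundness of the tail -/

set_option autoImplicit false

namespace Pool.Agent.T2H98.EGZ

open K

variable {v : (Fin 5 → ZMod 3) → (Fin 5 → ZMod 9)}

/-! ## tables -/

lemma statn_five (c : ℕ) : statn c = dg c 0 + dg c 1 * 2 ^ 8 + dg c 2 * 2 ^ 16 +
    dg c 3 * 2 ^ 24 + dg c 4 * 2 ^ 32 + 2 ^ 40 := by
  rw [statn, Finset.sum_range_succ, Finset.sum_range_succ, Finset.sum_range_succ,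
    Finset.sum_range_succ, Finset.sum_range_succ, Finset.sum_range_zero]
  simp

lemma stp_eq {p : ℕ} (hp : p < 45) : stp p = statn (cd p) := by
  have h : ∀ p < 45, stp p = dg (cd p) 0 + dg (cd p) 1 * 2 ^ 8 + dg (cd p) 2 * 2 ^ 16 +
    dg (cd p) 3 * 2 ^ 24 + dg (cd p) 4 * 2 ^ 32 + 2 ^ 40 := by decide +kernel
  rw [h p hp, statn_five]

lemma yf_pos (w : Fin 5 → ZMod 3) : yf (pos w) = yfn w := by
  have h : ∀ a < 3, ∀ b < 3, ∀ c < 3, ∀ d < 3, ∀ e < 3,
      yf (a + b * 6 + c * 36 + d * 216 + e * 1296) =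
        a + b * 2 ^ 8 + c * 2 ^ 16 + d * 2 ^ 24 + e * 2 ^ 32 := by decide +kernel
  have h1 := h _ (ZMod.val_lt (w 0)) _ (ZMod.val_lt (w 1)) _ (ZMod.val_lt (w 2)) _
    (ZMod.val_lt (w 3)) _ (ZMod.val_lt (w 4))
  have e0 : ((0 : Fin 5) : ℕ) = 0 := rfl
  have e1 : ((1 : Fin 5) : ℕ) = 1 := rfl
  have e2 : ((2 : Fin 5) : ℕ) = 2 := rfl
  have e3 : ((3 : Fin 5) : ℕ) = 3 := rfl
  have e4 : ((4 : Fin 5) : ℕ) = 4 := rfl
  have h2 : pos w = (w 0).val + (w 1).val * 6 + (w 2).val * 36 + (w 3).val * 216 +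
      (w 4).val * 1296 := by
    rw [pos, Fin.sum_univ_five, e0, e1, e2, e3, e4]
    norm_num
  have h3 : yfn w = (w 0).val + (w 1).val * 2 ^ 8 + (w 2).val * 2 ^ 16 + (w 3).val * 2 ^ 24 +
      (w 4).val * 2 ^ 32 := by
    rw [yfn, Fin.sum_univ_five, e0, e1, e2, e3, e4]
    norm_num
  rw [h2, h3]
  exact h1

lemma mkE_blk (F n : ℕ) : mkE F n = blk (fun p => stp p + (1 - F / 2 ^ p % 2) * 2 ^ 48) n := by
  induction n with
  | zero => rfl
  | succ n ih =>
    rw [blk_succ, ← ih]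
    have h1 : mkE F (n + 1) = mkE F n +
      ((stp n + (1 - ((F >>> n) &&& 1)) * 0x1000000000000) <<< (96 * n)) := rfl
    rw [h1, Nat.and_one_is_mod, Nat.shiftRight_eq_div_pow, Nat.shiftLeft_eq]
    norm_num

theorem mkE_ok (u : ℕ → Fin 5 → ZMod 3) (F : ℕ)
    (h : ∀ p < 45, F.testBit p = true → u (cd p) = 0) :
    EnvOK u ((Finset.range 45).filter fun p => F.testBit p = true) (mkE F 45) := by
  apply env_of
  rw [mkE_blk, blk, blk]
  refine Finset.sum_congr rfl fun p hp => ?_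
  have hp' := Finset.mem_range.1 hp
  congr 1
  rw [bb, stp_eq hp']
  congr 1
  have h1 : F.testBit p = decide (F / 2 ^ p % 2 = 1) := Nat.testBit_eq_decide_div_mod_eq
  by_cases hb : F.testBit p = true
  · rw [if_pos (by rw [Finset.mem_filter]; exact ⟨hp, hb⟩), h p hp' hb]
    rw [h1, decide_eq_true_eq] at hb
    rw [hb]
    simp [yfn]
  · rw [if_neg (by rw [Finset.mem_filter]; exact fun hh => hb hh.2)]
    rw [h1, decide_eq_true_eq] at hb
    have : F / 2 ^ p % 2 = 0 := by omega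
    rw [this, Nat.sub_zero, Nat.one_mul]

theorem asg_ok (u : ℕ → Fin 5 → ZMod 3) (F : Finset ℕ) (E : ℕ) (hE : EnvOK u F E) (k : ℕ)
    (hk : k < 45) (hkF : k ∉ F) : EnvOK u (insert k F) (asg E k (pos (u (cd k)))) := by
  apply env_of
  have h1 : asg E k (pos (u (cd k))) = E + ((yf (pos (u (cd k)))) <<< (96 * k + 56)) -
    (1 <<< (96 * k + 48)) := rfl
  rw [h1, yf_pos, env_eq hE, Nat.shiftLeft_eq, Nat.shiftLeft_eq, Nat.one_mul]
  have hkr : k ∈ Finset.range 45 := Finset.mem_range.2 hk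
  rw [blk, blk, ← Finset.add_sum_erase _ _ hkr, ← Finset.add_sum_erase _ _ hkr]
  have h2 : ∑ x ∈ (Finset.range 45).erase k, bb u (insert k F) x * 2 ^ (96 * x) =
      ∑ x ∈ (Finset.range 45).erase k, bb u F x * 2 ^ (96 * x) := by
    refine Finset.sum_congr rfl fun x hx => ?_
    have hxk : x ≠ k := (Finset.mem_erase.1 hx).1
    congr 1
    rw [bb, bb]
    congr 1
    simp only [Finset.mem_insert, hxk, false_or]
  rw [h2]
  have h3 : bb u F k = statn (cd k) + 2 ^ 48 := by rw [bb, if_neg hkF]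
  have h4 : bb u (insert k F) k = statn (cd k) + yfn (u (cd k)) * 2 ^ 56 := by
    rw [bb, if_pos (Finset.mem_insert_self k F)]
  rw [h3, h4]
  generalize ∑ x ∈ (Finset.range 45).erase k, bb u F x * 2 ^ (96 * x) = R
  rw [pow_add, pow_add]
  generalize 2 ^ (96 * k) = B
  have h5 : (statn (cd k) + 2 ^ 48) * B + R + yfn (u (cd k)) * (B * 2 ^ 56) =
      ((statn (cd k) + yfn (u (cd k)) * 2 ^ 56) * B + R) + B * 2 ^ 48 := by ring
  rw [h5, Nat.add_sub_cancel]

/-! ## nodes -/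

lemma iter_ok (g : ℕ → ℕ → ℕ) (s : ℕ → ℕ) (P : ℕ → Prop) (hg : ∀ c m, P m → P (g c m)) (n : ℕ) :
    ∀ c m, P m → P (Nat.rec (motive := fun _ => ℕ → ℕ → ℕ) (fun _ m => m)
      (fun _ ih c m => ih (s c) (g c m)) n c m) := by
  induction n with
  | zero => intro c m h; exact h
  | succ n ih => intro c m h; exact ih _ _ (hg c m h)

lemma rfs_ok (hv : IsLift D45 v) {F : Finset ℕ} {E : ℕ} (hE : EnvOK (uu v) F E) {k : ℕ}
    (hk : k < 45) (hkF : k ∉ F) (n : ℕ) (c m : ℕ) (hm : m.testBit (pos (uu v (cd k))) = true) :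
    (rfs E (statn (cd k)) n c m).testBit (pos (uu v (cd k))) = true := by
  have h := iter_ok (ap E (statn (cd k))) (fun c => Nat.shiftRight c 31)
    (fun m => m.testBit (pos (uu v (cd k))) = true)
    (fun c m hm => ap_ok hv hE hk hkF c m hm) n c m hm
  rw [rfs]
  exact h

lemma sel_false {f : ℕ → ℕ → Bool} {B : List (ℕ × ℕ)} (h : ∀ pr ∈ B, f pr.1 pr.2 = false) :
    ∀ b, sel f B b = false := by
  induction B with
  | nil => intro b; rfl
  | cons hd tl ih =>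
    intro b
    cases b with
    | zero => exact h hd (List.mem_cons_self)
    | succ b => exact ih (fun pr hpr => h pr (List.mem_cons_of_mem _ hpr)) b

theorem nd_ok (hv : IsLift D45 v) (B : List (ℕ × ℕ))
    (hB : ∀ pr ∈ B, pr.1 < 45 ∧ pr.2.testBit (pos (uu v (cd pr.1))) = true) (O : ℕ → ℕ)
    (fuel key : ℕ) (F : Finset ℕ) (E : ℕ) (hE : EnvOK (uu v) F E) :
    nd B O fuel key E = false := by
  induction fuel generalizing key F E with
  | zero => rfl
  | succ n ih =>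
    have h1 : nd B O (n + 1) key E = nd2 B (nd B O n) key E (O key) := rfl
    rw [h1, nd2]
    refine sel_false (fun pr hpr => ?_) _
    obtain ⟨hk, hbit⟩ := hB pr hpr
    obtain ⟨k, m⟩ := pr
    simp only at hk hbit ⊢
    by_contra hcon
    rw [Bool.not_eq_false] at hcon
    rw [nd3] at hcon
    have hbl : bl E k = bb (uu v) F k := by
      have h3 : k % 64 = k := Nat.mod_eq_of_lt (by omega)
      have h2 := bl_lt45 hE (x := k) (by omega)
      rwa [h3] at h2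
    have hst : Nat.land (bl E k) 0xFFFFFFFFFFFF = statn (cd k) := by
      have h2 : Nat.land (bl E k) 0xFFFFFFFFFFFF = bl E k &&& (2 ^ 48 - 1) := rfl
      rw [h2, Nat.and_two_pow_sub_one_eq_mod, hbl, bb]
      have h3 := statn_lt (cd k)
      split_ifs <;> omega
    have hfl : Nat.land (Nat.shiftRight E (Nat.add (Nat.mul 96 k) 48)) 255 =
        bb (uu v) F k / 2 ^ 48 % 256 := by
      have h2 : Nat.land (Nat.shiftRight E (Nat.add (Nat.mul 96 k) 48)) 255 =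
        (E >>> (96 * k + 48)) &&& (2 ^ 8 - 1) := rfl
      have h4 : bb (uu v) F k = E / 2 ^ (96 * k) % 2 ^ 96 := by
        rw [← hbl, bl_eq, Nat.mod_eq_of_lt (by omega : k < 64)]
      rw [h2, Nat.and_two_pow_sub_one_eq_mod, Nat.shiftRight_eq_div_pow, h4, pow_add,
        ← Nat.div_div_eq_div_mul]
      generalize E / 2 ^ (96 * k) = z
      omega
    rw [hst, hfl] at hcon
    by_cases hkF : k ∈ F
    · -- already assigned: the flag is 0
      have h5 : bb (uu v) F k / 2 ^ 48 % 256 = 0 := by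
        rw [bb, if_pos hkF]
        have h6 := statn_lt (cd k)
        omega
      have h6 : Nat.beq 0 1 = false := rfl
      rw [h5, h6] at hcon
      exact Bool.false_ne_true hcon
    · have h5 : bb (uu v) F k / 2 ^ 48 % 256 = 1 := by
        rw [bb, if_neg hkF]
        have h6 := statn_lt (cd k)
        omega
      have h8 : Nat.beq 1 1 = true := rfl
      rw [h5, h8] at hcon
      have h9 : loop (nd4 (nd B O n) key E k) (rfs E (statn (cd k))
        (Nat.land (Nat.shiftRight (O key) 5) 31)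
        (Nat.shiftRight (Nat.shiftRight (O key) 5) 5) m) = true := hcon
      have h6 := loop_ok (y := uu v (cd k)) h9 (rfs_ok hv hE hk hkF _ _ m hbit)
      have h7 : nd B O n (Nat.add (Nat.mul key 8192) (pos (uu v (cd k))))
        (asg E k (pos (uu v (cd k)))) = true := by rw [nd4] at h6; exact h6
      rw [ih _ _ _ (asg_ok (uu v) F E hE k hk hkF)] at h7
      exact absurd h7 (by decide)

lemma mg2_ok {S : ℕ} {y4 y5 z : Fin 5 → ZMod 3} (g : POK S [y4, y5] z 0 ∧ Wf S 2) :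
    (mg (mg S (23328 + pos y4) (49766 - pos y4)) (7776 + pos y5) (18662 - pos y5)).testBit
      (pos z) = true := by
  obtain ⟨h1, h2⟩ := mg_ok (ys := [y5]) g.1 g.2
  have e1 : 7776 * 3 ^ ([y5] : List (Fin 5 → ZMod 3)).length = 23328 := by
    rw [List.length_singleton]; norm_num
  rw [e1] at h1 h2
  obtain ⟨h3, -⟩ := mg_ok (ys := []) h1 h2
  have e2 : 7776 * 3 ^ ([] : List (Fin 5 → ZMod 3)).length = 7776 := by
    rw [List.length_nil]; norm_num
  rw [e2] at h3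
  have e3 : 2 * 23328 + 3110 = 49766 := by norm_num
  have e4 : 2 * 7776 + 3110 = 18662 := by norm_num
  rw [e3, e4, POK, Nat.zero_add] at h3
  exact h3

theorem tail_ok (hv : IsLift D45 v) (F : Finset ℕ) (E0 : ℕ) (hE : EnvOK (uu v) F E0) (O : ℕ → ℕ)
    (outs : List (ℕ × ℕ))
    (houts : ∀ pr ∈ outs, pr.1 < 45 ∧ pr.2.testBit (pos (uu v (cd pr.1))) = true)
    (p1 p2 p3 p4 p5 : ℕ) (hp : [p1, p2, p3, p4, p5].Nodup)
    (hpF : ∀ p ∈ [p1, p2, p3, p4, p5], p < 45 ∧ p ∉ F)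
    (k1 k2 k3 k4 k5 k6 k7 : ℕ) (hk : ∀ k ∈ [k1, k2, k3, k4, k5, k6, k7], k < 45)
    {S1 S2 S3 S4 S5 S6 S7 : ℕ}
    (g1 : POK S1 [uu v (cd p4), uu v (cd p5)] (uu v (cd k1)) 0 ∧ Wf S1 2)
    (g2 : POK S2 [uu v (cd p4), uu v (cd p5)] (uu v (cd k2)) 0 ∧ Wf S2 2)
    (g3 : POK S3 [uu v (cd p4), uu v (cd p5)] (uu v (cd k3)) 0 ∧ Wf S3 2)
    (g4 : POK S4 [uu v (cd p4), uu v (cd p5)] (uu v (cd k4)) 0 ∧ Wf S4 2)
    (g5 : POK S5 [uu v (cd p4), uu v (cd p5)] (uu v (cd k5)) 0 ∧ Wf S5 2)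
    (g6 : POK S6 [uu v (cd p4), uu v (cd p5)] (uu v (cd k6)) 0 ∧ Wf S6 2)
    (g7 : POK S7 [uu v (cd p4), uu v (cd p5)] (uu v (cd k7)) 0 ∧ Wf S7 2) :
    tail O outs E0 p1 p2 p3 p4 p5 k1 k2 k3 k4 k5 k6 k7 (pos (uu v (cd p1))) (pos (uu v (cd p2)))
      (pos (uu v (cd p3))) S1 S2 S3 S4 S5 S6 S7 (23328 + pos (uu v (cd p4)))
      (49766 - pos (uu v (cd p4))) (7776 + pos (uu v (cd p5))) (18662 - pos (uu v (cd p5)))
      = false := by
  have a : ∀ x y : ℕ, Nat.sub (x + y) x = y := fun x y => Nat.add_sub_cancel_left x y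
  have a4 := a 23328 (pos (uu v (cd p4)))
  have a5 := a 7776 (pos (uu v (cd p5)))
  rw [tail, a4, a5, tail2]
  simp only [List.nodup_cons, List.mem_cons, List.not_mem_nil, or_false, not_or,
    List.nodup_nil, and_true, not_false_eq_true] at hp
  obtain ⟨⟨n12, n13, n14, n15⟩, ⟨n23, n24, n25⟩, ⟨n34, n35⟩, n45⟩ := hp
  have f1 := hpF p1 (by simp)
  have f2 := hpF p2 (by simp)
  have f3 := hpF p3 (by simp)
  have f4 := hpF p4 (by simp)
  have f5 := hpF p5 (by simp)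
  have E1 := asg_ok (uu v) F E0 hE p1 f1.1 f1.2
  have E2 := asg_ok (uu v) _ _ E1 p2 f2.1 (by
    simp only [Finset.mem_insert, not_or]; exact ⟨fun h => n12 h.symm, f2.2⟩)
  have E3 := asg_ok (uu v) _ _ E2 p3 f3.1 (by
    simp only [Finset.mem_insert, not_or]
    exact ⟨fun h => n23 h.symm, fun h => n13 h.symm, f3.2⟩)
  have E4 := asg_ok (uu v) _ _ E3 p4 f4.1 (by
    simp only [Finset.mem_insert, not_or]
    exact ⟨fun h => n34 h.symm, fun h => n24 h.symm, fun h => n14 h.symm, f4.2⟩)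
  have E5 := asg_ok (uu v) _ _ E4 p5 f5.1 (by
    simp only [Finset.mem_insert, not_or]
    exact ⟨fun h => n45 h.symm, fun h => n35 h.symm, fun h => n25 h.symm,
      fun h => n15 h.symm, f5.2⟩)
  refine nd_ok hv _ ?_ O 30 _ _ _ E5
  intro pr hpr
  rw [List.mem_cons, List.mem_cons, List.mem_cons, List.mem_cons, List.mem_cons, List.mem_cons,
    List.mem_cons] at hpr
  rcases hpr with h | h | h | h | h | h | h | h
  · rw [h]; exact ⟨hk k1 (by simp), mg2_ok g1⟩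
  · rw [h]; exact ⟨hk k2 (by simp), mg2_ok g2⟩
  · rw [h]; exact ⟨hk k3 (by simp), mg2_ok g3⟩
  · rw [h]; exact ⟨hk k4 (by simp), mg2_ok g4⟩
  · rw [h]; exact ⟨hk k5 (by simp), mg2_ok g5⟩
  · rw [h]; exact ⟨hk k6 (by simp), mg2_ok g6⟩
  · rw [h]; exact ⟨hk k7 (by simp), mg2_ok g7⟩
  · exact houts pr h

end Pool.Agent.T2H98.EGZ
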