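import Pool.Agent.T2H98.EGZ.Bounds

/-!
# Package B4, part A: levels, pencils, classes of the 18-sections of a tight 45-cap
-/

set_option autoImplicit false

namespace Pool.Agent.T2H98.EGZ.Tight

open Finset

variable {r : ℕ}

/-- the level `i` of the last coordinate, with it dropped -/
def lev (D : Finset (Fin (r + 1) → ZMod 3)) (i : ZMod 3) : Finset (Fin r → ZMod 3) :=
  (D.filter fun x => x (Fin.last r) = i).image (fun x (k : Fin r) => x k.castSucc)

/-- the functional with the last coefficient `t` -/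
def fn (η : Fin r → ZMod 3) (t : ZMod 3) : Fin (r + 1) → ZMod 3 :=
  Fin.snoc (α := fun _ => ZMod 3) η t

theorem fn_castSucc (η : Fin r → ZMod 3) (t : ZMod 3) (k : Fin r) : fn η t k.castSucc = η k := by
  unfold fn; rw [Fin.snoc_castSucc]

theorem fn_last (η : Fin r → ZMod 3) (t : ZMod 3) : fn η t (Fin.last r) = t := by
  unfold fn; rw [Fin.snoc_last]

theorem fn_split (ξ : Fin (r + 1) → ZMod 3) : fn (fun k => ξ k.castSucc) (ξ (Fin.last r)) = ξ := by
  funext k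
  refine Fin.lastCases ?_ (fun i => ?_) k
  · rw [fn_last]
  · rw [fn_castSucc]

theorem dot_fn (η : Fin r → ZMod 3) (t : ZMod 3) (x : Fin (r + 1) → ZMod 3) :
    dotProduct (fn η t) x = dotProduct η (fun k => x k.castSucc) + t * x (Fin.last r) := by
  unfold dotProduct
  rw [Fin.sum_univ_castSucc, fn_last]
  simp only [fn_castSucc]

theorem mem_lev {D : Finset (Fin (r + 1) → ZMod 3)} {i : ZMod 3} {x : Fin r → ZMod 3} :
    x ∈ lev D i ↔ fn x i ∈ D := by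
  unfold lev
  rw [Finset.mem_image]
  constructor
  · rintro ⟨y, hy, rfl⟩
    rw [Finset.mem_filter] at hy
    rw [← hy.2, fn_split]
    exact hy.1
  · intro h
    refine ⟨fn x i, Finset.mem_filter.2 ⟨h, fn_last _ _⟩, ?_⟩
    funext k
    exact fn_castSucc _ _ _

theorem fn_injective {η η' : Fin r → ZMod 3} {t t' : ZMod 3} (h : fn η t = fn η' t') :
    η = η' ∧ t = t' := by
  constructor
  · funext k
    rw [← fn_castSucc η t, h, fn_castSucc]
  · rw [← fn_last η t, h, fn_last]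

theorem fn_zero : fn (0 : Fin r → ZMod 3) 0 = 0 := by
  funext k
  refine Fin.lastCases ?_ (fun i => ?_) k
  · rw [fn_last]; rfl
  · rw [fn_castSucc]; rfl

theorem fn_ne_zero {η : Fin r → ZMod 3} (h : η ≠ 0) (t : ZMod 3) : fn η t ≠ 0 := by
  intro h'
  rw [← fn_zero] at h'
  exact h (fn_injective h').1

/-- the last coordinate as a functional -/
theorem dot_last (x : Fin (r + 1) → ZMod 3) : dotProduct (fn 0 1) x = x (Fin.last r) := by
  rw [dot_fn, zero_dotProduct, zero_add, one_mul]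

theorem ext_lev {D D' : Finset (Fin (r + 1) → ZMod 3)} (h : ∀ i, lev D i = lev D' i) : D = D' := by
  ext x
  rw [← fn_split x, ← mem_lev, ← mem_lev, h]

theorem card_lev (D : Finset (Fin (r + 1) → ZMod 3)) (i : ZMod 3) :
    (lev D i).card = nn D (fn 0 1) i := by
  unfold lev
  rw [section_card, nn]
  congr 1
  ext x
  simp only [Finset.mem_filter, dot_last]

theorem cap_lev {D : Finset (Fin (r + 1) → ZMod 3)} (hD : IsCap D) (i : ZMod 3) :
    IsCap (lev D i) := section_cap hD i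

theorem nn_lev (D : Finset (Fin (r + 1) → ZMod 3)) (i : ZMod 3) (η : Fin r → ZMod 3)
    (j : ZMod 3) : nn (lev D i) η j =
      (D.filter fun x => x (Fin.last r) = i ∧ dotProduct η (fun k => x k.castSucc) = j).card := by
  unfold nn lev
  rw [Finset.filter_image, Finset.card_image_of_injOn, Finset.filter_filter]
  intro x hx y hy hxy
  rw [Finset.mem_coe, Finset.mem_filter, Finset.mem_filter] at hx hy
  funext k
  refine Fin.lastCases ?_ (fun i => ?_) k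
  · rw [hx.1.2, hy.1.2]
  · exact congrFun hxy i

/-- the four lines through a point of the plane of levels -/
theorem pencil (D : Finset (Fin (r + 1) → ZMod 3)) (η : Fin r → ZMod 3) (i j : ZMod 3) :
    3 * nn (lev D i) η j + D.card = nn D (fn 0 1) i + nn D (fn η 0) j + nn D (fn η 1) (j + i) +
      nn D (fn η 2) (j + 2 * i) := by
  rw [nn_lev]
  unfold nn
  simp only [Finset.card_filter]
  rw [Finset.mul_sum, Finset.card_eq_sum_ones, ← Finset.sum_add_distrib, ← Finset.sum_add_distrib,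
    ← Finset.sum_add_distrib, ← Finset.sum_add_distrib]
  refine Finset.sum_congr rfl fun x _ => ?_
  simp only [dot_fn, zero_dotProduct, zero_add, one_mul, zero_mul, add_zero]
  generalize x (Fin.last r) = s
  generalize dotProduct η (fun k => x k.castSucc) = v
  revert s v i j
  decide

/-! ## Affine invariance of the classes -/

theorem nn_image (D : Finset (Fin r → ZMod 3)) {A A' : Matrix (Fin r) (Fin r) (ZMod 3)}
    (h : A' * A = 1) (b ξ : Fin r → ZMod 3) (j : ZMod 3) :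
    nn (D.image (fun x => A.mulVec x + b)) ξ j =
      nn D (Matrix.vecMul ξ A) (j - dotProduct ξ b) := by
  unfold nn
  rw [Finset.filter_image, Finset.card_image_of_injective _ (aff_inj h b)]
  congr 1
  ext x
  simp only [Finset.mem_filter]
  rw [dotProduct_add, Matrix.dotProduct_mulVec, eq_sub_iff_add_eq]

theorem vecMul_ne_zero {A A' : Matrix (Fin r) (Fin r) (ZMod 3)} (h : A * A' = 1)
    {ξ : Fin r → ZMod 3} (hξ : ξ ≠ 0) : Matrix.vecMul ξ A ≠ 0 := by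
  intro h0
  apply hξ
  have := congrArg (fun v => Matrix.vecMul v A') h0
  simpa [Matrix.vecMul_vecMul, h] using this

theorem aff_nn {D D' : Finset (Fin r → ZMod 3)} (h : AffEq D D') {ξ : Fin r → ZMod 3}
    (hξ : ξ ≠ 0) : ∃ ξ', ξ' ≠ 0 ∧ ∃ c : ZMod 3, ∀ j, nn D' ξ j = nn D ξ' (j - c) := by
  obtain ⟨A, A', b, h1, h2, rfl⟩ := h
  exact ⟨_, vecMul_ne_zero h1 hξ, dotProduct ξ b, fun j => nn_image D h2 b ξ j⟩

theorem aff_cls {D D' : Finset (Fin r → ZMod 3)} (h : AffEq D D') {ξ : Fin r → ZMod 3}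
    (hξ : ξ ≠ 0) : ∃ ξ', ξ' ≠ 0 ∧ ∀ a b c, Cls D ξ' a b c → Cls D' ξ a b c := by
  obtain ⟨ξ', h0, c, hc⟩ := aff_nn h hξ
  refine ⟨ξ', h0, ?_⟩
  rintro a b c' ⟨σ, h1, h2, h3⟩
  refine ⟨σ.trans (Equiv.addRight c), ?_, ?_, ?_⟩
  · rw [hc]; simpa using h1
  · rw [hc]; simpa using h2
  · rw [hc]; simpa using h3

/-! ## Tight caps -/

/-- `D` is a tight 45-cap -/
structure TD (D : Finset (Fin 5 → ZMod 3)) : Prop where
  cap : IsCap D
  card : D.card = 45
  cls : ∀ ξ, ξ ≠ 0 → Cls D ξ 15 15 15 ∨ Cls D ξ 18 18 9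

theorem TD.aff {D D' : Finset (Fin 5 → ZMod 3)} (hD : TD D) (h : AffEq D D') : TD D' := by
  refine ⟨h.isCap hD.cap, h.card.trans hD.card, fun ξ hξ => ?_⟩
  obtain ⟨ξ', h0, hc⟩ := aff_cls h hξ
  rcases hD.cls ξ' h0 with h1 | h1
  · exact Or.inl (hc _ _ _ h1)
  · exact Or.inr (hc _ _ _ h1)

/-- the possible values of a functional -/
def V (u : ZMod 3 → ℕ) : Prop := (∀ j, u j = 15) ∨ ∃ a, ∀ j, u j = if j = a then 9 else 18

theorem TD.val {D : Finset (Fin 5 → ZMod 3)} (hD : TD D) {ξ : Fin 5 → ZMod 3} (hξ : ξ ≠ 0) :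
    V (nn D ξ) := by
  rcases hD.cls ξ hξ with ⟨σ, h0, h1, h2⟩ | ⟨σ, h0, h1, h2⟩
  · left
    intro j
    obtain ⟨k, rfl⟩ := σ.surjective j
    have e : ∀ k : ZMod 3, k = 0 ∨ k = 1 ∨ k = 2 := by decide
    rcases e k with rfl | rfl | rfl <;> assumption
  · right
    refine ⟨σ 2, fun j => ?_⟩
    obtain ⟨k, rfl⟩ := σ.surjective j
    have e : ∀ k : ZMod 3, k = 0 ∨ k = 1 ∨ k = 2 := by decide
    rcases e k with rfl | rfl | rfl
    · rw [if_neg (fun h => absurd (σ.injective h) (by decide)), h0]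
    · rw [if_neg (fun h => absurd (σ.injective h) (by decide)), h1]
    · rw [if_pos rfl, h2]

theorem TD.val9 {D : Finset (Fin 5 → ZMod 3)} (hD : TD D) {ξ : Fin 5 → ZMod 3} (hξ : ξ ≠ 0)
    {a : ZMod 3} (h9 : nn D ξ a = 9) (j : ZMod 3) : nn D ξ j = if j = a then 9 else 18 := by
  rcases hD.val hξ with h | ⟨b, h⟩
  · rw [h] at h9; omega
  · have : a = b := by
      by_contra hne
      rw [h, if_neg hne] at h9
      omega
    rw [this]
    exact h j

/-- the row of an 18-level -/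
theorem row {D : Finset (Fin 5 → ZMod 3)} (hD : TD D) (h18 : nn D (fn 0 1) 0 = 18)
    (η : Fin 4 → ZMod 3) (j : ZMod 3) :
    3 * nn (lev D 0) η j + 27 = nn D (fn η 0) j + nn D (fn η 1) j + nn D (fn η 2) j := by
  have h := pencil D η 0 j
  rw [h18, hD.card, mul_zero, add_zero] at h
  omega

theorem z3 (k : ZMod 3) : k = 0 ∨ k = 1 ∨ k = 2 := by
  revert k; decide

/-- the weighted local inequality -/
theorem local_ineq (u0 u1 u2 k : ZMod 3 → ℕ) (h0 : V u0) (h1 : V u1) (h2 : V u2)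
    (hk : ∀ j, 3 * k j + 27 = u0 j + u1 j + u2 j) (hno : ∀ j, k j ≠ 3) :
    27 * (k 0 ^ 2 + k 1 ^ 2 + k 2 ^ 2) +
      3 * (k 0 ^ 3 + k 1 ^ 3 + k 2 ^ 3 + 6 * (k 0 * k 1 * k 2)) +
      (if k 0 = 0 ∨ k 1 = 0 ∨ k 2 = 0 then 1 else 0) ≤
    4698 + 2 * ((u0 0 ^ 2 + u0 1 ^ 2 + u0 2 ^ 2) + (u1 0 ^ 2 + u1 1 ^ 2 + u1 2 ^ 2) +
      (u2 0 ^ 2 + u2 1 ^ 2 + u2 2 ^ 2)) := by
  have k0 := hk 0
  have k1 := hk 1
  have k2 := hk 2
  have n0 := hno 0
  have n1 := hno 1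
  have n2 := hno 2
  clear hk hno
  generalize k 0 = x0 at *
  generalize k 1 = x1 at *
  generalize k 2 = x2 at *
  have key : ∀ u, V u → (u 0 = 15 ∧ u 1 = 15 ∧ u 2 = 15) ∨ (u 0 = 9 ∧ u 1 = 18 ∧ u 2 = 18) ∨
      (u 0 = 18 ∧ u 1 = 9 ∧ u 2 = 18) ∨ (u 0 = 18 ∧ u 1 = 18 ∧ u 2 = 9) := by
    rintro u (h | ⟨a, h⟩)
    · exact Or.inl ⟨h 0, h 1, h 2⟩
    · rcases z3 a with rfl | rfl | rfl
      · exact Or.inr (Or.inl ⟨h 0, h 1, h 2⟩)
      · exact Or.inr (Or.inr (Or.inl ⟨h 0, h 1, h 2⟩))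
      · exact Or.inr (Or.inr (Or.inr ⟨h 0, h 1, h 2⟩))
  have m0 : ∀ n x : ℕ, 3 * x + 27 = n → x = (n - 27) / 3 := by intro n x h; omega
  rcases key u0 h0 with ⟨a0, a1, a2⟩ | ⟨a0, a1, a2⟩ | ⟨a0, a1, a2⟩ | ⟨a0, a1, a2⟩ <;>
  rcases key u1 h1 with ⟨b0, b1, b2⟩ | ⟨b0, b1, b2⟩ | ⟨b0, b1, b2⟩ | ⟨b0, b1, b2⟩ <;>
  rcases key u2 h2 with ⟨c0, c1, c2⟩ | ⟨c0, c1, c2⟩ | ⟨c0, c1, c2⟩ | ⟨c0, c1, c2⟩ <;>
  rw [a0, b0, c0] at k0 <;> rw [a1, b1, c1] at k1 <;> rw [a2, b2, c2] at k2 <;>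
  rw [a0, a1, a2, b0, b1, b2, c0, c1, c2] <;>
  (have e0 := m0 _ _ k0; have e1 := m0 _ _ k1; have e2 := m0 _ _ k2
   norm_num at e0 e1 e2
   subst e0 e1 e2
   first
   | (exfalso; omega)
   | norm_num)

end Pool.Agent.T2H98.EGZ.Tight
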