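import Pool.Agent.T2H98.EGZ.TightA

/-!
# Package B4, part B: an 18-section of a tight cap has no class `{9,9,0}` and no pencil of a tight
cap consists of special functionals only
-/

set_option autoImplicit false

namespace Pool.Agent.T2H98.EGZ.Tight

open Finset

variable {r : ℕ}

/-- classes of 9-caps in `F_3^3` -/
theorem nine {Q : Finset (Fin 3 → ZMod 3)} (hQ : IsCap Q) (hc : Q.card = 9)
    {η : Fin 3 → ZMod 3} (hη : η ≠ 0) (j : ZMod 3) :
    nn Q η j = 1 ∨ nn Q η j = 3 ∨ nn Q η j = 4 := by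
  have h1 := sumS2' Q
  have h2 := sumS3' hQ
  rw [hc] at h1 h2
  have h3 : ∀ ξ ∈ nz 3, 324 ≤ S3 Q ξ + 3 * S2 Q ξ ∧
      (324 = S3 Q ξ + 3 * S2 Q ξ → Cls Q ξ 3 3 3 ∨ Cls Q ξ 4 4 1) := by
    intro ξ hξ
    obtain ⟨a, b, c, ha, hb, hc, hs, hcl⟩ := exists_cls_le hQ card_le_two_dim hc (mem_nz.1 hξ)
    rw [hcl.S2, hcl.S3]
    obtain ⟨rfl⟩ : c = 9 - a - b := by omega
    have : 3 ≤ a := by omega
    have : 3 ≤ b := by omega
    interval_cases a <;> interval_cases b <;> simp_all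
  have h4 : ∑ ξ ∈ nz 3, (S3 Q ξ + 3 * S2 Q ξ) = ∑ ξ ∈ nz 3, 324 := by
    rw [Finset.sum_add_distrib, ← Finset.mul_sum, Finset.sum_const, card_nz, smul_eq_mul]
    omega
  have h5 := (Finset.sum_eq_sum_iff_of_le (fun ξ hξ => (h3 ξ hξ).1)).1 h4.symm
  have key : ∀ a b c : ℕ, Cls Q η a b c → nn Q η j = a ∨ nn Q η j = b ∨ nn Q η j = c := by
    rintro a b c ⟨σ, h0, h1, h2⟩
    obtain ⟨k, rfl⟩ := σ.surjective j
    rcases z3 k with rfl | rfl | rfl
    · exact Or.inl h0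
    · exact Or.inr (Or.inl h1)
    · exact Or.inr (Or.inr h2)
  rcases (h3 η (mem_nz.2 hη)).2 (h5 η (mem_nz.2 hη)) with h | h
  · rcases key _ _ _ h with h | h | h <;> omega
  · rcases key _ _ _ h with h | h | h <;> omega

/-- the class of a functional in terms of the levels -/
theorem nn_levels (D : Finset (Fin (r + 1) → ZMod 3)) (η : Fin r → ZMod 3) (t j : ZMod 3) :
    nn D (fn η t) j = nn (lev D 0) η j + nn (lev D 1) η (j - t) + nn (lev D 2) η (j - 2 * t) := by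
  rw [nn_lev, nn_lev, nn_lev]
  unfold nn
  simp only [Finset.card_filter]
  rw [← Finset.sum_add_distrib, ← Finset.sum_add_distrib]
  refine Finset.sum_congr rfl fun x _ => ?_
  simp only [dot_fn]
  generalize x (Fin.last r) = s
  generalize dotProduct η (fun k => x k.castSucc) = v
  revert s v t j
  decide

/-- sum over the functionals -/
theorem sum_fn (g : (Fin (r + 1) → ZMod 3) → ℕ) :
    ∑ ξ, g ξ = ∑ η : Fin r → ZMod 3, (g (fn η 0) + g (fn η 1) + g (fn η 2)) := by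
  have h : ∑ ξ, g ξ = ∑ p : (Fin r → ZMod 3) × ZMod 3, g (fn p.1 p.2) := by
    symm
    refine Fintype.sum_bijective (fun p : (Fin r → ZMod 3) × ZMod 3 => fn p.1 p.2) ⟨?_, ?_⟩ _ _
      (fun _ => rfl)
    · rintro ⟨a, b⟩ ⟨c, d⟩ h
      obtain ⟨h1, h2⟩ := fn_injective h
      simp only at h1 h2
      rw [h1, h2]
    · intro ξ
      exact ⟨(fun k => ξ k.castSucc, ξ (Fin.last r)), fn_split ξ⟩
  rw [h, Fintype.sum_prod_type]
  exact Finset.sum_congr rfl fun η _ => sum3 _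

theorem sum_nz (g : (Fin (r + 1) → ZMod 3) → ℕ) :
    ∑ ξ ∈ nz (r + 1), g ξ = g (fn 0 1) + g (fn 0 2) +
      ∑ η ∈ nz r, (g (fn η 0) + g (fn η 1) + g (fn η 2)) := by
  have h1 := sum_fn g
  have h2 : ∑ ξ, g ξ = g 0 + ∑ ξ ∈ nz (r + 1), g ξ := by
    rw [nz, Finset.add_sum_erase _ _ (Finset.mem_univ _)]
  have h3 : ∑ η : Fin r → ZMod 3, (g (fn η 0) + g (fn η 1) + g (fn η 2)) =
      (g (fn 0 0) + g (fn 0 1) + g (fn 0 2)) +
        ∑ η ∈ nz r, (g (fn η 0) + g (fn η 1) + g (fn η 2)) := by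
    rw [nz, Finset.add_sum_erase _ (fun η => g (fn η 0) + g (fn η 1) + g (fn η 2))
      (Finset.mem_univ _)]
  rw [h2, h3, fn_zero] at h1
  omega

/-- a cap of 18 points in `F_3^4` with a class `{9,9,0}` has no part of size 3 -/
theorem no_three {K : Finset (Fin 4 → ZMod 3)} (hK : IsCap K) (hc : K.card = 18)
    {η₀ : Fin 4 → ZMod 3} (hη₀ : η₀ ≠ 0) {j₀ : ZMod 3} (h0 : nn K η₀ j₀ = 0)
    {η : Fin 4 → ZMod 3} (hη : η ≠ 0) (j : ZMod 3) : nn K η j ≠ 3 := by
  classical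
  obtain ⟨K', hKK, hlev⟩ := normalise K hη₀ (Equiv.swap 0 j₀)
  have hcap := hKK.isCap hK
  have hcl : ∀ i, (lev K' i).card = nn K η₀ (Equiv.swap 0 j₀ i) := by
    intro i
    rw [← hlev i]
    exact section_card K' i
  have hc0 : (lev K' 0).card = 0 := by
    rw [hcl, Equiv.swap_apply_left, h0]
  have hle : ∀ i, (lev K' i).card ≤ 9 := fun i => card_le_three_dim _ (cap_lev hcap i)
  have hsum : (lev K' 0).card + (lev K' 1).card + (lev K' 2).card = 18 := by
    rw [card_lev, card_lev, card_lev, nn_sum, hKK.card, hc]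
  have h1 := hle 1
  have h2 := hle 2
  have hc1 : (lev K' 1).card = 9 := by omega
  have hc2 : (lev K' 2).card = 9 := by omega
  obtain ⟨ξ, hξ, c, hnn⟩ := aff_nn hKK.symm hη
  rw [hnn, ← fn_split ξ, nn_levels]
  have he : ∀ j, nn (lev K' 0) (fun k => ξ k.castSucc) j = 0 := by
    intro j
    rw [Finset.card_eq_zero.1 hc0]
    rfl
  rw [he, zero_add]
  by_cases hz : (fun k : Fin 3 => ξ k.castSucc) = 0
  · have hval : ∀ (Q : Finset (Fin 3 → ZMod 3)), Q.card = 9 → ∀ j, nn Q 0 j = 0 ∨ nn Q 0 j = 9 := by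
      intro Q hQ j
      by_cases hj : j = 0
      · right; rw [hj, nn_zero_zero, hQ]
      · left; exact nn_zero_ne Q hj
    rw [hz]
    rcases hval _ hc1 (j - c - ξ (Fin.last 3)) with h | h <;>
    rcases hval _ hc2 (j - c - 2 * ξ (Fin.last 3)) with h' | h' <;> rw [h, h'] <;> norm_num
  · rcases nine (cap_lev hcap 1) hc1 hz (j - c - ξ (Fin.last 3)) with h | h | h <;>
    rcases nine (cap_lev hcap 2) hc2 hz (j - c - 2 * ξ (Fin.last 3)) with h' | h' | h' <;>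
    rw [h, h'] <;> norm_num

theorem nn_neg_two (D : Finset (Fin (r + 1) → ZMod 3)) : S2 D (fn 0 2) = S2 D (fn 0 1) := by
  rw [← S2_neg D (fn 0 1)]
  congr 1
  funext k
  refine Fin.lastCases ?_ (fun i => ?_) k
  · rw [Pi.neg_apply, fn_last, fn_last]; decide
  · rw [Pi.neg_apply, fn_castSucc, fn_castSucc]; simp

/-- **Claim 1.** An 18-level of a tight cap has no empty part. -/
theorem claim1 {D : Finset (Fin 5 → ZMod 3)} (hD : TD D) (h18 : nn D (fn 0 1) 0 = 18)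
    {η₀ : Fin 4 → ZMod 3} (hη₀ : η₀ ≠ 0) (j₀ : ZMod 3) : nn (lev D 0) η₀ j₀ ≠ 0 := by
  intro h0
  have hcap := cap_lev hD.cap 0
  have hc : (lev D 0).card = 18 := by rw [card_lev, h18]
  have hno := fun (η : Fin 4 → ZMod 3) (hη : η ≠ 0) j => no_three hcap hc hη₀ h0 hη j
  have s2 := sumS2' (lev D 0)
  have s3 := sumS3' hcap
  rw [hc] at s2 s3
  have t2 := sumS2' D
  rw [hD.card, sum_nz, nn_neg_two] at t2
  have h4 : S2 D (fn 0 1) = 729 := by
    rcases hD.cls (fn 0 1) (by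
      intro h
      exact absurd (fn_injective (h.trans fn_zero.symm)).2 (by decide)) with h | h
    · exfalso
      obtain ⟨σ, h1, h2, h3⟩ := h
      obtain ⟨k, hk⟩ := σ.surjective 0
      rcases z3 k with rfl | rfl | rfl
      · rw [hk] at h1; omega
      · rw [hk] at h2; omega
      · rw [hk] at h3; omega
    · rw [h.S2]; norm_num
  rw [h4] at t2
  have hloc : ∀ η ∈ nz 4, 27 * S2 (lev D 0) η + 3 * S3 (lev D 0) η +
      (if nn (lev D 0) η 0 = 0 ∨ nn (lev D 0) η 1 = 0 ∨ nn (lev D 0) η 2 = 0 then 1 else 0) ≤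
      4698 + 2 * (S2 D (fn η 0) + S2 D (fn η 1) + S2 D (fn η 2)) := by
    intro η hη
    have hη := mem_nz.1 hη
    exact local_ineq (nn D (fn η 0)) (nn D (fn η 1)) (nn D (fn η 2)) (nn (lev D 0) η)
      (hD.val (fn_ne_zero hη 0)) (hD.val (fn_ne_zero hη 1)) (hD.val (fn_ne_zero hη 2))
      (row hD h18 η) (hno η hη)
  have hsum := Finset.sum_le_sum hloc
  rw [Finset.sum_add_distrib, Finset.sum_add_distrib, Finset.sum_add_distrib, ← Finset.mul_sum,
    ← Finset.mul_sum, ← Finset.mul_sum, Finset.sum_const, card_nz, smul_eq_mul] at hsum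
  have hpos : 1 ≤ ∑ η ∈ nz 4, (if nn (lev D 0) η 0 = 0 ∨ nn (lev D 0) η 1 = 0 ∨
      nn (lev D 0) η 2 = 0 then 1 else 0) := by
    refine le_trans ?_ (Finset.single_le_sum (f := fun η => if nn (lev D 0) η 0 = 0 ∨
      nn (lev D 0) η 1 = 0 ∨ nn (lev D 0) η 2 = 0 then 1 else 0) (fun _ _ => Nat.zero_le _)
      (mem_nz.2 hη₀))
    rw [if_pos]
    rcases z3 j₀ with rfl | rfl | rfl
    · exact Or.inl h0
    · exact Or.inr (Or.inl h0)
    · exact Or.inr (Or.inr h0)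
  omega

end Pool.Agent.T2H98.EGZ.Tight
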