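import Pool.Agent.T2H98.EGZ.TightB

/-!
# Package B4, part C: classes of an 18-section
-/

set_option autoImplicit false

namespace Pool.Agent.T2H98.EGZ.Tight

open Finset

variable {r : ℕ}

/-- number of points with given values of two functionals -/
def cc (D : Finset (Fin r → ZMod 3)) (ξ η : Fin r → ZMod 3) (i j : ZMod 3) : ℕ :=
  (D.filter fun x => dotProduct ξ x = i ∧ dotProduct η x = j).card

theorem pencil2 (D : Finset (Fin r → ZMod 3)) (ξ η : Fin r → ZMod 3) (i j : ZMod 3) :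
    3 * cc D ξ η i j + D.card = nn D ξ i + nn D η j + nn D (ξ + η) (i + j) +
      nn D (ξ - η) (i - j) := by
  unfold nn cc
  simp only [Finset.card_filter]
  rw [Finset.mul_sum, Finset.card_eq_sum_ones, ← Finset.sum_add_distrib, ← Finset.sum_add_distrib,
    ← Finset.sum_add_distrib, ← Finset.sum_add_distrib]
  refine Finset.sum_congr rfl fun x _ => ?_
  simp only [add_dotProduct, sub_dotProduct]
  generalize dotProduct ξ x = s
  generalize dotProduct η x = v
  revert s v i j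
  decide

theorem dot_ext {ξ η : Fin r → ZMod 3} (h : ∀ x, dotProduct ξ x = dotProduct η x) : ξ = η := by
  funext k
  have := h (Pi.single k 1)
  simpa using this

theorem fn01_ne : fn (0 : Fin r → ZMod 3) 1 ≠ 0 := by
  intro h
  exact absurd (fn_injective (h.trans fn_zero.symm)).2 (by decide)

/-- **Claim 1, general form.** -/
theorem claim1' {D : Finset (Fin 5 → ZMod 3)} (hD : TD D) {ξ : Fin 5 → ZMod 3} (hξ : ξ ≠ 0)
    {i : ZMod 3} (h18 : nn D ξ i = 18) {η : Fin 5 → ZMod 3} (hη : η ≠ 0) (hη1 : η ≠ ξ)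
    (hη2 : η ≠ -ξ) (j : ZMod 3) : cc D ξ η i j ≠ 0 := by
  classical
  obtain ⟨A, A', h1, h2, h3⟩ := exists_mat (r := 4) hξ
  set b : Fin 5 → ZMod 3 := Pi.single (Fin.last 4) (-i) with hb
  have hD' : TD (D.image (fun x => A.mulVec x + b)) := hD.aff ⟨A, A', b, h1, h2, rfl⟩
  have hlast : ∀ x, (A.mulVec x + b) (Fin.last 4) = dotProduct ξ x - i := by
    intro x
    rw [Pi.add_apply, h3, hb, Pi.single_eq_same, sub_eq_add_neg]
  have h18' : nn (D.image (fun x => A.mulVec x + b)) (fn 0 1) 0 = 18 := by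
    rw [← h18, nn_image D h2]
    have e : Matrix.vecMul (fn 0 1) A = ξ := by
      apply dot_ext
      intro x
      rw [← Matrix.dotProduct_mulVec, dot_last, h3]
    rw [e, dot_last, hb, Pi.single_eq_same, sub_neg_eq_add, zero_add]
  set η' : Fin 5 → ZMod 3 := Matrix.vecMul η A' with hη'
  have hdot : ∀ x, dotProduct η' (A.mulVec x) = dotProduct η x := by
    intro x
    rw [hη', ← Matrix.dotProduct_mulVec, Matrix.mulVec_mulVec, h2, Matrix.one_mulVec]
  have hne : (fun k : Fin 4 => η' k.castSucc) ≠ 0 := by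
    intro h0
    have h4 : ∀ x, dotProduct η x = η' (Fin.last 4) * dotProduct ξ x := by
      intro x
      rw [← hdot, ← fn_split η', dot_fn, h0, zero_dotProduct, zero_add, fn_last, h3]
    have h5 : η = η' (Fin.last 4) • ξ := by
      apply dot_ext
      intro x
      rw [h4, smul_dotProduct, smul_eq_mul]
    rcases z3 (η' (Fin.last 4)) with h | h | h
    · rw [h, zero_smul] at h5; exact hη h5
    · rw [h, one_smul] at h5; exact hη1 h5
    · rw [h] at h5
      apply hη2
      rw [h5]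
      have : (2 : ZMod 3) = -1 := by decide
      rw [this, neg_smul, one_smul]
  have hcl := claim1 hD' h18' hne (j - i * η' (Fin.last 4))
  intro h0
  apply hcl
  rw [nn_lev, Finset.card_eq_zero, Finset.filter_eq_empty_iff]
  unfold cc at h0
  rw [Finset.card_eq_zero, Finset.filter_eq_empty_iff] at h0
  intro y hy hy'
  obtain ⟨x, hx, rfl⟩ := Finset.mem_image.1 hy
  apply h0 hx
  obtain ⟨e1, e2⟩ := hy'
  have e3 : dotProduct ξ x = i := by
    have := hlast x
    rw [e1] at this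
    exact (sub_eq_zero.1 this.symm)
  refine ⟨e3, ?_⟩
  have e4 : dotProduct η' (A.mulVec x + b) = (j - i * η' (Fin.last 4)) := by
    rw [← fn_split η', dot_fn, e2, e1, mul_zero, add_zero, fn_last]
  rw [dotProduct_add, hdot, hb, dotProduct_single] at e4
  linear_combination e4

theorem split4 : ∀ a b c d : ZMod 3,
    c = a + b ∨ d = a - b ∨ c + d = 2 * a ∨ c - d = 2 * b := by
  decide

/-- **Claim 2.** A pencil of a tight cap does not consist of special functionals only. -/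
theorem claim2 {D : Finset (Fin 5 → ZMod 3)} (hD : TD D) {ξ η : Fin 5 → ZMod 3} (hξ : ξ ≠ 0)
    (hη : η ≠ 0) (hne : η ≠ ξ) (hne' : η ≠ -ξ) {a b c d : ZMod 3} (ha : nn D ξ a = 9)
    (hb : nn D η b = 9) (hc : nn D (ξ + η) c = 9) (hd : nn D (ξ - η) d = 9) : False := by
  have hp : ξ + η ≠ 0 := fun h => hne' (by rw [← sub_eq_zero]; rw [← h]; abel)
  have hm : ξ - η ≠ 0 := fun h => hne (sub_eq_zero.1 h).symm
  have vξ := hD.val9 hξ ha
  have vη := hD.val9 hη hb
  have vp := hD.val9 hp hc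
  have vm := hD.val9 hm hd
  have P := fun i j => pencil2 D ξ η i j
  rw [hD.card] at P
  -- multiples
  have m2 : ∀ v : Fin 5 → ZMod 3, v + v = -v := by
    intro v
    rw [← sub_eq_zero]
    have := three_smul_zero v
    rw [← this]; abel
  have split := split4 a b c d
  by_cases h1 : c = a + b
  · by_cases h2 : d = a - b
    · have := P a b
      rw [ha, hb, ← h1, hc, ← h2, hd] at this
      omega
    · have h3 : nn D (ξ - η) (a - b) = 18 := by rw [vm, if_neg (fun h => h2 h.symm)]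
      have h4 := P a b
      rw [ha, hb, ← h1, hc, h3] at h4
      have h5 : cc D (ξ - η) ξ (a - b) a = 0 := by
        have : cc D ξ η a b = 0 := by omega
        unfold cc at this ⊢
        rw [Finset.card_eq_zero, Finset.filter_eq_empty_iff] at this ⊢
        intro x hx hx'
        apply this hx
        rw [sub_dotProduct] at hx'
        refine ⟨hx'.2, ?_⟩
        linear_combination hx'.2 - hx'.1
      refine claim1' hD hm h3 hξ ?_ ?_ a h5
      · intro h
        apply hη
        have : ξ - η = ξ := h.symm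
        simpa using this
      · intro h
        apply hne'
        have : ξ = η - ξ := by rw [neg_sub] at h; exact h
        have h6 : η = ξ + ξ := by rw [← sub_eq_iff_eq_add.1 this.symm]
        rw [h6, m2]
  · by_cases h2 : d = a - b
    · have h3 : nn D (ξ + η) (a + b) = 18 := by rw [vp, if_neg (fun h => h1 h.symm)]
      have h4 := P a b
      rw [ha, hb, ← h2, hd, h3] at h4
      have h5 : cc D (ξ + η) ξ (a + b) a = 0 := by
        have : cc D ξ η a b = 0 := by omega
        unfold cc at this ⊢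
        rw [Finset.card_eq_zero, Finset.filter_eq_empty_iff] at this ⊢
        intro x hx hx'
        apply this hx
        rw [add_dotProduct] at hx'
        refine ⟨hx'.2, ?_⟩
        linear_combination hx'.1 - hx'.2
      refine claim1' hD hp h3 hξ ?_ ?_ a h5
      · intro h
        apply hη
        simpa using h.symm
      · intro h
        apply hne
        have h6 : η = -(ξ + ξ) := by rw [← sub_eq_zero]; rw [eq_neg_iff_add_eq_zero] at h; rw [← h]; abel
        rw [h6, m2, neg_neg]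
    · rcases split with h | h | h | h
      · exact absurd h h1
      · exact absurd h h2
      · -- cell (a, c - a)
        have hbne : c - a ≠ b := fun h' => h1 (by rw [← h']; ring)
        have h3 : nn D η (c - a) = 18 := by rw [vη, if_neg hbne]
        have h4 := P a (c - a)
        have e1 : a + (c - a) = c := by ring
        have e2 : a - (c - a) = d := by linear_combination -h
        rw [ha, h3, e1, hc, e2, hd] at h4
        have h5 : cc D η ξ (c - a) a = 0 := by
          have : cc D ξ η a (c - a) = 0 := by omega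
          unfold cc at this ⊢
          rw [Finset.card_eq_zero, Finset.filter_eq_empty_iff] at this ⊢
          intro x hx hx'
          exact this hx ⟨hx'.2, hx'.1⟩
        refine claim1' hD hη h3 hξ (Ne.symm hne) ?_ a h5
        intro h'
        apply hne'
        rw [h', neg_neg]
      · -- cell (c - b, b)
        have hane : c - b ≠ a := fun h' => h1 (by rw [← h']; ring)
        have h3 : nn D ξ (c - b) = 18 := by rw [vξ, if_neg hane]
        have h4 := P (c - b) b
        have e1 : c - b + b = c := by ring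
        have e2 : c - b - b = d := by linear_combination h
        rw [hb, h3, e1, hc, e2, hd] at h4
        have h5 : cc D ξ η (c - b) b = 0 := by omega
        exact claim1' hD hξ h3 hη hne hne' b h5

/-- the possible classes of an 18-section -/
def W (a b c : ℕ) : Prop :=
  (a = 6 ∧ b = 6 ∧ c = 6) ∨ (a = 4 ∧ b = 7 ∧ c = 7) ∨ (a = 7 ∧ b = 4 ∧ c = 7) ∨
    (a = 7 ∧ b = 7 ∧ c = 4) ∨ (a = 2 ∧ b = 8 ∧ c = 8) ∨ (a = 8 ∧ b = 2 ∧ c = 8) ∨
    (a = 8 ∧ b = 8 ∧ c = 2) ∨ (a = 8 ∧ b = 5 ∧ c = 5) ∨ (a = 5 ∧ b = 8 ∧ c = 5) ∨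
    (a = 5 ∧ b = 5 ∧ c = 8)

instance (a b c : ℕ) : Decidable (W a b c) := by unfold W; infer_instance

theorem W.cyc {a b c : ℕ} (h : W a b c) : W b c a := by
  rcases h with ⟨rfl, rfl, rfl⟩ | ⟨rfl, rfl, rfl⟩ | ⟨rfl, rfl, rfl⟩ | ⟨rfl, rfl, rfl⟩ |
    ⟨rfl, rfl, rfl⟩ | ⟨rfl, rfl, rfl⟩ | ⟨rfl, rfl, rfl⟩ | ⟨rfl, rfl, rfl⟩ |
    ⟨rfl, rfl, rfl⟩ | ⟨rfl, rfl, rfl⟩ <;> decide

/-- a tight 18-cap -/
structure TK (K : Finset (Fin 4 → ZMod 3)) : Prop where
  cap : IsCap K
  card : K.card = 18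
  cls : ∀ η, η ≠ 0 → W (nn K η 0) (nn K η 1) (nn K η 2)

theorem TK.aff {K K' : Finset (Fin 4 → ZMod 3)} (hK : TK K) (h : AffEq K K') : TK K' := by
  refine ⟨h.isCap hK.cap, h.card.trans hK.card, fun η hη => ?_⟩
  obtain ⟨η', h0, c, hc⟩ := aff_nn h hη
  have hW := hK.cls η' h0
  rw [hc, hc, hc]
  rcases z3 c with rfl | rfl | rfl
  · simpa using hW
  · have e0 : (0 : ZMod 3) - 1 = 2 := by decide
    have e1 : (1 : ZMod 3) - 1 = 0 := by decide
    have e2 : (2 : ZMod 3) - 1 = 1 := by decide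
    rw [e0, e1, e2]
    exact hW.cyc.cyc
  · have e0 : (0 : ZMod 3) - 2 = 1 := by decide
    have e1 : (1 : ZMod 3) - 2 = 2 := by decide
    have e2 : (2 : ZMod 3) - 2 = 0 := by decide
    rw [e0, e1, e2]
    exact hW.cyc

theorem V_cases {u : ZMod 3 → ℕ} (h : V u) : (u 0 = 15 ∧ u 1 = 15 ∧ u 2 = 15) ∨
    (u 0 = 9 ∧ u 1 = 18 ∧ u 2 = 18) ∨ (u 0 = 18 ∧ u 1 = 9 ∧ u 2 = 18) ∨
    (u 0 = 18 ∧ u 1 = 18 ∧ u 2 = 9) := by
  rcases h with h | ⟨a, h⟩
  · exact Or.inl ⟨h 0, h 1, h 2⟩
  · rcases z3 a with rfl | rfl | rfl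
    · exact Or.inr (Or.inl ⟨h 0, h 1, h 2⟩)
    · exact Or.inr (Or.inr (Or.inl ⟨h 0, h 1, h 2⟩))
    · exact Or.inr (Or.inr (Or.inr ⟨h 0, h 1, h 2⟩))

/-- in the pencil of an 18-level, one further functional is not special -/
theorem exists_15 {D : Finset (Fin 5 → ZMod 3)} (hD : TD D) (h18 : nn D (fn 0 1) 0 = 18)
    {η : Fin 4 → ZMod 3} (hη : η ≠ 0) : ∃ t, ∀ j, nn D (fn η t) j = 15 := by
  by_contra hcon
  push Not at hcon
  have h9 : ∀ t, ∃ a, nn D (fn η t) a = 9 := by
    intro t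
    rcases hD.val (fn_ne_zero hη t) with h | ⟨a, h⟩
    · obtain ⟨j, hj⟩ := hcon t
      exact absurd (h j) hj
    · exact ⟨a, by rw [h, if_pos rfl]⟩
  have h9' : ∃ a, nn D (fn 0 1) a = 9 := by
    rcases hD.val fn01_ne with h | ⟨a, h⟩
    · rw [h] at h18; omega
    · exact ⟨a, by rw [h, if_pos rfl]⟩
  obtain ⟨a, ha⟩ := h9'
  obtain ⟨b, hb⟩ := h9 0
  obtain ⟨c, hc⟩ := h9 1
  obtain ⟨d, hd⟩ := h9 2
  have e1 : fn 0 1 + fn η 0 = fn η 1 := by
    funext k
    refine Fin.lastCases ?_ (fun i => ?_) k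
    · rw [Pi.add_apply, fn_last, fn_last, fn_last, add_zero]
    · rw [Pi.add_apply, fn_castSucc, fn_castSucc, fn_castSucc]; simp
  have e2 : fn 0 1 - fn η 0 = -fn η 2 := by
    funext k
    refine Fin.lastCases ?_ (fun i => ?_) k
    · rw [Pi.sub_apply, Pi.neg_apply, fn_last, fn_last, fn_last]; decide
    · rw [Pi.sub_apply, Pi.neg_apply, fn_castSucc, fn_castSucc, fn_castSucc]; simp
  refine claim2 hD fn01_ne (fn_ne_zero hη 0) ?_ ?_ ha hb (c := c) (d := -d) (by rw [e1]; exact hc)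
    (by rw [e2, nn_neg, neg_neg]; exact hd)
  · intro h
    exact hη (fn_injective h).1
  · intro h
    apply hη
    have h4 : fn η 0 = fn (-0) (-1) := by
      rw [h]
      funext k
      refine Fin.lastCases ?_ (fun i => ?_) k
      · rw [Pi.neg_apply, fn_last, fn_last]
      · rw [Pi.neg_apply, fn_castSucc, fn_castSucc]; simp
    have := (fn_injective h4).1
    simpa using this

theorem TD.tk {D : Finset (Fin 5 → ZMod 3)} (hD : TD D) (h18 : nn D (fn 0 1) 0 = 18) :
    TK (lev D 0) := by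
  refine ⟨cap_lev hD.cap 0, by rw [card_lev, h18], fun η hη => ?_⟩
  have r0 := row hD h18 η 0
  have r1 := row hD h18 η 1
  have r2 := row hD h18 η 2
  have v0 := V_cases (hD.val (fn_ne_zero hη 0))
  have v1 := V_cases (hD.val (fn_ne_zero hη 1))
  have v2 := V_cases (hD.val (fn_ne_zero hη 2))
  obtain ⟨t, ht⟩ := exists_15 hD h18 hη
  have t0 := ht 0
  have m0 : ∀ n x : ℕ, 3 * x + 27 = n → x = (n - 27) / 3 := by intro n x h; omega
  have hbad : ∀ n : ℕ, n = 9 ∨ n = 18 → n ≠ 15 := by intro n h; omega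
  have hs : (nn D (fn η 0) 0 = 15) ∨ (nn D (fn η 1) 0 = 15) ∨ (nn D (fn η 2) 0 = 15) := by
    rcases z3 t with rfl | rfl | rfl
    · exact Or.inl t0
    · exact Or.inr (Or.inl t0)
    · exact Or.inr (Or.inr t0)
  clear ht t0
  generalize nn (lev D 0) η 0 = x0 at *
  generalize nn (lev D 0) η 1 = x1 at *
  generalize nn (lev D 0) η 2 = x2 at *
  rcases v0 with ⟨a0, a1, a2⟩ | ⟨a0, a1, a2⟩ | ⟨a0, a1, a2⟩ | ⟨a0, a1, a2⟩ <;>
  rcases v1 with ⟨b0, b1, b2⟩ | ⟨b0, b1, b2⟩ | ⟨b0, b1, b2⟩ | ⟨b0, b1, b2⟩ <;>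
  rcases v2 with ⟨c0, c1, c2⟩ | ⟨c0, c1, c2⟩ | ⟨c0, c1, c2⟩ | ⟨c0, c1, c2⟩ <;>
  rw [a0, b0, c0] at r0 hs <;> rw [a1, b1, c1] at r1 <;> rw [a2, b2, c2] at r2 <;>
  (have e0 := m0 _ _ r0; have e1 := m0 _ _ r1; have e2 := m0 _ _ r2
   norm_num at e0 e1 e2
   subst e0 e1 e2
   first
   | decide
   | (exfalso; revert hs; decide))

/-- an 18-section has a class `{8,8,2}` -/
theorem TK.exists_882 {K : Finset (Fin 4 → ZMod 3)} (hK : TK K) :
    ∃ η, η ≠ 0 ∧ Cls K η 8 8 2 := by
  obtain ⟨η, hη, h⟩ := class18 hK.cap hK.card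
  refine ⟨η, hη, ?_⟩
  have hW := hK.cls η hη
  rcases h with h | h | h | h | h
  · exfalso
    obtain ⟨σ, h0, h1, h2⟩ := h
    have : nn K η (σ 0) = 9 := h0
    unfold W at hW
    rcases z3 (σ 0) with e | e | e <;> rw [e] at this <;> omega
  · exact h
  · exfalso
    obtain ⟨σ, h0, h1, h2⟩ := h
    have : nn K η (σ 0) = 9 := h0
    unfold W at hW
    rcases z3 (σ 0) with e | e | e <;> rw [e] at this <;> omega
  · exfalso
    obtain ⟨σ, h0, h1, h2⟩ := h
    have : nn K η (σ 0) = 9 := h0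
    unfold W at hW
    rcases z3 (σ 0) with e | e | e <;> rw [e] at this <;> omega
  · exfalso
    obtain ⟨σ, h0, h1, h2⟩ := h
    have : nn K η (σ 2) = 3 := h2
    unfold W at hW
    rcases z3 (σ 2) with e | e | e <;> rw [e] at this <;> omega

end Pool.Agent.T2H98.EGZ.Tight
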