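import Pool.Agent.T2H98.EGZ.Search
import Pool.Agent.T2H98.EGZ.Lift

/-!
# Package B4, part D: search with cells, certificates in dimension `r`
-/

set_option autoImplicit false

namespace Pool.Agent.T2H98.EGZ.Tight

open Finset

/-! ### the search -/

/-- filter all candidate lists -/
def mapf (m : ℕ) : List (ℕ × List ℕ) → List (ℕ × List ℕ)
  | [] => []
  | (k, l) :: cs => (k, flt m l) :: mapf m cs

/-- all candidate lists are long enough -/
def feas : List (ℕ × List ℕ) → Bool
  | [] => true
  | (k, l) :: cs => match long k l with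
    | true => feas cs
    | false => false

/-- depth first search over caps with a prescribed number of points in each candidate list -/
def dfsc (T : ℕ → ℕ → ℕ) (leaf : List ℕ → Bool) : ℕ → List (ℕ × List ℕ) → List ℕ → Bool
  | 0, _, _ => false
  | _ + 1, [], C => leaf C
  | n + 1, (0, _) :: cs, C => dfsc T leaf n cs C
  | _ + 1, (_ + 1, []) :: _, _ => true
  | n + 1, (t + 1, p :: l) :: cs, C =>
    match long t l with
    | false => true
    | true =>
      (match feas (mapf (forb T p C) ((t, l) :: cs)) with
        | false => true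
        | true => dfsc T leaf n (mapf (forb T p C) ((t, l) :: cs)) (p :: C)).and
      (dfsc T leaf n ((t + 1, l) :: cs) C)

/-- mask of the third points of all pairs -/
def forb2 (T : ℕ → ℕ → ℕ) : List ℕ → ℕ
  | [] => 0
  | c :: C => Nat.lor (forb T c C) (forb2 T C)

/-- table of `thr 2`, 4 bits per entry -/
def tab2 : ℕ :=
  17948342983442561584297945631970468800698068378285420707442055506873491587252258703406607155880224

/-- fast version of `thr 5` -/
def T5 (a b : ℕ) : ℕ :=
  Nat.add (tt (Nat.mod a 27) (Nat.mod b 27)) (Nat.mul 27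
    (Nat.land (Nat.shiftRight tab2 (Nat.mul 4 (Nat.add (Nat.mul 9 (Nat.div a 27)) (Nat.div b 27))))
      15))

/-- the list `a, a+1, ..., a+n-1` -/
def seg (a : ℕ) : ℕ → List ℕ
  | 0 => []
  | n + 1 => a :: seg (a + 1) n

/-- the two standard 18-caps -/
def KS : ℕ → List ℕ
  | 0 => [0, 4, 27, 28, 30, 31, 36, 37, 39, 40, 55, 57, 65, 68, 69, 70, 73, 75]
  | _ => [0, 1, 27, 28, 30, 32, 36, 37, 39, 40, 57, 58, 63, 65, 70, 71, 76, 77]

end Pool.Agent.T2H98.EGZ.Tight
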