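import Pool.Agent.T2H98.EGZ.TightTab
import Pool.Agent.T2H98.EGZ.TightC

/-!
# Package B4, part E: soundness of the search and of the certificates
-/

set_option autoImplicit false

namespace Pool.Agent.T2H98.EGZ.Tight

open Finset

/-! ### the search -/

/-- all candidates -/
def flat : List (ℕ × List ℕ) → List ℕ
  | [] => []
  | (_, l) :: cs => l ++ flat cs

theorem mem_flat {cs : List (ℕ × List ℕ)} {x : ℕ} : x ∈ flat cs ↔ ∃ p ∈ cs, x ∈ p.2 := by
  induction cs with
  | nil => simp [flat]
  | cons a cs ih => obtain ⟨k, l⟩ := a; simp [flat, ih]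

theorem mem_mapf {m : ℕ} {cs : List (ℕ × List ℕ)} {q : ℕ × List ℕ} :
    q ∈ mapf m cs ↔ ∃ p ∈ cs, q = (p.1, flt m p.2) := by
  induction cs with
  | nil => simp [mapf]
  | cons a cs ih => obtain ⟨k, l⟩ := a; simp [mapf, ih]

theorem flat_mapf_sublist (m : ℕ) (cs : List (ℕ × List ℕ)) :
    (flat (mapf m cs)).Sublist (flat cs) := by
  induction cs with
  | nil => simp [flat, mapf]
  | cons a cs ih =>
    obtain ⟨k, l⟩ := a
    simp only [flat, mapf]
    rw [flt_eq]
    exact List.Sublist.append List.filter_sublist ih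

theorem mem_flat_mapf {m : ℕ} {cs : List (ℕ × List ℕ)} {x : ℕ} (h : x ∈ flat cs)
    (hm : m.testBit x = false) : x ∈ flat (mapf m cs) := by
  rw [mem_flat] at h ⊢
  obtain ⟨p, hp, hx⟩ := h
  refine ⟨(p.1, flt m p.2), mem_mapf.2 ⟨p, hp, rfl⟩, ?_⟩
  rw [flt_eq, List.mem_filter]
  exact ⟨hx, by rw [hm]; rfl⟩

/-- the quotas are right for `K` -/
def Quota (K : Finset ℕ) (cs : List (ℕ × List ℕ)) : Prop :=
  ∀ p ∈ cs, (p.2.filter (fun x => decide (x ∈ K))).length = p.1

theorem filter_flt {K : Finset ℕ} {m : ℕ} {l : List ℕ}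
    (h : ∀ x ∈ K, x ∈ l → m.testBit x = false) :
    (flt m l).filter (fun x => decide (x ∈ K)) = l.filter (fun x => decide (x ∈ K)) := by
  rw [flt_eq, List.filter_filter]
  refine List.filter_congr fun x hx => ?_
  by_cases hxK : x ∈ K
  · rw [h x hxK hx]; simp [hxK]
  · simp [hxK]

theorem quota_mapf {K : Finset ℕ} {m : ℕ} {cs : List (ℕ × List ℕ)}
    (h : ∀ x ∈ K, x ∈ flat cs → m.testBit x = false) (hq : Quota K cs) :
    Quota K (mapf m cs) := by
  intro q hq'
  obtain ⟨p, hp, rfl⟩ := mem_mapf.1 hq'
  simp only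
  rw [filter_flt (fun x hx hxl => h x hx (mem_flat.2 ⟨p, hp, hxl⟩))]
  exact hq p hp

theorem feas_of_quota {K : Finset ℕ} {cs : List (ℕ × List ℕ)} (hq : Quota K cs) :
    feas cs = true := by
  induction cs with
  | nil => rfl
  | cons a cs ih =>
    obtain ⟨k, l⟩ := a
    have h1 : (l.filter (fun x => decide (x ∈ K))).length = k := hq (k, l) (by simp)
    have h2 : long k l = true := by
      rw [long_iff, ← h1]
      exact List.length_filter_le _ _
    simp only [feas, h2]
    exact ih (fun p hp => hq p (List.mem_cons_of_mem _ hp))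

theorem dfsc_sound (T : ℕ → ℕ → ℕ) (leaf : List ℕ → Bool) (K : Finset ℕ)
    (hK : ∀ a ∈ K, ∀ b ∈ K, T a b ∈ K → a = b) :
    ∀ (n : ℕ) (cs : List (ℕ × List ℕ)) (C : List ℕ), dfsc T leaf n cs C = true →
      (flat cs).Nodup → C.Nodup → (∀ c ∈ C, c ∈ K) → (∀ x ∈ K, x ∉ C → x ∈ flat cs) →
      (∀ x ∈ flat cs, x ∉ C) → Quota K cs →
      ∃ L, leaf L = true ∧ L.Nodup ∧ L.toFinset = K := by
  intro n
  induction n with
  | zero => intro cs C h; simp [dfsc] at h
  | succ n ih =>
    intro cs C hd hnd hC hCK hKC hdisj hq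
    match cs, hd, hnd, hKC, hdisj, hq with
    | [], hd, _, hKC, _, _ =>
      refine ⟨C, by simpa [dfsc] using hd, hC, ?_⟩
      ext x
      rw [List.mem_toFinset]
      constructor
      · exact hCK x
      · intro hx
        by_contra hxC
        exact absurd (hKC x hx hxC) (by simp [flat])
    | (0, l) :: cs, hd, hnd, hKC, hdisj, hq =>
      have hd' : dfsc T leaf n cs C = true := by simpa [dfsc] using hd
      have hl : ∀ x ∈ l, x ∉ K := by
        intro x hx hxK
        have h1 := hq (0, l) (by simp)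
        simp only [List.length_eq_zero_iff, List.filter_eq_nil_iff, decide_eq_true_eq] at h1
        exact h1 x hx hxK
      simp only [flat] at hnd hKC hdisj
      refine ih cs C hd' (List.nodup_append.1 hnd).2.1 hC hCK ?_ ?_ ?_
      · intro x hx hxC
        rcases List.mem_append.1 (hKC x hx hxC) with h | h
        · exact absurd hx (hl x h)
        · exact h
      · intro x hx; exact hdisj x (List.mem_append_right _ hx)
      · exact fun p hp => hq p (List.mem_cons_of_mem _ hp)
    | (t + 1, []) :: cs, hd, hnd, hKC, hdisj, hq =>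
      have h1 := hq (t + 1, []) (by simp)
      simp at h1
    | (t + 1, p :: l) :: cs, hd, hnd, hKC, hdisj, hq =>
      have hq1 : ((p :: l).filter (fun x => decide (x ∈ K))).length = t + 1 :=
        hq (t + 1, p :: l) (by simp)
      have hqcs : Quota K cs := fun p hp => hq p (List.mem_cons_of_mem _ hp)
      have hlong : long t l = true := by
        rw [long_iff]
        have := List.length_filter_le (fun x => decide (x ∈ K)) (p :: l)
        rw [hq1, List.length_cons] at this
        omega
      simp only [dfsc, hlong, Bool.and_eq_true] at hd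
      obtain ⟨hd2, hd3⟩ := hd
      simp only [flat, List.cons_append, List.nodup_cons] at hnd
      simp only [flat, List.cons_append] at hKC hdisj
      by_cases hp : p ∈ K
      · have hpC : p ∉ C := hdisj p (by simp)
        have hforb : ∀ x ∈ K, x ∈ flat ((t, l) :: cs) → (forb T p C).testBit x = false := by
          intro x hx _
          rw [← Bool.not_eq_true, testBit_forb]
          rintro ⟨c, hc, rfl⟩
          have : p = c := hK p hp c (hCK c hc) hx
          rw [this] at hpC
          exact hpC hc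
        have hq2 : Quota K ((t, l) :: cs) := by
          intro q hq'
          rcases List.mem_cons.1 hq' with rfl | hq'
          · rw [List.filter_cons_of_pos (by simp [hp])] at hq1
            simpa using hq1
          · exact hqcs q hq'
        have hq3 := quota_mapf hforb hq2
        rw [feas_of_quota hq3] at hd2
        have hd4 : dfsc T leaf n (mapf (forb T p C) ((t, l) :: cs)) (p :: C) = true := hd2
        refine ih _ _ hd4 ?_ ?_ ?_ ?_ ?_ hq3
        · exact (hnd.2).sublist (flat_mapf_sublist _ _)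
        · exact List.nodup_cons.2 ⟨hpC, hC⟩
        · intro c hc
          rcases List.mem_cons.1 hc with rfl | hc
          · exact hp
          · exact hCK c hc
        · intro x hx hxC
          rw [List.mem_cons, not_or] at hxC
          have h1 : x ∈ flat ((t, l) :: cs) := by
            rcases List.mem_cons.1 (hKC x hx hxC.2) with h | h
            · exact absurd h hxC.1
            · exact h
          exact mem_flat_mapf h1 (hforb x hx h1)
        · intro x hx
          have h1 : x ∈ flat ((t, l) :: cs) := (flat_mapf_sublist _ _).subset hx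
          rw [List.mem_cons, not_or]
          refine ⟨?_, hdisj x (List.mem_cons_of_mem _ h1)⟩
          rintro rfl
          exact hnd.1 h1
      · refine ih _ _ hd3 hnd.2 hC hCK ?_ ?_ ?_
        · intro x hx hxC
          rcases List.mem_cons.1 (hKC x hx hxC) with h | h
          · rw [h] at hx; exact absurd hx hp
          · exact h
        · intro x hx
          exact hdisj x (List.mem_cons_of_mem _ hx)
        · intro q hq'
          rcases List.mem_cons.1 hq' with rfl | hq'
          · rw [List.filter_cons_of_neg (by simp [hp])] at hq1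
            exact hq1
          · exact hqcs q hq'

theorem testBit_forb2 {T : ℕ → ℕ → ℕ} {C : List ℕ} {x : ℕ} (h : (forb2 T C).testBit x = true) :
    ∃ a ∈ C, ∃ b ∈ C, T a b = x ∧ (C.Nodup → a ≠ b) := by
  induction C with
  | nil => simp [forb2] at h
  | cons c C ih =>
    have h1 : forb2 T (c :: C) = forb T c C ||| forb2 T C := rfl
    rw [h1, Nat.testBit_or, Bool.or_eq_true, testBit_forb] at h
    rcases h with ⟨b, hb, hx⟩ | h
    · refine ⟨c, by simp, b, List.mem_cons_of_mem _ hb, hx, ?_⟩
      rintro hnd rfl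
      exact (List.nodup_cons.1 hnd).1 hb
    · obtain ⟨a, ha, b, hb, hx, hne⟩ := ih h
      exact ⟨a, List.mem_cons_of_mem _ ha, b, List.mem_cons_of_mem _ hb, hx,
        fun hnd => hne (List.nodup_cons.1 hnd).2⟩

theorem forb2_false {T : ℕ → ℕ → ℕ} {K : Finset ℕ}
    (hK : ∀ a ∈ K, ∀ b ∈ K, T a b ∈ K → a = b) {C : List ℕ} (hC : C.Nodup)
    (hCK : ∀ c ∈ C, c ∈ K) {x : ℕ} (hx : x ∈ K) : (forb2 T C).testBit x = false := by
  rw [← Bool.not_eq_true]
  intro h
  obtain ⟨a, ha, b, hb, rfl, hne⟩ := testBit_forb2 h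
  exact hne hC (hK a (hCK a ha) b (hCK b hb) hx)

/-! ### the functions on codes -/

theorem thr_split (r a b : ℕ) :
    thr (r + 3) a b = thr 3 (a % 27) (b % 27) + 27 * thr r (a / 27) (b / 27) := by
  have e : ∀ n : ℕ, n / 3 / 3 / 3 = n / 27 := by intro n; omega
  have e1 : ∀ n : ℕ, n % 27 % 3 = n % 3 := by intro n; omega
  have e2 : ∀ n : ℕ, n % 27 / 3 % 3 = n / 3 % 3 := by intro n; omega
  have e3 : ∀ n : ℕ, n % 27 / 3 / 3 % 3 = n / 3 / 3 % 3 := by intro n; omega
  simp only [thr, e, e1, e2, e3]
  ring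

theorem T5_eq {a b : ℕ} (ha : a < 243) (hb : b < 243) : T5 a b = thr 5 a b := by
  have h : ∀ a < 9, ∀ b < 9, Nat.land (Nat.shiftRight tab2 (Nat.mul 4 (Nat.add (Nat.mul 9 a) b)))
      15 = thr 2 a b := by decide +kernel
  have h1 := h (a / 27) (by omega) (b / 27) (by omega)
  have h2 := tt_eq (Nat.mod_lt a (show 0 < 27 by norm_num)) (Nat.mod_lt b (show 0 < 27 by norm_num))
  rw [thr_split 2 a b, ← h1, ← h2]
  rfl

theorem T4_eq {a b : ℕ} (ha : a < 81) (hb : b < 81) : T4 a b = thr 4 a b := by
  unfold T4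
  rw [T5_eq (by omega) (by omega), thr_split 2, thr_split 1]
  have : a / 27 < 3 := by omega
  have : b / 27 < 3 := by omega
  have e : thr 2 (a / 27) (b / 27) = thr 1 (a / 27) (b / 27) := by
    simp only [thr]
    omega
  rw [e]

theorem codes_cap5 {K : Finset (Fin 5 → ZMod 3)} (hK : IsCap K) :
    ∀ a ∈ codes K, ∀ b ∈ codes K, T5 a b ∈ codes K → a = b := by
  intro a ha b hb h
  rw [T5_eq (codes_lt ha) (codes_lt hb)] at h
  exact codes_cap hK a ha b hb h

theorem codes_cap4 {K : Finset (Fin 4 → ZMod 3)} (hK : IsCap K) :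
    ∀ a ∈ codes K, ∀ b ∈ codes K, T4 a b ∈ codes K → a = b := by
  intro a ha b hb h
  rw [T4_eq (codes_lt ha) (codes_lt hb)] at h
  exact codes_cap hK a ha b hb h

end Pool.Agent.T2H98.EGZ.Tight
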