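import Pool.Agent.T2H98.EGZ.TightE

/-!
# Package B4, part F: certificates in dimension `r`, classes on codes
-/

set_option autoImplicit false

namespace Pool.Agent.T2H98.EGZ.Tight

open Finset

/-! ### affine maps on codes -/

/-- sum of codes -/
def addr (r a b : ℕ) : ℕ := thr r (thr r a b) 0

/-- multiple of a code by a digit -/
def smr (r s c : ℕ) : ℕ :=
  match s with
  | 0 => 0
  | 1 => c
  | _ => thr r c 0

/-- affine map with constant `b` and the given columns -/
def apr (r b : ℕ) : List ℕ → ℕ → ℕ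
  | [], _ => b
  | c :: cs, x => addr r (apr r b cs (x / 3)) (smr r (x % 3) c)

theorem pt_z (r : ℕ) : pt r 0 = 0 := by
  funext k; simp [pt]

theorem pt_addr (r a b : ℕ) : pt r (addr r a b) = pt r a + pt r b := by
  unfold addr
  rw [pt_thr, pt_thr, pt_z, add_zero, neg_neg]

theorem pt_smr (r : ℕ) {s : ℕ} (hs : s < 3) (c : ℕ) :
    pt r (smr r s c) = ((s : ℕ) : ZMod 3) • pt r c := by
  interval_cases s
  · simp [smr, pt_z]
  · simp [smr]
  · show pt r (thr r c 0) = _
    rw [pt_thr, pt_z, add_zero]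
    have : ((2 : ℕ) : ZMod 3) = -1 := by decide
    rw [this, neg_one_smul]

theorem pt_apr (r b : ℕ) (cs : List ℕ) (x : ℕ) :
    pt r (apr r b cs x) =
      ∑ j ∈ Finset.range cs.length, ((x / 3 ^ j : ℕ) : ZMod 3) • pt r (cs.getD j 0) + pt r b := by
  induction cs generalizing x with
  | nil => simp [apr]
  | cons c cs ih =>
    rw [apr, pt_addr, ih, pt_smr r (Nat.mod_lt _ (by norm_num)), List.length_cons,
      Finset.sum_range_succ']
    simp only [List.getD_cons_zero, List.getD_cons_succ, pow_zero, Nat.div_one]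
    have e : ∀ j : ℕ, x / 3 / 3 ^ j = x / 3 ^ (j + 1) := by
      intro j
      rw [Nat.div_div_eq_div_mul, pow_succ']
    simp only [e]
    rw [ZMod.natCast_mod]
    abel

/-- matrix with the given columns -/
def colR (r : ℕ) (cs : List ℕ) : Matrix (Fin r) (Fin r) (ZMod 3) :=
  Matrix.of fun i j => pt r (cs.getD j 0) i

theorem colR_mulVec (r : ℕ) (cs : List ℕ) (v : Fin r → ZMod 3) :
    (colR r cs).mulVec v = ∑ j, v j • pt r (cs.getD j 0) := by
  funext i
  rw [Finset.sum_apply]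
  show ∑ j : Fin r, pt r (cs.getD (j : ℕ) 0) i * v j = _
  refine Finset.sum_congr rfl fun j _ => ?_
  rw [Pi.smul_apply, smul_eq_mul, mul_comm]

theorem apr_spec {r : ℕ} (b : ℕ) {cs : List ℕ} (hcs : cs.length = r) (x : ℕ) :
    pt r (apr r b cs x) = (colR r cs).mulVec (pt r x) + pt r b := by
  rw [pt_apr, colR_mulVec, hcs, Finset.sum_range]
  rfl

/-- check of a certificate; `S` is the list of codes of the source -/
def okR (r : ℕ) (S : ℕ → List ℕ) (e : CertR) : Bool :=
  (Nat.beq e.cs.length r).and ((Nat.beq (mask ((S e.typ).map (apr r e.b e.cs))) e.m).and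
    ((List.range r).all fun j => Nat.beq (apr r 0 e.cs (e.ds.getD j 0)) (3 ^ j)))

theorem okR_affEq {r : ℕ} (hu : ∀ j : Fin r, pt r (3 ^ (j : ℕ)) = Pi.single j 1)
    {S : ℕ → List ℕ} {e : CertR} (h : okR r S e = true) {L : List ℕ} (hm : mask L = e.m)
    {K : Finset (Fin r → ZMod 3)} (hK : L.toFinset = codes K) : AffEq (ofL r (S e.typ)) K := by
  classical
  unfold okR at h
  simp only [Bool.and_eq_true, Nat.beq_eq, List.all_eq_true, List.mem_range] at h
  obtain ⟨hlen, hmask, hinv⟩ := h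
  have h1 : colR r e.cs * colR r e.ds = 1 := by
    ext i j
    have h2 := apr_spec 0 hlen (e.ds.getD j 0)
    rw [hinv j j.2, hu, pt_z, add_zero] at h2
    have h3 : (colR r e.cs * colR r e.ds) i j =
        (colR r e.cs).mulVec (pt r (e.ds.getD j 0)) i := by
      rw [Matrix.mul_apply]
      rfl
    rw [h3, ← h2, Matrix.one_apply, Pi.single_apply]
  have h1' := mul_eq_one_comm.1 h1
  refine ⟨colR r e.cs, colR r e.ds, pt r e.b, h1, h1', ?_⟩
  have h3 : ((S e.typ).map (apr r e.b e.cs)).toFinset = codes K := by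
    rw [← hK]
    exact toFinset_eq_of_mask (hmask.trans hm.symm)
  rw [eq_ofL h3]
  ext x
  unfold ofL
  simp only [List.mem_toFinset, List.mem_map, Finset.mem_image]
  constructor
  · rintro ⟨a, ⟨c, hc, rfl⟩, rfl⟩
    exact ⟨pt r c, ⟨c, hc, rfl⟩, (apr_spec e.b hlen c).symm⟩
  · rintro ⟨y, ⟨c, hc, rfl⟩, rfl⟩
    exact ⟨_, ⟨c, hc, rfl⟩, apr_spec e.b hlen c⟩

theorem unit4 : ∀ j : Fin 4, pt 4 (3 ^ (j : ℕ)) = Pi.single j 1 := by decide

theorem unit5 : ∀ j : Fin 5, pt 5 (3 ^ (j : ℕ)) = Pi.single j 1 := by decide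

theorem inTabR_iff {tb : List CertR} {L : List ℕ} (h : inTabR tb L = true) :
    ∃ e ∈ tb, mask L = e.m := by
  unfold inTabR at h
  rw [List.any_eq_true] at h
  obtain ⟨e, he, hm⟩ := h
  exact ⟨e, he, (Nat.eq_of_beq_eq_true hm).symm⟩

theorem tabK_ok : tabK.all (okR 4 KS) = true := by decide +kernel

theorem tabD_ok : tabD.all (okR 5 fun _ => codes45) = true := by decide +kernel

/-! ### classes on codes -/

theorem cnt_eq (m : ℕ) (L : List ℕ) : cnt m L = (L.filter fun x => m.testBit x).length := by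
  induction L with
  | nil => rfl
  | cons a L ih =>
    rw [cnt, List.filter_cons, bit0_iff]
    cases m.testBit a
    · simpa using ih
    · simpa using ih

/-- number of points with bit in the mask -/
theorem cnt_nn {K : Finset (Fin 4 → ZMod 3)} {L : List ℕ} (hL : L.Nodup)
    (hK : L.toFinset = codes K) {m : ℕ} {ξ : Fin 4 → ZMod 3} {j : ZMod 3}
    (hm : ∀ x < 81, m.testBit x = decide (dotProduct ξ (pt 4 x) = j)) :
    cnt m L = nn K ξ j := by
  classical
  rw [cnt_eq, nn, ← List.toFinset_card_of_nodup (hL.filter _),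
    ← Finset.card_image_of_injective (K.filter _) (code_injective 4)]
  congr 1
  ext x
  rw [List.mem_toFinset, List.mem_filter, Finset.mem_image, ← List.mem_toFinset, hK]
  constructor
  · rintro ⟨hx, hb⟩
    obtain ⟨y, hy, rfl⟩ := Finset.mem_image.1 hx
    refine ⟨y, Finset.mem_filter.2 ⟨hy, ?_⟩, rfl⟩
    rw [hm _ (codes_lt hx), pt_code] at hb
    simpa using hb
  · rintro ⟨y, hy, rfl⟩
    rw [Finset.mem_filter] at hy
    have hx : code 4 y ∈ codes K := mem_codes.2 hy.1
    refine ⟨hx, ?_⟩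
    rw [hm _ (codes_lt hx), pt_code]
    simpa using hy.2

/-- check of the direction table -/
theorem dirs_ok : ∀ d ∈ dirs, pt 4 d.c ≠ 0 ∧
    (∀ x < 81, d.m0.testBit x = decide (dotProduct (pt 4 d.c) (pt 4 x) = 0)) ∧
    (∀ x < 81, d.m1.testBit x = decide (dotProduct (pt 4 d.c) (pt 4 x) = 1)) := by
  decide +kernel

theorem Wb_of_W {a b c : ℕ} (h : W a b c) : Wb a b = true := by
  rcases h with ⟨rfl, rfl, rfl⟩ | ⟨rfl, rfl, rfl⟩ | ⟨rfl, rfl, rfl⟩ | ⟨rfl, rfl, rfl⟩ |
    ⟨rfl, rfl, rfl⟩ | ⟨rfl, rfl, rfl⟩ | ⟨rfl, rfl, rfl⟩ | ⟨rfl, rfl, rfl⟩ |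
    ⟨rfl, rfl, rfl⟩ | ⟨rfl, rfl, rfl⟩ <;> decide

theorem badDir_false {K : Finset (Fin 4 → ZMod 3)} (hTK : TK K) {L : List ℕ} (hL : L.Nodup)
    (hK : L.toFinset = codes K) : badDir L = false := by
  rw [← Bool.not_eq_true]
  intro h
  unfold badDir at h
  rw [List.any_eq_true] at h
  obtain ⟨d, hd, hb⟩ := h
  obtain ⟨h0, h1, h2⟩ := dirs_ok d hd
  rw [cnt_nn hL hK h1, cnt_nn hL hK h2, Wb_of_W (hTK.cls _ h0)] at hb
  exact absurd hb (by decide)

end Pool.Agent.T2H98.EGZ.Tight
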