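import Pool.Agent.T2H98.EGZ.TightF
import Pool.Agent.T2H98.EGZ.Caps3

/-!
# Package B4, part G: the tight 18-caps
-/

set_option autoImplicit false

namespace Pool.Agent.T2H98.EGZ.Tight

open Finset

variable {r : ℕ}

theorem code_sn (r : ℕ) (y : Fin r → ZMod 3) (i : ZMod 3) :
    code (r + 1) (sn y i) = code r y + 3 ^ r * i.val := by
  induction r with
  | zero =>
    have : sn y i 0 = i := sn_last y i
    simp [code, this]
  | succ r ih =>
    have h0 : sn y i 0 = y 0 := sn_castSucc y i 0
    have h1 : (fun k : Fin (r + 1) => sn y i k.succ) = sn (fun k => y k.succ) i := by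
      funext k
      refine Fin.lastCases ?_ (fun l => ?_) k
      · rw [Fin.succ_last, sn_last, sn_last]
      · rw [Fin.succ_castSucc, sn_castSucc, sn_castSucc]
    rw [code, h0, h1, ih, code, pow_succ]
    ring

theorem mem_codes_sn {K : Finset (Fin (r + 1) → ZMod 3)} {y : Fin r → ZMod 3} {i : ZMod 3} :
    code r y + 3 ^ r * i.val ∈ codes K ↔ y ∈ sec K i := by
  rw [← code_sn, mem_codes, mem_sec]

theorem exists_of_mem_codes {K : Finset (Fin (r + 1) → ZMod 3)} {x : ℕ} (hx : x ∈ codes K) :
    ∃ (y : Fin r → ZMod 3) (i : ZMod 3), y ∈ sec K i ∧ x = code r y + 3 ^ r * i.val := by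
  obtain ⟨z, hz, rfl⟩ := Finset.mem_image.1 hx
  refine ⟨fun k => z k.castSucc, z (Fin.last r), ?_, ?_⟩
  · rw [mem_sec, sn_eta]; exact hz
  · rw [← code_sn, sn_eta]

theorem mem_seg {a n x : ℕ} : x ∈ seg a n ↔ a ≤ x ∧ x < a + n := by
  induction n generalizing a with
  | zero => simp only [seg, List.not_mem_nil, false_iff]; omega
  | succ n ih => simp only [seg, List.mem_cons, ih]; omega

theorem nodup_seg (a n : ℕ) : (seg a n).Nodup := by
  induction n generalizing a with
  | zero => simp [seg]
  | succ n ih =>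
    rw [seg, List.nodup_cons, mem_seg]
    exact ⟨by omega, ih _⟩

theorem mem_addl {k x : ℕ} {l : List ℕ} : x ∈ addl k l ↔ ∃ y ∈ l, x = k + y := by
  induction l with
  | nil => simp [addl]
  | cons a l ih => simp [addl, ih]

theorem length_addl (k : ℕ) (l : List ℕ) : (addl k l).length = l.length := by
  induction l with
  | nil => rfl
  | cons a l ih => simp [addl, ih]

theorem length_seg (a n : ℕ) : (seg a n).length = n := by
  induction n generalizing a with
  | zero => rfl
  | succ n ih => simp [seg, ih]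

theorem code_zero (r : ℕ) : code r 0 = 0 := by
  have := code_pt r 0 (by positivity)
  rwa [pt_z] at this

theorem K_class {K : Finset (Fin 4 → ZMod 3)} (hK : TK K) {E : List ℕ}
    (hcheck : (seg 1 26).all (checkK E) = true) (hnd : ∀ p ∈ seg 1 26, (startK E p).Nodup)
    (hE27 : ∀ e ∈ E, e < 27) (hlen : E.length = 8) (h1 : sec K 1 = ofL 3 E)
    (h0 : (0 : Fin 3 → ZMod 3) ∈ sec K 0) (c0 : (sec K 0).card = 2) :
    AffEq (ofL 4 (KS 0)) K ∨ AffEq (ofL 4 (KS 1)) K := by
  classical
  have hcap := codes_cap4 hK.cap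
  -- the second point of level 0
  obtain ⟨q, hq⟩ : ∃ q, (sec K 0).erase 0 = {q} := by
    rw [← Finset.card_eq_one, Finset.card_erase_of_mem h0, c0]
  have hq0 : sec K 0 = {0, q} := by
    rw [← Finset.insert_erase h0, hq]
  have hqne : q ≠ 0 := by
    have : q ∈ (sec K 0).erase 0 := by rw [hq]; simp
    exact Finset.ne_of_mem_erase this
  have hp : code 3 q ∈ seg 1 26 := by
    rw [mem_seg]
    have h3 := code_lt 3 q
    have h4 : code 3 q ≠ 0 := by
      intro h
      apply hqne
      apply code_injective 3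
      rw [h, code_zero]
    norm_num at h3 ⊢
    omega
  have hv0 : (0 : ZMod 3).val = 0 := rfl
  have hv1 : (1 : ZMod 3).val = 1 := rfl
  have hv2 : (2 : ZMod 3).val = 2 := rfl
  have hCK : ∀ c ∈ startK E (code 3 q), c ∈ codes K := by
    intro c hc
    simp only [startK, List.mem_cons, mem_addl] at hc
    rcases hc with rfl | rfl | ⟨e, he, rfl⟩
    · have := (mem_codes_sn (K := K) (y := (0 : Fin 3 → ZMod 3)) (i := 0)).2 h0
      rwa [code_zero, hv0, mul_zero, add_zero] at this
    · have := (mem_codes_sn (K := K) (y := q) (i := 0)).2 (by rw [hq0]; simp)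
      rwa [hv0, mul_zero, add_zero] at this
    · have h5 : pt 3 e ∈ sec K 1 := by
        rw [h1]
        unfold ofL
        rw [List.mem_toFinset]
        exact List.mem_map_of_mem he
      have := (mem_codes_sn (K := K) (i := 1)).2 h5
      rw [hv1, code_pt 3 e (hE27 e he)] at this
      have e2 : 27 + e = e + 3 ^ 3 * 1 := by ring
      rw [e2]; exact this
  have hKC : ∀ x ∈ codes K, x ∉ startK E (code 3 q) → x ∈ restK E (code 3 q) := by
    intro x hx hxC
    obtain ⟨y, i, hy, rfl⟩ := exists_of_mem_codes hx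
    rcases z3 i with rfl | rfl | rfl
    · exfalso
      apply hxC
      rw [hq0, Finset.mem_insert, Finset.mem_singleton] at hy
      rw [hv0, mul_zero, add_zero]
      rcases hy with rfl | rfl
      · rw [code_zero]; simp [startK]
      · simp [startK]
    · exfalso
      apply hxC
      rw [h1] at hy
      unfold ofL at hy
      rw [List.mem_toFinset, List.mem_map] at hy
      obtain ⟨e, he, rfl⟩ := hy
      simp only [startK, List.mem_cons, mem_addl]
      right; right
      refine ⟨e, he, ?_⟩
      rw [hv1, code_pt 3 e (hE27 e he)]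
      ring
    · unfold restK
      rw [flt_eq, List.mem_filter, forb2_false hcap (hnd _ hp) hCK hx]
      refine ⟨?_, rfl⟩
      rw [mem_seg, hv2]
      have h3 := code_lt 3 y
      norm_num at h3 ⊢
      omega
  have hrest : ∀ x ∈ restK E (code 3 q), 54 ≤ x := by
    intro x hx
    unfold restK at hx
    rw [flt_eq, List.mem_filter, mem_seg] at hx
    exact hx.1.1
  obtain ⟨L, hL, hLn, hLK⟩ := dfs_sound T4 leafK (codes K) hcap 27 (restK E (code 3 q))
    (startK E (code 3 q)) 8 (List.all_eq_true.1 hcheck _ hp) (by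
      unfold restK
      rw [flt_eq]
      refine (List.length_filter_le _ _).trans ?_
      rw [length_seg]) (by
      unfold restK
      rw [flt_eq]
      exact (nodup_seg _ _).filter _) (hnd _ hp) hCK hKC (by
      intro x hx hxC
      have h6 := hrest x hx
      simp only [startK, List.mem_cons, mem_addl] at hxC
      rcases hxC with rfl | rfl | ⟨e, he, rfl⟩
      · omega
      · have := (mem_seg.1 hp).2
        omega
      · have := hE27 e he
        omega) (by
      rw [codes_card, hK.card]
      simp only [startK, List.length_cons, length_addl, hlen])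
  unfold leafK at hL
  rw [badDir_false hK hLn hLK, Bool.false_or] at hL
  obtain ⟨e, he, hm⟩ := inTabR_iff hL
  have h7 := okR_affEq unit4 (List.all_eq_true.1 tabK_ok e he) hm hLK
  cases ht : e.typ with
  | zero => rw [ht] at h7; exact Or.inl h7
  | succ n => rw [ht] at h7; exact Or.inr h7

theorem kcheck1 : (seg 1 26).all (checkK (E3 1)) = true := by decide +kernel

theorem kcheck2 : (seg 1 26).all (checkK (E3 2)) = true := by decide +kernel

theorem kcheck3 : (seg 1 26).all (checkK (E3 3)) = true := by decide +kernel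

/-- **Every tight 18-cap is one of two.** -/
theorem tight18 {K : Finset (Fin 4 → ZMod 3)} (hK : TK K) :
    AffEq (ofL 4 (KS 0)) K ∨ AffEq (ofL 4 (KS 1)) K := by
  classical
  obtain ⟨η, hη, σ, s0, s1, s2⟩ := hK.exists_882
  obtain ⟨K', hKK', hlev⟩ := normalise K hη ((Equiv.swap 0 2).trans σ)
  have hK' := hK.aff hKK'
  have hc : ∀ j, (sec K' j).card = nn K η (((Equiv.swap 0 2).trans σ) j) := fun j => by
    rw [sec_card, hlev]
  have c0 : (sec K' 0).card = 2 := by
    rw [hc, Equiv.trans_apply, Equiv.swap_apply_left, s2]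
  have c1 : (sec K' 1).card = 8 := by
    rw [hc, Equiv.trans_apply, Equiv.swap_apply_of_ne_of_ne (by decide) (by decide), s1]
  obtain ⟨p, hp⟩ : (sec K' 0).Nonempty := by rw [← Finset.card_pos, c0]; norm_num
  have key : ∀ i : ℕ, AffEq (ofL 3 (E3 i)) (sec K' 1) →
      (seg 1 26).all (checkK (E3 i)) = true → (∀ p ∈ seg 1 26, (startK (E3 i) p).Nodup) →
      (∀ e ∈ E3 i, e < 27) → (E3 i).length = 8 →
      AffEq (ofL 4 (KS 0)) K ∨ AffEq (ofL 4 (KS 1)) K := by
    intro i hi hch hnd h27 hlen
    obtain ⟨K'', hKK'', hs1, hs0, hcard⟩ := lift_level (K := K') (j := 1) (by decide) hi.symm hp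
    rcases K_class (hK'.aff hKK'') hch hnd h27 hlen hs1 hs0 (by rw [hcard, c0]) with h | h
    · exact Or.inl (h.trans (hKK'.trans hKK'').symm)
    · exact Or.inr (h.trans (hKK'.trans hKK'').symm)
  rcases caps8 (sec_cap hK'.cap 1) c1 with h | h | h
  · exact key 1 h kcheck1 (by decide) (by decide) (by decide)
  · exact key 2 h kcheck2 (by decide) (by decide) (by decide)
  · exact key 3 h kcheck3 (by decide) (by decide) (by decide)

end Pool.Agent.T2H98.EGZ.Tight
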